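import Pool.Agent.Lib.P62h.GmD

/-!
# Module P62h.GCon: rational functions with many constant values

`grat`. Choose `2 e + 1` elements `a_i` of `A`, with `(s_i, t_i) ∈ F^2`, not both zero, and
`U(a_i) t_i = V(a_i) s_i`. The homogeneous system `U0(a_i) t_i = V0(a_i) s_i` (`i = 0, …, 2e`) for
polynomials `U0, V0 ∈ F[X]` of degree `≤ e` has `2 e + 1` equations and `2 e + 2` unknowns, so it
has a nonzero solution over `F` (`Matrix.exists_mulVec_eq_zero_iff` for the square matrix with one row
repeated, or `LinearMap.exists_ne_zero_of_...`, `Module.exists_ne_zero_...finrank_lt`). Then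
`U * V0 - V * U0 ∈ K[X]` has degree `≤ 2 e` and the `2 e + 1` distinct roots `a_i` (both
`(U(a), V(a))` and `(U0(a), V0(a))` are proportional to `(s, t)`), so it is `0`. `U, V`
coprime: `U0 = U W`, `V0 = V W` with `W ∈ K[X]`, `W ≠ 0`; the one of degree `e` gives `deg W = 0`:
`W = C l'`, `l' ≠ 0`, and `l = l'⁻¹`.

`gconst`. `P` has more than `m (2e + 1) + 1` points, all finite ones in `F`, so at least
`m (2e+1) + 1` points `c ∈ F` and at least `2 e + 1` distinct values `a = c ^ m ∈ F` (each value
has at most `m` roots, `card_nthRoots`, `Finset.card_le_mul_card_image`; compare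
`P62g/ConstPts.lean`). For such `a`, the image `toP1 (U(a)) (V(a))` lies in `P`, so it is `∞`
(`V(a) = 0`: `(s, t) = (1, 0)`) or a point `s` of `F` (`U(a) = s V(a)`: `(s, 1)`). Apply `grat`.
-/

namespace Pool.Agent.Lib.P62h

open Polynomial Pool.Agent.Lib.P62a0c3

theorem grat {F K : Type*} [Field F] [Field K] [Algebra F K] {e : ℕ} {U V : K[X]}
    (hcop : IsCoprime U V) (hdeg : max U.natDegree V.natDegree = e) (A : Finset F)
    (hA : 2 * e + 1 ≤ A.card)
    (h : ∀ a ∈ A, ∃ s t : F, (s ≠ 0 ∨ t ≠ 0) ∧ U.eval (algebraMap F K a) * algebraMap F K t =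
      V.eval (algebraMap F K a) * algebraMap F K s) :
    ∃ (l : K) (U0 V0 : F[X]), l ≠ 0 ∧ U = C l * U0.map (algebraMap F K) ∧
      V = C l * V0.map (algebraMap F K) := by
  classical
  set φ := algebraMap F K with hφ
  have hinj : Function.Injective φ := FaithfulSMul.algebraMap_injective _ _
  obtain ⟨T, hTA, hTcard⟩ := Finset.exists_subset_card_eq hA
  choose! s t hst heq using h
  -- the linear system
  let D := degreeLT F (e + 1)
  let L : (D × D) →ₗ[F] (T → F) := LinearMap.pi fun a =>
    ((t a) • ((leval (a : F)).comp D.subtype)).comp (LinearMap.fst F D D) -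
      ((s a) • ((leval (a : F)).comp D.subtype)).comp (LinearMap.snd F D D)
  have : Module.Finite F D := Module.Finite.equiv (degreeLTEquiv F (e + 1)).symm
  have hfr : Module.finrank F D = e + 1 := by
    rw [(degreeLTEquiv F (e + 1)).finrank_eq, Module.finrank_fin_fun]
  have hker : LinearMap.ker L ≠ ⊥ := by
    apply LinearMap.ker_ne_bot_of_finrank_lt
    rw [Module.finrank_prod, hfr, Module.finrank_fintype_fun_eq_card, Fintype.card_coe, hTcard]
    omega
  obtain ⟨⟨p, q⟩, hmem, hne⟩ := Submodule.exists_mem_ne_zero_of_ne_bot hker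
  have hsys : ∀ a ∈ T, t a * (p : F[X]).eval a = s a * (q : F[X]).eval a := by
    intro a ha
    have h1 := congrFun (LinearMap.mem_ker.1 hmem) ⟨a, ha⟩
    simp only [L, LinearMap.pi_apply, LinearMap.sub_apply, LinearMap.comp_apply,
      LinearMap.smul_apply, LinearMap.fst_apply, LinearMap.snd_apply, Submodule.subtype_apply,
      Pi.zero_apply, smul_eq_mul] at h1
    exact sub_eq_zero.1 h1
  set U0 : F[X] := (p : F[X]) with hU0
  set V0 : F[X] := (q : F[X]) with hV0
  have hU0deg : U0.natDegree ≤ e := by
    have h1 : U0.degree < ((e + 1 : ℕ) : WithBot ℕ) := mem_degreeLT.1 p.2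
    by_cases h0 : U0 = 0
    · rw [h0]; simp
    · have := (natDegree_lt_iff_degree_lt h0).2 h1
      omega
  have hV0deg : V0.natDegree ≤ e := by
    have h1 : V0.degree < ((e + 1 : ℕ) : WithBot ℕ) := mem_degreeLT.1 q.2
    by_cases h0 : V0 = 0
    · rw [h0]; simp
    · have := (natDegree_lt_iff_degree_lt h0).2 h1
      omega
  have hUdeg : U.natDegree ≤ e := hdeg ▸ le_max_left _ _
  have hVdeg : V.natDegree ≤ e := hdeg ▸ le_max_right _ _
  have hnz : U0 ≠ 0 ∨ V0 ≠ 0 := by
    by_contra hcon
    push Not at hcon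
    apply hne
    have h1 : p = 0 := Subtype.ext hcon.1
    have h2 : q = 0 := Subtype.ext hcon.2
    rw [h1, h2]; rfl
  -- the cross product vanishes
  have hcross : U * V0.map φ - V * U0.map φ = 0 := by
    apply eq_zero_of_natDegree_lt_card_of_eval_eq_zero' _ (T.image φ)
    · intro x hx
      obtain ⟨a, ha, rfl⟩ := Finset.mem_image.1 hx
      rw [eval_sub, eval_mul, eval_mul, eval_map, eval_map, eval₂_at_apply, eval₂_at_apply]
      have e1 := heq a (hTA ha)
      have e2 : φ (t a) * φ (U0.eval a) = φ (s a) * φ (V0.eval a) := by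
        rw [← map_mul, ← map_mul, hsys a ha]
      rcases hst a (hTA ha) with h0 | h0
      · have h0' : φ (s a) ≠ 0 := by
          rw [Ne, map_eq_zero]; exact h0
        apply (mul_eq_zero.1 _).resolve_left h0'
        linear_combination (-(eval (φ a) U)) * e2 + (φ (U0.eval a)) * e1
      · have h0' : φ (t a) ≠ 0 := by
          rw [Ne, map_eq_zero]; exact h0
        apply (mul_eq_zero.1 _).resolve_left h0'
        linear_combination (φ (V0.eval a)) * e1 - (eval (φ a) V) * e2
    · rw [Finset.card_image_of_injective _ hinj, hTcard]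
      have h1 : (U * V0.map φ - V * U0.map φ).natDegree ≤ 2 * e := by
        refine (natDegree_sub_le _ _).trans (max_le ?_ ?_)
        · refine natDegree_mul_le.trans ?_
          have := natDegree_map_le (f := φ) (p := V0)
          omega
        · refine natDegree_mul_le.trans ?_
          have := natDegree_map_le (f := φ) (p := U0)
          omega
      omega
  obtain ⟨x, y, hxy⟩ := hcop
  set W : K[X] := x * U0.map φ + y * V0.map φ with hW
  have hUW : U0.map φ = U * W := by
    rw [hW]
    linear_combination (-(U0.map φ)) * hxy - y * hcross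
  have hVW : V0.map φ = V * W := by
    rw [hW]
    linear_combination (-(V0.map φ)) * hxy + x * hcross
  have hWne : W ≠ 0 := by
    intro h0
    rw [h0, mul_zero] at hUW hVW
    rcases hnz with h1 | h1
    · exact h1 ((Polynomial.map_eq_zero φ).1 hUW)
    · exact h1 ((Polynomial.map_eq_zero φ).1 hVW)
  have hWdeg : W.natDegree = 0 := by
    have key : ∀ (P : K[X]) (P0 : F[X]), P ≠ 0 → P.natDegree = e → P0.natDegree ≤ e →
        P0.map φ = P * W → W.natDegree = 0 := by
      intro P P0 hP hPd hP0 hPW
      have h1 := congrArg natDegree hPW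
      rw [natDegree_mul hP hWne] at h1
      have h2 := natDegree_map_le (f := φ) (p := P0)
      omega
    rcases max_choice U.natDegree V.natDegree with hm | hm
    · rw [hdeg] at hm
      by_cases hU : U = 0
      · have hV : V ≠ 0 := by
          rintro rfl
          rw [hU, mul_zero, mul_zero, add_zero] at hxy
          exact zero_ne_one hxy
        rw [hU, natDegree_zero] at hm
        exact key V V0 hV (by omega) hV0deg hVW
      · exact key U U0 hU hm.symm hU0deg hUW
    · rw [hdeg] at hm
      by_cases hV : V = 0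
      · have hU : U ≠ 0 := by
          rintro rfl
          rw [hV, mul_zero, mul_zero, add_zero] at hxy
          exact zero_ne_one hxy
        rw [hV, natDegree_zero] at hm
        exact key U U0 hU (by omega) hU0deg hUW
      · exact key V V0 hV hm.symm hV0deg hVW
  have hWC := eq_C_of_natDegree_eq_zero hWdeg
  set l' := W.coeff 0 with hl'
  have hl'ne : l' ≠ 0 := by
    intro h0
    rw [h0, C_0] at hWC
    exact hWne hWC
  refine ⟨l'⁻¹, U0, V0, inv_ne_zero hl'ne, ?_, ?_⟩
  · rw [hUW, hWC, mul_comm U, ← mul_assoc, ← C_mul, inv_mul_cancel₀ hl'ne, C_1, one_mul]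
  · rw [hVW, hWC, mul_comm V, ← mul_assoc, ← C_mul, inv_mul_cancel₀ hl'ne, C_1, one_mul]

theorem gconst {F K : Type*} [Field F] [Field K] [Algebra F K] {e m : ℕ} (he : 1 ≤ e)
    (hm : 1 ≤ m) {U V : K[X]} (hcop : IsCoprime U V) (hdeg : max U.natDegree V.natDegree = e)
    (P : Finset (OnePoint K)) (hP : ∀ p ∈ P, gm U V e m p ∈ P)
    (hconst : ∀ z : K, (z : OnePoint K) ∈ P → ∃ c : F, z = algebraMap F K c)
    (hcard : m * (2 * e + 1) + 2 ≤ P.card) :
    ∃ (l : K) (U0 V0 : F[X]), l ≠ 0 ∧ U = C l * U0.map (algebraMap F K) ∧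
      V = C l * V0.map (algebraMap F K) := by
  classical
  set φ := algebraMap F K with hφ
  have hinj : Function.Injective φ := FaithfulSMul.algebraMap_injective _ _
  have hinj2 : Function.Injective (fun c : F => ((φ c : K) : OnePoint K)) :=
    OnePoint.coe_injective.comp hinj
  set C0 : Finset F := (P.preimage (fun c : F => ((φ c : K) : OnePoint K)) hinj2.injOn) with hC0
  have hC0mem : ∀ c, c ∈ C0 ↔ ((φ c : K) : OnePoint K) ∈ P := by
    intro c; rw [hC0, Finset.mem_preimage]
  have hC0card : P.card ≤ C0.card + 1 := by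
    have h1 : P ⊆ (C0.image fun c : F => ((φ c : K) : OnePoint K)) ∪ {OnePoint.infty} := by
      intro p hp
      rw [Finset.mem_union]
      induction p using OnePoint.rec with
      | infty => right; simp
      | coe z =>
        left
        obtain ⟨c, hc⟩ := hconst z hp
        exact Finset.mem_image.2 ⟨c, (hC0mem c).2 (by rw [← hc]; exact hp), by rw [hc]⟩
    refine (Finset.card_le_card h1).trans ((Finset.card_union_le _ _).trans ?_)
    exact Nat.add_le_add Finset.card_image_le (by simp)
  set A := C0.image fun c : F => c ^ m with hA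
  have hAcard : C0.card ≤ m * A.card := by
    apply Finset.card_le_mul_card_image
    intro a _
    calc _ ≤ (nthRoots m a).toFinset.card := by
          apply Finset.card_le_card
          intro c hc
          rw [Multiset.mem_toFinset, mem_nthRoots (by omega)]
          exact (Finset.mem_filter.1 hc).2
      _ ≤ (nthRoots m a).card := Multiset.toFinset_card_le _
      _ ≤ m := card_nthRoots m a
  have hbig : 2 * e + 1 ≤ A.card := by
    by_contra hcon
    have h1 : A.card ≤ 2 * e + 1 := by omega
    have h2 : m * A.card ≤ m * (2 * e + 1) := Nat.mul_le_mul_left m h1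
    omega
  apply grat hcop hdeg A hbig
  intro a ha
  obtain ⟨c, hc, rfl⟩ := Finset.mem_image.1 ha
  have h1 := hP _ ((hC0mem c).1 hc)
  rw [gm_some, ← map_pow] at h1
  by_cases hne : V.eval (φ (c ^ m)) = 0
  · refine ⟨1, 0, Or.inl one_ne_zero, ?_⟩
    rw [hne, map_zero, mul_zero, zero_mul]
  · unfold toP1 at h1
    rw [if_neg hne] at h1
    obtain ⟨v, hv⟩ := hconst _ h1
    refine ⟨v, 1, Or.inr one_ne_zero, ?_⟩
    rw [map_one, mul_one, ← hv]
    exact (mul_div_cancel₀ _ hne).symm

end Pool.Agent.Lib.P62h
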