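import Pool.Agent.Lib.P62h.GmD
import Pool.Agent.Lib.P62a0c3.Preper

/-!
# Module P62h.FibG: fibres, scaling and base change of `gm`

`gm U V e m (z) = [U(z^m) : V(z^m)]`, `gm … ∞ = [u_e : v_e]`; `toP1 p q = [p : q]`,
`sc s z = z / s` (P62a0c3.Scale), `OnePoint.map`.

`eval_ne`: `U, V` coprime, so no common zero.
`fib_count`: let `u1 = U(1), v1 = V(1)`, not both zero. The polynomial
`W = C v1 * U - C u1 * V` is not zero (if it were, say `v1 ≠ 0`: `U = C (u1/v1) V`, so `V` divides both,
`V` and `U` are constants, degree `0 ≠ e`; similarly `u1 ≠ 0`), its degree is `≤ e`, and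
`gm (z) = gm (1)` implies `W(z^m) = 0` (`toP1 p q = toP1 p' q'` implies `p q' = p' q`:
`Pool.Agent.Lib.P62a0c3.toP1_eq_imp` is in `P62a0c3/Preper.lean`, or prove it again). At most
`e` values of `z ^ m`, at most `m` elements `z` for each.
`sc_gm`: `gm(z) / s = [U(z^m) : s V(z^m)]` and `z = s (z/s)`, so `U(z^m) = (U.comp (C (s^m) * X))((z/s)^m)`;
at `∞`: `coeff e` of the composition is `s^(m e)` times the old one (both polynomials have degree
`≤ e`; `comp_C_mul_X_coeff`), and `toP1_mul` removes the factor.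
`sc_coprime`, `sc_degree`: composition with `C (s^m) * X` is a ring automorphism of `L[X]` (inverse
`C (s^m)⁻¹ * X`) and preserves degrees (`natDegree_comp`), `C s` is a unit.
`gm_scale`, `map_gm`: immediate (`map_toP1` is in `P62a0c3/Preper.lean`, or prove it again).
-/

namespace Pool.Agent.Lib.P62h

open Polynomial Pool.Agent.Lib.P62a0c3

theorem eval_ne {L : Type*} [Field L] {U V : L[X]} (hcop : IsCoprime U V) (x : L) :
    U.eval x ≠ 0 ∨ V.eval x ≠ 0 := by
  obtain ⟨a, b, hab⟩ := hcop
  by_contra hcon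
  push Not at hcon
  have h := congrArg (Polynomial.eval x) hab
  rw [eval_add, eval_mul, eval_mul, hcon.1, hcon.2, mul_zero, mul_zero, add_zero, eval_one] at h
  exact zero_ne_one h

theorem nat_zero_of_dvd {L : Type*} [Field L] {U V : L[X]} (hcop : IsCoprime U V) {c : L}
    (h : U = C c * V) : max U.natDegree V.natDegree = 0 := by
  have hV : IsUnit V := by
    have h1 : V ∣ U := ⟨C c, by rw [h, mul_comm]⟩
    exact hcop.isUnit_of_dvd' h1 dvd_rfl
  have h2 : V.natDegree = 0 := natDegree_eq_zero_of_isUnit hV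
  have h3 : U.natDegree ≤ V.natDegree := by
    rw [h]; exact natDegree_C_mul_le c V
  omega

open Classical in
theorem fib_count {L : Type*} [Field L] {e m : ℕ} (he : 1 ≤ e) (hm : 1 ≤ m) {U V : L[X]}
    (hcop : IsCoprime U V) (hdeg : max U.natDegree V.natDegree = e) (Q : Finset L) :
    (Q.filter fun z => toP1 (U.eval (z ^ m)) (V.eval (z ^ m)) =
      toP1 (U.eval 1) (V.eval 1)).card ≤ e * m := by
  set W : L[X] := C (V.eval 1) * U - C (U.eval 1) * V with hW
  have hW0 : W ≠ 0 := by
    intro h0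
    rw [hW, sub_eq_zero] at h0
    rcases eval_ne hcop (1 : L) with h | h
    · have h1 : V = C (V.eval 1 / U.eval 1) * U := by
        have h2 : C (U.eval 1)⁻¹ * (C (U.eval 1) * V) = C (U.eval 1)⁻¹ * (C (V.eval 1) * U) := by
          rw [h0]
        rw [← mul_assoc, ← C_mul, inv_mul_cancel₀ h, C_1, one_mul, ← mul_assoc, ← C_mul] at h2
        rw [div_eq_inv_mul]
        exact h2
      have h3 := nat_zero_of_dvd hcop.symm h1
      rw [max_comm] at h3
      omega
    · have h1 : U = C (U.eval 1 / V.eval 1) * V := by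
        have h2 : C (V.eval 1)⁻¹ * (C (V.eval 1) * U) = C (V.eval 1)⁻¹ * (C (U.eval 1) * V) := by
          rw [h0]
        rw [← mul_assoc, ← C_mul, inv_mul_cancel₀ h, C_1, one_mul, ← mul_assoc, ← C_mul] at h2
        rw [div_eq_inv_mul]
        exact h2
      have h3 := nat_zero_of_dvd hcop h1
      omega
  have hWd : W.natDegree ≤ e := by
    rw [hW]
    refine (natDegree_sub_le _ _).trans (max_le ?_ ?_)
    · exact (natDegree_C_mul_le _ _).trans (by omega)
    · exact (natDegree_C_mul_le _ _).trans (by omega)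
  have hE0 : expand L m W ≠ 0 := (expand_ne_zero (by omega)).2 hW0
  have hsub : (Q.filter fun z => toP1 (U.eval (z ^ m)) (V.eval (z ^ m)) =
      toP1 (U.eval 1) (V.eval 1)) ⊆ (expand L m W).roots.toFinset := by
    intro z hz
    rw [Finset.mem_filter] at hz
    rw [Multiset.mem_toFinset, mem_roots hE0, IsRoot.def, expand_eval, hW]
    have h := toP1_eq_imp hz.2
    rw [eval_sub, eval_mul, eval_mul, eval_C, eval_C]
    linear_combination h
  calc _ ≤ (expand L m W).roots.toFinset.card := Finset.card_le_card hsub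
    _ ≤ Multiset.card (expand L m W).roots := Multiset.toFinset_card_le _
    _ ≤ (expand L m W).natDegree := card_roots' _
    _ = W.natDegree * m := natDegree_expand _ _
    _ ≤ e * m := Nat.mul_le_mul_right _ hWd

theorem comp_eval_div {L : Type*} [Field L] {s : L} (hs : s ≠ 0) (U : L[X]) (m : ℕ) (z : L) :
    (U.comp (C (s ^ m) * X)).eval ((z / s) ^ m) = U.eval (z ^ m) := by
  rw [eval_comp, eval_mul, eval_C, eval_X, ← mul_pow, mul_div_cancel₀ _ hs]

theorem sc_gm {L : Type*} [Field L] {s : L} (hs : s ≠ 0) {U V : L[X]} {e : ℕ} (m : ℕ)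
    (hU : U.natDegree ≤ e) (hV : V.natDegree ≤ e) (q : OnePoint L) :
    sc s (gm U V e m q) = gm (U.comp (C (s ^ m) * X)) (C s * V.comp (C (s ^ m) * X)) e m (sc s q) := by
  induction q using OnePoint.rec with
  | infty =>
    rw [gm_infty, sc_infty, gm_infty, sc_toP1 s hs, coeff_C_mul, comp_C_mul_X_coeff,
      comp_C_mul_X_coeff, ← toP1_mul ((s ^ m) ^ e) _ _ (pow_ne_zero e (pow_ne_zero m hs))]
    congr 1 <;> ring
  | coe z =>
    rw [gm_some, sc_some, gm_some, sc_toP1 s hs, eval_mul, eval_C, comp_eval_div hs,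
      comp_eval_div hs, mul_comm s]

theorem sc_coprime {L : Type*} [Field L] {s : L} (hs : s ≠ 0) {U V : L[X]} (m : ℕ)
    (hcop : IsCoprime U V) :
    IsCoprime (U.comp (C (s ^ m) * X)) (C s * V.comp (C (s ^ m) * X)) := by
  obtain ⟨a, b, hab⟩ := hcop
  refine ⟨a.comp (C (s ^ m) * X), C s⁻¹ * b.comp (C (s ^ m) * X), ?_⟩
  have h := congrArg (fun p : L[X] => p.comp (C (s ^ m) * X)) hab
  simp only [add_comp, mul_comp, one_comp] at h
  have h1 : (C s⁻¹ : L[X]) * C s = 1 := by rw [← C_mul, inv_mul_cancel₀ hs, C_1]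
  linear_combination h + b.comp (C (s ^ m) * X) * V.comp (C (s ^ m) * X) * h1

theorem sc_degree {L : Type*} [Field L] {s : L} (hs : s ≠ 0) {U V : L[X]} {e : ℕ} (m : ℕ)
    (hdeg : max U.natDegree V.natDegree = e) :
    max (U.comp (C (s ^ m) * X)).natDegree (C s * V.comp (C (s ^ m) * X)).natDegree = e := by
  have h1 : (C (s ^ m) * X : L[X]).natDegree = 1 := natDegree_C_mul_X _ (pow_ne_zero m hs)
  rw [natDegree_C_mul hs, natDegree_comp, natDegree_comp, h1, mul_one, mul_one, hdeg]

theorem gm_scale {L : Type*} [Field L] {l : L} (hl : l ≠ 0) (U V : L[X]) (e m : ℕ)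
    (q : OnePoint L) : gm (C l * U) (C l * V) e m q = gm U V e m q := by
  induction q using OnePoint.rec with
  | infty =>
    rw [gm_infty, gm_infty, coeff_C_mul, coeff_C_mul, toP1_mul l _ _ hl]
  | coe z =>
    rw [gm_some, gm_some, eval_mul, eval_mul, eval_C, toP1_mul l _ _ hl]

theorem map_gm {K L : Type*} [Field K] [Field L] (φ : K →+* L) (U V : K[X]) (e m : ℕ)
    (q : OnePoint K) :
    OnePoint.map φ (gm U V e m q) = gm (U.map φ) (V.map φ) e m (OnePoint.map φ q) := by
  induction q using OnePoint.rec with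
  | infty =>
    rw [gm_infty, OnePoint.map_infty, gm_infty, map_toP1, coeff_map, coeff_map]
  | coe z =>
    rw [gm_some, OnePoint.map_some, gm_some, map_toP1, ← map_pow, eval_map_apply, eval_map_apply]

end Pool.Agent.Lib.P62h
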