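import Pool.Agent.Lib.P62h.HomA

/-!
# Module P62h.Rig: factors of a constant rational function

`F` algebraically closed (so infinite), `F ⊆ L`. `g = [S : T]` of degree `b ≥ 1`, `A = [P : Q]` of
degree `a ≥ 1` over `L`, and `g ∘ A = [S0 : T0]` with `S0, T0 ∈ F[X]`. Then `A = μ ∘ A0` with a
Möbius map `μ` over `L` and `A0 = [P0 : Q0]` over `F`.

Proof (module HomA is a black box). (1) `hom b S P Q` and `hom b T P Q` are coprime
(`hom_coprime`), so they have no common zero. For `c ∈ F` let `D_c = C (Q c) * P - C (P c) * Q ∈ L[X]` (`P c = P.eval (algebraMap F L c)`),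
`N_c = C (T0 c) * S0 - C (S0 c) * T0 ∈ F[X]`.
(2) `N_c ≠ 0` for all `c ∈ F`: otherwise `S0, T0` would be proportional (`(S0 c, T0 c) ≠ (0, 0)` by
(1) and `l ≠ 0`), so the coprime polynomials `hom b S P Q`, `hom b T P Q` would be constants,
against `hom_degree` (`b a ≥ 1`).
(3) `D_c` divides `N_c.map` in `L[X]`: with the forms `H S (u, v) = Σ S.coeff i u^i v^(b-i)`, the
two variable polynomial `H T (u', v') H S (u, v) - H S (u', v') H T (u, v)` is divisible by
`v' u - u' v`; substitute `(u, v) = (P, Q)`, `(u', v') = (P c, Q c)`: each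
`u^i v^(b-i) u'^j v'^(b-j) - u^j v^(b-j) u'^i v'^(b-i)` is divisible by `v' u - u' v` (for `i ≥ j` it is
`(u u')^j (v v')^(b-i) ((u v')^(i-j) - (v u')^(i-j))`, `sub_dvd_pow_sub_pow`). So `D_c` divides
`H T (Pc, Qc) * hom b S P Q - H S (Pc, Qc) * hom b T P Q = C l^2 * N_c.map`
(`H T (Pc, Qc) = (hom b T P Q).eval c = l T0(c)`).
(4) `N_c` splits over `F` (`IsAlgClosed.splits`), so its divisors in `L[X]` are
`C l' * (polynomial of F[X])`: `D_c = C l_c * E_c.map` with `E_c ∈ F[X]`, `E_c ≠ 0`, `l_c ≠ 0`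
(`D_c` is nonzero as it divides a nonzero polynomial; e.g. roots of `D_c` are roots of `N_c.map`, so they
lie in `F`, and `D_c` splits: `Polynomial.Splits` of a divisor; write it as the product of its roots).
(5) choose `c1, c2 ∈ F` with `Δ = P(c1) Q(c2) - P(c2) Q(c1) ≠ 0`: otherwise
`D_(c1)(c2) = 0` for all `c2 ∈ F`, infinitely many zeros of `D_(c1) ≠ 0`. Then
`Δ P = P(c1) D_(c2) - P(c2) D_(c1)` up to sign (check: `P(c1) D_(c2) - P(c2) D_(c1) =
(P(c1) Q(c2) - P(c2) Q(c1)) P`), and `Δ Q = Q(c1) D_(c2) - Q(c2) D_(c1)`.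
Put `P0 = E_(c2)`, `Q0 = E_(c1)`, `α = P(c1) l_(c2) / Δ`, `β = -P(c2) l_(c1) / Δ`,
`γ = Q(c1) l_(c2) / Δ`, `δ = -Q(c2) l_(c1) / Δ`: `αδ - βγ = - l_(c1) l_(c2) / Δ ≠ 0`.
-/

namespace Pool.Agent.Lib.P62h

open Polynomial Pool.Agent.Lib.P62a0c3

namespace RigAux

variable {F L : Type*} [Field F] [Field L] [Algebra F L]

/-- coprime polynomials are not proportional unless they are constants -/
theorem not_prop {A B : L[X]} (h : IsCoprime A B) {α β : L} (hne : α ≠ 0 ∨ β ≠ 0)
    (heq : C α * A = C β * B) : max A.natDegree B.natDegree = 0 := by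
  rcases hne with h0 | h0
  · have h1 : A = C (α⁻¹ * β) * B := by
      calc A = C (α⁻¹ * α) * A := by rw [inv_mul_cancel₀ h0, C_1, one_mul]
        _ = C α⁻¹ * (C α * A) := by rw [C_mul, mul_assoc]
        _ = C (α⁻¹ * β) * B := by rw [heq, C_mul, mul_assoc]
    have h2 : IsUnit B := h.isUnit_of_dvd' ⟨C (α⁻¹ * β), by rw [mul_comm]; exact h1⟩ dvd_rfl
    have h3 : B.natDegree = 0 := natDegree_eq_zero_of_isUnit h2
    have h4 : A.natDegree ≤ B.natDegree := by
      rw [h1]
      exact natDegree_C_mul_le _ _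
    omega
  · have h1 : B = C (β⁻¹ * α) * A := by
      calc B = C (β⁻¹ * β) * B := by rw [inv_mul_cancel₀ h0, C_1, one_mul]
        _ = C β⁻¹ * (C β * B) := by rw [C_mul, mul_assoc]
        _ = C (β⁻¹ * α) * A := by rw [← heq, C_mul, mul_assoc]
    have h2 : IsUnit A := h.isUnit_of_dvd' dvd_rfl ⟨C (β⁻¹ * α), by rw [mul_comm]; exact h1⟩
    have h3 : A.natDegree = 0 := natDegree_eq_zero_of_isUnit h2
    have h4 : B.natDegree ≤ A.natDegree := by
      rw [h1]
      exact natDegree_C_mul_le _ _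
    omega

/-- divisors of a constant polynomial -/
theorem dvd_const [IsAlgClosed F] {N : F[X]} (hN : N ≠ 0) {D : L[X]}
    (hD : D ∣ N.map (algebraMap F L)) : ∃ (l : L) (E : F[X]), D = C l * E.map (algebraMap F L) := by
  classical
  have hNm : N.map (algebraMap F L) ≠ 0 := by
    rwa [Ne, Polynomial.map_eq_zero]
  have h1 : (N.map (algebraMap F L)).Splits := (IsAlgClosed.splits N).map _
  have h2 : D.Splits := h1.of_dvd hNm hD
  have h3 : ∀ r ∈ D.roots, ∃ s : F, algebraMap F L s = r := by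
    intro r hr
    have h4 : r ∈ (N.map (algebraMap F L)).roots :=
      Multiset.mem_of_le (Polynomial.roots.le_of_dvd hNm hD) hr
    rw [(IsAlgClosed.splits N).roots_map, Multiset.mem_map] at h4
    obtain ⟨s, -, hs⟩ := h4
    exact ⟨s, hs⟩
  set ψ : L → F := fun r => if h : ∃ s : F, algebraMap F L s = r then h.choose else 0 with hψ
  have h5 : ∀ r ∈ D.roots, algebraMap F L (ψ r) = r := by
    intro r hr
    have h6 := h3 r hr
    rw [hψ]
    simp only [dif_pos h6]
    exact h6.choose_spec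
  refine ⟨D.leadingCoeff, (D.roots.map (fun r => X - C (ψ r))).prod, ?_⟩
  conv_lhs => rw [h2.eq_prod_roots]
  congr 1
  rw [Polynomial.map_multiset_prod, Multiset.map_map]
  congr 1
  refine Multiset.map_congr rfl fun r hr => ?_
  simp only [Function.comp_apply, Polynomial.map_sub, Polynomial.map_X, Polynomial.map_C, h5 r hr]

theorem hom_dvd (b : ℕ) (S T u v u' v' : L[X]) :
    v' * u - u' * v ∣ hom b T u' v' * hom b S u v - hom b S u' v' * hom b T u v := by
  have key : ∀ i j, i ≤ b → j ≤ b → v' * u - u' * v ∣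
      u ^ i * v ^ (b - i) * (u' ^ j * v' ^ (b - j)) - u' ^ i * v' ^ (b - i) * (u ^ j * v ^ (b - j)) := by
    intro i j hi hj
    rcases le_total j i with h | h
    · obtain ⟨k, rfl⟩ := Nat.exists_eq_add_of_le h
      obtain ⟨m, rfl⟩ := Nat.exists_eq_add_of_le hi
      have e1 : j + k + m - (j + k) = m := by omega
      have e2 : j + k + m - j = k + m := by omega
      rw [e1, e2]
      have e3 : u ^ (j + k) * v ^ m * (u' ^ j * v' ^ (k + m)) - u' ^ (j + k) * v' ^ m * (u ^ j * v ^ (k + m)) =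
          (u * u') ^ j * (v * v') ^ m * ((v' * u) ^ k - (u' * v) ^ k) := by
        simp only [mul_pow, pow_add]
        ring
      rw [e3]
      exact (sub_dvd_pow_sub_pow _ _ k).mul_left _
    · obtain ⟨k, rfl⟩ := Nat.exists_eq_add_of_le h
      obtain ⟨m, rfl⟩ := Nat.exists_eq_add_of_le hj
      have e1 : i + k + m - (i + k) = m := by omega
      have e2 : i + k + m - i = k + m := by omega
      rw [e1, e2]
      have e3 : u ^ i * v ^ (k + m) * (u' ^ (i + k) * v' ^ m) - u' ^ i * v' ^ (k + m) * (u ^ (i + k) * v ^ m) =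
          -((u * u') ^ i * (v * v') ^ m * ((v' * u) ^ k - (u' * v) ^ k)) := by
        simp only [mul_pow, pow_add]
        ring
      rw [e3]
      exact ((sub_dvd_pow_sub_pow _ _ k).mul_left _).neg_right
  have e : hom b T u' v' * hom b S u v - hom b S u' v' * hom b T u v =
      ∑ i ∈ Finset.range (b + 1), ∑ j ∈ Finset.range (b + 1), C (S.coeff i) * C (T.coeff j) *
        (u ^ i * v ^ (b - i) * (u' ^ j * v' ^ (b - j)) - u' ^ i * v' ^ (b - i) * (u ^ j * v ^ (b - j))) := by
    unfold hom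
    rw [mul_comm (∑ i ∈ Finset.range (b + 1), C (T.coeff i) * u' ^ i * v' ^ (b - i)), Finset.sum_mul_sum,
      Finset.sum_mul_sum, ← Finset.sum_sub_distrib]
    refine Finset.sum_congr rfl fun i _ => ?_
    rw [← Finset.sum_sub_distrib]
    refine Finset.sum_congr rfl fun j _ => ?_
    ring
  rw [e]
  refine Finset.dvd_sum fun i hi => Finset.dvd_sum fun j hj => ?_
  rw [Finset.mem_range] at hi hj
  exact (key i j (by omega) (by omega)).mul_left _

theorem hom_const (b : ℕ) (S P Q : L[X]) (z : L) :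
    hom b S (C (P.eval z)) (C (Q.eval z)) = C ((hom b S P Q).eval z) := by
  unfold hom
  rw [Polynomial.eval_finset_sum, map_sum]
  refine Finset.sum_congr rfl fun i _ => ?_
  simp only [eval_mul, eval_pow, eval_C, C_mul, C_pow]

end RigAux

open RigAux in
theorem rigid {F L : Type*} [Field F] [IsAlgClosed F] [Field L] [Algebra F L] {a b : ℕ}
    (ha : 1 ≤ a) (hb : 1 ≤ b) {S T P Q : L[X]} (hST : IsCoprime S T)
    (hSTb : max S.natDegree T.natDegree = b) (hPQ : IsCoprime P Q)
    (hPQa : max P.natDegree Q.natDegree = a) {l : L} (hl : l ≠ 0) {S0 T0 : F[X]}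
    (hS0 : hom b S P Q = C l * S0.map (algebraMap F L))
    (hT0 : hom b T P Q = C l * T0.map (algebraMap F L)) :
    ∃ (α β γ δ : L) (P0 Q0 : F[X]), α * δ - β * γ ≠ 0 ∧
      P = C α * P0.map (algebraMap F L) + C β * Q0.map (algebraMap F L) ∧
      Q = C γ * P0.map (algebraMap F L) + C δ * Q0.map (algebraMap F L) := by
  set φ := algebraMap F L with hφ
  have hφi : Function.Injective φ := φ.injective
  have hcop := hom_coprime hST hSTb hPQ
  have hdeg := hom_degree hST hSTb hPQ hPQa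
  have hdeg0 : max (hom b S P Q).natDegree (hom b T P Q).natDegree ≠ 0 := by
    rw [hdeg]
    exact (Nat.mul_pos hb ha).ne'
  set N : F → F[X] := fun c => C (T0.eval c) * S0 - C (S0.eval c) * T0 with hN
  set D : F → L[X] := fun c => C (Q.eval (φ c)) * P - C (P.eval (φ c)) * Q with hD
  have hN0 : ∀ c, N c ≠ 0 := by
    intro c h0
    have h1 : C (l * φ (T0.eval c)) * hom b S P Q = C (l * φ (S0.eval c)) * hom b T P Q := by
      have h2 : (N c).map φ = 0 := by rw [h0, Polynomial.map_zero]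
      simp only [hN, Polynomial.map_sub, Polynomial.map_mul, map_C] at h2
      rw [hS0, hT0]
      simp only [C_mul]
      linear_combination (C l * C l) * h2
    have h3 : l * φ (T0.eval c) ≠ 0 ∨ l * φ (S0.eval c) ≠ 0 := by
      by_contra h
      push Not at h
      obtain ⟨u, v, huv⟩ := hcop
      have h4 := congrArg (Polynomial.eval (φ c)) huv
      have h5 : (hom b S P Q).eval (φ c) = 0 := by
        rw [hS0, eval_mul, eval_C, eval_map, Polynomial.eval₂_at_apply, h.2]
      have h6 : (hom b T P Q).eval (φ c) = 0 := by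
        rw [hT0, eval_mul, eval_C, eval_map, Polynomial.eval₂_at_apply, h.1]
      rw [eval_add, eval_mul, eval_mul, h5, h6, mul_zero, mul_zero, add_zero, eval_one] at h4
      exact zero_ne_one h4
    exact hdeg0 (not_prop hcop h3 h1)
  have hDN : ∀ c, D c ∣ (N c).map φ := by
    intro c
    have h1 := hom_dvd b S T P Q (C (P.eval (φ c))) (C (Q.eval (φ c)))
    rw [hom_const, hom_const, hS0, hT0] at h1
    have h2 : C (Polynomial.eval (φ c) (C l * T0.map φ)) * (C l * S0.map φ) -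
        C (Polynomial.eval (φ c) (C l * S0.map φ)) * (C l * T0.map φ) = C (l * l) * (N c).map φ := by
      simp only [hN, Polynomial.map_sub, Polynomial.map_mul, map_C, eval_mul, eval_C, eval_map,
        Polynomial.eval₂_at_apply, C_mul]
      ring
    rw [h2] at h1
    have h3 : IsUnit (C (l * l)) := isUnit_C.2 (IsUnit.mk0 _ (mul_ne_zero hl hl))
    exact (h3.dvd_mul_left).1 h1
  have hD0 : ∀ c, D c ≠ 0 := by
    intro c h0
    have h1 := hDN c
    rw [h0, zero_dvd_iff, Polynomial.map_eq_zero] at h1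
    exact hN0 c h1
  have hDe : ∀ c, ∃ (r : L) (E : F[X]), D c = C r * E.map φ := fun c => dvd_const (hN0 c) (hDN c)
  -- two independent points
  obtain ⟨c1, c2, hΔ⟩ : ∃ c1 c2 : F, P.eval (φ c1) * Q.eval (φ c2) - P.eval (φ c2) * Q.eval (φ c1) ≠ 0 := by
    by_contra h
    push Not at h
    haveI : Infinite F := IsAlgClosed.instInfinite
    have h1 : D 0 = 0 := by
      refine Polynomial.eq_zero_of_infinite_isRoot _ ?_
      refine Set.Infinite.mono ?_ (Set.infinite_range_of_injective hφi)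
      rintro _ ⟨c, rfl⟩
      simp only [hD, Set.mem_setOf_eq, IsRoot.def, eval_sub, eval_mul, eval_C]
      have h2 := h 0 c
      linear_combination -h2
    exact hD0 0 h1
  obtain ⟨l1, E1, hE1⟩ := hDe c1
  obtain ⟨l2, E2, hE2⟩ := hDe c2
  have hl1 : l1 ≠ 0 := by
    rintro rfl
    rw [C_0, zero_mul] at hE1
    exact hD0 c1 hE1
  have hl2 : l2 ≠ 0 := by
    rintro rfl
    rw [C_0, zero_mul] at hE2
    exact hD0 c2 hE2
  set p1 := P.eval (φ c1) with hp1
  set p2 := P.eval (φ c2) with hp2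
  set q1 := Q.eval (φ c1) with hq1
  set q2 := Q.eval (φ c2) with hq2
  set Δ := p1 * q2 - p2 * q1 with hΔd
  have hinv : C Δ⁻¹ * C Δ = (1 : L[X]) := by rw [← C_mul, inv_mul_cancel₀ hΔ, C_1]
  have e1 : C Δ * P = C p1 * D c2 - C p2 * D c1 := by
    simp only [hD, hΔd, C_sub, C_mul]
    ring
  have e2 : C Δ * Q = C q1 * D c2 - C q2 * D c1 := by
    simp only [hD, hΔd, C_sub, C_mul]
    ring
  refine ⟨Δ⁻¹ * (p1 * l2), -(Δ⁻¹ * (p2 * l1)), Δ⁻¹ * (q1 * l2), -(Δ⁻¹ * (q2 * l1)), E2, E1, ?_, ?_, ?_⟩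
  · have h1 : Δ⁻¹ * (p1 * l2) * -(Δ⁻¹ * (q2 * l1)) - -(Δ⁻¹ * (p2 * l1)) * (Δ⁻¹ * (q1 * l2)) =
        -(Δ⁻¹ * Δ⁻¹ * Δ * (l1 * l2)) := by
      rw [hΔd]
      ring
    rw [h1, neg_ne_zero]
    exact mul_ne_zero (mul_ne_zero (mul_ne_zero (inv_ne_zero hΔ) (inv_ne_zero hΔ)) hΔ) (mul_ne_zero hl1 hl2)
  · calc P = (C Δ⁻¹ * C Δ) * P := by rw [hinv, one_mul]
      _ = C Δ⁻¹ * (C p1 * D c2 - C p2 * D c1) := by rw [mul_assoc, e1]
      _ = _ := by
        rw [hE1, hE2]
        simp only [C_mul, C_neg]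
        ring
  · calc Q = (C Δ⁻¹ * C Δ) * Q := by rw [hinv, one_mul]
      _ = C Δ⁻¹ * (C q1 * D c2 - C q2 * D c1) := by rw [mul_assoc, e2]
      _ = _ := by
        rw [hE1, hE2]
        simp only [C_mul, C_neg]
        ring

end Pool.Agent.Lib.P62h
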