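import Pool.Agent.Lib.P62h.HomA
import Pool.Agent.Lib.P62h.Rig
import Pool.Agent.Lib.P62h.GCon

/-!
# Module P62h.IsoT: isotriviality of `A ∘ x ^ m ∘ g`

(HomA, `rigid`, `grat` are black boxes. `rm P Q d` is the map `x ↦ P(x)/Q(x)` of `OnePoint K`.)
`A = [PA : QA]` of degree `a`, `g = [Pg : Qg]` of degree `b`, `U = hom b Pg PA QA`,
`V = hom b Qg PA QA` (so `g ∘ A = [U : V]`), and `(g ∘ A)(s^m x) / s` has coefficients in `F` up to the
common factor `l`. CLAIM: `f = A ∘ (x ↦ x^m) ∘ g` is conjugate to a map over `F`.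

Proof. Put `P = PA.comp (C (s^m) * X)`, `Q = QA.comp (C (s^m) * X)` (coprime, degree `a`: composition
with `C (s^m) * X` is an automorphism of `K[X]` preserving degrees), `S = Pg`, `T = C s * Qg` (coprime,
degree `b`). Then `hom b S P Q = U.comp (C (s^m) * X) = C l * U0.map` and
`hom b T P Q = C s * V.comp (C (s^m) * X) = C l * V0.map`. `rigid`: `P = C α P0 + C β Q0`,
`Q = C γ P0 + C δ Q0`. `P0, Q0 ∈ F[X]` are coprime (`IsCoprime` over `K`: `P, Q` are combinations;
then `Polynomial.isCoprime_map`) and `max (deg P0) (deg Q0) = a` (`≤ a` since `P0, Q0` are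
combinations of `P, Q` by the inverse matrix, `≥` clear).
Let `S2 = hom b S (C α * X + C β) (C γ * X + C δ)`, `T2 = hom b T (C α * X + C β) (C γ * X + C δ)`:
coprime, degree `b * 1` (`hom_coprime`, `hom_degree`; the pair `(C α X + C β, C γ X + C δ)` is
coprime of degree `1` as `αδ - βγ ≠ 0`). `grat` for `S2, T2`: for `c ∈ F` with `Q0(c) ≠ 0` put
`y = P0(c) / Q0(c) ∈ F`. The vector `(S2(y), T2(y))` is proportional to `(U0(c), V0(c)) ≠ 0`:
`Q0(c)^b S2(y) = H_S(α P0 + β Q0, γ P0 + δ Q0)(c) = (hom b S P Q)(c) = l U0(c)`, same for `T2`. The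
set of these `y` is infinite (each value `y` is taken by at most `a` elements `c`: `P0 - C y * Q0` is
a nonzero polynomial of degree `≤ a`, as `a ≥ 1` and `P0, Q0` are coprime), so there are `2 b + 1` of
them. Hence `S2 = C l2 * S3.map`, `T2 = C l2 * T3.map`, `S3, T3 ∈ F[X]` coprime, degree `b`.
Let `μ = rm (C α * X + C β) (C γ * X + C δ) 1`. For all `x` (`rm_comp`, and multiplying both
polynomials by a constant changes nothing):
`f (μ x) = A ((g (μ x))^m)`. Write `pw x = rm (X^m) 1 m x`, `σ x = s x` (`rm (C s * X) 1 1`).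
`A z = rm P Q a (z / s^m)`, `pw (g y) / s^m = pw (g y / s)`, `g y / s = rm S T b y` (all identities of maps
on `OnePoint K`: check on `toP1 u v`), and `rm S T b (μ x) = rm S2 T2 b x = rm S3.map T3.map b x`,
`rm P Q a = μ ∘ rm P0.map Q0.map a`. So `f (μ x) = μ (rm P0 Q0 a (pw (rm S3 T3 b x)))`. The last composition
is `rm (P1.map) (Q1.map) (a * (m * b))` with `P1 = hom a P0 (S3^m) (T3^m)`,
`Q1 = hom a Q0 (S3^m) (T3^m)` (`hom m (X^m) S3 T3 = S3^m`, or directly
`pw (toP1 u v) = toP1 (u^m) (v^m)`), coprime of the right degree.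
-/

namespace Pool.Agent.Lib.P62h

open Polynomial Pool.Agent.Lib.P62a0c3

theorem iT_hom_comp {L : Type*} [Field L] (d : ℕ) (P A B R : L[X]) :
    (hom d P A B).comp R = hom d P (A.comp R) (B.comp R) := by
  unfold hom
  rw [Polynomial.sum_comp]
  refine Finset.sum_congr rfl fun i _ => ?_
  simp only [mul_comp, C_comp, pow_comp]

theorem iT_hom_C_mul {L : Type*} [Field L] (d : ℕ) (s : L) (P A B : L[X]) :
    hom d (C s * P) A B = C s * hom d P A B := by
  unfold hom
  rw [Finset.mul_sum]
  refine Finset.sum_congr rfl fun i _ => ?_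
  rw [coeff_C_mul, C_mul]; ring

theorem iT_hom_eval {L : Type*} [Field L] (d : ℕ) (P A B : L[X]) (z : L) :
    (hom d P A B).eval z =
      ∑ i ∈ Finset.range (d + 1), P.coeff i * (A.eval z) ^ i * (B.eval z) ^ (d - i) := by
  unfold hom
  rw [eval_finsetSum]
  simp

theorem iT_hom_one {L : Type*} [Field L] (α β : L) (A B : L[X]) :
    hom 1 (C α * X + C β) A B = C α * A + C β * B := by
  unfold hom
  rw [Finset.sum_range_succ, Finset.sum_range_one]
  simp
  ring

theorem iT_hom_pow {L : Type*} [Field L] (m : ℕ) (A B : L[X]) :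
    hom m (X ^ m : L[X]) A B = A ^ m := by
  unfold hom
  rw [Finset.sum_eq_single m]
  · simp
  · intro i _ hi
    rw [coeff_X_pow, if_neg hi]; simp
  · intro h; exact absurd (Finset.mem_range.2 (Nat.lt_succ_self m)) h

theorem iT_hom_const {L : Type*} [Field L] (m : ℕ) (A B : L[X]) :
    hom m (1 : L[X]) A B = B ^ m := by
  unfold hom
  rw [Finset.sum_eq_single 0]
  · simp
  · intro i _ hi
    rw [coeff_one, if_neg hi]; simp
  · intro h; exact absurd (Finset.mem_range.2 (Nat.succ_pos m)) h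

theorem iT_max_pow {L : Type*} [Field L] {A B : L[X]} {b : ℕ} (m : ℕ)
    (h : max A.natDegree B.natDegree = b) :
    max (A ^ m).natDegree (B ^ m).natDegree = m * b := by
  rw [natDegree_pow, natDegree_pow, ← h]
  exact (Nat.mul_max_mul_left _ _ _)

theorem iT_pow_comp {L : Type*} [Field L] {Pg Qg : L[X]} {b : ℕ} (m : ℕ)
    (hg : IsCoprime Pg Qg) (hgb : max Pg.natDegree Qg.natDegree = b) (x : OnePoint L) :
    rm (X ^ m) 1 m (rm Pg Qg b x) = rm (Pg ^ m) (Qg ^ m) (m * b) x := by
  rw [← rm_comp (P := (X ^ m : L[X])) (Q := 1) isCoprime_one_right (by simp) hg hgb x,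
    iT_hom_pow, iT_hom_const]

theorem iT_mob_coprime {L : Type*} [Field L] {α β γ δ : L} (hdet : α * δ - β * γ ≠ 0) :
    IsCoprime (C α * X + C β) (C γ * X + C δ) := by
  refine ⟨C (-γ / (α * δ - β * γ)), C (α / (α * δ - β * γ)), ?_⟩
  have h : (-γ / (α * δ - β * γ)) * β + (α / (α * δ - β * γ)) * δ = 1 := by
    rw [div_mul_eq_mul_div, div_mul_eq_mul_div, ← add_div, div_eq_one_iff_eq hdet]; ring
  have h2 : (-γ / (α * δ - β * γ)) * α + (α / (α * δ - β * γ)) * γ = 0 := by
    rw [div_mul_eq_mul_div, div_mul_eq_mul_div, ← add_div, div_eq_zero_iff]; left; ring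
  calc C (-γ / (α * δ - β * γ)) * (C α * X + C β) + C (α / (α * δ - β * γ)) * (C γ * X + C δ)
      = C ((-γ / (α * δ - β * γ)) * α + (α / (α * δ - β * γ)) * γ) * X +
        C ((-γ / (α * δ - β * γ)) * β + (α / (α * δ - β * γ)) * δ) := by
        simp only [C_add, C_mul]; ring
    _ = 1 := by rw [h, h2]; simp

theorem iT_mob_degree {L : Type*} [Field L] {α β γ δ : L} (hdet : α * δ - β * γ ≠ 0) :
    max (C α * X + C β).natDegree (C γ * X + C δ).natDegree = 1 := by
  apply le_antisymm
  · exact max_le natDegree_linear_le natDegree_linear_le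
  · by_cases hα : α = 0
    · have hγ : γ ≠ 0 := by
        rintro rfl; apply hdet; rw [hα]; ring
      rw [natDegree_linear hγ]; exact le_max_right _ _
    · rw [natDegree_linear hα]; exact le_max_left _ _

/-- A nonconstant rational function takes infinitely many values on an infinite subfield. -/
theorem iT_values {k E : Type*} [Field k] [Infinite k] [Field E] [Algebra k E] {P Q : E[X]}
    (hcop : IsCoprime P Q) (hdeg : 1 ≤ max P.natDegree Q.natDegree) :
    {y : E | ∃ c : k, Q.eval (algebraMap k E c) ≠ 0 ∧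
      y = P.eval (algebraMap k E c) / Q.eval (algebraMap k E c)}.Infinite := by
  classical
  intro hfin
  have hQ0 : Q ≠ 0 := by
    rintro rfl
    have h1 : IsUnit P := isCoprime_zero_right.1 hcop
    rw [natDegree_eq_zero_of_isUnit h1] at hdeg
    simp at hdeg
  have hne : ∀ y : E, P - C y * Q ≠ 0 := by
    intro y h0
    rw [sub_eq_zero] at h0
    have h1 : IsUnit Q := by
      refine hcop.symm.isUnit_of_dvd ?_
      rw [h0]; exact Dvd.intro_left _ rfl
    have h2 := natDegree_eq_zero_of_isUnit h1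
    have h3 : P.natDegree = 0 := by
      have := natDegree_C_mul_le y Q
      rw [← h0] at this; omega
    rw [h2, h3] at hdeg
    simp at hdeg
  have hR : Q * ∏ y ∈ hfin.toFinset, (P - C y * Q) ≠ 0 :=
    mul_ne_zero hQ0 (Finset.prod_ne_zero_iff.2 fun y _ => hne y)
  apply hR
  apply Polynomial.eq_zero_of_infinite_isRoot
  refine Set.Infinite.mono ?_ (Set.infinite_range_of_injective
    (FaithfulSMul.algebraMap_injective k E))
  rintro _ ⟨c, rfl⟩
  show (Q * ∏ y ∈ hfin.toFinset, (P - C y * Q)).eval (algebraMap k E c) = 0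
  rw [eval_mul]
  by_cases hc : Q.eval (algebraMap k E c) = 0
  · rw [hc, zero_mul]
  · rw [eval_prod, Finset.prod_eq_zero (i := P.eval (algebraMap k E c) /
      Q.eval (algebraMap k E c)), mul_zero]
    · rw [Set.Finite.mem_toFinset]
      exact ⟨c, hc, rfl⟩
    · rw [eval_sub, eval_mul, eval_C, div_mul_cancel₀ _ hc, sub_self]

theorem iT_rm_C_mul {L : Type*} [Field L] {l : L} (hl : l ≠ 0) (P Q : L[X]) (d : ℕ)
    (x : OnePoint L) : rm (C l * P) (C l * Q) d x = rm P Q d x := by
  induction x using OnePoint.rec with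
  | infty => rw [rm_infty, rm_infty, coeff_C_mul, coeff_C_mul, toP1_mul _ _ _ hl]
  | coe z => rw [rm_some, rm_some, eval_mul, eval_mul, eval_C, toP1_mul _ _ _ hl]

theorem iT_pow_toP1 {L : Type*} [Field L] {m : ℕ} (hm : 1 ≤ m) (u v : L) :
    rm (X ^ m) 1 m (toP1 u v) = toP1 (u ^ m) (v ^ m) := by
  by_cases hv : v = 0
  · subst hv
    have h1 : (toP1 u (0 : L)) = OnePoint.infty := by unfold toP1; rw [if_pos rfl]
    rw [h1, rm_infty, coeff_X_pow, if_pos rfl, coeff_one, if_neg (by omega), zero_pow (by omega)]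
    unfold toP1
    rw [if_pos rfl, if_pos rfl]
  · have h1 : toP1 u v = ((u / v : L) : OnePoint L) := by unfold toP1; rw [if_neg hv]
    rw [h1, rm_some, eval_pow, eval_X, eval_one]
    unfold toP1
    rw [if_neg one_ne_zero, if_neg (pow_ne_zero m hv), div_one, div_pow]

theorem iT_scl_toP1 {L : Type*} [Field L] (t u v : L) :
    rm (C t * X) 1 1 (toP1 u v) = toP1 (t * u) v := by
  by_cases hv : v = 0
  · subst hv
    have h1 : (toP1 u (0 : L)) = OnePoint.infty := by unfold toP1; rw [if_pos rfl]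
    rw [h1, rm_infty, coeff_C_mul, coeff_X_one, coeff_one, if_neg (by omega)]
    unfold toP1
    rw [if_pos rfl, if_pos rfl]
  · have h1 : toP1 u v = ((u / v : L) : OnePoint L) := by unfold toP1; rw [if_neg hv]
    rw [h1, rm_some, eval_mul, eval_C, eval_X, eval_one]
    unfold toP1
    rw [if_neg one_ne_zero, if_neg hv, div_one, mul_div_assoc]

theorem iT_comp_scl {L : Type*} [Field L] {t : L} (ht : t ≠ 0) (P Q : L[X]) (a : ℕ)
    (z : OnePoint L) :
    rm (P.comp (C t * X)) (Q.comp (C t * X)) a z = rm P Q a (rm (C t * X) 1 1 z) := by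
  induction z using OnePoint.rec with
  | infty =>
    have h1 : rm (C t * X) 1 1 (OnePoint.infty : OnePoint L) = OnePoint.infty := by
      rw [rm_infty, coeff_C_mul, coeff_X_one, coeff_one, if_neg (by omega)]
      unfold toP1
      rw [if_pos rfl]
    rw [h1, rm_infty, rm_infty, comp_C_mul_X_coeff, comp_C_mul_X_coeff, mul_comm (P.coeff a),
      mul_comm (Q.coeff a), toP1_mul _ _ _ (pow_ne_zero a ht)]
  | coe z =>
    have h1 : rm (C t * X) 1 1 (z : OnePoint L) = ((t * z : L) : OnePoint L) := by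
      rw [rm_some, eval_mul, eval_C, eval_X, eval_one]
      unfold toP1
      rw [if_neg one_ne_zero, div_one]
    rw [h1, rm_some, rm_some, eval_comp, eval_comp, eval_mul, eval_C, eval_X]

/-- `A ∘ x ^ m ∘ g` after rescaling the middle coordinate. -/
theorem iT_rescale {L : Type*} [Field L] {s : L} (hs : s ≠ 0) {m : ℕ} (hm : 1 ≤ m)
    (PA QA Pg Qg : L[X]) (a b : ℕ) (y : OnePoint L) :
    rm (PA.comp (C (s ^ m) * X)) (QA.comp (C (s ^ m) * X)) a
      (rm (X ^ m) 1 m (rm Pg (C s * Qg) b y)) =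
    rm PA QA a (rm (X ^ m) 1 m (rm Pg Qg b y)) := by
  have ht : s ^ m ≠ 0 := pow_ne_zero m hs
  rw [iT_comp_scl ht]
  congr 1
  have key : ∀ u v : L, rm (C (s ^ m) * X) 1 1 (rm (X ^ m) 1 m (toP1 u (s * v))) =
      rm (X ^ m) 1 m (toP1 u v) := by
    intro u v
    rw [iT_pow_toP1 hm, iT_pow_toP1 hm, iT_scl_toP1, mul_pow, toP1_mul _ _ _ ht]
  induction y using OnePoint.rec with
  | infty => rw [rm_infty, rm_infty, coeff_C_mul, key]
  | coe z => rw [rm_some, rm_some, eval_mul, eval_C, key]

theorem iT_comp_degree {L : Type*} [Field L] {t : L} (ht : t ≠ 0) (P : L[X]) :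
    (P.comp (C t * X)).natDegree = P.natDegree := by
  rw [natDegree_comp, natDegree_C_mul_X t ht, mul_one]

theorem iT_comp_coprime {L : Type*} [Field L] {P Q R : L[X]} (h : IsCoprime P Q) :
    IsCoprime (P.comp R) (Q.comp R) := by
  obtain ⟨u, v, huv⟩ := h
  refine ⟨u.comp R, v.comp R, ?_⟩
  rw [← mul_comp, ← mul_comp, ← add_comp, huv, one_comp]

/-- The homogeneous forms scale. -/
theorem iT_form_smul {L : Type*} [Field L] (d : ℕ) (P : L[X]) (t u v : L) :
    ∑ i ∈ Finset.range (d + 1), P.coeff i * (t * u) ^ i * (t * v) ^ (d - i) =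
      t ^ d * ∑ i ∈ Finset.range (d + 1), P.coeff i * u ^ i * v ^ (d - i) := by
  rw [Finset.mul_sum]
  refine Finset.sum_congr rfl fun i hi => ?_
  have h : i + (d - i) = d := by have := Finset.mem_range.1 hi; omega
  calc P.coeff i * (t * u) ^ i * (t * v) ^ (d - i)
      = t ^ (i + (d - i)) * (P.coeff i * u ^ i * v ^ (d - i)) := by
        rw [mul_pow, mul_pow, pow_add]; ring
    _ = _ := by rw [h]

theorem iso_of_scaled {F K : Type*} [Field F] [IsAlgClosed F] [Field K] [Algebra F K] {a b m : ℕ}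
    (ha : 1 ≤ a) (hb : 1 ≤ b) (hm : 1 ≤ m) {PA QA Pg Qg : K[X]} (hA : IsCoprime PA QA)
    (hAa : max PA.natDegree QA.natDegree = a) (hg : IsCoprime Pg Qg)
    (hgb : max Pg.natDegree Qg.natDegree = b) {s l : K} (hs : s ≠ 0) (hl : l ≠ 0) {U0 V0 : F[X]}
    (hU : (hom b Pg PA QA).comp (C (s ^ m) * X) = C l * U0.map (algebraMap F K))
    (hV : C s * (hom b Qg PA QA).comp (C (s ^ m) * X) = C l * V0.map (algebraMap F K)) :
    ∃ (α β γ δ : K) (P1 Q1 : F[X]), α * δ - β * γ ≠ 0 ∧ IsCoprime P1 Q1 ∧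
      max P1.natDegree Q1.natDegree = a * (m * b) ∧
      ∀ x : OnePoint K, rm PA QA a (rm (X ^ m) 1 m (rm Pg Qg b
          (rm (C α * X + C β) (C γ * X + C δ) 1 x))) =
        rm (C α * X + C β) (C γ * X + C δ) 1
          (rm (P1.map (algebraMap F K)) (Q1.map (algebraMap F K)) (a * (m * b)) x) := by
  classical
  have : Infinite F := IsAlgClosed.instInfinite
  have ht : s ^ m ≠ 0 := pow_ne_zero m hs
  set P : K[X] := PA.comp (C (s ^ m) * X) with hPdef
  set Q : K[X] := QA.comp (C (s ^ m) * X) with hQdef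
  have hPQ : IsCoprime P Q := iT_comp_coprime hA
  have hPQa : max P.natDegree Q.natDegree = a := by
    rw [hPdef, hQdef, iT_comp_degree ht, iT_comp_degree ht, hAa]
  set T : K[X] := C s * Qg with hTdef
  have hCs : IsUnit (C s : K[X]) := isUnit_C.2 (isUnit_iff_ne_zero.2 hs)
  have hST : IsCoprime Pg T := (isCoprime_mul_unit_left_right hCs Pg Qg).2 hg
  have hSTb : max Pg.natDegree T.natDegree = b := by
    rw [hTdef, natDegree_C_mul hs, hgb]
  have hS0 : hom b Pg P Q = C l * U0.map (algebraMap F K) := by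
    rw [← hU, iT_hom_comp]
  have hT0 : hom b T P Q = C l * V0.map (algebraMap F K) := by
    rw [← hV, iT_hom_comp, hTdef, iT_hom_C_mul]
  obtain ⟨α, β, γ, δ, P0, Q0, hdet, eP, eQ⟩ := rigid ha hb hST hSTb hPQ hPQa hl hS0 hT0
  have hinj : Function.Injective (algebraMap F K) := FaithfulSMul.algebraMap_injective F K
  -- `P0, Q0` coprime of degree `a`
  have hcop0' : IsCoprime (P0.map (algebraMap F K)) (Q0.map (algebraMap F K)) := by
    obtain ⟨u, v, huv⟩ := hPQ
    refine ⟨u * C α + v * C γ, u * C β + v * C δ, ?_⟩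
    rw [← huv, eP, eQ]; ring
  have hcop0 : IsCoprime P0 Q0 := (Polynomial.isCoprime_map _).1 hcop0'
  have hdeg0 : max P0.natDegree Q0.natDegree = a := by
    have hPd : P.natDegree ≤ a := by rw [← hPQa]; exact le_max_left _ _
    have hQd : Q.natDegree ≤ a := by rw [← hPQa]; exact le_max_right _ _
    apply le_antisymm
    · have e1 : C (α * δ - β * γ) * P0.map (algebraMap F K) = C δ * P - C β * Q := by
        rw [eP, eQ]; simp only [C_sub, C_mul]; ring
      have e2 : C (α * δ - β * γ) * Q0.map (algebraMap F K) = C α * Q - C γ * P := by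
        rw [eP, eQ]; simp only [C_sub, C_mul]; ring
      have d1 := congrArg natDegree e1
      have d2 := congrArg natDegree e2
      rw [natDegree_C_mul hdet, natDegree_map] at d1 d2
      apply max_le
      · rw [d1]
        exact (natDegree_sub_le _ _).trans (max_le ((natDegree_C_mul_le _ _).trans hPd)
          ((natDegree_C_mul_le _ _).trans hQd))
      · rw [d2]
        exact (natDegree_sub_le _ _).trans (max_le ((natDegree_C_mul_le _ _).trans hQd)
          ((natDegree_C_mul_le _ _).trans hPd))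
    · have key : ∀ x y : K, (C x * P0.map (algebraMap F K) +
          C y * Q0.map (algebraMap F K)).natDegree ≤ max P0.natDegree Q0.natDegree := by
        intro x y
        refine (natDegree_add_le _ _).trans (max_le ?_ ?_)
        · refine (natDegree_C_mul_le _ _).trans ?_
          rw [natDegree_map]; exact le_max_left _ _
        · refine (natDegree_C_mul_le _ _).trans ?_
          rw [natDegree_map]; exact le_max_right _ _
      conv_lhs => rw [← hPQa]
      apply max_le
      · rw [eP]; exact key α β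
      · rw [eQ]; exact key γ δ
  -- the outer part
  set M : K[X] := C α * X + C β with hM
  set N : K[X] := C γ * X + C δ with hN
  have hMN : IsCoprime M N := iT_mob_coprime hdet
  have hMNd : max M.natDegree N.natDegree = 1 := iT_mob_degree hdet
  set S2 : K[X] := hom b Pg M N with hS2
  set T2 : K[X] := hom b T M N with hT2
  have hcop2 : IsCoprime S2 T2 := hom_coprime hST hSTb hMN
  have hdeg2 : max S2.natDegree T2.natDegree = b := by
    rw [hS2, hT2, hom_degree hST hSTb hMN hMNd, mul_one]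
  -- many values
  have hinf := iT_values (k := F) (E := F) hcop0 (by rw [hdeg0]; exact ha)
  obtain ⟨A, hAsub, hAcard⟩ := hinf.exists_subset_card_eq (2 * b + 1)
  have hno : ∀ c : F, U0.eval c ≠ 0 ∨ V0.eval c ≠ 0 := by
    intro c
    by_contra hcon
    push Not at hcon
    obtain ⟨u, v, huv⟩ := hom_coprime hST hSTb hPQ
    have h1 := congrArg (eval (algebraMap F K c)) huv
    rw [hS0, hT0] at h1
    simp only [eval_add, eval_mul, eval_map_algebraMap, aeval_algebraMap_apply, coe_aeval_eq_eval,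
      hcon.1, hcon.2, eval_one, map_zero, mul_zero, add_zero] at h1
    exact zero_ne_one h1
  have hval : ∀ c : F, Q0.eval c ≠ 0 → ∀ (W : K[X]) (W0 : F[X]),
      hom b W P Q = C l * W0.map (algebraMap F K) →
      algebraMap F K (Q0.eval c) ^ b *
        (hom b W M N).eval (algebraMap F K (P0.eval c / Q0.eval c)) =
        l * algebraMap F K (W0.eval c) := by
    intro c hc W W0 hW
    have hc' : algebraMap F K (Q0.eval c) ≠ 0 := by
      rw [Ne, map_eq_zero]; exact hc
    have h1 := congrArg (eval (algebraMap F K c)) hW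
    rw [iT_hom_eval, eval_mul, eval_C, eval_map_algebraMap, aeval_algebraMap_apply,
      coe_aeval_eq_eval] at h1
    rw [← h1, iT_hom_eval, ← iT_form_smul]
    have e1 : algebraMap F K (Q0.eval c) * M.eval (algebraMap F K (P0.eval c / Q0.eval c)) =
        P.eval (algebraMap F K c) := by
      rw [eP, hM]
      simp only [eval_add, eval_mul, eval_C, eval_X, eval_map_algebraMap, aeval_algebraMap_apply,
        coe_aeval_eq_eval, map_div₀]
      field_simp
    have e2 : algebraMap F K (Q0.eval c) * N.eval (algebraMap F K (P0.eval c / Q0.eval c)) =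
        Q.eval (algebraMap F K c) := by
      rw [eQ, hN]
      simp only [eval_add, eval_mul, eval_C, eval_X, eval_map_algebraMap, aeval_algebraMap_apply,
        coe_aeval_eq_eval, map_div₀]
      field_simp
    rw [e1, e2]
  obtain ⟨l2, S3, T3, hl2, eS2, eT2⟩ := grat (F := F) hcop2 hdeg2 A (by omega) (by
    intro y hy
    obtain ⟨c, hc, rfl⟩ := hAsub hy
    rw [Algebra.algebraMap_self_apply] at hc ⊢
    refine ⟨U0.eval c, V0.eval c, hno c, ?_⟩
    have hc' : algebraMap F K (Q0.eval c) ^ b ≠ 0 := by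
      apply pow_ne_zero
      rw [Ne, map_eq_zero]; exact hc
    apply mul_left_cancel₀ hc'
    have h1 := hval c hc Pg U0 hS0
    have h2 := hval c hc T V0 hT0
    rw [← mul_assoc, ← mul_assoc, h1, h2]
    ring)
  have hcop3' : IsCoprime (S3.map (algebraMap F K)) (T3.map (algebraMap F K)) := by
    have hCl : IsUnit (C l2 : K[X]) := isUnit_C.2 (isUnit_iff_ne_zero.2 hl2)
    rw [eS2, eT2] at hcop2
    exact (isCoprime_mul_unit_left hCl _ _).1 hcop2
  have hcop3 : IsCoprime S3 T3 := (Polynomial.isCoprime_map _).1 hcop3'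
  have hdeg3 : max S3.natDegree T3.natDegree = b := by
    rw [eS2, eT2, natDegree_C_mul hl2, natDegree_C_mul hl2, natDegree_map, natDegree_map] at hdeg2
    exact hdeg2
  have hdeg3' : max (S3.map (algebraMap F K)).natDegree (T3.map (algebraMap F K)).natDegree = b := by
    rw [natDegree_map, natDegree_map, hdeg3]
  have hdeg0' : max (P0.map (algebraMap F K)).natDegree (Q0.map (algebraMap F K)).natDegree = a := by
    rw [natDegree_map, natDegree_map, hdeg0]
  have hpw3 : IsCoprime (S3 ^ m) (T3 ^ m) := hcop3.pow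
  refine ⟨α, β, γ, δ, hom a P0 (S3 ^ m) (T3 ^ m), hom a Q0 (S3 ^ m) (T3 ^ m), hdet,
    hom_coprime hcop0 hdeg0 hpw3, hom_degree hcop0 hdeg0 hpw3 (iT_max_pow m hdeg3), ?_⟩
  intro x
  rw [hom_map, hom_map, Polynomial.map_pow, Polynomial.map_pow,
    rm_comp hcop0' hdeg0' hcop3'.pow (iT_max_pow m hdeg3'), ← iT_pow_comp m hcop3' hdeg3',
    ← iT_rm_C_mul hl2 (S3.map (algebraMap F K)), ← eS2, ← eT2]
  have h1 : rm S2 T2 b x = rm Pg T b (rm M N 1 x) := by
    have := rm_comp hST hSTb hMN hMNd x
    rw [mul_one] at this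
    exact this
  rw [h1]
  have h2 : ∀ w : OnePoint K, rm M N 1 (rm (P0.map (algebraMap F K)) (Q0.map (algebraMap F K)) a w) =
      rm P Q a w := by
    intro w
    rw [← rm_comp hMN hMNd hcop0' hdeg0' w, one_mul, hM, hN, iT_hom_one, iT_hom_one, ← eP, ← eQ]
  rw [h2, iT_rescale hs hm]

end Pool.Agent.Lib.P62h
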