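import Pool.Agent.Lib.P62h.DescA
import Pool.Agent.Lib.P62h.GCon
import Pool.Agent.Lib.P62h.FibG
import Pool.Agent.Lib.P62h.IsoT

/-!
# Module P62h.DescB: descent of the factorisation to an extension of bounded degree

(`zero_degree`, `grat`, HomA are black boxes.) `K` is the algebraic closure of `k`.
* `adjoin_degree`: induction on the finset: adjoin one element `z` to `E`; `[E(z) : E] =
  natDegree (minpoly E z) ≤ natDegree (minpoly k z) ≤ N` (`minpoly E z ∣ (minpoly k z).map`); tower law.
  Compare `P62g/GonSup.lean` for the handling of `restrictScalars` and finranks.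
* `descent`. `Pg, Qg ≠ 0` (if `Pg = 0` then `Qg` is a unit, degree `0 ≠ b`). Let `E` be generated over `k` by the
  zeros of `Pg` and `Qg`: at most `2 b ≤ 2 a b` elements, so `[E : k] ≤ (2 a b)^(2 a b)`. `K` is
  algebraically closed, so `Pg = C p * P1.map`, `Qg = C q * Q1.map` with monic `P1, Q1 ∈ E[X]` (products
  of `X - C z`), `p, q ≠ 0`; they are coprime with `max (deg) = b`. Let `c = (p / q)^m`,
  `A1 = [PA.comp (C c * X) : QA.comp (C c * X)]` (coprime, degree `a`), `g1 = [P1 : Q1]`: then
  `f = A1 ∘ x^m ∘ g1` over `K` (check on `toP1 u v`). `A1` is defined over `E` up to a common factor, by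
  `grat` with `F := E`: for `z ∈ k` with `Q1(z) ≠ 0` put `y = (P1(z) / Q1(z))^m ∈ E`; then
  `A1(y) = f(z) = [P(z) : Q(z)]` with `P(z), Q(z) ∈ k`, not both zero. The set of these `y` is infinite
  (`k` is infinite, each value is taken at most `m b` times, `P1^m - C y * Q1^m ≠ 0` since `P1, Q1`
  are coprime, not both constant). So `PA.comp (C c * X) = C l * PA'.map` etc. with
  `PA', QA' ∈ E[X]`.
-/

namespace Pool.Agent.Lib.P62h

open Polynomial IntermediateField Pool.Agent.Lib.P62a0c3

namespace DescBAux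

theorem adjoin_step {k K : Type*} [Field k] [Field K] [Algebra k K] {N : ℕ} (S : Set K)
    (z : K) (hz : IsIntegral k z) (hN : (minpoly k z).natDegree ≤ N)
    (h0 : 0 < Module.finrank k (IntermediateField.adjoin k S)) :
    0 < Module.finrank k (IntermediateField.adjoin k (S ∪ {z})) ∧
      Module.finrank k (IntermediateField.adjoin k (S ∪ {z})) ≤
        Module.finrank k (IntermediateField.adjoin k S) * N := by
  rw [← IntermediateField.adjoin_adjoin_left]
  have hz' : IsIntegral (IntermediateField.adjoin k S) z := hz.tower_top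
  have h1 : Module.finrank k (IntermediateField.restrictScalars k
      (IntermediateField.adjoin (IntermediateField.adjoin k S) ({z} : Set K))) =
      Module.finrank k (IntermediateField.adjoin k S) *
        (minpoly (IntermediateField.adjoin k S) z).natDegree := by
    rw [← IntermediateField.adjoin.finrank hz']
    exact (Module.finrank_mul_finrank k (IntermediateField.adjoin k S)
      (IntermediateField.adjoin (IntermediateField.adjoin k S) ({z} : Set K))).symm
  have h2 : (minpoly (IntermediateField.adjoin k S) z).natDegree ≤ N := by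
    refine le_trans ?_ hN
    have h3 := minpoly.dvd_map_of_isScalarTower k (IntermediateField.adjoin k S) z
    have h4 := Polynomial.natDegree_le_of_dvd h3
      ((Polynomial.map_ne_zero_iff (FaithfulSMul.algebraMap_injective _ _)).2
        (minpoly.ne_zero hz))
    rwa [Polynomial.natDegree_map] at h4
  rw [h1]
  exact ⟨Nat.mul_pos h0 (minpoly.natDegree_pos hz'), Nat.mul_le_mul_left _ h2⟩

/-- a polynomial with zeros in `E` is defined over `E` up to a constant -/
theorem exists_map {k K : Type*} [Field k] [Field K] [Algebra k K] [IsAlgClosed K]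
    (E : IntermediateField k K) {G : K[X]} (hG : G ≠ 0) (h : ∀ z, G.eval z = 0 → z ∈ E) :
    ∃ (p : K) (G1 : E[X]), p ≠ 0 ∧ G = C p * G1.map (algebraMap E K) := by
  have h1 : (G.roots.map (fun x => X - C x)).prod ∈ liftsRing (algebraMap E K) := by
    refine Subring.multiset_prod_mem _ _ fun f hf => ?_
    obtain ⟨z, hz, rfl⟩ := Multiset.mem_map.1 hf
    have hzE : z ∈ E := h z ((mem_roots hG).1 hz)
    refine sub_mem ?_ ?_
    · exact ⟨X, by simp⟩
    · exact ⟨C ⟨z, hzE⟩, by simp⟩
  obtain ⟨G1, hG1⟩ := h1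
  refine ⟨G.leadingCoeff, G1, leadingCoeff_ne_zero.2 hG, ?_⟩
  have h2 := (IsAlgClosed.splits G).eq_prod_roots
  have h3 : G1.map (algebraMap E K) = (G.roots.map (fun x => X - C x)).prod := hG1
  rw [h3]
  exact h2

end DescBAux

open DescBAux

theorem adjoin_degree {k K : Type*} [Field k] [Field K] [Algebra k K] {N : ℕ} (hN : 1 ≤ N)
    (T : Finset K) (hT : ∀ z ∈ T, IsIntegral k z ∧ (minpoly k z).natDegree ≤ N) :
    0 < Module.finrank k (IntermediateField.adjoin k (T : Set K)) ∧
      Module.finrank k (IntermediateField.adjoin k (T : Set K)) ≤ N ^ T.card := by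
  classical
  have _ := hN
  induction T using Finset.induction_on with
  | empty =>
    rw [Finset.coe_empty, IntermediateField.adjoin_empty, IntermediateField.finrank_bot,
      Finset.card_empty, pow_zero]
    exact ⟨Nat.one_pos, le_rfl⟩
  | insert z T hz ih =>
    obtain ⟨h1, h2⟩ := ih fun w hw => hT w (Finset.mem_insert_of_mem hw)
    obtain ⟨h3, h4⟩ := hT z (Finset.mem_insert_self z T)
    obtain ⟨h5, h6⟩ := adjoin_step (T : Set K) z h3 h4 h1
    have e : ((insert z T : Finset K) : Set K) = (T : Set K) ∪ {z} := by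
      rw [Finset.coe_insert, Set.insert_eq, Set.union_comm]
    rw [e, Finset.card_insert_of_notMem hz, pow_succ]
    exact ⟨h5, h6.trans (Nat.mul_le_mul_right _ h2)⟩

theorem descent {k K : Type*} [Field k] [CharZero k] [Field K] [Algebra k K] [IsAlgClosed K]
    {a b m : ℕ} (ha : 1 ≤ a) (hb : 1 ≤ b) (hm : 2 * (a * b) < m) {P Q : k[X]}
    (hPQ : IsCoprime P Q) (hd : max P.natDegree Q.natDegree = a * (m * b)) {PA QA Pg Qg : K[X]}
    (hA : IsCoprime PA QA) (hAa : max PA.natDegree QA.natDegree = a) (hg : IsCoprime Pg Qg)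
    (hgb : max Pg.natDegree Qg.natDegree = b)
    (hf : ∀ x : OnePoint K, rm (P.map (algebraMap k K)) (Q.map (algebraMap k K)) (a * (m * b)) x =
      rm PA QA a (rm (X ^ m) 1 m (rm Pg Qg b x))) :
    ∃ E : IntermediateField k K, 0 < Module.finrank k E ∧
      Module.finrank k E ≤ (2 * (a * b)) ^ (2 * (a * b)) ∧
      ∃ PA' QA' Pg' Qg' : E[X], IsCoprime PA' QA' ∧ max PA'.natDegree QA'.natDegree = a ∧
        IsCoprime Pg' Qg' ∧ max Pg'.natDegree Qg'.natDegree = b ∧
        ∀ x : OnePoint K, rm (P.map (algebraMap k K)) (Q.map (algebraMap k K)) (a * (m * b)) x =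
          rm (PA'.map (algebraMap E K)) (QA'.map (algebraMap E K)) a (rm (X ^ m) 1 m
            (rm (Pg'.map (algebraMap E K)) (Qg'.map (algebraMap E K)) b x)) := by
  classical
  have hm1 : 1 ≤ m := by omega
  have hab : 1 ≤ a * b := Nat.mul_pos ha hb
  have hPg0 : Pg ≠ 0 := by
    rintro rfl
    have h1 : IsUnit Qg := isCoprime_zero_left.1 hg
    rw [natDegree_eq_zero_of_isUnit h1, natDegree_zero] at hgb
    simp at hgb
    omega
  have hQg0 : Qg ≠ 0 := by
    rintro rfl
    have h1 : IsUnit Pg := isCoprime_zero_right.1 hg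
    rw [natDegree_eq_zero_of_isUnit h1, natDegree_zero] at hgb
    simp at hgb
    omega
  have hPgb : Pg.natDegree ≤ b := by rw [← hgb]; exact le_max_left _ _
  have hQgb : Qg.natDegree ≤ b := by rw [← hgb]; exact le_max_right _ _
  set T : Finset K := Pg.roots.toFinset ∪ Qg.roots.toFinset with hTdef
  have hTmem : ∀ z, z ∈ T ↔ Pg.eval z = 0 ∨ Qg.eval z = 0 := by
    intro z
    rw [hTdef, Finset.mem_union, Multiset.mem_toFinset, Multiset.mem_toFinset, mem_roots hPg0,
      mem_roots hQg0]
    exact Iff.rfl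
  have hTcard : T.card ≤ 2 * (a * b) := by
    have h1 := Finset.card_union_le Pg.roots.toFinset Qg.roots.toFinset
    have h2 := (Multiset.toFinset_card_le Pg.roots).trans (card_roots' Pg)
    have h3 := (Multiset.toFinset_card_le Qg.roots).trans (card_roots' Qg)
    have h4 : b ≤ a * b := Nat.le_mul_of_pos_left b ha
    rw [← hTdef] at h1
    omega
  have hTint : ∀ z ∈ T, IsIntegral k z ∧ (minpoly k z).natDegree ≤ 2 * (a * b) := fun z hz =>
    zero_degree ha hb hm hPQ hd hA hAa hg hgb hf z ((hTmem z).1 hz)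
  obtain ⟨hE1, hE2⟩ := adjoin_degree (by omega : 1 ≤ 2 * (a * b)) T hTint
  set E : IntermediateField k K := IntermediateField.adjoin k (T : Set K) with hEdef
  have hTE : ∀ z ∈ T, z ∈ E := fun z hz => IntermediateField.subset_adjoin k _ hz
  obtain ⟨p, P1, hp, eP⟩ := exists_map E hPg0 fun z hz => hTE z ((hTmem z).2 (Or.inl hz))
  obtain ⟨q, Q1, hq, eQ⟩ := exists_map E hQg0 fun z hz => hTE z ((hTmem z).2 (Or.inr hz))
  have hCp : IsUnit (C p : K[X]) := isUnit_C.2 (isUnit_iff_ne_zero.2 hp)
  have hCq : IsUnit (C q : K[X]) := isUnit_C.2 (isUnit_iff_ne_zero.2 hq)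
  have hg1' : IsCoprime (P1.map (algebraMap E K)) (Q1.map (algebraMap E K)) := by
    rw [eP, eQ] at hg
    exact (isCoprime_mul_unit_left_left hCp _ _).1
      ((isCoprime_mul_unit_left_right hCq _ _).1 hg)
  have hg1 : IsCoprime P1 Q1 := (Polynomial.isCoprime_map _).1 hg1'
  have hg1b : max P1.natDegree Q1.natDegree = b := by
    rw [eP, eQ, natDegree_C_mul hp, natDegree_C_mul hq, natDegree_map, natDegree_map] at hgb
    exact hgb
  -- the outer factor
  set s : K := p / q with hsdef
  have hs : s ≠ 0 := div_ne_zero hp hq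
  have ht : s ^ m ≠ 0 := pow_ne_zero m hs
  set PA1 : K[X] := PA.comp (C (s ^ m) * X) with hPA1
  set QA1 : K[X] := QA.comp (C (s ^ m) * X) with hQA1
  have hA1 : IsCoprime PA1 QA1 := iT_comp_coprime hA
  have hA1a : max PA1.natDegree QA1.natDegree = a := by
    rw [hPA1, hQA1, iT_comp_degree ht, iT_comp_degree ht, hAa]
  have key : ∀ x : OnePoint K, rm PA QA a (rm (X ^ m) 1 m (rm Pg Qg b x)) =
      rm PA1 QA1 a (rm (X ^ m) 1 m
        (rm (P1.map (algebraMap E K)) (Q1.map (algebraMap E K)) b x)) := by
    intro x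
    rw [← iT_rescale hs hm1 PA QA Pg Qg a b x]
    have e1 : C s * Qg = C p * Q1.map (algebraMap E K) := by
      rw [eQ, ← mul_assoc, ← C_mul, hsdef, div_mul_cancel₀ p hq]
    rw [e1]
    conv_lhs => rw [eP]
    rw [iT_rm_C_mul hp]
  -- its values
  have hinf := iT_values (k := k) (E := E) (P := P1 ^ m) (Q := Q1 ^ m) hg1.pow (by
    rw [iT_max_pow m hg1b]; exact Nat.mul_pos hm1 hb)
  obtain ⟨A, hAsub, hAcard⟩ := hinf.exists_subset_card_eq (2 * a + 1)
  obtain ⟨l, PA', QA', hl, ePA, eQA⟩ := grat (F := E) hA1 hA1a A (by omega) (by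
    intro y hy
    obtain ⟨c, hc, rfl⟩ := hAsub hy
    refine ⟨algebraMap k E (P.eval c), algebraMap k E (Q.eval c), ?_, ?_⟩
    · rcases eval_ne hPQ c with h | h
      · exact Or.inl ((_root_.map_ne_zero _).2 h)
      · exact Or.inr ((_root_.map_ne_zero _).2 h)
    · have h1 := hf (algebraMap k K c)
      rw [key, rm_some, rm_some, iT_pow_toP1 hm1] at h1
      have hcc : algebraMap k K c = algebraMap E K (algebraMap k E c) := rfl
      have e1 : (P1.map (algebraMap E K)).eval (algebraMap k K c) =
          algebraMap E K (P1.eval (algebraMap k E c)) := by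
        rw [hcc, eval_map_algebraMap, aeval_algebraMap_apply, coe_aeval_eq_eval]
      have e2 : (Q1.map (algebraMap E K)).eval (algebraMap k K c) =
          algebraMap E K (Q1.eval (algebraMap k E c)) := by
        rw [hcc, eval_map_algebraMap, aeval_algebraMap_apply, coe_aeval_eq_eval]
      rw [e1, e2] at h1
      have hc2 : (algebraMap E K (Q1.eval (algebraMap k E c))) ^ m ≠ 0 := by
        rw [← map_pow, ← eval_pow]
        exact (_root_.map_ne_zero _).2 hc
      have e3 : toP1 ((algebraMap E K (P1.eval (algebraMap k E c))) ^ m)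
          ((algebraMap E K (Q1.eval (algebraMap k E c))) ^ m) =
          ((algebraMap E K ((P1 ^ m).eval (algebraMap k E c) /
            (Q1 ^ m).eval (algebraMap k E c)) : K) : OnePoint K) := by
        unfold toP1
        rw [if_neg hc2, map_div₀, eval_pow, eval_pow, map_pow, map_pow]
      rw [e3, rm_some, eval_map_algebraMap, eval_map_algebraMap, aeval_algebraMap_apply,
        aeval_algebraMap_apply, coe_aeval_eq_eval] at h1
      have h2 := toP1_eq_imp h1
      have e4 : algebraMap E K (algebraMap k E (P.eval c)) = algebraMap k K (P.eval c) := rfl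
      have e5 : algebraMap E K (algebraMap k E (Q.eval c)) = algebraMap k K (Q.eval c) := rfl
      rw [e4, e5]
      linear_combination -h2)
  have hCl : IsUnit (C l : K[X]) := isUnit_C.2 (isUnit_iff_ne_zero.2 hl)
  have hA' : IsCoprime PA' QA' := by
    rw [ePA, eQA] at hA1
    exact (Polynomial.isCoprime_map _).1 ((isCoprime_mul_unit_left hCl _ _).1 hA1)
  have hAa' : max PA'.natDegree QA'.natDegree = a := by
    rw [ePA, eQA, natDegree_C_mul hl, natDegree_C_mul hl, natDegree_map, natDegree_map] at hA1a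
    exact hA1a
  refine ⟨E, hE1, hE2.trans (Nat.pow_le_pow_right (by omega) hTcard), PA', QA', P1, Q1, hA',
    hAa', hg1, hg1b, fun x => ?_⟩
  rw [hf, key, ePA, eQA, iT_rm_C_mul hl]

end Pool.Agent.Lib.P62h
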