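import Pool.Agent.Lib.P62h.HomA

/-!
# Module P62h.DescA: zeros and poles of the inner factor have small degree

`k` a field of characteristic zero, `f = [P : Q]` over `k`, and over the extension `K` (algebraic
closure) `f = A ∘ (x ↦ x^m) ∘ g`, `A = [PA : QA]` of degree `a`, `g = [Pg : Qg]` of degree `b`,
`m > 2 a b`. CLAIM: every zero `z ∈ K` of `Pg` or `Qg` is algebraic over `k` of degree at most `2 a b`.

Proof. Over `K`: `rm_comp` and `rm_inj` (`hom_coprime`, `K` infinite) give a constant `κ ≠ 0` with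
`P.map = C κ * hom a PA (Pg^m) (Qg^m)`, `Q.map = C κ * hom a QA (Pg^m) (Qg^m)` (`rm (X^m) 1 m (toP1 u v)
= toP1 (u^m) (v^m)`, `hom`-form of the power map: `hom m (X^m) Pg Qg = Pg^m`, `hom m 1 Pg Qg = Qg^m`).
Let `W = P' Q - P Q'` (derivatives), `W ∈ k[X]`.
(1) `W ≠ 0`: otherwise `Q ∣ P Q'`... so `Q ∣ Q'` by coprimality, `Q' = 0` (degree), `Q` constant
(characteristic zero), and `P' Q = 0`, so `P' = 0` or `Q = 0` (then `P` is a unit): in all cases
`d = 0`, but `d = a (m b) ≥ 1`.
(2) `deg W ≤ 2 d - 1`, `d = a m b`.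
(3) if `Pg(z) = 0`: modulo `(X - z)^m`: `P ≡ κ PA(0) Qg^(m a)`, `Q ≡ κ QA(0) Qg^(m a)`, so
`H = C (QA(0)) * P - C (PA(0)) * Q` is divisible by `(X - z)^m`, hence `H'` by `(X - z)^(m-1)`.
`(PA(0), QA(0)) ≠ (0,0)`. If `QA(0) ≠ 0`: `QA(0) W = H' Q - H Q'` (expand), if `PA(0) ≠ 0`:
`PA(0) W = P H' - P' H` up to sign; so `(X - z)^(m-1) ∣ W`. If `Qg(z) = 0`: the same with
`(PA.coeff a, QA.coeff a)` in the place of `(PA(0), QA(0))` (`P ≡ κ PA.coeff a * Pg^(m a)`).
(4) `W ≠ 0` vanishes at `z`, so `z` is algebraic (`m ≥ 2`); let `μ = minpoly k z`, irreducible and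
separable, so `z` is a simple root of `μ`. Let `r` be the multiplicity of `μ` in `W` over `k[X]`:
`W = μ^r W1`, `μ ∤ W1`, so `W1(z) ≠ 0` and the multiplicity of `z` as a root of `W` is `r`
(`rootMultiplicity` is additive, that of `μ` is `1`). So `r ≥ m - 1` and
`(m - 1) deg μ ≤ deg W ≤ 2 a b m - 1 < (2 a b + 1)(m - 1)` as `m > 2 a b`: `deg μ ≤ 2 a b`.
-/

namespace Pool.Agent.Lib.P62h

open Polynomial Pool.Agent.Lib.P62a0c3

theorem dA_hom_dvd_left {L : Type*} [Field L] (d : ℕ) (P A B : L[X]) :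
    A ∣ hom d P A B - C (P.coeff 0) * B ^ d := by
  unfold hom
  rw [Finset.sum_range_succ']
  simp only [pow_zero, mul_one, Nat.sub_zero, add_sub_cancel_right]
  refine Finset.dvd_sum fun i _ => ?_
  rw [pow_succ]
  exact ⟨C (P.coeff (i + 1)) * A ^ i * B ^ (d - (i + 1)), by ring⟩

theorem dA_hom_dvd_right {L : Type*} [Field L] (d : ℕ) (P A B : L[X]) :
    B ∣ hom d P A B - C (P.coeff d) * A ^ d := by
  unfold hom
  rw [Finset.sum_range_succ]
  simp only [Nat.sub_self, pow_zero, mul_one, add_sub_cancel_right]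
  refine Finset.dvd_sum fun i hi => ?_
  have h : d - i ≠ 0 := by have := Finset.mem_range.1 hi; omega
  exact Dvd.dvd.mul_left (dvd_pow_self B h) _

theorem dA_hom_pow {L : Type*} [Field L] (m : ℕ) (A B : L[X]) :
    hom m (X ^ m : L[X]) A B = A ^ m := by
  unfold hom
  rw [Finset.sum_eq_single m]
  · simp
  · intro i _ hi
    rw [coeff_X_pow, if_neg hi]; simp
  · intro h; exact absurd (Finset.mem_range.2 (Nat.lt_succ_self m)) h

theorem dA_hom_one {L : Type*} [Field L] (m : ℕ) (A B : L[X]) :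
    hom m (1 : L[X]) A B = B ^ m := by
  unfold hom
  rw [Finset.sum_eq_single 0]
  · simp
  · intro i _ hi
    rw [coeff_one, if_neg hi]; simp
  · intro h; exact absurd (Finset.mem_range.2 (Nat.succ_pos m)) h

theorem dA_max_pow {L : Type*} [Field L] {A B : L[X]} {b : ℕ} (m : ℕ)
    (h : max A.natDegree B.natDegree = b) :
    max (A ^ m).natDegree (B ^ m).natDegree = m * b := by
  rw [natDegree_pow, natDegree_pow, ← h]
  exact (Nat.mul_max_mul_left _ _ _)

theorem dA_pow_comp {L : Type*} [Field L] {Pg Qg : L[X]} {b : ℕ} (m : ℕ)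
    (hg : IsCoprime Pg Qg) (hgb : max Pg.natDegree Qg.natDegree = b) (x : OnePoint L) :
    rm (X ^ m) 1 m (rm Pg Qg b x) = rm (Pg ^ m) (Qg ^ m) (m * b) x := by
  rw [← rm_comp (P := (X ^ m : L[X])) (Q := 1) isCoprime_one_right (by simp) hg hgb x,
    dA_hom_pow, dA_hom_one]

theorem dA_compose {k K : Type*} [Field k] [CharZero k] [Field K] [Algebra k K] {a b m : ℕ}
    {P Q : k[X]} (hPQ : IsCoprime P Q) {PA QA Pg Qg : K[X]}
    (hA : IsCoprime PA QA) (hAa : max PA.natDegree QA.natDegree = a) (hg : IsCoprime Pg Qg)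
    (hgb : max Pg.natDegree Qg.natDegree = b)
    (hf : ∀ x : OnePoint K, rm (P.map (algebraMap k K)) (Q.map (algebraMap k K)) (a * (m * b)) x =
      rm PA QA a (rm (X ^ m) 1 m (rm Pg Qg b x))) :
    ∃ l : K, l ≠ 0 ∧ P.map (algebraMap k K) = C l * hom a PA (Pg ^ m) (Qg ^ m) ∧
      Q.map (algebraMap k K) = C l * hom a QA (Pg ^ m) (Qg ^ m) := by
  haveI : CharZero K := charZero_of_injective_algebraMap (FaithfulSMul.algebraMap_injective k K)
  have hc : IsCoprime (P.map (algebraMap k K)) (Q.map (algebraMap k K)) :=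
    (Polynomial.isCoprime_map _).2 hPQ
  have hpw : IsCoprime (Pg ^ m) (Qg ^ m) := hg.pow
  refine rm_inj (d := a * (m * b)) (d' := a * (m * b)) (hom_coprime hA hAa hpw) hc ?_
  intro z
  rw [hf, dA_pow_comp m hg hgb, rm_comp hA hAa hpw (dA_max_pow m hgb)]

theorem dA_wronski {K : Type*} [Field K] {m : ℕ} {z : K} {P Q : K[X]} {p q : K}
    (hpq : p ≠ 0 ∨ q ≠ 0) (h : (X - C z) ^ m ∣ C q * P - C p * Q) :
    (X - C z) ^ (m - 1) ∣ derivative P * Q - P * derivative Q := by
  have h0 : (X - C z) ^ (m - 1) ∣ C q * P - C p * Q :=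
    (pow_dvd_pow _ (Nat.sub_le m 1)).trans h
  have h1 : (X - C z) ^ (m - 1) ∣ C q * derivative P - C p * derivative Q := by
    obtain ⟨R, hR⟩ := h
    have : C q * derivative P - C p * derivative Q = derivative (C q * P - C p * Q) := by
      simp [derivative_mul]
    rw [this, hR, derivative_mul]
    refine dvd_add ?_ (Dvd.dvd.mul_right (pow_dvd_pow _ (Nat.sub_le m 1)) _)
    refine Dvd.dvd.mul_right ?_ _
    rw [derivative_pow]
    exact Dvd.dvd.mul_right (Dvd.dvd.mul_left dvd_rfl _) _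
  rcases hpq with hp | hq
  · have e : C p * (derivative P * Q - P * derivative Q) =
        P * (C q * derivative P - C p * derivative Q) - derivative P * (C q * P - C p * Q) := by
      ring
    have h2 : (X - C z) ^ (m - 1) ∣ C p * (derivative P * Q - P * derivative Q) := by
      rw [e]
      exact dvd_sub (Dvd.dvd.mul_left h1 _) (Dvd.dvd.mul_left h0 _)
    exact (IsUnit.dvd_mul_left (isUnit_C.2 (isUnit_iff_ne_zero.2 hp))).1 h2
  · have e : C q * (derivative P * Q - P * derivative Q) =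
        (C q * derivative P - C p * derivative Q) * Q - (C q * P - C p * Q) * derivative Q := by
      ring
    have h2 : (X - C z) ^ (m - 1) ∣ C q * (derivative P * Q - P * derivative Q) := by
      rw [e]
      exact dvd_sub (Dvd.dvd.mul_right h1 _) (Dvd.dvd.mul_right h0 _)
    exact (IsUnit.dvd_mul_left (isUnit_C.2 (isUnit_iff_ne_zero.2 hq))).1 h2

theorem dA_minpoly_pow {k K : Type*} [Field k] [CharZero k] [Field K] [Algebra k K] {z : K}
    (hz : IsIntegral k z) (r : ℕ) :
    ∀ W : k[X], (X - C z) ^ r ∣ W.map (algebraMap k K) → minpoly k z ^ r ∣ W := by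
  have hroot : ((minpoly k z).map (algebraMap k K)).IsRoot z := by
    rw [IsRoot.def, eval_map_algebraMap, minpoly.aeval]
  obtain ⟨ν, hν⟩ := dvd_iff_isRoot.2 hroot
  have hνz : ν.eval z ≠ 0 := by
    have h := (minpoly.irreducible hz).separable.aeval_derivative_ne_zero (minpoly.aeval k z)
    rw [← eval_map_algebraMap, ← derivative_map, hν, derivative_mul] at h
    simpa using h
  have hcop : ∀ s : ℕ, IsCoprime ((X - C z) ^ s) ν := by
    intro s
    refine IsCoprime.pow_left ?_
    rw [(irreducible_X_sub_C z).coprime_iff_not_dvd, dvd_iff_isRoot]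
    exact hνz
  induction r with
  | zero => intro W _; simp
  | succ r ih =>
    intro W hW
    have hW0 : minpoly k z ∣ W := by
      apply minpoly.dvd
      have : (X - C z) ∣ W.map (algebraMap k K) := (dvd_pow_self _ (Nat.succ_ne_zero r)).trans hW
      rw [dvd_iff_isRoot, IsRoot.def, eval_map_algebraMap] at this
      exact this
    obtain ⟨W1, rfl⟩ := hW0
    rw [Polynomial.map_mul, hν, pow_succ', mul_assoc] at hW
    have h1 := (mul_dvd_mul_iff_left (X_sub_C_ne_zero z)).1 hW
    have h2 := (hcop r).dvd_of_dvd_mul_left h1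
    rw [pow_succ']
    exact mul_dvd_mul_left _ (ih W1 h2)

theorem zero_degree {k K : Type*} [Field k] [CharZero k] [Field K] [Algebra k K] {a b m : ℕ}
    (ha : 1 ≤ a) (hb : 1 ≤ b) (hm : 2 * (a * b) < m) {P Q : k[X]} (hPQ : IsCoprime P Q)
    (hd : max P.natDegree Q.natDegree = a * (m * b)) {PA QA Pg Qg : K[X]}
    (hA : IsCoprime PA QA) (hAa : max PA.natDegree QA.natDegree = a) (hg : IsCoprime Pg Qg)
    (hgb : max Pg.natDegree Qg.natDegree = b)
    (hf : ∀ x : OnePoint K, rm (P.map (algebraMap k K)) (Q.map (algebraMap k K)) (a * (m * b)) x =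
      rm PA QA a (rm (X ^ m) 1 m (rm Pg Qg b x)))
    (z : K) (hz : Pg.eval z = 0 ∨ Qg.eval z = 0) :
    IsIntegral k z ∧ (minpoly k z).natDegree ≤ 2 * (a * b) := by
  have hab : 1 ≤ a * b := Nat.mul_pos ha hb
  obtain ⟨κ, hκ, eP, eQ⟩ := dA_compose hPQ hA hAa hg hgb hf
  set W : k[X] := derivative P * Q - P * derivative Q with hW
  have hd1 : 1 ≤ a * (m * b) := Nat.mul_pos ha (Nat.mul_pos (by omega) hb)
  -- (1)
  have hW0 : W ≠ 0 := by
    intro h0
    rw [hW, sub_eq_zero] at h0
    have hQ : derivative Q = 0 := by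
      rw [← dvd_derivative_iff]
      refine hPQ.symm.dvd_of_dvd_mul_left ?_
      rw [← h0]; exact Dvd.intro_left _ rfl
    have hP : derivative P = 0 := by
      rw [← dvd_derivative_iff]
      refine hPQ.dvd_of_dvd_mul_right ?_
      rw [h0]; exact Dvd.intro _ rfl
    have h1 := natDegree_eq_zero_of_derivative_eq_zero hP
    have h2 := natDegree_eq_zero_of_derivative_eq_zero hQ
    rw [h1, h2] at hd
    simp at hd
    omega
  -- (2)
  have hWdeg : W.natDegree ≤ 2 * (a * (m * b)) - 1 := by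
    have hPd : P.natDegree ≤ a * (m * b) := by rw [← hd]; exact le_max_left _ _
    have hQd : Q.natDegree ≤ a * (m * b) := by rw [← hd]; exact le_max_right _ _
    have key : ∀ U V : k[X], U.natDegree ≤ a * (m * b) → V.natDegree ≤ a * (m * b) →
        (derivative U * V).natDegree ≤ 2 * (a * (m * b)) - 1 := by
      intro U V hU hV
      rcases Nat.eq_zero_or_pos U.natDegree with h | h
      · rw [derivative_of_natDegree_zero h]; simp
      · have h1 := natDegree_derivative_le U
        have h2 := natDegree_mul_le (p := derivative U) (q := V)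
        omega
    rw [hW]
    refine (natDegree_sub_le _ _).trans (max_le (key P Q hPd hQd) ?_)
    rw [mul_comm]; exact key Q P hQd hPd
  -- (3)
  have hdvd : (X - C z) ^ (m - 1) ∣ W.map (algebraMap k K) := by
    have hWm : W.map (algebraMap k K) = derivative (P.map (algebraMap k K)) *
        Q.map (algebraMap k K) - P.map (algebraMap k K) * derivative (Q.map (algebraMap k K)) := by
      rw [hW, Polynomial.map_sub, Polynomial.map_mul, Polynomial.map_mul, derivative_map,
        derivative_map]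
    rw [hWm]
    rcases hz with hz | hz
    · have hne : PA.coeff 0 ≠ 0 ∨ QA.coeff 0 ≠ 0 := by
        by_contra hcon
        push Not at hcon
        obtain ⟨u, v, huv⟩ := hA
        have := congrArg (eval 0) huv
        rw [eval_add, eval_mul, eval_mul, ← coeff_zero_eq_eval_zero PA,
          ← coeff_zero_eq_eval_zero QA, hcon.1, hcon.2] at this
        simp at this
      refine dA_wronski (p := PA.coeff 0) (q := QA.coeff 0) hne ?_
      have hX : (X - C z) ^ m ∣ Pg ^ m := pow_dvd_pow_of_dvd (dvd_iff_isRoot.2 hz) m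
      have h1 := hX.trans (dA_hom_dvd_left a PA (Pg ^ m) (Qg ^ m))
      have h2 := hX.trans (dA_hom_dvd_left a QA (Pg ^ m) (Qg ^ m))
      rw [eP, eQ]
      have e : C (QA.coeff 0) * (C κ * hom a PA (Pg ^ m) (Qg ^ m)) -
          C (PA.coeff 0) * (C κ * hom a QA (Pg ^ m) (Qg ^ m)) =
          C (QA.coeff 0) * C κ * (hom a PA (Pg ^ m) (Qg ^ m) - C (PA.coeff 0) * (Qg ^ m) ^ a) -
          C (PA.coeff 0) * C κ * (hom a QA (Pg ^ m) (Qg ^ m) - C (QA.coeff 0) * (Qg ^ m) ^ a) := by
        ring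
      rw [e]
      exact dvd_sub (Dvd.dvd.mul_left h1 _) (Dvd.dvd.mul_left h2 _)
    · have hne : PA.coeff a ≠ 0 ∨ QA.coeff a ≠ 0 := by
        rcases max_choice PA.natDegree QA.natDegree with h | h
        · left
          have h3 : PA.natDegree = a := by rw [← hAa]; exact h.symm
          have hne0 : PA ≠ 0 := by
            rintro rfl; simp at h3; omega
          rw [← h3]; exact leadingCoeff_ne_zero.2 hne0
        · right
          have h3 : QA.natDegree = a := by rw [← hAa]; exact h.symm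
          have hne0 : QA ≠ 0 := by
            rintro rfl; simp at h3; omega
          rw [← h3]; exact leadingCoeff_ne_zero.2 hne0
      refine dA_wronski (p := PA.coeff a) (q := QA.coeff a) hne ?_
      have hX : (X - C z) ^ m ∣ Qg ^ m := pow_dvd_pow_of_dvd (dvd_iff_isRoot.2 hz) m
      have h1 := hX.trans (dA_hom_dvd_right a PA (Pg ^ m) (Qg ^ m))
      have h2 := hX.trans (dA_hom_dvd_right a QA (Pg ^ m) (Qg ^ m))
      rw [eP, eQ]
      have e : C (QA.coeff a) * (C κ * hom a PA (Pg ^ m) (Qg ^ m)) -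
          C (PA.coeff a) * (C κ * hom a QA (Pg ^ m) (Qg ^ m)) =
          C (QA.coeff a) * C κ * (hom a PA (Pg ^ m) (Qg ^ m) - C (PA.coeff a) * (Pg ^ m) ^ a) -
          C (PA.coeff a) * C κ * (hom a QA (Pg ^ m) (Qg ^ m) - C (QA.coeff a) * (Pg ^ m) ^ a) := by
        ring
      rw [e]
      exact dvd_sub (Dvd.dvd.mul_left h1 _) (Dvd.dvd.mul_left h2 _)
  -- (4)
  have hint : IsIntegral k z := by
    apply IsAlgebraic.isIntegral
    refine ⟨W, hW0, ?_⟩
    have h1 : (X - C z) ∣ W.map (algebraMap k K) :=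
      (dvd_pow_self _ (by omega)).trans hdvd
    rw [dvd_iff_isRoot, IsRoot.def, eval_map_algebraMap] at h1
    exact h1
  refine ⟨hint, ?_⟩
  have hμ := natDegree_le_of_dvd (dA_minpoly_pow hint (m - 1) W hdvd) hW0
  rw [natDegree_pow] at hμ
  have h5 := hμ.trans hWdeg
  by_contra hcon
  push Not at hcon
  obtain ⟨t, ht⟩ : ∃ t, m = 2 * (a * b) + 1 + t := ⟨m - (2 * (a * b) + 1), by omega⟩
  obtain ⟨n, hn⟩ : ∃ n, (minpoly k z).natDegree = 2 * (a * b) + 1 + n :=
    ⟨(minpoly k z).natDegree - (2 * (a * b) + 1), by omega⟩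
  have h6 : a * (m * b) = m * (a * b) := by ring
  rw [h6, hn, ht] at h5
  generalize a * b = c at *
  have h7 : 1 ≤ 2 * ((2 * c + 1 + t) * c) := by nlinarith
  have h8 : (2 * c + 1 + t - 1) * (2 * c + 1 + n) + 1 ≤ 2 * ((2 * c + 1 + t) * c) := by omega
  have h9 : 2 * c + 1 + t - 1 = 2 * c + t := by omega
  rw [h9] at h8
  nlinarith [Nat.zero_le (t * n), Nat.zero_le (c * n), Nat.zero_le (c * t)]

end Pool.Agent.Lib.P62h
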