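import Pool.Agent.Lib.P62h.RmD
import Pool.Agent.Lib.P62a0c3.Preper

/-!
# Module P62h.HomA: composition of rational maps

`rm P Q d : x ↦ [P(x) : Q(x)]` on `OnePoint L` (value at `∞`: `[P.coeff d : Q.coeff d]`),
`toP1 p q = [p : q]` (`if q = 0 then ∞ else p / q`), `hom d P A B = Σ_{i ≤ d} P.coeff i A^i B^(d-i)`.
`toP1_mul r p q : r ≠ 0 → toP1 (p * r) (q * r) = toP1 p q` (or similar) is in `P62a0c3/Inv.lean`.

Scalar form first: for `u, v : L` let `H P (u, v) = Σ_{i ≤ d} P.coeff i * u ^ i * v ^ (d - i)`;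
`(hom d P A B).eval z = H P (A z, B z)`. If `P.natDegree ≤ d`: `H P (u, v) = v ^ d * P.eval (u / v)` for
`v ≠ 0` (`Polynomial.eval_eq_sum_range'`), `H P (u, 0) = P.coeff d * u ^ d`.
FACT: `P, Q` coprime, `max (natDegree) = d`, `(u, v) ≠ (0, 0)` imply `(H P, H Q)(u, v) ≠ (0, 0)`
(`v ≠ 0`: no common zero by Bezout; `v = 0`: one of `P.coeff d, Q.coeff d` is nonzero: if `d = 0`
and both are `0` then `P = Q = 0`, not coprime).
* `hom_coprime`: pass to the algebraic closure of `L` (`Polynomial.isCoprime_map`,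
  `hom_map`); there coprime means no common zero, use FACT.
* `hom_degree`: the coefficient of `X ^ (d a)` of `hom d P A B` is
  `H P (A.coeff a, B.coeff a)` (`coeff_mul_degree`-style: `(A^i B^(d-i)).coeff (d a) =
  (A.coeff a)^i (B.coeff a)^(d-i)`), and `natDegree ≤ d a`; apply FACT with
  `(A.coeff a, B.coeff a) ≠ (0,0)`.
* `rm_comp`: at a finite `z`: `rm A B a z = toP1 (A z) (B z)`; if `B z ≠ 0` this is `A z / B z` and
  `H P (A z, B z) = (B z)^d P(A z / B z)`, same for `Q`; if `B z = 0` then `A z ≠ 0`, and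
  `H P (A z, 0) = P.coeff d (A z)^d`. At `∞` the same with `A.coeff a, B.coeff a`.
* `rm_inj`: `P * Q' - Q * P'` vanishes at all points of the infinite field `L`
  (`toP1 p q = toP1 p' q' → p * q' = p' * q`, proved as `toP1_eq_imp` in `P62a0c3/Preper.lean`), so
  it is `0`; coprimality: `P ∣ P'`, `Q ∣ Q'` and conversely, `P' = P W`, `Q' = Q W`, `W` a unit.
* `mob_inv`: `(C δ X - C β, -C γ X + C α)` composed with `(C α X + C β, C γ X + C δ)` is the
  identity: compute on `toP1 u v` (see the lemma `mob_inv` in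
  `Pool/Agent/Results/MP_62a0c3_nt/BicriticalAllD.lean`, which has the same proof).
-/

namespace Pool.Agent.Lib.P62h

open Polynomial Pool.Agent.Lib.P62a0c3

namespace HomAAux

variable {L : Type*} [Field L]

/-- scalar homogeneous form -/
noncomputable def H (d : ℕ) (P : L[X]) (u v : L) : L :=
  ∑ i ∈ Finset.range (d + 1), P.coeff i * u ^ i * v ^ (d - i)

theorem eval_hom (d : ℕ) (P A B : L[X]) (z : L) :
    (hom d P A B).eval z = H d P (A.eval z) (B.eval z) := by
  unfold hom H
  rw [eval_finsetSum]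
  apply Finset.sum_congr rfl
  intro i _
  simp

theorem H_ne (d : ℕ) (P : L[X]) (hP : P.natDegree ≤ d) (u v : L) (hv : v ≠ 0) :
    H d P u v = v ^ d * P.eval (u / v) := by
  unfold H
  rw [eval_eq_sum_range' (Nat.lt_succ_of_le hP), Finset.mul_sum]
  apply Finset.sum_congr rfl
  intro i hi
  have hi' : i ≤ d := Nat.lt_succ_iff.1 (Finset.mem_range.1 hi)
  have h1 : v ^ d = v ^ i * v ^ (d - i) := by rw [← pow_add, Nat.add_sub_cancel' hi']
  rw [h1, div_pow]
  have h2 : v ^ i ≠ 0 := pow_ne_zero _ hv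
  field_simp

theorem H_zero (d : ℕ) (P : L[X]) (u : L) : H d P u 0 = P.coeff d * u ^ d := by
  unfold H
  rw [Finset.sum_eq_single d]
  · simp
  · intro i hi hid
    have hi' : i ≤ d := Nat.lt_succ_iff.1 (Finset.mem_range.1 hi)
    rw [zero_pow (by omega), mul_zero]
  · intro h
    exact absurd (Finset.self_mem_range_succ d) h

theorem not_both (A B : L[X]) (hAB : IsCoprime A B) (z : L) : A.eval z ≠ 0 ∨ B.eval z ≠ 0 := by
  by_contra h
  push Not at h
  obtain ⟨x, y, hxy⟩ := hAB
  have := congrArg (eval z) hxy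
  rw [eval_add, eval_mul, eval_mul, h.1, h.2] at this
  simp at this

theorem top_ne {A B : L[X]} (hAB : IsCoprime A B) {a : ℕ} (ha : max A.natDegree B.natDegree = a) :
    A.coeff a ≠ 0 ∨ B.coeff a ≠ 0 := by
  by_contra h
  push Not at h
  obtain ⟨h1, h2⟩ := h
  have key : ∀ A B : L[X], IsCoprime A B → A.natDegree = a → B.natDegree ≤ a → A.coeff a = 0 →
      B.coeff a = 0 → False := by
    intro A B hAB hA hB h1 h2
    have hA0 : A = 0 := by
      rw [← leadingCoeff_eq_zero, leadingCoeff, hA]; exact h1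
    subst hA0
    rw [natDegree_zero] at hA
    subst hA
    have hB0 : B = 0 := by
      rw [eq_C_of_natDegree_le_zero hB, h2, C_0]
    subst hB0
    exact not_isCoprime_zero_zero hAB
  rcases le_total A.natDegree B.natDegree with hle | hle
  · rw [max_eq_right hle] at ha
    exact key B A hAB.symm ha (by omega) h2 h1
  · rw [max_eq_left hle] at ha
    exact key A B hAB ha (by omega) h1 h2

/-- FACT -/
theorem fact {d : ℕ} {P Q : L[X]} (hPQ : IsCoprime P Q)
    (hd : max P.natDegree Q.natDegree = d) {u v : L} (huv : u ≠ 0 ∨ v ≠ 0) :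
    H d P u v ≠ 0 ∨ H d Q u v ≠ 0 := by
  have hP : P.natDegree ≤ d := by rw [← hd]; exact le_max_left _ _
  have hQ : Q.natDegree ≤ d := by rw [← hd]; exact le_max_right _ _
  by_cases hv : v = 0
  · subst hv
    have hu : u ≠ 0 := by
      rcases huv with h | h
      · exact h
      · exact absurd rfl h
    rw [H_zero, H_zero]
    rcases top_ne hPQ hd with h | h
    · left; exact mul_ne_zero h (pow_ne_zero _ hu)
    · right; exact mul_ne_zero h (pow_ne_zero _ hu)
  · rw [H_ne d P hP u v hv, H_ne d Q hQ u v hv]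
    rcases not_both P Q hPQ (u / v) with h | h
    · left; exact mul_ne_zero (pow_ne_zero _ hv) h
    · right; exact mul_ne_zero (pow_ne_zero _ hv) h

theorem rm_toP1 {d : ℕ} {P Q : L[X]}
    (hd : max P.natDegree Q.natDegree ≤ d) {u v : L} (huv : u ≠ 0 ∨ v ≠ 0) :
    rm P Q d (toP1 u v) = toP1 (H d P u v) (H d Q u v) := by
  have hP : P.natDegree ≤ d := le_trans (le_max_left _ _) hd
  have hQ : Q.natDegree ≤ d := le_trans (le_max_right _ _) hd
  by_cases hv : v = 0
  · subst hv
    have hu : u ≠ 0 := by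
      rcases huv with h | h
      · exact h
      · exact absurd rfl h
    rw [H_zero, H_zero]
    have h1 : toP1 u (0 : L) = OnePoint.infty := by unfold toP1; simp
    rw [h1, rm_infty, mul_comm, mul_comm (Q.coeff d), toP1_mul _ _ _ (pow_ne_zero _ hu)]
  · rw [H_ne d P hP u v hv, H_ne d Q hQ u v hv, toP1_mul _ _ _ (pow_ne_zero _ hv)]
    have h1 : toP1 u v = ((u / v : L) : OnePoint L) := by unfold toP1; rw [if_neg hv]
    rw [h1, rm_some]

theorem natDegree_hom_le {d a : ℕ} {P A B : L[X]} (hA : A.natDegree ≤ a) (hB : B.natDegree ≤ a) :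
    (hom d P A B).natDegree ≤ d * a := by
  unfold hom
  apply natDegree_sum_le_of_forall_le
  intro i hi
  have hi' : i ≤ d := Nat.lt_succ_iff.1 (Finset.mem_range.1 hi)
  have h1 : (C (P.coeff i) * A ^ i).natDegree ≤ i * a :=
    (natDegree_C_mul_le _ _).trans (natDegree_pow_le_of_le i hA)
  have h2 : (B ^ (d - i)).natDegree ≤ (d - i) * a := natDegree_pow_le_of_le (d - i) hB
  have h3 := natDegree_mul_le_of_le h1 h2
  refine h3.trans (le_of_eq ?_)
  rw [← Nat.add_mul, Nat.add_sub_cancel' hi']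

theorem coeff_hom {d a : ℕ} {P A B : L[X]} (hA : A.natDegree ≤ a) (hB : B.natDegree ≤ a) :
    (hom d P A B).coeff (d * a) = H d P (A.coeff a) (B.coeff a) := by
  unfold hom H
  rw [finsetSum_coeff]
  apply Finset.sum_congr rfl
  intro i hi
  have hi' : i ≤ d := Nat.lt_succ_iff.1 (Finset.mem_range.1 hi)
  have h0 : d * a = i * a + (d - i) * a := by rw [← Nat.add_mul, Nat.add_sub_cancel' hi']
  have h1 : (C (P.coeff i) * A ^ i).natDegree ≤ i * a :=
    (natDegree_C_mul_le _ _).trans (natDegree_pow_le_of_le i hA)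
  have h2 : (B ^ (d - i)).natDegree ≤ (d - i) * a := natDegree_pow_le_of_le (d - i) hB
  rw [h0, coeff_mul_add_eq_of_natDegree_le h1 h2, coeff_C_mul, coeff_pow_of_natDegree_le hA,
    coeff_pow_of_natDegree_le hB]

end HomAAux

open HomAAux

theorem hom_map {K L : Type*} [Field K] [Field L] (φ : K →+* L) (d : ℕ) (P A B : K[X]) :
    (hom d P A B).map φ = hom d (P.map φ) (A.map φ) (B.map φ) := by
  unfold hom
  rw [Polynomial.map_sum]
  apply Finset.sum_congr rfl
  intro i _
  simp

theorem rm_map {K L : Type*} [Field K] [Field L] (φ : K →+* L) (P Q : K[X]) (d : ℕ)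
    (x : OnePoint K) :
    OnePoint.map φ (rm P Q d x) = rm (P.map φ) (Q.map φ) d (OnePoint.map φ x) := by
  have key : ∀ p q : K, OnePoint.map φ (toP1 p q) = toP1 (φ p) (φ q) := by
    intro p q
    unfold toP1
    by_cases hq : q = 0
    · subst hq
      simp
    · rw [if_neg hq, if_neg ((map_ne_zero φ).2 hq), OnePoint.map_some, map_div₀]
  induction x using OnePoint.rec with
  | infty =>
    rw [rm_infty, key, OnePoint.map_infty, rm_infty, coeff_map, coeff_map]
  | coe z =>
    rw [rm_some, key, OnePoint.map_some, rm_some, eval_map_apply, eval_map_apply]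

theorem hom_coprime {L : Type*} [Field L] {d : ℕ} {P Q A B : L[X]} (hPQ : IsCoprime P Q)
    (hd : max P.natDegree Q.natDegree = d) (hAB : IsCoprime A B) :
    IsCoprime (hom d P A B) (hom d Q A B) := by
  let K := AlgebraicClosure L
  let φ : L →+* K := algebraMap L K
  rw [← Polynomial.isCoprime_map φ, hom_map, hom_map]
  have hPQ' : IsCoprime (P.map φ) (Q.map φ) := (Polynomial.isCoprime_map φ).2 hPQ
  have hAB' : IsCoprime (A.map φ) (B.map φ) := (Polynomial.isCoprime_map φ).2 hAB
  have hd' : max (P.map φ).natDegree (Q.map φ).natDegree = d := by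
    rw [natDegree_map, natDegree_map]; exact hd
  rw [Polynomial.isCoprime_iff_aeval_ne_zero_of_isAlgClosed K K]
  intro a
  rw [coe_aeval_eq_eval, eval_hom, eval_hom]
  exact fact hPQ' hd' (not_both _ _ hAB' a)

theorem hom_degree {L : Type*} [Field L] {d a : ℕ} {P Q A B : L[X]} (hPQ : IsCoprime P Q)
    (hd : max P.natDegree Q.natDegree = d) (hAB : IsCoprime A B)
    (ha : max A.natDegree B.natDegree = a) :
    max (hom d P A B).natDegree (hom d Q A B).natDegree = d * a := by
  have hA : A.natDegree ≤ a := by rw [← ha]; exact le_max_left _ _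
  have hB : B.natDegree ≤ a := by rw [← ha]; exact le_max_right _ _
  apply le_antisymm
  · exact max_le (natDegree_hom_le hA hB) (natDegree_hom_le hA hB)
  · rcases fact hPQ hd (top_ne hAB ha) with h | h
    · rw [← coeff_hom hA hB] at h
      exact le_trans (le_natDegree_of_ne_zero h) (le_max_left _ _)
    · rw [← coeff_hom hA hB] at h
      exact le_trans (le_natDegree_of_ne_zero h) (le_max_right _ _)

theorem rm_comp {L : Type*} [Field L] {d a : ℕ} {P Q A B : L[X]} (hPQ : IsCoprime P Q)
    (hd : max P.natDegree Q.natDegree = d) (hAB : IsCoprime A B)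
    (ha : max A.natDegree B.natDegree = a) (x : OnePoint L) :
    rm (hom d P A B) (hom d Q A B) (d * a) x = rm P Q d (rm A B a x) := by
  have hA : A.natDegree ≤ a := by rw [← ha]; exact le_max_left _ _
  have hB : B.natDegree ≤ a := by rw [← ha]; exact le_max_right _ _
  induction x using OnePoint.rec with
  | infty =>
    rw [rm_infty, rm_infty, rm_toP1 hd.le (top_ne hAB ha), coeff_hom hA hB, coeff_hom hA hB]
  | coe z =>
    rw [rm_some, rm_some, rm_toP1 hd.le (not_both A B hAB z), eval_hom, eval_hom]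

theorem rm_inj {L : Type*} [Field L] [Infinite L] {d d' : ℕ} {P Q P' Q' : L[X]}
    (h : IsCoprime P Q) (h' : IsCoprime P' Q')
    (heq : ∀ z : L, rm P Q d (z : OnePoint L) = rm P' Q' d' (z : OnePoint L)) :
    ∃ l : L, l ≠ 0 ∧ P' = C l * P ∧ Q' = C l * Q := by
  have hx : P * Q' = P' * Q := by
    apply Polynomial.funext
    intro z
    rw [eval_mul, eval_mul]
    have h1 := heq z
    rw [rm_some, rm_some] at h1
    exact toP1_eq_imp h1
  have d1 : P ∣ P' := h.dvd_of_dvd_mul_right (by rw [← hx]; exact dvd_mul_right _ _)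
  have d2 : Q ∣ Q' := h.symm.dvd_of_dvd_mul_left (by rw [hx]; exact dvd_mul_left _ _)
  have d3 : P' ∣ P := h'.dvd_of_dvd_mul_right (by rw [hx]; exact dvd_mul_right _ _)
  have d4 : Q' ∣ Q := h'.symm.dvd_of_dvd_mul_left (by rw [← hx]; exact dvd_mul_left _ _)
  have unitC : ∀ W : L[X], IsUnit W → ∃ l : L, l ≠ 0 ∧ W = C l := by
    intro W hW
    obtain ⟨l, hl, hl'⟩ := Polynomial.isUnit_iff.1 hW
    exact ⟨l, hl.ne_zero, hl'.symm⟩
  by_cases hP : P = 0
  · subst hP
    have hP' : P' = 0 := by simpa using d1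
    subst hP'
    have hQ : IsUnit Q := isCoprime_zero_left.1 h
    have hQ' : IsUnit Q' := isCoprime_zero_left.1 h'
    obtain ⟨q, hq0, hq⟩ := unitC Q hQ
    obtain ⟨q', hq0', hq'⟩ := unitC Q' hQ'
    refine ⟨q' / q, div_ne_zero hq0' hq0, by simp, ?_⟩
    rw [hq, hq', ← C_mul, div_mul_cancel₀ _ hq0]
  · obtain ⟨W, hW⟩ := d1
    have hWu : IsUnit W := by
      obtain ⟨V, hV⟩ := d3
      have h1 : P * (W * V) = P * 1 := by rw [← mul_assoc, ← hW, ← hV, mul_one]
      have h2 := mul_left_cancel₀ hP h1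
      exact IsUnit.of_mul_eq_one _ h2
    obtain ⟨l, hl0, hl⟩ := unitC W hWu
    refine ⟨l, hl0, by rw [hW, hl, mul_comm], ?_⟩
    have h1 : P * Q' = P * (C l * Q) := by rw [hx, hW, hl]; ring
    exact mul_left_cancel₀ hP h1

theorem mob_inv {L : Type*} [Field L] {α β γ δ : L} (hdet : α * δ - β * γ ≠ 0) (x : OnePoint L) :
    rm (C δ * X + C (-β)) (C (-γ) * X + C α) 1 (rm (C α * X + C β) (C γ * X + C δ) 1 x) = x := by
  have hdeg : ∀ a b c e : L, max (C a * X + C b : L[X]).natDegree (C c * X + C e).natDegree ≤ 1 :=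
    fun a b c e => max_le natDegree_linear_le natDegree_linear_le
  have hH : ∀ a b u v : L, H 1 (C a * X + C b) u v = a * u + b * v := by
    intro a b u v
    unfold H
    rw [Finset.sum_range_succ, Finset.sum_range_one]
    simp
    ring
  induction x using OnePoint.rec with
  | infty =>
    rw [rm_infty]
    have e1 : (C α * X + C β : L[X]).coeff 1 = α := by simp
    have e2 : (C γ * X + C δ : L[X]).coeff 1 = γ := by simp
    rw [e1, e2]
    have hne : α ≠ 0 ∨ γ ≠ 0 := by
      by_contra h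
      push Not at h
      apply hdet
      rw [h.1, h.2]; ring
    rw [rm_toP1 (hdeg _ _ _ _) hne, hH, hH]
    unfold toP1
    rw [if_pos (by ring)]
  | coe z =>
    rw [rm_some]
    have e1 : (C α * X + C β : L[X]).eval z = α * z + β := by simp
    have e2 : (C γ * X + C δ : L[X]).eval z = γ * z + δ := by simp
    rw [e1, e2]
    have hne : α * z + β ≠ 0 ∨ γ * z + δ ≠ 0 := by
      by_contra h
      push Not at h
      apply hdet
      linear_combination (-γ) * h.1 + α * h.2
    rw [rm_toP1 (hdeg _ _ _ _) hne, hH, hH]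
    have f1 : δ * (α * z + β) + -β * (γ * z + δ) = (α * δ - β * γ) * z := by ring
    have f2 : -γ * (α * z + β) + α * (γ * z + δ) = (α * δ - β * γ) * 1 := by ring
    rw [f1, f2, toP1_mul _ _ _ hdet]
    unfold toP1
    simp

end Pool.Agent.Lib.P62h
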