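import Pool.Agent.Lib.P62h.RmD
import Pool.Agent.Lib.P62a0c3.Preper

/-!
# Module P62h.ClosG: points of a rational map whose orbit closes up within `B` steps

Generalisation of `closing_card` in `P62a0c3/Preper.lean` (read it: `itp, natDegree_itp, iter_some,
pre_card, preiter_card, fix_card, closing_card`) from the maps `bic` to `f = rm P Q d`,
`P, Q` coprime, `max (deg P) (deg Q) = d ≥ 2`, `L` algebraically closed of characteristic zero.
* Scalar forms: `H P (u, v) = Σ_{i ≤ d} P.coeff i * u ^ i * v ^ (d - i)`;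
  `f (toP1 u v) = toP1 (H P (u, v)) (H Q (u, v))` and `(H P, H Q)(u, v) ≠ (0, 0)` for `(u, v) ≠ (0, 0)`
  (`v ≠ 0`: `H P (u, v) = v^d P(u/v)`, no common zero of `P, Q`; `v = 0`: `P.coeff d` or
  `Q.coeff d` is nonzero).
* Iterates: `p_0 = X, q_0 = 1`, `p_(n+1) = hom d P p_n q_n`, `q_(n+1) = hom d Q p_n q_n`, of degree
  `≤ d ^ n`; `f^[n] z = toP1 (p_n z) (q_n z)`, `(p_n z, q_n z) ≠ (0, 0)` for finite `z`.
* Preimages of a point `y`: `y = c` finite: `f z = c` for finite `z` means `P z = c Q z`, a
  nonzero polynomial of degree `≤ d` (`P = C c * Q` would give, `P, Q` being coprime, that `Q` is a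
  unit, degree `0`); `y = ∞`: zeros of `Q ≠ 0` (if `Q = 0` then `P` is a unit, `d = 0`). With
  `∞` at most `d + 1` preimages.
* Fixed points of `f^[n]`, `n ≥ 1`: `Φ = p_n - X q_n`; if `Φ ≠ 0` at most `d^n + 1` zeros, and `∞`. If
  `Φ = 0` then `f^[n] z = z` for all finite `z`, so `f` is injective on `L`. CONTRADICTION: let
  `W = P' Q - P Q'` (derivatives), `W ≠ 0`: `W = 0` implies `Q ∣ Q'` (coprimality), so `Q' = 0`
  (degree), `Q` constant, same for `P` (characteristic zero), `d = 0`. For every `c : L` except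
  possibly one (the `c` with `P.coeff d = c Q.coeff d`) the polynomial `P - C c * Q` has degree
  `d`; it has exactly one root `z_c` by injectivity (a common zero of `P - c Q` and `Q` would be one of
  `P, Q`; so each root has `f z = c`), `L` is algebraically closed, so it is
  `C a (X - z_c)^d` and, `d ≥ 2`, its derivative `P' - c Q'` also vanishes at `z_c`. So
  `W(z_c) = (P' - c Q')(z_c) Q(z_c) - (P - c Q)(z_c) Q'(z_c) = 0`. The `z_c` are distinct
  (`f z_c = c`) and infinitely many: contradiction to `W ≠ 0`.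
* The end is word for word that of `closing_card`.
-/

namespace Pool.Agent.Lib.P62h

open Polynomial Pool.Agent.Lib.P62a0c3

namespace ClosGAux

section

variable {L : Type*} [Field L]

/-- the homogeneous form of degree `d` of `P` at scalars -/
noncomputable def hs (d : ℕ) (P : L[X]) (u v : L) : L :=
  ∑ i ∈ Finset.range (d + 1), P.coeff i * u ^ i * v ^ (d - i)

theorem hs_ne {d : ℕ} {P : L[X]} (hP : P.natDegree ≤ d) (u : L) {v : L} (hv : v ≠ 0) :
    hs d P u v = v ^ d * P.eval (u / v) := by
  rw [eval_eq_sum_range' (Nat.lt_succ_of_le hP), hs, Finset.mul_sum]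
  refine Finset.sum_congr rfl fun i hi => ?_
  have hid : i ≤ d := Nat.lt_succ_iff.1 (Finset.mem_range.1 hi)
  have h1 : v ^ d = v ^ i * v ^ (d - i) := by rw [← pow_add, Nat.add_sub_cancel' hid]
  rw [h1, div_pow]
  have h2 := pow_ne_zero i hv
  field_simp

theorem hs_zero (d : ℕ) (P : L[X]) (u : L) : hs d P u 0 = P.coeff d * u ^ d := by
  rw [hs, Finset.sum_eq_single_of_mem d (Finset.mem_range.2 (Nat.lt_succ_self d))]
  · rw [Nat.sub_self, pow_zero, mul_one]
  · intro i hi hne
    have h1 : d - i ≠ 0 := by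
      have := Finset.mem_range.1 hi
      omega
    rw [zero_pow h1, mul_zero]

theorem no_common {P Q : L[X]} (hcop : IsCoprime P Q) (z : L) : eval z P ≠ 0 ∨ eval z Q ≠ 0 := by
  by_contra hcon
  push Not at hcon
  obtain ⟨a, b, hab⟩ := hcop
  have h1 := congrArg (eval z) hab
  rw [eval_add, eval_mul, eval_mul, hcon.1, hcon.2, mul_zero, mul_zero, add_zero, eval_one] at h1
  exact zero_ne_one h1

theorem coeff_ne {d : ℕ} (hd : 2 ≤ d) {P Q : L[X]} (hdeg : max P.natDegree Q.natDegree = d) :
    P.coeff d ≠ 0 ∨ Q.coeff d ≠ 0 := by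
  have key : ∀ {R : L[X]}, R.natDegree = d → R.coeff d ≠ 0 := by
    intro R hR h0
    rw [← hR, coeff_natDegree, leadingCoeff_eq_zero] at h0
    rw [h0, natDegree_zero] at hR
    omega
  rcases max_choice P.natDegree Q.natDegree with h | h
  · left; exact key (by omega)
  · right; exact key (by omega)

theorem hs_pair {d : ℕ} (hd : 2 ≤ d) {P Q : L[X]} (hcop : IsCoprime P Q)
    (hdeg : max P.natDegree Q.natDegree = d) {u v : L} (h : u ≠ 0 ∨ v ≠ 0) :
    hs d P u v ≠ 0 ∨ hs d Q u v ≠ 0 := by
  have hP : P.natDegree ≤ d := hdeg ▸ le_max_left _ _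
  have hQ : Q.natDegree ≤ d := hdeg ▸ le_max_right _ _
  by_cases hv : v = 0
  · have hu : u ≠ 0 := by
      rcases h with h | h
      · exact h
      · exact absurd hv h
    rw [hv, hs_zero, hs_zero]
    rcases coeff_ne hd hdeg with h1 | h1
    · left; exact mul_ne_zero h1 (pow_ne_zero d hu)
    · right; exact mul_ne_zero h1 (pow_ne_zero d hu)
  · rw [hs_ne hP u hv, hs_ne hQ u hv]
    rcases no_common hcop (u / v) with h1 | h1
    · left; exact mul_ne_zero (pow_ne_zero d hv) h1
    · right; exact mul_ne_zero (pow_ne_zero d hv) h1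

theorem rm_toP1 {d : ℕ} (hd : 2 ≤ d) {P Q : L[X]} (hdeg : max P.natDegree Q.natDegree = d)
    {u v : L} (h : u ≠ 0 ∨ v ≠ 0) :
    rm P Q d (toP1 u v) = toP1 (hs d P u v) (hs d Q u v) := by
  have hP : P.natDegree ≤ d := hdeg ▸ le_max_left _ _
  have hQ : Q.natDegree ≤ d := hdeg ▸ le_max_right _ _
  by_cases hv : v = 0
  · have hu : u ≠ 0 := by
      rcases h with h | h
      · exact h
      · exact absurd hv h
    have h1 : toP1 u v = OnePoint.infty := by rw [toP1, if_pos hv]
    rw [h1, rm_infty, hv, hs_zero, hs_zero, mul_comm, mul_comm (Q.coeff d),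
      toP1_mul (u ^ d) _ _ (pow_ne_zero d hu)]
  · have h1 : toP1 u v = ((u / v : L) : OnePoint L) := by rw [toP1, if_neg hv]
    rw [h1, rm_some, hs_ne hP u hv, hs_ne hQ u hv, toP1_mul (v ^ d) _ _ (pow_ne_zero d hv)]

/-- the pair of polynomials describing the iterates -/
noncomputable def itr (P Q : L[X]) (d : ℕ) : ℕ → L[X] × L[X]
  | 0 => (X, 1)
  | n + 1 => (hom d P (itr P Q d n).1 (itr P Q d n).2, hom d Q (itr P Q d n).1 (itr P Q d n).2)

theorem natDegree_hom (d m : ℕ) (P A B : L[X]) (hA : A.natDegree ≤ m) (hB : B.natDegree ≤ m) :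
    (hom d P A B).natDegree ≤ m * d := by
  refine natDegree_sum_le_of_forall_le _ _ fun i hi => ?_
  have hid : i ≤ d := Nat.lt_succ_iff.1 (Finset.mem_range.1 hi)
  refine natDegree_mul_le.trans ?_
  have h1 : (C (P.coeff i) * A ^ i).natDegree ≤ i * m :=
    (natDegree_C_mul_le _ _).trans (natDegree_pow_le.trans (Nat.mul_le_mul_left i hA))
  have h2 : (B ^ (d - i)).natDegree ≤ (d - i) * m :=
    natDegree_pow_le.trans (Nat.mul_le_mul_left _ hB)
  calc (C (P.coeff i) * A ^ i).natDegree + (B ^ (d - i)).natDegree ≤ i * m + (d - i) * m :=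
        Nat.add_le_add h1 h2
    _ = m * d := by rw [← Nat.add_mul, Nat.add_sub_cancel' hid, mul_comm]

theorem natDegree_itr (P Q : L[X]) (d n : ℕ) :
    (itr P Q d n).1.natDegree ≤ d ^ n ∧ (itr P Q d n).2.natDegree ≤ d ^ n := by
  induction n with
  | zero => simp [itr]
  | succ n ih =>
    rw [pow_succ]
    exact ⟨natDegree_hom d _ P _ _ ih.1 ih.2, natDegree_hom d _ Q _ _ ih.1 ih.2⟩

theorem eval_hom (d : ℕ) (P A B : L[X]) (z : L) :
    eval z (hom d P A B) = hs d P (eval z A) (eval z B) := by
  rw [hom, hs, eval_finsetSum]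
  refine Finset.sum_congr rfl fun i _ => ?_
  rw [eval_mul, eval_mul, eval_C, eval_pow, eval_pow]

theorem iter_rm {d : ℕ} (hd : 2 ≤ d) {P Q : L[X]} (hcop : IsCoprime P Q)
    (hdeg : max P.natDegree Q.natDegree = d) (n : ℕ) (z : L) :
    (rm P Q d)^[n] (z : OnePoint L) = toP1 (eval z (itr P Q d n).1) (eval z (itr P Q d n).2) ∧
    (eval z (itr P Q d n).1 ≠ 0 ∨ eval z (itr P Q d n).2 ≠ 0) := by
  induction n with
  | zero =>
    constructor
    · rw [Function.iterate_zero, id, itr, eval_X, eval_one, toP1, if_neg one_ne_zero, div_one]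
    · right; rw [itr, eval_one]; exact one_ne_zero
  | succ n ih =>
    rw [Function.iterate_succ_apply', ih.1, rm_toP1 hd hdeg ih.2, itr, eval_hom, eval_hom]
    exact ⟨rfl, hs_pair hd hcop hdeg ih.2⟩

theorem Q_ne {d : ℕ} (hd : 2 ≤ d) {P Q : L[X]} (hcop : IsCoprime P Q)
    (hdeg : max P.natDegree Q.natDegree = d) : Q ≠ 0 := by
  rintro rfl
  rw [isCoprime_zero_right] at hcop
  rw [natDegree_eq_zero_of_isUnit hcop, natDegree_zero] at hdeg
  omega

theorem R_ne {d : ℕ} (hd : 2 ≤ d) {P Q : L[X]} (hcop : IsCoprime P Q)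
    (hdeg : max P.natDegree Q.natDegree = d) (c : L) : P - C c * Q ≠ 0 := by
  intro h0
  rw [sub_eq_zero] at h0
  rw [h0] at hcop
  have h1 : IsUnit Q := isCoprime_self.1 hcop.of_mul_left_right
  have h2 := natDegree_eq_zero_of_isUnit h1
  have h3 : P.natDegree ≤ Q.natDegree := by rw [h0]; exact natDegree_C_mul_le _ _
  rw [h2, Nat.le_zero.1 (h3.trans_eq h2)] at hdeg
  omega

theorem R_deg {d : ℕ} {P Q : L[X]} (hdeg : max P.natDegree Q.natDegree = d) (c : L) :
    (P - C c * Q).natDegree ≤ d := by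
  refine (natDegree_sub_le _ _).trans (max_le (hdeg ▸ le_max_left _ _) ?_)
  exact (natDegree_C_mul_le _ _).trans (hdeg ▸ le_max_right _ _)

theorem pre_rm {d : ℕ} (hd : 2 ≤ d) {P Q : L[X]} (hcop : IsCoprime P Q)
    (hdeg : max P.natDegree Q.natDegree = d)
    (S : Finset (OnePoint L)) : ∃ T : Finset (OnePoint L),
      (∀ x, rm P Q d x ∈ S → x ∈ T) ∧ T.card ≤ S.card * (d + 1) := by
  classical
  have hpoly : ∀ R : L[X], R.natDegree ≤ d →
      (insert OnePoint.infty (R.roots.toFinset.image (fun w : L => (w : OnePoint L)))).card ≤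
        d + 1 := by
    intro R hR
    refine (Finset.card_insert_le _ _).trans (Nat.add_le_add_right ?_ 1)
    exact Finset.card_image_le.trans ((Multiset.toFinset_card_le _).trans
      ((card_roots' _).trans hR))
  have hfib : ∀ y : OnePoint L, ∃ T : Finset (OnePoint L),
      (∀ x, rm P Q d x = y → x ∈ T) ∧ T.card ≤ d + 1 := by
    intro y
    induction y using OnePoint.rec with
    | infty =>
      refine ⟨_, ?_, hpoly Q (hdeg ▸ le_max_right _ _)⟩
      intro x hx
      induction x using OnePoint.rec with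
      | infty => exact Finset.mem_insert_self _ _
      | coe w =>
        apply Finset.mem_insert_of_mem
        refine Finset.mem_image.2 ⟨w, ?_, rfl⟩
        rw [Multiset.mem_toFinset, mem_roots (Q_ne hd hcop hdeg)]
        by_contra h
        have h' : eval w Q ≠ 0 := h
        rw [rm_some, toP1, if_neg h'] at hx
        exact OnePoint.coe_ne_infty _ hx
    | coe c =>
      refine ⟨_, ?_, hpoly (P - C c * Q) (R_deg hdeg c)⟩
      intro x hx
      induction x using OnePoint.rec with
      | infty => exact Finset.mem_insert_self _ _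
      | coe w =>
        apply Finset.mem_insert_of_mem
        refine Finset.mem_image.2 ⟨w, ?_, rfl⟩
        rw [Multiset.mem_toFinset, mem_roots (R_ne hd hcop hdeg c), IsRoot.def, eval_sub, eval_mul,
          eval_C]
        rw [rm_some] at hx
        have h3 : toP1 (eval w P) (eval w Q) = toP1 c 1 := by
          rw [hx, toP1, if_neg one_ne_zero, div_one]
        have h4 := toP1_eq_imp h3
        linear_combination h4
  choose T hT1 hT2 using hfib
  refine ⟨S.biUnion T, ?_, ?_⟩
  · intro x hx
    exact Finset.mem_biUnion.2 ⟨_, hx, hT1 _ x rfl⟩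
  · exact Finset.card_biUnion_le_card_mul _ _ _ fun y _ => hT2 y

theorem preiter_rm {d : ℕ} (hd : 2 ≤ d) {P Q : L[X]} (hcop : IsCoprime P Q)
    (hdeg : max P.natDegree Q.natDegree = d) (n : ℕ)
    (S : Finset (OnePoint L)) : ∃ T : Finset (OnePoint L),
      (∀ x, (rm P Q d)^[n] x ∈ S → x ∈ T) ∧ T.card ≤ S.card * (d + 1) ^ n := by
  induction n generalizing S with
  | zero => exact ⟨S, fun x hx => hx, by simp⟩
  | succ n ih =>
    obtain ⟨T1, h1, h2⟩ := pre_rm hd hcop hdeg S
    obtain ⟨T2, h3, h4⟩ := ih T1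
    refine ⟨T2, ?_, ?_⟩
    · intro x hx
      rw [Function.iterate_succ_apply'] at hx
      exact h3 x (h1 _ hx)
    · refine h4.trans ?_
      calc T1.card * (d + 1) ^ n ≤ (S.card * (d + 1)) * (d + 1) ^ n :=
            Nat.mul_le_mul_right _ h2
        _ = S.card * (d + 1) ^ (n + 1) := by ring

theorem wron_ne [CharZero L] {d : ℕ} (hd : 2 ≤ d) {P Q : L[X]} (hcop : IsCoprime P Q)
    (hdeg : max P.natDegree Q.natDegree = d) :
    derivative P * Q - P * derivative Q ≠ 0 := by
  intro h0
  rw [sub_eq_zero] at h0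
  have hQ0 := Q_ne hd hcop hdeg
  have h1 : Q ∣ P * derivative Q := ⟨derivative P, by rw [← h0, mul_comm]⟩
  have h2 : Q ∣ derivative Q := hcop.symm.dvd_of_dvd_mul_left h1
  have h3 : derivative Q = 0 := by
    by_contra h
    have h4 := natDegree_le_of_dvd h2 h
    have h5 : Q.natDegree ≠ 0 := by
      intro h6
      apply h
      rw [eq_C_of_natDegree_eq_zero h6, derivative_C]
    have h7 := natDegree_derivative_lt h5
    omega
  have h4 := natDegree_eq_zero_of_derivative_eq_zero h3
  rw [h3, mul_zero] at h0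
  have h5 : derivative P = 0 := (mul_eq_zero.1 h0).resolve_right hQ0
  have h6 := natDegree_eq_zero_of_derivative_eq_zero h5
  rw [h4, h6] at hdeg
  omega

theorem not_inj [IsAlgClosed L] [CharZero L] {d : ℕ} (hd : 2 ≤ d) {P Q : L[X]}
    (hcop : IsCoprime P Q) (hdeg : max P.natDegree Q.natDegree = d)
    (hinj : ∀ z w : L, rm P Q d (z : OnePoint L) = rm P Q d (w : OnePoint L) → z = w) : False := by
  classical
  set W : L[X] := derivative P * Q - P * derivative Q with hW
  have hW0 : W ≠ 0 := wron_ne hd hcop hdeg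
  have key : ∀ c : L, P.coeff d ≠ c * Q.coeff d → ∃ z, W.IsRoot z ∧ c = eval z P / eval z Q := by
    intro c hc
    have hRne := R_ne hd hcop hdeg c
    have hcoef : (P - C c * Q).coeff d ≠ 0 := by
      rw [coeff_sub, coeff_C_mul]
      exact sub_ne_zero.2 hc
    have hRdeg : (P - C c * Q).natDegree = d :=
      le_antisymm (R_deg hdeg c) (le_natDegree_of_ne_zero hcoef)
    have hroot : ∀ z, (P - C c * Q).IsRoot z → eval z P = c * eval z Q ∧ eval z Q ≠ 0 := by
      intro z hz
      rw [IsRoot.def, eval_sub, eval_mul, eval_C, sub_eq_zero] at hz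
      refine ⟨hz, fun h => ?_⟩
      rcases no_common hcop z with h1 | h1
      · rw [hz, h, mul_zero] at h1
        exact h1 rfl
      · exact h1 h
    have hval : ∀ z, (P - C c * Q).IsRoot z → rm P Q d (z : OnePoint L) = (c : OnePoint L) := by
      intro z hz
      obtain ⟨h1, h2⟩ := hroot z hz
      rw [rm_some, toP1, if_neg h2, h1, mul_div_cancel_right₀ _ h2]
    obtain ⟨z, hz⟩ := IsAlgClosed.exists_root (P - C c * Q) (by
      intro h
      have := natDegree_eq_of_degree_eq_some (n := 0) (by exact_mod_cast h)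
      omega)
    have hcard : (P - C c * Q).roots.card = d := by
      rw [← hRdeg]
      exact (splits_iff_card_roots.1 (IsAlgClosed.splits _))
    have hrep : (P - C c * Q).roots = Multiset.replicate d z := by
      rw [Multiset.eq_replicate]
      refine ⟨hcard, fun w hw => ?_⟩
      rw [mem_roots hRne] at hw
      exact hinj w z ((hval w hw).trans (hval z hz).symm)
    have hmult : 1 < (P - C c * Q).rootMultiplicity z := by
      rw [← count_roots, hrep, Multiset.count_replicate_self]
      omega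
    have hder := ((one_lt_rootMultiplicity_iff_isRoot hRne).1 hmult).2
    obtain ⟨h1, h2⟩ := hroot z hz
    refine ⟨z, ?_, ?_⟩
    · rw [derivative_sub, derivative_C_mul, IsRoot.def, eval_sub, eval_mul, eval_C, sub_eq_zero] at hder
      rw [IsRoot.def, hW, eval_sub, eval_mul, eval_mul, h1, hder]
      ring
    · rw [h1, mul_div_cancel_right₀ _ h2]
  have hfin : (Set.univ : Set L) ⊆
      ↑(insert (P.coeff d / Q.coeff d) (W.roots.toFinset.image (fun z => eval z P / eval z Q))) := by
    intro c _
    rw [Finset.coe_insert, Set.mem_insert_iff]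
    by_cases hc : P.coeff d = c * Q.coeff d
    · left
      have hq : Q.coeff d ≠ 0 := by
        rcases coeff_ne hd hdeg with h | h
        · intro h1
          rw [hc, h1, mul_zero] at h
          exact h rfl
        · exact h
      rw [hc, mul_div_cancel_right₀ _ hq]
    · right
      obtain ⟨z, hz, hcz⟩ := key c hc
      rw [Finset.mem_coe, Finset.mem_image]
      exact ⟨z, by rw [Multiset.mem_toFinset, mem_roots hW0]; exact hz, hcz.symm⟩
  haveI : Infinite L := CharZero.infinite L
  exact Set.infinite_univ ((Finset.finite_toSet _).subset hfin)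

theorem fix_rm [IsAlgClosed L] [CharZero L] {d : ℕ} (hd : 2 ≤ d) {P Q : L[X]}
    (hcop : IsCoprime P Q) (hdeg : max P.natDegree Q.natDegree = d) {n : ℕ} (hn : 1 ≤ n) :
    ∃ T : Finset (OnePoint L), (∀ x, (rm P Q d)^[n] x = x → x ∈ T) ∧ T.card ≤ d ^ n + 2 := by
  classical
  set Φ : L[X] := (itr P Q d n).1 - X * (itr P Q d n).2 with hΦ
  have hfix : ∀ z : L, (rm P Q d)^[n] (z : OnePoint L) = z → eval z Φ = 0 := by
    intro z hz
    obtain ⟨h1, h2⟩ := iter_rm hd hcop hdeg n z
    rw [h1] at hz
    have h3 : toP1 (eval z (itr P Q d n).1) (eval z (itr P Q d n).2) = toP1 z 1 := by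
      rw [hz, toP1, if_neg one_ne_zero, div_one]
    have h4 := toP1_eq_imp h3
    rw [hΦ, eval_sub, eval_mul, eval_X]
    linear_combination h4
  have hne : Φ ≠ 0 := by
    intro h0
    have hall : ∀ z : L, (rm P Q d)^[n] (z : OnePoint L) = z := by
      intro z
      obtain ⟨h1, h2⟩ := iter_rm hd hcop hdeg n z
      have h3 : eval z (itr P Q d n).1 = z * eval z (itr P Q d n).2 := by
        have := congrArg (eval z) h0
        rw [hΦ, eval_sub, eval_mul, eval_X, eval_zero] at this
        exact sub_eq_zero.1 this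
      have h4 : eval z (itr P Q d n).2 ≠ 0 := by
        intro h5
        rw [h5, mul_zero] at h3
        rcases h2 with h | h
        · exact h h3
        · exact h h5
      rw [h1, h3, toP1, if_neg h4, mul_div_cancel_right₀ _ h4]
    refine not_inj hd hcop hdeg fun z w hzw => ?_
    obtain ⟨m, rfl⟩ : ∃ m, n = m + 1 := ⟨n - 1, by omega⟩
    have h6 := hall z
    have h7 := hall w
    rw [Function.iterate_succ_apply, hzw, ← Function.iterate_succ_apply, h7] at h6
    exact (OnePoint.coe_injective h6).symm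
  refine ⟨insert OnePoint.infty (Φ.roots.toFinset.image (fun w : L => (w : OnePoint L))), ?_, ?_⟩
  · intro x hx
    induction x using OnePoint.rec with
    | infty => exact Finset.mem_insert_self _ _
    | coe w =>
      apply Finset.mem_insert_of_mem
      refine Finset.mem_image.2 ⟨w, ?_, rfl⟩
      rw [Multiset.mem_toFinset, mem_roots hne]
      exact hfix w hx
  · refine (Finset.card_insert_le _ _).trans ?_
    have h1 : Φ.natDegree ≤ d ^ n + 1 := by
      obtain ⟨h1, h2⟩ := natDegree_itr P Q d n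
      rw [hΦ]
      refine (natDegree_sub_le _ _).trans (max_le (h1.trans (Nat.le_succ _)) ?_)
      refine natDegree_mul_le.trans ?_
      rw [natDegree_X]
      omega
    have h2 : (Φ.roots.toFinset.image (fun w : L => (w : OnePoint L))).card ≤ d ^ n + 1 :=
      Finset.card_image_le.trans ((Multiset.toFinset_card_le _).trans ((card_roots' _).trans h1))
    omega

end

end ClosGAux

open ClosGAux

theorem rm_closing {L : Type*} [Field L] [IsAlgClosed L] [CharZero L] {d : ℕ} (hd : 2 ≤ d)
    {P Q : L[X]} (hcop : IsCoprime P Q) (hdeg : max P.natDegree Q.natDegree = d) (B : ℕ) :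
    ∃ T : Finset (OnePoint L),
      (∀ x, (∃ i j, i < j ∧ j < B ∧ (rm P Q d)^[i] x = (rm P Q d)^[j] x) → x ∈ T) ∧
      T.card ≤ B * (B * ((d ^ B + 2) * (d + 1) ^ B)) := by
  classical
  have hS : ∀ p : ℕ, ∃ S : Finset (OnePoint L), (1 ≤ p → ∀ x, (rm P Q d)^[p] x = x → x ∈ S) ∧
      S.card ≤ d ^ p + 2 := by
    intro p
    by_cases hp : 1 ≤ p
    · obtain ⟨S, h1, h2⟩ := fix_rm hd hcop hdeg hp
      exact ⟨S, fun _ => h1, h2⟩
    · exact ⟨∅, fun h => absurd h hp, by simp⟩
  choose S hS1 hS2 using hS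
  have hT : ∀ i p : ℕ, ∃ T : Finset (OnePoint L),
      (∀ x, (rm P Q d)^[i] x ∈ S p → x ∈ T) ∧ T.card ≤ (S p).card * (d + 1) ^ i :=
    fun i p => preiter_rm hd hcop hdeg i (S p)
  choose T hT1 hT2 using hT
  refine ⟨(Finset.range B).biUnion fun i => (Finset.range B).biUnion fun p => T i p, ?_, ?_⟩
  · rintro x ⟨i, j, hij, hjB, hx⟩
    refine Finset.mem_biUnion.2 ⟨i, Finset.mem_range.2 (by omega), ?_⟩
    refine Finset.mem_biUnion.2 ⟨j - i, Finset.mem_range.2 (by omega), ?_⟩
    apply hT1
    apply hS1 _ (by omega)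
    rw [← Function.iterate_add_apply, Nat.sub_add_cancel hij.le]
    exact hx.symm
  · have h1 : ∀ i ∈ Finset.range B, ∀ p ∈ Finset.range B,
        (T i p).card ≤ (d ^ B + 2) * (d + 1) ^ B := by
      intro i hi p hp
      refine (hT2 i p).trans (Nat.mul_le_mul ((hS2 p).trans ?_) ?_)
      · exact Nat.add_le_add_right (Nat.pow_le_pow_right (by omega)
          (Finset.mem_range.1 hp).le) 2
      · exact Nat.pow_le_pow_right (by omega) (Finset.mem_range.1 hi).le
    have h2 : ∀ i ∈ Finset.range B, ((Finset.range B).biUnion fun p => T i p).card ≤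
        B * ((d ^ B + 2) * (d + 1) ^ B) := by
      intro i hi
      have := Finset.card_biUnion_le_card_mul (Finset.range B) (fun p => T i p) _ (h1 i hi)
      rwa [Finset.card_range] at this
    have := Finset.card_biUnion_le_card_mul (Finset.range B)
      (fun i => (Finset.range B).biUnion fun p => T i p) _ h2
    rwa [Finset.card_range] at this

end Pool.Agent.Lib.P62h
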