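import Pool.Agent.Lib.P62g.GonSup

/-!
# Module P62h.GonX: gonality of a compositum with an extension of bounded degree

Same statement and same proof as `gonality_sup` in `P62g/GonSup.lean` with `2` replaced by `N` (copy
the file: `Module.finrank k E ≤ N`, `[A ⊔ E : F(y)] ≤ N * D`; use `GonSupAux.finrank_tower`).
-/

namespace Pool.Agent.Lib.P62h

open IntermediateField

theorem gonality_supN {F k K : Type*} [Field F] [Field k] [CharZero k] [Field K] [Algebra k K]
    [Algebra F k] [Algebra F K] [IsScalarTower F k K]
    (A E : IntermediateField k K) {N : ℕ} (hE0 : 0 < Module.finrank k E)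
    (hE : Module.finrank k E ≤ N)
    {D : ℕ} (hA : ∃ y : A, Transcendental F y ∧ 0 < Module.finrank F⟮y⟯ A ∧
      Module.finrank F⟮y⟯ A ≤ D) :
    ∃ y : (A ⊔ E : IntermediateField k K), Transcendental F y ∧
      0 < Module.finrank F⟮y⟯ (A ⊔ E : IntermediateField k K) ∧
      Module.finrank F⟮y⟯ (A ⊔ E : IntermediateField k K) ≤ N * D := by
  obtain ⟨y, hyt, hy0, hyD⟩ := hA
  haveI : FiniteDimensional k E := Module.finite_of_finrank_pos hE0
  -- primitive element
  obtain ⟨t, ht⟩ := Field.exists_primitive_element k E
  have hEt : E = k⟮(t : K)⟯ := by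
    have h1 := congrArg (IntermediateField.map E.val) ht
    rw [IntermediateField.adjoin_map, Set.image_singleton] at h1
    rw [← AlgHom.fieldRange_eq_map] at h1
    rw [IntermediateField.fieldRange_val] at h1
    exact h1.symm
  have htint : IsIntegral k (t : K) :=
    (IsIntegral.of_finite k t).map E.val
  have htA : IsIntegral A (t : K) := htint.tower_top
  have hfinM : Module.finrank A (A⟮(t : K)⟯) ≤ N := by
    rw [IntermediateField.adjoin.finrank htA]
    have h2 : minpoly A (t : K) ∣ (minpoly k (t : K)).map (algebraMap k A) :=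
      minpoly.dvd_map_of_isScalarTower k A (t : K)
    have h3 : (minpoly A (t : K)).natDegree ≤
        ((minpoly k (t : K)).map (algebraMap k A)).natDegree := by
      refine Polynomial.natDegree_le_of_dvd h2 ?_
      exact Polynomial.map_ne_zero (minpoly.ne_zero htint)
    rw [Polynomial.natDegree_map] at h3
    have h4 : Module.finrank k (k⟮(t : K)⟯) = (minpoly k (t : K)).natDegree :=
      IntermediateField.adjoin.finrank htint
    have h5 : Module.finrank k (k⟮(t : K)⟯) ≤ N := by
      rw [← hEt]; exact hE
    omega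
  have hposM : 0 < Module.finrank A (A⟮(t : K)⟯) := by
    rw [IntermediateField.adjoin.finrank htA]
    exact minpoly.natDegree_pos htA
  have hL : restrictScalars k (A⟮(t : K)⟯) = A ⊔ E := by
    rw [IntermediateField.restrictScalars_adjoin_eq_sup, ← hEt]
  -- the algebra structure of `A ⊔ E` over `A`
  letI : Algebra A (A ⊔ E : IntermediateField k K) :=
    (IntermediateField.inclusion (le_sup_left : A ≤ A ⊔ E)).toRingHom.toAlgebra
  haveI : IsScalarTower F A (A ⊔ E : IntermediateField k K) := by
    refine IsScalarTower.of_algebraMap_eq ?_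
    intro x
    rfl
  have hmem : ∀ x : K, x ∈ (A⟮(t : K)⟯) ↔ x ∈ (A ⊔ E : IntermediateField k K) := by
    intro x
    rw [← hL]
    rfl
  let e : (A⟮(t : K)⟯) ≃+* (A ⊔ E : IntermediateField k K) :=
    { toFun := fun x => ⟨x.1, (hmem _).1 x.2⟩
      invFun := fun x => ⟨x.1, (hmem _).2 x.2⟩
      left_inv := fun x => rfl
      right_inv := fun x => rfl
      map_mul' := fun x z => rfl
      map_add' := fun x z => rfl }
  have hfr : Module.finrank A (A ⊔ E : IntermediateField k K) =
      Module.finrank A (A⟮(t : K)⟯) := by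
    symm
    refine Algebra.finrank_eq_of_equiv_equiv (RingEquiv.refl A) e ?_
    ext x
    rfl
  have htow := P62g.GonSupAux.finrank_tower (F := F) (A := A)
    (L := (A ⊔ E : IntermediateField k K)) y
  refine ⟨algebraMap A (A ⊔ E : IntermediateField k K) y, ?_, ?_, ?_⟩
  · rw [transcendental_algebraMap_iff (algebraMap A (A ⊔ E : IntermediateField k K)).injective]
    exact hyt
  · rw [htow, hfr]
    exact Nat.mul_pos hy0 hposM
  · rw [htow, hfr]
    calc Module.finrank F⟮y⟯ A * Module.finrank A (A⟮(t : K)⟯) ≤ D * N := Nat.mul_le_mul hyD hfinM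
      _ = N * D := Nat.mul_comm _ _

end Pool.Agent.Lib.P62h
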