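import Pool.Agent.Lib.P62h.Red2
import Pool.Agent.Lib.P62h.IsoT
import Pool.Agent.Lib.P62h.DescB
import Pool.Agent.Lib.P62h.GonX
import Pool.Agent.Lib.P62h.ClosG

/-!
# Preperiodic points of `A ∘ x^m ∘ g` over fields of bounded gonality
-/

namespace Pool.Agent.Lib.P62h

open Polynomial IntermediateField Pool.Agent.Lib.P62a0c3 Pool.Agent.Lib.P62g

universe u w

theorem gm_eq {L : Type*} [Field L] (U V : L[X]) (e : ℕ) {m : ℕ} (hm : 1 ≤ m) (y : OnePoint L) :
    gm U V e m y = rm U V e (rm (X ^ m) 1 m y) := by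
  induction y using OnePoint.rec with
  | infty =>
    have h1 : rm (X ^ m : L[X]) 1 m OnePoint.infty = OnePoint.infty := by
      rw [rm_infty, coeff_one, if_neg (by omega), toP1, if_pos rfl]
    rw [h1, gm_infty, rm_infty]
  | coe z =>
    have h1 : rm (X ^ m : L[X]) 1 m (z : OnePoint L) = ((z ^ m : L) : OnePoint L) := by
      rw [rm_some, eval_one, eval_pow, eval_X, toP1, if_neg one_ne_zero, _root_.div_one]
    rw [h1, gm_some, rm_some]

/-- Isotriviality in terms of `rm`. -/
def IsoC {F K : Type*} [Field F] [Field K] [Algebra F K] (d : ℕ) (f : OnePoint K → OnePoint K) :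
    Prop :=
  ∃ (α β γ δ : K) (P1 Q1 : F[X]), α * δ - β * γ ≠ 0 ∧ IsCoprime P1 Q1 ∧
    max P1.natDegree Q1.natDegree = d ∧
    ∀ x, f (rm (C α * X + C β) (C γ * X + C δ) 1 x) = rm (C α * X + C β) (C γ * X + C δ) 1
      (rm (P1.map (algebraMap F K)) (Q1.map (algebraMap F K)) d x)

/-- The orbit of a point defined over a field of gonality at most `n`. -/
theorem orbit_closes {F : Type w} {k K : Type u} [Field F] [IsAlgClosed F] [CharZero F] [Field k]
    [CharZero k] [Field K] [Algebra F k] [Algebra k K] [Algebra F K] [IsScalarTower F k K]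
    {a b m n : ℕ} (ha : 1 ≤ a) (hb : 1 ≤ b)
    (hm : 2 * (217 * (a * b) ^ 2) ^ 5 * (2 * n ^ 4 + 4) < m)
    (L : IntermediateField k K) {PA QA Pg Qg : L[X]} (hA : IsCoprime PA QA)
    (hAa : max PA.natDegree QA.natDegree = a) (hg : IsCoprime Pg Qg)
    (hgb : max Pg.natDegree Qg.natDegree = b) (f : OnePoint K → OnePoint K)
    (hf : ∀ x : OnePoint K, f x = rm (PA.map (algebraMap L K)) (QA.map (algebraMap L K)) a
      (rm (X ^ m) 1 m (rm (Pg.map (algebraMap L K)) (Qg.map (algebraMap L K)) b x)))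
    (hniso : ¬ IsoC (F := F) (a * (m * b)) f)
    (hgon : ∃ u : L, Transcendental F u ∧ 0 < Module.finrank F⟮u⟯ L ∧ Module.finrank F⟮u⟯ L ≤ n)
    (y : OnePoint L)
    (hfin : (Set.range fun i : ℕ => f^[i] (OnePoint.map (algebraMap L K) y)).Finite) :
    ∃ i j, i < j ∧ j < 2 * c0 (a * b) m + 4 ∧ f^[i] (OnePoint.map (algebraMap L K) y) =
      f^[j] (OnePoint.map (algebraMap L K) y) := by
  classical
  obtain ⟨u, hu, hpos, hn⟩ := hgon
  have hm1 : 1 ≤ m := by omega
  have hab : 1 ≤ a * b := Nat.mul_pos ha hb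
  set ι : L →+* K := algebraMap L K with hι
  set U := hom b Pg PA QA with hU
  set V := hom b Qg PA QA with hV
  have hcop : IsCoprime U V := hom_coprime hg hgb hA
  have hdeg : max U.natDegree V.natDegree = a * b := by
    rw [mul_comm]
    exact hom_degree hg hgb hA hAa
  set G : OnePoint L → OnePoint L := gm U V (a * b) m with hG
  set w : OnePoint L := rm Pg Qg b y with hw
  set x : OnePoint K := OnePoint.map ι y with hx
  set gK : OnePoint K → OnePoint K := rm (Pg.map ι) (Qg.map ι) b with hgK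
  set AK : OnePoint K → OnePoint K := rm (PA.map ι) (QA.map ι) a with hAK
  have hAK' : IsCoprime (PA.map ι) (QA.map ι) := (Polynomial.isCoprime_map ι).2 hA
  have hgK' : IsCoprime (Pg.map ι) (Qg.map ι) := (Polynomial.isCoprime_map ι).2 hg
  have hAaK : max (PA.map ι).natDegree (QA.map ι).natDegree = a := by
    rw [natDegree_map, natDegree_map]; exact hAa
  have hgbK : max (Pg.map ι).natDegree (Qg.map ι).natDegree = b := by
    rw [natDegree_map, natDegree_map]; exact hgb
  -- semiconjugacy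
  have hsemi : ∀ z : OnePoint K, gK (f z) = gm (U.map ι) (V.map ι) (a * b) m (gK z) := by
    intro z
    rw [gm_eq _ _ _ hm1, hf z, hU, hV, hom_map, hom_map, mul_comm a b,
      rm_comp hgK' hgbK hAK' hAaK]
  have hit : ∀ i, OnePoint.map ι (G^[i] w) = gK (f^[i] x) := by
    intro i
    induction i with
    | zero => rw [Function.iterate_zero, id, Function.iterate_zero, id, hw, rm_map]
    | succ i ih =>
      rw [Function.iterate_succ_apply', Function.iterate_succ_apply', hG, map_gm, ← hG, ih, hsemi]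
  have hιinj : Function.Injective (OnePoint.map ι) := map_injective ι
  have hfinG : (Set.range fun i : ℕ => G^[i] w).Finite := by
    refine Set.Finite.of_finite_image (f := OnePoint.map ι) ?_ hιinj.injOn
    refine (hfin.image gK).subset ?_
    rintro _ ⟨_, ⟨i, rfl⟩, rfl⟩
    exact ⟨_, ⟨i, rfl⟩, (hit i).symm⟩
  set P := hfinG.toFinset with hP
  have hmemP : ∀ i, G^[i] w ∈ P := by
    intro i
    rw [hP, Set.Finite.mem_toFinset]
    exact ⟨i, rfl⟩
  have hinv : ∀ p ∈ P, G p ∈ P := by
    intro p hp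
    rw [hP, Set.Finite.mem_toFinset] at hp
    obtain ⟨i, rfl⟩ := hp
    have := hmemP (i + 1)
    rwa [Function.iterate_succ_apply'] at this
  have hcard : P.card < 2 * c0 (a * b) m + 3 := by
    by_contra hcon
    push Not at hcon
    obtain ⟨s, l, U0, V0, hs, hl, f1, f2⟩ :=
      invariant2 (F := F) u hu hab hpos hn hm hcop hdeg P hinv (by omega)
    have hFι : ι.comp (algebraMap F L) = algebraMap F K := rfl
    have k1 : (hom b (Pg.map ι) (PA.map ι) (QA.map ι)).comp (C (ι s ^ m) * X) =
        C (ι l) * U0.map (algebraMap F K) := by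
      have h := congrArg (Polynomial.map ι) f1
      rw [Polynomial.map_comp, Polynomial.map_mul, Polynomial.map_mul, map_C, map_X, map_C,
        map_pow, Polynomial.map_map, hFι, hU, hom_map] at h
      exact h
    have k2 : C (ι s) * (hom b (Qg.map ι) (PA.map ι) (QA.map ι)).comp (C (ι s ^ m) * X) =
        C (ι l) * V0.map (algebraMap F K) := by
      have h := congrArg (Polynomial.map ι) f2
      rw [Polynomial.map_mul, Polynomial.map_comp, Polynomial.map_mul, Polynomial.map_mul, map_C,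
        map_C, map_X, map_C, map_pow, Polynomial.map_map, hFι, hV, hom_map] at h
      exact h
    obtain ⟨α, β, γ, δ, P1, Q1, hdet, hc1, hd1, hall⟩ := iso_of_scaled (F := F) ha hb hm1 hAK' hAaK
      hgK' hgbK (by rw [Ne, map_eq_zero]; exact hs : ι s ≠ 0)
      (by rw [Ne, map_eq_zero]; exact hl : ι l ≠ 0) k1 k2
    apply hniso
    refine ⟨α, β, γ, δ, P1, Q1, hdet, hc1, hd1, ?_⟩
    intro z
    rw [hf]
    exact hall z
  obtain ⟨i, hi, j, hj, hij, heq⟩ := Finset.exists_ne_map_eq_of_card_lt_of_maps_to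
    (s := Finset.range (2 * c0 (a * b) m + 3)) (t := P) (by rwa [Finset.card_range])
    (f := fun i => G^[i] w) (fun i _ => hmemP i)
  have hback : ∀ i, f^[i + 1] x = AK (rm (X ^ m) 1 m (OnePoint.map ι (G^[i] w))) := by
    intro i
    rw [Function.iterate_succ_apply', hf, hit]
  have heq' : f^[i + 1] x = f^[j + 1] x := by
    rw [hback, hback]
    rw [heq]
  have hi' := Finset.mem_range.1 hi
  have hj' := Finset.mem_range.1 hj
  rcases lt_or_gt_of_ne hij with h | h
  · exact ⟨i + 1, j + 1, by omega, by omega, heq'⟩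
  · exact ⟨j + 1, i + 1, by omega, by omega, heq'.symm⟩

/-- The bound. -/
def bound (e m : ℕ) : ℕ :=
  (2 * c0 e m + 4) * ((2 * c0 e m + 4) * (((e * m) ^ (2 * c0 e m + 4) + 2) *
    (e * m + 1) ^ (2 * c0 e m + 4)))

theorem key {F : Type w} {k K : Type u} [Field F] [IsAlgClosed F] [CharZero F] [Field k]
    [CharZero k] [Field K] [IsAlgClosed K] [CharZero K] [Algebra F k] [Algebra k K] [Algebra F K]
    [IsScalarTower F k K] {a b m n : ℕ} (ha : 1 ≤ a) (hb : 1 ≤ b)
    (hm : 2 * (217 * (a * b) ^ 2) ^ 5 *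
      (2 * ((2 * (a * b)) ^ (2 * (a * b)) * n) ^ 4 + 4) < m)
    {P Q : k[X]} (hPQ : IsCoprime P Q) (hd : max P.natDegree Q.natDegree = a * (m * b))
    {PA QA Pg Qg : K[X]} (hA : IsCoprime PA QA) (hAa : max PA.natDegree QA.natDegree = a)
    (hg : IsCoprime Pg Qg) (hgb : max Pg.natDegree Qg.natDegree = b)
    (hf : ∀ x : OnePoint K, rm (P.map (algebraMap k K)) (Q.map (algebraMap k K)) (a * (m * b)) x =
      rm PA QA a (rm (X ^ m) 1 m (rm Pg Qg b x)))
    (hniso : ¬ IsoC (F := F) (a * (m * b))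
      (rm (P.map (algebraMap k K)) (Q.map (algebraMap k K)) (a * (m * b)))) :
    ∃ T : Finset (OnePoint K), T.card ≤ bound (a * b) m ∧
      ∀ (M : IntermediateField k K), (∃ u : M, Transcendental F u ∧
        0 < Module.finrank F⟮u⟯ M ∧ Module.finrank F⟮u⟯ M ≤ n) →
        ∀ y : OnePoint M, (Set.range fun i : ℕ =>
          (rm (P.map (algebraMap k K)) (Q.map (algebraMap k K)) (a * (m * b)))^[i]
            (OnePoint.map (algebraMap M K) y)).Finite → OnePoint.map (algebraMap M K) y ∈ T := by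
  classical
  have hab : 1 ≤ a * b := Nat.mul_pos ha hb
  have hm2 : 2 * (a * b) < m := by
    refine lt_of_le_of_lt ?_ hm
    have h1 : a * b ≤ (217 * (a * b) ^ 2) ^ 5 := by
      calc a * b ≤ (a * b) ^ 10 := Nat.le_self_pow (by norm_num) _
        _ ≤ 217 ^ 5 * (a * b) ^ 10 := Nat.le_mul_of_pos_left _ (by norm_num)
        _ = (217 * (a * b) ^ 2) ^ 5 := by ring
    calc 2 * (a * b) ≤ 2 * (217 * (a * b) ^ 2) ^ 5 * 1 := by omega
      _ ≤ _ := Nat.mul_le_mul_left _ (by omega)
  have hcK : IsCoprime (P.map (algebraMap k K)) (Q.map (algebraMap k K)) :=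
    (Polynomial.isCoprime_map _).2 hPQ
  have hdK : max (P.map (algebraMap k K)).natDegree (Q.map (algebraMap k K)).natDegree =
      a * (m * b) := by
    rw [natDegree_map, natDegree_map]; exact hd
  have hd2 : 2 ≤ a * (m * b) := by
    have : a * (m * b) = m * (a * b) := by ring
    rw [this]
    calc 2 ≤ m * 1 := by omega
      _ ≤ m * (a * b) := Nat.mul_le_mul_left _ hab
  obtain ⟨T, hT1, hT2⟩ := rm_closing hd2 hcK hdK (2 * c0 (a * b) m + 4)
  refine ⟨T, ?_, ?_⟩
  · rw [bound]
    have : a * (m * b) = a * b * m := by ring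
    rw [this] at hT2
    exact hT2
  intro M hM y hfin
  obtain ⟨E, hE0, hE1, PA', QA', Pg', Qg', hA', hAa', hg', hgb', hf'⟩ :=
    descent ha hb hm2 hPQ hd hA hAa hg hgb hf
  apply hT1
  set L : IntermediateField k K := M ⊔ E with hL
  have hgonL := gonality_supN (F := F) M E hE0 hE1 hM
  set φ : E →+* L := (IntermediateField.inclusion (le_sup_right : E ≤ M ⊔ E)).toRingHom with hφ
  set ψ : M →+* L := (IntermediateField.inclusion (le_sup_left : M ≤ M ⊔ E)).toRingHom with hψ
  have hφK : (algebraMap L K).comp φ = algebraMap E K := rfl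
  have hψK : (algebraMap L K).comp ψ = algebraMap M K := rfl
  have hy : OnePoint.map (algebraMap M K) y =
      OnePoint.map (algebraMap L K) (OnePoint.map ψ y) := by
    induction y using OnePoint.rec with
    | infty => rfl
    | coe z => rfl
  rw [hy] at hfin ⊢
  refine orbit_closes (F := F) ha hb hm L (PA := PA'.map φ) (QA := QA'.map φ) (Pg := Pg'.map φ)
    (Qg := Qg'.map φ) ((Polynomial.isCoprime_map φ).2 hA') ?_
    ((Polynomial.isCoprime_map φ).2 hg') ?_ _ ?_ hniso hgonL (OnePoint.map ψ y) hfin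
  · rw [natDegree_map, natDegree_map]; exact hAa'
  · rw [natDegree_map, natDegree_map]; exact hgb'
  · intro x
    rw [Polynomial.map_map, Polynomial.map_map, Polynomial.map_map, Polynomial.map_map, hφK]
    exact hf' x

end Pool.Agent.Lib.P62h
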