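import Pool.Agent.Lib.P62h.Wm

/-!
# Module P62h.HtX: heights of units at infinity

`IsUn G x`: `x ≠ 0`, `x ∈ Inf`, `x⁻¹ ∈ Inf`. All statements are proved with the API of `Geo.lean`
(`ord_mul, ord_inv, h_eq_sum, h_eq_zeros, tot_unit, ord_fin`), summing over a finite set of
places which contains the supports of all elements involved.
* `h_mul_le`: `max 0 (-(a+b)) ≤ max 0 (-a) + max 0 (-b)`.
* `h_inv`: `h x⁻¹ = Σ max 0 (ord x) = h x` (`h_eq_zeros`).
* `h_zpow`: `h (x ^ k) = |k| h x`: natural powers first, then `h_inv`.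
* `supp_card`: `[ord x ≠ 0] ≤ max 0 (ord x) + max 0 (-ord x)`.
* `h_const`: `ord_const`.
* `one_sub_card`: zeros of `x - 1` (`x - 1 ∈ Inf`, `x ≠ 1`): the number of places with `v(x-1) < 1` is
  at most `Σ max 0 (ord (x-1)) ≤ Σ max 0 (-ord(x-1))` (`tot (x-1) ≤ 0`), and
  `max 0 (-ord(x-1)) ≤ max 0 (-ord x)` (ultrametric inequality), so at most `h x`.
-/

namespace Pool.Agent.Lib.P62h

open WithZero Pool.Agent.Lib.P62g

universe u w

variable {F : Type w} {L : Type u} [Field F] [Field L] [Algebra F L] {G : Geo F L}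

theorem IsUn.mul {x y : L} (hx : IsUn G x) (hy : IsUn G y) : IsUn G (x * y) :=
  ⟨mul_ne_zero hx.1 hy.1, G.Inf.mul_mem hx.2.1 hy.2.1, by
    rw [mul_inv]; exact G.Inf.mul_mem hx.2.2 hy.2.2⟩

theorem IsUn.inv {x : L} (hx : IsUn G x) : IsUn G x⁻¹ :=
  ⟨inv_ne_zero hx.1, hx.2.2, by rw [inv_inv]; exact hx.2.1⟩

theorem IsUn.one : IsUn G (1 : L) :=
  ⟨one_ne_zero, G.Inf.one_mem, by rw [inv_one]; exact G.Inf.one_mem⟩

theorem IsUn.pow {x : L} (hx : IsUn G x) (k : ℕ) : IsUn G (x ^ k) :=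
  ⟨pow_ne_zero k hx.1, G.Inf.pow_mem hx.2.1 k, by
    rw [← inv_pow]; exact G.Inf.pow_mem hx.2.2 k⟩

theorem IsUn.zpow {x : L} (hx : IsUn G x) (k : ℤ) : IsUn G (x ^ k) := by
  obtain ⟨n, rfl | rfl⟩ := k.eq_nat_or_neg
  · rw [zpow_natCast]; exact hx.pow n
  · rw [zpow_neg, zpow_natCast]; exact (hx.pow n).inv

theorem mem_supp (x : L) (p : G.Pl) (hp : G.ord p x ≠ 0) :
    p ∈ (Geo.ord_fin (G := G) x).toFinset := by
  simpa using hp

theorem h_mul_le {x y : L} (hx : x ≠ 0) (hy : y ≠ 0) : G.h (x * y) ≤ G.h x + G.h y := by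
  classical
  have h1 : ∀ p, G.ord p x ≠ 0 →
      p ∈ (Geo.ord_fin (G := G) x).toFinset ∪ (Geo.ord_fin (G := G) y).toFinset :=
    fun p hp => Finset.mem_union_left _ (mem_supp x p hp)
  have h2 : ∀ p, G.ord p y ≠ 0 →
      p ∈ (Geo.ord_fin (G := G) x).toFinset ∪ (Geo.ord_fin (G := G) y).toFinset :=
    fun p hp => Finset.mem_union_right _ (mem_supp y p hp)
  have h3 : ∀ p, G.ord p (x * y) ≠ 0 →
      p ∈ (Geo.ord_fin (G := G) x).toFinset ∪ (Geo.ord_fin (G := G) y).toFinset := by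
    intro p hp
    rw [Geo.ord_mul hx hy] at hp
    by_contra hc
    apply hp
    have ha : G.ord p x = 0 := by
      by_contra h; exact hc (h1 p h)
    have hb : G.ord p y = 0 := by
      by_contra h; exact hc (h2 p h)
    rw [ha, hb, add_zero]
  rw [Geo.h_eq_sum _ h1, Geo.h_eq_sum _ h2, Geo.h_eq_sum _ h3, ← Finset.sum_add_distrib]
  refine Finset.sum_le_sum fun p _ => ?_
  rw [Geo.ord_mul hx hy]
  omega

theorem h_inv {x : L} (hx : IsUn G x) : G.h x⁻¹ = G.h x := by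
  have h2 : ∀ p, G.ord p x⁻¹ ≠ 0 → p ∈ (Geo.ord_fin (G := G) x).toFinset := fun p hp => by
    rw [Geo.ord_inv] at hp
    exact mem_supp x p (by omega)
  rw [Geo.h_eq_zeros hx.1 hx.2.1 hx.2.2 _ (mem_supp x), Geo.h_eq_sum _ h2]
  refine Finset.sum_congr rfl fun p _ => ?_
  rw [Geo.ord_inv, neg_neg]

theorem h_pow (x : L) (k : ℕ) : G.h (x ^ k) = k * G.h x := by
  have h2 : ∀ p, G.ord p (x ^ k) ≠ 0 → p ∈ (Geo.ord_fin (G := G) x).toFinset := fun p hp => by
    rw [Geo.ord_pow] at hp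
    exact mem_supp x p (right_ne_zero_of_mul hp)
  rw [Geo.h_eq_sum _ (mem_supp x), Geo.h_eq_sum _ h2, Finset.mul_sum]
  refine Finset.sum_congr rfl fun p _ => ?_
  rw [Geo.ord_pow, mul_max_of_nonneg _ _ (Int.natCast_nonneg k), mul_zero, mul_neg]

theorem h_zpow {x : L} (hx : IsUn G x) (k : ℤ) : G.h (x ^ k) = |k| * G.h x := by
  obtain ⟨n, rfl | rfl⟩ := k.eq_nat_or_neg
  · rw [zpow_natCast, h_pow, Nat.abs_cast]
  · rw [zpow_neg, zpow_natCast, h_inv (hx.pow n), h_pow, abs_neg, Nat.abs_cast]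

theorem supp_card {x : L} (hx : IsUn G x) :
    ∃ S : Finset G.Pl, (∀ p ∉ S, G.ord p x = 0) ∧ (S.card : ℤ) ≤ 2 * G.h x := by
  refine ⟨(Geo.ord_fin (G := G) x).toFinset, fun p hp => ?_, ?_⟩
  · by_contra h
    exact hp (mem_supp x p h)
  have h3 := Geo.h_eq_zeros hx.1 hx.2.1 hx.2.2 _ (mem_supp (G := G) x)
  have h4 := Geo.h_eq_sum _ (mem_supp (G := G) x)
  have h5 : ((Geo.ord_fin (G := G) x).toFinset.card : ℤ) ≤
      ∑ p ∈ (Geo.ord_fin (G := G) x).toFinset, (max 0 (G.ord p x) + max 0 (-(G.ord p x))) := by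
    rw [Finset.card_eq_sum_ones]
    push_cast
    refine Finset.sum_le_sum fun p hp => ?_
    have h6 : G.ord p x ≠ 0 := by simpa using hp
    omega
  rw [Finset.sum_add_distrib, ← h3, ← h4] at h5
  omega

theorem h_const (c : F) : G.h (algebraMap F L c) = 0 := by
  have h1 : ∀ p, max 0 (-(G.ord p (algebraMap F L c))) = 0 := by
    intro p
    rcases eq_or_ne c 0 with rfl | hc
    · rw [map_zero, Geo.ord_zero]; simp
    · rw [Geo.ord_const hc]; simp
  rw [Geo.h]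
  simp [h1]

theorem one_sub_card {x : L} (hx : x ∈ G.Inf) (h1 : x ≠ 1) :
    {p | G.v p (x - 1) < 1}.Finite ∧ ({p | G.v p (x - 1) < 1}.ncard : ℤ) ≤ G.h x := by
  classical
  have hy : x - 1 ≠ 0 := sub_ne_zero.2 h1
  have hyI : x - 1 ∈ G.Inf := G.Inf.sub_mem hx G.Inf.one_mem
  have hle : ∀ p, max 0 (-(G.ord p (x - 1))) ≤ max 0 (-(G.ord p x)) := by
    intro p
    rcases eq_or_ne x 0 with h0 | hx0
    · rw [h0, zero_sub, Geo.ord_neg, Geo.ord_one, Geo.ord_zero]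
    have h2 : G.v p (x - 1) ≤ max (G.v p x) (G.v p 1) := Valuation.map_sub _ _ _
    rw [map_one, Geo.v_eq hy, Geo.v_eq hx0, ← exp_zero] at h2
    rcases le_max_iff.1 h2 with h3 | h3
    · rw [exp_le_exp] at h3; omega
    · rw [exp_le_exp] at h3; omega
  have hS1 : ∀ p, G.ord p x ≠ 0 →
      p ∈ (Geo.ord_fin (G := G) x).toFinset ∪ (Geo.ord_fin (G := G) (x - 1)).toFinset :=
    fun p hp => Finset.mem_union_left _ (mem_supp x p hp)
  have hS2 : ∀ p, G.ord p (x - 1) ≠ 0 →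
      p ∈ (Geo.ord_fin (G := G) x).toFinset ∪ (Geo.ord_fin (G := G) (x - 1)).toFinset :=
    fun p hp => Finset.mem_union_right _ (mem_supp (x - 1) p hp)
  have hsub : {p | G.v p (x - 1) < 1} ⊆
      (((Geo.ord_fin (G := G) x).toFinset ∪ (Geo.ord_fin (G := G) (x - 1)).toFinset).filter
        (fun p => 0 < G.ord p (x - 1)) : Finset G.Pl) := by
    intro p hp
    have h2 : 0 < G.ord p (x - 1) := (Geo.v_lt_one_iff hy p).1 hp
    rw [Finset.mem_coe, Finset.mem_filter]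
    exact ⟨hS2 p (by omega), h2⟩
  refine ⟨(Finset.finite_toSet _).subset hsub, ?_⟩
  have h2 := Set.ncard_le_ncard hsub (Finset.finite_toSet _)
  rw [Set.ncard_coe_finset] at h2
  have h3 : ((((Geo.ord_fin (G := G) x).toFinset ∪ (Geo.ord_fin (G := G) (x - 1)).toFinset).filter
        (fun p => 0 < G.ord p (x - 1))).card : ℤ) ≤
      ∑ p ∈ (Geo.ord_fin (G := G) x).toFinset ∪ (Geo.ord_fin (G := G) (x - 1)).toFinset,
        max 0 (G.ord p (x - 1)) := by
    rw [Finset.card_filter]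
    push_cast
    refine Finset.sum_le_sum fun p _ => ?_
    split_ifs with h
    · omega
    · omega
  have h4 := Geo.tot_nonpos hy hyI
  rw [Geo.tot_eq_sum _ hS2] at h4
  have h5 : ∑ p ∈ (Geo.ord_fin (G := G) x).toFinset ∪ (Geo.ord_fin (G := G) (x - 1)).toFinset,
        max 0 (G.ord p (x - 1)) =
      ∑ p ∈ (Geo.ord_fin (G := G) x).toFinset ∪ (Geo.ord_fin (G := G) (x - 1)).toFinset,
        G.ord p (x - 1) +
      ∑ p ∈ (Geo.ord_fin (G := G) x).toFinset ∪ (Geo.ord_fin (G := G) (x - 1)).toFinset,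
        max 0 (-(G.ord p (x - 1))) := by
    rw [← Finset.sum_add_distrib]
    refine Finset.sum_congr rfl fun p _ => ?_
    omega
  have h6 : ∑ p ∈ (Geo.ord_fin (G := G) x).toFinset ∪ (Geo.ord_fin (G := G) (x - 1)).toFinset,
        max 0 (-(G.ord p (x - 1))) ≤ G.h x := by
    rw [Geo.h_eq_sum _ hS1]
    exact Finset.sum_le_sum fun p _ => hle p
  have h7 : (({p | G.v p (x - 1) < 1}.ncard : ℕ) : ℤ) ≤
      ((((Geo.ord_fin (G := G) x).toFinset ∪ (Geo.ord_fin (G := G) (x - 1)).toFinset).filter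
        (fun p => 0 < G.ord p (x - 1))).card : ℤ) := by exact_mod_cast h2
  linarith

end Pool.Agent.Lib.P62h
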