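import Pool.Agent.Lib.P62h.WrC
import Pool.Agent.Lib.P62h.HtX

/-!
# Module P62h.BmH: heights of the solutions of unit equations

(imports WrB, WrC (`v_wr_rel`, `v_wr_le`, `v_wr_int`, `wr_inf`) and HtX as black boxes.)
`x j` units at infinity with `Σ c j x j = 0`, all `c j ≠ 0`, and
`W = wr θ (x ∘ (0).succAbove) ≠ 0`. By `v_wr_rel` (with `G.v_const`) for each `t` the Wronskian of
`x ∘ t.succAbove` has the same order as `W` at each place. Let `m = s(s-1)/2`.
`v_wr_le` (`G.θ_v`): `ord_p W ≥ Σ_r ord (x r) - ord (x t) - m` for every `t`; for `p ∉ S`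
`ord_p W ≥ 0` (`v_wr_int`). Using this for `t` and for `t'`:
`ord_p W - Σ_r ord_p (x r) + ord_p (x t') ≥ max 0 (ord_p (x t') - ord_p (x t)) - (m if p ∈ S else 0)`.
Sum over a finite set of places containing `S` and the support of `W`: `tot W ≤ m κ` (`wr_inf`),
`tot (x r) = 0`, and `Σ_p max 0 (ord_p (x t') - ord_p (x t)) = h (x t / x t')`
(`ord (x t / x t') = ord (x t) - ord (x t')`). So `h (x t / x t') ≤ m κ + m |S|`.
-/

namespace Pool.Agent.Lib.P62h

open WithZero Pool.Agent.Lib.P62g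

universe u w

namespace BmHAux

open Geo

variable {F : Type w} {L : Type u} [Field F] [Field L] [Algebra F L] {G : Geo F L}

theorem ord_prod {ι : Type} (s : Finset ι) (x : ι → L) (hx : ∀ j, x j ≠ 0) (p : G.Pl) :
    G.ord p (∏ j ∈ s, x j) = ∑ j ∈ s, G.ord p (x j) := by
  classical
  induction s using Finset.induction_on with
  | empty => simp [ord_one]
  | insert a s ha ih =>
    rw [Finset.prod_insert ha, Finset.sum_insert ha,
      ord_mul (hx a) (Finset.prod_ne_zero_iff.2 fun j _ => hx j), ih]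

end BmHAux

open BmHAux in
theorem bm_height {F : Type w} {L : Type u} [Field F] [Field L] [Algebra F L] (G : Geo F L)
    {s : ℕ} (x : Fin (s + 1) → L) (hx : ∀ j, IsUn G (x j)) (c : Fin (s + 1) → F)
    (hc : ∀ t, c t ≠ 0) (h : ∑ t, algebraMap F L (c t) * x t = 0)
    (hW : wr G.θ (fun j => x ((0 : Fin (s + 1)).succAbove j)) ≠ 0) (S : Finset G.Pl)
    (hS : ∀ p ∉ S, ∀ j, G.ord p (x j) = 0) (t t' : Fin (s + 1)) :
    G.h (x t / x t') ≤ ((s * (s - 1) / 2 : ℕ) : ℤ) * (G.κ + S.card) := by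
  classical
  obtain ⟨m, hm⟩ : ∃ m : ℕ, m = s * (s - 1) / 2 := ⟨_, rfl⟩
  rw [← hm]
  obtain ⟨W, hWd⟩ : ∃ W : L, W = wr G.θ (fun j => x ((0 : Fin (s + 1)).succAbove j)) := ⟨_, rfl⟩
  rw [← hWd] at hW
  have hx0 : ∀ j, x j ≠ 0 := fun j => (hx j).1
  have hrel : ∀ (r : Fin (s + 1)) (p : G.Pl),
      G.v p (wr G.θ fun j => x (r.succAbove j)) = G.v p W := by
    intro r p
    rw [hWd]
    exact v_wr_rel (G.v p) (G.v_const p) G.θ x c hc h r 0
  -- lower bounds for the order of the Wronskian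
  have hlow : ∀ (p : G.Pl) (r : Fin (s + 1)),
      ∑ q, G.ord p (x q) - G.ord p (x r) - m ≤ G.ord p W := by
    intro p r
    have h1 := v_wr_le (G.v p) G.θ (G.θ_v p) (fun j => x (r.succAbove j))
    rw [hrel, ← map_prod, Geo.v_eq hW, Geo.v_eq (Finset.prod_ne_zero_iff.2 fun j _ => hx0 _),
      ← exp_add, exp_le_exp, ord_prod _ _ (fun j => hx0 _), ← hm] at h1
    rw [Fin.sum_univ_succAbove _ r]
    linarith
  have hlow' : ∀ p ∉ S, 0 ≤ G.ord p W := by
    intro p hp
    have h1 := v_wr_int (G.v p) G.θ (G.θ_int p)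
      (fun j => x ((0 : Fin (s + 1)).succAbove j)) (fun j => by
        rw [Geo.v_le_one_iff (hx0 _), hS p hp])
    rw [← hWd, Geo.v_le_one_iff hW] at h1
    exact h1
  -- the total order of the Wronskian
  have htW : G.tot W ≤ m * G.κ := by
    obtain ⟨b, hb, hb'⟩ := wr_inf G (fun j => x ((0 : Fin (s + 1)).succAbove j))
      (fun j => (hx _).2.1)
    rw [← hWd, ← hm] at hb'
    have hb0 : b ≠ 0 := by
      rintro rfl
      exact hW (by rw [hb', mul_zero])
    have h1 := Geo.tot_nonpos (G := G) hb0 hb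
    have h2 : G.tot G.U ≤ G.κ := G.tot_U
    rw [hb', Geo.tot_mul (pow_ne_zero _ G.U_ne) hb0, Geo.tot_pow G.U_ne]
    have h3 : (m : ℤ) * G.tot G.U ≤ m * G.κ := mul_le_mul_of_nonneg_left h2 (by positivity)
    linarith
  obtain ⟨T, hT⟩ : ∃ T : Finset G.Pl, T = S ∪ (Geo.ord_fin W).toFinset := ⟨_, rfl⟩
  have hST : S ⊆ T := by rw [hT]; exact Finset.subset_union_left
  have hTW : ∀ p, G.ord p W ≠ 0 → p ∈ T := by
    intro p hp
    rw [hT, Finset.mem_union]
    right
    simpa using hp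
  have hTx : ∀ j p, G.ord p (x j) ≠ 0 → p ∈ T := by
    intro j p hp
    apply hST
    by_contra h1
    exact hp (hS p h1 j)
  have hordq : ∀ p, G.ord p (x t / x t') = G.ord p (x t) - G.ord p (x t') := by
    intro p
    rw [div_eq_mul_inv, Geo.ord_mul (hx0 _) (inv_ne_zero (hx0 _)), Geo.ord_inv]
    ring
  have hh : G.h (x t / x t') = ∑ p ∈ T, max 0 (G.ord p (x t') - G.ord p (x t)) := by
    rw [Geo.h_eq_sum T]
    · refine Finset.sum_congr rfl fun p _ => ?_
      rw [hordq]
      congr 1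
      ring
    · intro p hp
      by_contra h1
      apply hp
      rw [hordq]
      have h2 : G.ord p (x t) = 0 := by
        by_contra h3
        exact h1 (hTx t p h3)
      have h3 : G.ord p (x t') = 0 := by
        by_contra h3
        exact h1 (hTx t' p h3)
      rw [h2, h3, sub_zero]
  have htot : ∀ j, ∑ p ∈ T, G.ord p (x j) = 0 := by
    intro j
    rw [← Geo.tot_eq_sum T (hTx j)]
    exact Geo.tot_unit (hx0 j) (hx j).2.1 (hx j).2.2
  have htotW : ∑ p ∈ T, G.ord p W = G.tot W := (Geo.tot_eq_sum T hTW).symm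
  have hmain : ∀ p ∈ T, max 0 (G.ord p (x t') - G.ord p (x t)) ≤
      G.ord p W - ∑ q, G.ord p (x q) + G.ord p (x t') + (if p ∈ S then (m : ℤ) else 0) := by
    intro p _
    by_cases hp : p ∈ S
    · rw [if_pos hp]
      have h1 := hlow p t
      have h2 := hlow p t'
      exact max_le (by linarith) (by linarith)
    · rw [if_neg hp]
      have h1 := hlow' p hp
      have h2 : ∑ q, G.ord p (x q) = 0 := Finset.sum_eq_zero fun q _ => hS p hp q
      rw [h2, hS p hp t, hS p hp t']
      exact max_le (by linarith) (by linarith)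
  have hsum := Finset.sum_le_sum hmain
  rw [← hh, Finset.sum_add_distrib, Finset.sum_add_distrib, Finset.sum_sub_distrib, htotW,
    htot t', Finset.sum_comm, Finset.sum_eq_zero (fun q _ => htot q)] at hsum
  have hcard : ∑ p ∈ T, (if p ∈ S then (m : ℤ) else 0) = m * S.card := by
    rw [← Finset.sum_filter, Finset.filter_mem_eq_inter, Finset.inter_eq_right.2 hST,
      Finset.sum_const, nsmul_eq_mul, mul_comm]
  rw [hcard] at hsum
  linarith

end Pool.Agent.Lib.P62h
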