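import Pool.Agent.Lib.P62h.Dyn2
import Pool.Agent.Lib.P62h.GCon
import Pool.Agent.Lib.P62g.Core

/-!
# Finite invariant sets of `x ↦ U(x^m) / V(x^m)`, core case
-/

namespace Pool.Agent.Lib.P62h

open Polynomial IntermediateField Pool.Agent.Lib.P62a0c3 Pool.Agent.Lib.P62g

universe u w

theorem core2 {F : Type w} {L : Type u} [Field F] [IsAlgClosed F] [CharZero F] [Field L]
    [Algebra F L] (u : L) (hu : Transcendental F u) {n e m : ℕ} (he : 1 ≤ e)
    (hpos : 0 < Module.finrank F⟮u⟯ L) (hn : Module.finrank F⟮u⟯ L ≤ n)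
    (hm : 2 * (217 * e ^ 2) ^ 5 * (2 * n ^ 4 + 4) < m) {U V : L[X]} (hcop : IsCoprime U V)
    (hdeg : max U.natDegree V.natDegree = e) (P : Finset (OnePoint L))
    (hP : ∀ p ∈ P, gm U V e m p ∈ P) (h1 : ((1 : L) : OnePoint L) ∈ P)
    (hcard : 2 * c0 e m + 2 ≤ P.card)
    (hgen : IntermediateField.adjoin F (insert u {z : L | z ≠ 0 ∧ (z : OnePoint L) ∈ P}) = ⊤) :
    ∃ (s l : L) (U0 V0 : F[X]), s ≠ 0 ∧ l ≠ 0 ∧
      U.comp (C (s ^ m) * X) = C l * U0.map (algebraMap F L) ∧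
      C s * V.comp (C (s ^ m) * X) = C l * V0.map (algebraMap F L) := by
  classical
  have hm0 : 1 ≤ m := by omega
  -- the finite nonzero points
  set Q : Finset L := (P.preimage (fun z : L => (z : OnePoint L))
    (OnePoint.coe_injective.injOn)).erase 0 with hQ
  have hmemQ : ∀ z, z ∈ Q ↔ z ≠ 0 ∧ (z : OnePoint L) ∈ P := by
    intro z
    rw [hQ, Finset.mem_erase, Finset.mem_preimage]
  have hQset : (Q : Set L) = {z : L | z ≠ 0 ∧ (z : OnePoint L) ∈ P} := by
    ext z
    exact hmemQ z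
  have h0Q : (0 : L) ∉ Q := fun h => ((hmemQ 0).1 h).1 rfl
  have h1Q : (1 : L) ∈ Q := (hmemQ 1).2 ⟨one_ne_zero, h1⟩
  have hQcard : 2 * c0 e m ≤ Q.card := by
    have h2 : P ⊆ (Q.image fun z : L => (z : OnePoint L)) ∪
        {OnePoint.infty, ((0 : L) : OnePoint L)} := by
      intro p hp
      rw [Finset.mem_union]
      induction p using OnePoint.rec with
      | infty => right; simp
      | coe z =>
        by_cases hz : z = 0
        · right; rw [hz]; simp
        · left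
          exact Finset.mem_image.2 ⟨z, (hmemQ z).2 ⟨hz, hp⟩, rfl⟩
    have h3 := (Finset.card_le_card h2).trans (Finset.card_union_le _ _)
    have h4 : (Q.image fun z : L => (z : OnePoint L)).card ≤ Q.card := Finset.card_image_le
    have h5 := Finset.card_le_two (a := (OnePoint.infty : OnePoint L)) (b := ((0 : L) : OnePoint L))
    omega
  set W : Finset L := Q ∪ (Q.image fun z => z⁻¹) ∪
    ((Q ×ˢ Q).image fun q => ((q.1 / q.2) ^ m - 1)⁻¹) with hW
  obtain ⟨G, hGW, hGκ⟩ := exists_geo (F := F) u hu hpos hn Q h0Q (by rw [hQset]; exact hgen) W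
  have hInf : ∀ z ∈ Q, z ∈ G.Inf := by
    intro z hz
    apply hGW
    rw [hW, Finset.mem_union, Finset.mem_union]
    exact Or.inl (Or.inl hz)
  have hInfi : ∀ z ∈ Q, z⁻¹ ∈ G.Inf := by
    intro z hz
    apply hGW
    rw [hW, Finset.mem_union, Finset.mem_union]
    exact Or.inl (Or.inr (Finset.mem_image_of_mem _ hz))
  have hInfq : ∀ z ∈ Q, ∀ w ∈ Q, ((z / w) ^ m - 1)⁻¹ ∈ G.Inf := by
    intro z hz w hw
    apply hGW
    rw [hW, Finset.mem_union]
    exact Or.inr (Finset.mem_image.2 ⟨(z, w), Finset.mem_product.2 ⟨hz, hw⟩, rfl⟩)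
  have hUn : ∀ z ∈ Q, ∀ w ∈ Q, IsUn G (z / w) := by
    intro z hz w hw
    refine ⟨div_ne_zero ((hmemQ z).1 hz).1 ((hmemQ w).1 hw).1, ?_, ?_⟩
    · rw [div_eq_mul_inv]
      exact G.Inf.mul_mem (hInf z hz) (hInfi w hw)
    · rw [inv_div, div_eq_mul_inv]
      exact G.Inf.mul_mem (hInf w hw) (hInfi z hz)
  have hQne : Q.Nonempty := ⟨1, h1Q⟩
  obtain ⟨⟨x0, y0⟩, hxy, hmax⟩ := Finset.exists_max_image (Q ×ˢ Q)
    (fun q : L × L => G.h (q.2 / q.1)) (hQne.product hQne)
  rw [Finset.mem_product] at hxy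
  have hx0Q : x0 ∈ Q := hxy.1
  have hy0Q : y0 ∈ Q := hxy.2
  set R := G.h (y0 / x0) with hR
  have hR0 : 0 ≤ R := Geo.h_nonneg _
  have hmax' : ∀ x ∈ Q, ∀ y ∈ Q, G.h (y / x) ≤ R := by
    intro x hx y hy
    exact hmax (x, y) (Finset.mem_product.2 ⟨hx, hy⟩)
  have hκ : (G.κ : ℤ) ≤ ((2 * n ^ 4 : ℕ) : ℤ) * R := by
    apply hGκ R hR0
    intro z hz
    have := hmax' 1 h1Q z hz
    rwa [_root_.div_one] at this
  -- the base point
  obtain ⟨s, hsQ, hs2⟩ : ∃ s ∈ Q, c0 e m ≤ (Q.filter fun z => R ≤ 2 * G.h (z / s)).card := by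
    by_contra hcon
    push Not at hcon
    have c1 := hcon x0 hx0Q
    have c2 := hcon y0 hy0Q
    have h2 : Q ⊆ (Q.filter fun z => R ≤ 2 * G.h (z / x0)) ∪
        (Q.filter fun z => R ≤ 2 * G.h (z / y0)) := by
      intro z hz
      rw [Finset.mem_union, Finset.mem_filter, Finset.mem_filter]
      have hz0 : z ≠ 0 := ((hmemQ z).1 hz).1
      have hy00 : y0 ≠ 0 := ((hmemQ y0).1 hy0Q).1
      have h3 : y0 / x0 = (y0 / z) * (z / x0) := by
        rw [div_mul_div_cancel₀ hz0]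
      have h4 : R ≤ G.h (y0 / z) + G.h (z / x0) := by
        rw [hR, h3]
        exact h_mul_le (hUn y0 hy0Q z hz).1 (hUn z hz x0 hx0Q).1
      have h5 : G.h (y0 / z) = G.h (z / y0) := by
        rw [← inv_div z y0]
        exact h_inv (hUn z hz y0 hy0Q)
      rw [h5] at h4
      by_cases h6 : R ≤ 2 * G.h (z / x0)
      · exact Or.inl ⟨hz, h6⟩
      · right
        refine ⟨hz, ?_⟩
        omega
    have h7 := (Finset.card_le_card h2).trans (Finset.card_union_le _ _)
    omega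
  obtain ⟨hs0, hsP⟩ := (hmemQ s).1 hsQ
  set P' := P.image (sc s) with hP'def
  have hP'card : P'.card = P.card := Finset.card_image_of_injective _ (sc_injective hs0)
  set U' := U.comp (C (s ^ m) * X) with hU'
  set V' := C s * V.comp (C (s ^ m) * X) with hV'
  have hcop' : IsCoprime U' V' := sc_coprime hs0 m hcop
  have hdeg' : max U'.natDegree V'.natDegree = e := sc_degree hs0 m hdeg
  have hP' : ∀ p ∈ P', gm U' V' e m p ∈ P' := by
    intro p hp
    obtain ⟨q, hq, rfl⟩ := Finset.mem_image.1 hp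
    rw [hU', hV', ← sc_gm hs0 m (by omega) (by omega)]
    exact Finset.mem_image_of_mem _ (hP q hq)
  have h1P' : ((1 : L) : OnePoint L) ∈ P' := by
    refine Finset.mem_image.2 ⟨_, hsP, ?_⟩
    rw [sc_some, div_self hs0]
  have hmem' : ∀ z : L, (z : OnePoint L) ∈ P' → z ≠ 0 → ∃ w ∈ Q, z = w / s := by
    intro z hz hz0
    obtain ⟨q, hq, hqz⟩ := Finset.mem_image.1 hz
    induction q using OnePoint.rec with
    | infty => rw [sc_infty] at hqz; exact absurd hqz.symm (OnePoint.coe_ne_infty _)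
    | coe w =>
      rw [sc_some] at hqz
      have hw : w / s = z := OnePoint.coe_injective hqz
      have hw0 : w ≠ 0 := by
        rintro rfl
        rw [zero_div] at hw
        exact hz0 hw.symm
      exact ⟨w, (hmemQ w).2 ⟨hw0, hq⟩, hw.symm⟩
  have hle : ∀ z : L, (z : OnePoint L) ∈ P' → z ≠ 0 → G.h z ≤ R := by
    intro z hz hz0
    obtain ⟨w, hw, rfl⟩ := hmem' z hz hz0
    exact hmax' s hsQ w hw
  have hun : ∀ z : L, (z : OnePoint L) ∈ P' → z ≠ 0 → IsUn G z := by
    intro z hz hz0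
    obtain ⟨w, hw, rfl⟩ := hmem' z hz hz0
    exact hUn w hw s hsQ
  have hRz : R = 0 := by
    by_contra hRne
    have hR1 : 1 ≤ R := by omega
    set Q' := (Q.filter fun z => R ≤ 2 * G.h (z / s)).image fun z => z / s with hQ'
    have hinj : Function.Injective fun z : L => z / s := by
      intro a b hab
      exact (div_left_inj' hs0).1 hab
    have hQ'card : Q'.card = (Q.filter fun z => R ≤ 2 * G.h (z / s)).card :=
      Finset.card_image_of_injective _ hinj
    have h2 := dyn2 G (C1 := 2 * n ^ 4) he hm hR1 hκ hcop' hdeg' P' hP' h1P' hun (by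
      intro z hz hz0 _
      obtain ⟨w, hw, rfl⟩ := hmem' z hz hz0
      exact hInfq w hw s hsQ) hle Q' (by
      intro z hz
      rw [hQ', Finset.mem_image] at hz
      obtain ⟨w, hw, rfl⟩ := hz
      rw [Finset.mem_filter] at hw
      obtain ⟨hw0, hwP⟩ := (hmemQ w).1 hw.1
      refine ⟨div_ne_zero hw0 hs0, ?_, hw.2⟩
      exact Finset.mem_image.2 ⟨_, hwP, rfl⟩)
    omega
  -- all finite points of `P'` are constants
  have hconst : ∀ z : L, (z : OnePoint L) ∈ P' → ∃ c : F, z = algebraMap F L c := by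
    intro z hz
    by_cases hz0 : z = 0
    · exact ⟨0, by rw [hz0, map_zero]⟩
    · have h3 := hle z hz hz0
      rw [hRz] at h3
      exact Geo.const_of_h_eq_zero (hun z hz hz0).2.1 (le_antisymm h3 (Geo.h_nonneg z))
  have hbig : m * (2 * e + 1) + 2 ≤ P'.card := by
    rw [hP'card]
    refine le_trans ?_ hcard
    have h3 : m * (2 * e + 1) ≤ 2 * c0 e m := by
      rw [c0]
      have e1 : 1 ≤ e ^ 4 := Nat.one_le_pow _ _ he
      have e2 : 1 ≤ (217 * e ^ 2) ^ 3 := Nat.one_le_pow _ _ (by positivity)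
      have e3 : e ≤ e ^ 4 := Nat.le_self_pow (by norm_num) e
      calc m * (2 * e + 1) ≤ 2 * (288 * e ^ 4 * (4 * 1 * m)) := by nlinarith
        _ ≤ 2 * (288 * e ^ 4 * (4 * (217 * e ^ 2) ^ 3 * m + 1) + e * m) := by
          apply Nat.mul_le_mul_left
          refine le_trans (Nat.mul_le_mul_left _ ?_) (Nat.le_add_right _ _)
          refine le_trans (Nat.mul_le_mul_right _ (Nat.mul_le_mul_left _ e2)) (Nat.le_add_right _ _)
    omega
  obtain ⟨l, U0, V0, hl, f1, f2⟩ := gconst (F := F) he hm0 hcop' hdeg' P' hP' hconst hbig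
  exact ⟨s, l, U0, V0, hs0, hl, f1, f2⟩

end Pool.Agent.Lib.P62h
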