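import Pool.Agent.Lib.P62h.GmD
import Pool.Agent.Lib.P62g.CollB

/-!
# Module P62h.HoleA: points near `1` have the same image unless there is a hole

(uses `toP1 p q = [p : q]`, the definitions `nmL, dnL, nu, coll` of P62g.CollB.)
Let `g = gz v U V e`; `v (U.coeff i), v (V.coeff i) ≤ g` for all `i` (for `i > e` the coefficients
vanish), so `v (U.eval 1), v (V.eval 1) ≤ g` and one of them is `g` (`¬ Hole`), `g > 0` by `h1`. With
`v (x - 1) < 1` also `v x ≤ 1`, `v (x ^ i - 1) ≤ v (x - 1)`, so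
`v (U.eval x - U.eval 1) ≤ g v(x - 1) < g`, same for `V`. Hence
`max (v (U.eval x)) (v (V.eval x)) = g` too, and
`U(1) V(x) - U(x) V(1) = U(1) (V(x) - V(1)) - (U(x) - U(1)) V(1)` has value `< g * g`.
Finally `(U(1), V(1)) = c (nmL q, dnL q)` for `q = toP1 (U(1)) (V(1))` with `c ≠ 0`, so `g = v c * nu v q`,
and `(U(x), V(x)) = c' (nmL r, dnL r)` similarly; cancel `v c * v c'` (compare the proof of
`collapse` in `P62g/CollB.lean`, which has such lemmas).
-/

namespace Pool.Agent.Lib.P62h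

open Polynomial WithZero Pool.Agent.Lib.P62a0c3 Pool.Agent.Lib.P62g

namespace HoleAAux

section

variable {L : Type*} [Field L] (v : Valuation L ℤᵐ⁰)

theorem coeff_le {P : L[X]} {g : ℤᵐ⁰} {e : ℕ} (hP : P.natDegree ≤ e)
    (h : ∀ i, i ≤ e → v (P.coeff i) ≤ g) (i : ℕ) : v (P.coeff i) ≤ g := by
  by_cases hi : i ≤ e
  · exact h i hi
  · rw [coeff_eq_zero_of_natDegree_lt (lt_of_le_of_lt hP (not_le.1 hi)), map_zero]
    exact zero_le'

theorem val_le_one {x : L} (hx : v (x - 1) < 1) : v x ≤ 1 := by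
  have h1 : x = (x - 1) + 1 := by ring
  rw [h1]
  refine (Valuation.map_add v _ _).trans (max_le hx.le ?_)
  rw [map_one]

theorem eval_le {P : L[X]} {g : ℤᵐ⁰} (h : ∀ i, v (P.coeff i) ≤ g) {x : L} (hx : v x ≤ 1) :
    v (P.eval x) ≤ g := by
  rw [eval_eq_sum_range]
  refine Valuation.map_sum_le v (fun i _ => ?_)
  rw [map_mul, map_pow]
  calc v (P.coeff i) * v x ^ i ≤ g * 1 := mul_le_mul' (h i) (pow_le_one' hx i)
    _ = g := mul_one g

theorem pow_sub_le {x : L} (hx : v x ≤ 1) (i : ℕ) : v (x ^ i - 1) ≤ v (x - 1) := by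
  rw [← mul_geom_sum x i, map_mul]
  calc v (x - 1) * v (∑ j ∈ Finset.range i, x ^ j) ≤ v (x - 1) * 1 := by
        refine mul_le_mul' le_rfl (Valuation.map_sum_le v (fun j _ => ?_))
        rw [map_pow]
        exact pow_le_one' hx j
    _ = v (x - 1) := mul_one _

theorem eval_sub_le {P : L[X]} {g : ℤᵐ⁰} (h : ∀ i, v (P.coeff i) ≤ g) {x : L} (hx : v x ≤ 1) :
    v (P.eval x - P.eval 1) ≤ g * v (x - 1) := by
  rw [eval_eq_sum_range, eval_eq_sum_range, ← Finset.sum_sub_distrib]
  refine Valuation.map_sum_le v (fun i _ => ?_)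
  have h1 : P.coeff i * x ^ i - P.coeff i * 1 ^ i = P.coeff i * (x ^ i - 1) := by
    rw [one_pow]; ring
  rw [h1, map_mul]
  exact mul_le_mul' (h i) (pow_sub_le v hx i)

theorem rep_toP1 {p q : L} (h : p ≠ 0 ∨ q ≠ 0) :
    ∃ c : L, c ≠ 0 ∧ p = c * nmL (toP1 p q) ∧ q = c * dnL (toP1 p q) := by
  by_cases hq : q = 0
  · have hp : p ≠ 0 := by
      rcases h with h | h
      · exact h
      · exact absurd hq h
    have h1 : toP1 p q = OnePoint.infty := by rw [toP1, if_pos hq]
    refine ⟨p, hp, ?_, ?_⟩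
    · rw [h1]; exact (mul_one p).symm
    · rw [h1, hq]; exact (mul_zero p).symm
  · have h1 : toP1 p q = ((p / q : L) : OnePoint L) := by rw [toP1, if_neg hq]
    refine ⟨q, hq, ?_, ?_⟩
    · rw [h1]
      change p = q * (p / q)
      field_simp
    · rw [h1]; exact (mul_one q).symm

theorem nu_mul {p q c : L} {r : OnePoint L} (h1 : p = c * nmL r) (h2 : q = c * dnL r) :
    v c * nu v r = max (v p) (v q) := by
  rw [h1, h2, map_mul, map_mul]
  unfold nu
  rcases le_total (v (nmL r)) (v (dnL r)) with h | h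
  · rw [max_eq_right h, max_eq_right (mul_le_mul' le_rfl h)]
  · rw [max_eq_left h, max_eq_left (mul_le_mul' le_rfl h)]

end

end HoleAAux

open HoleAAux

theorem hole_coll {L : Type*} [Field L] (v : Valuation L ℤᵐ⁰) {U V : L[X]} {e : ℕ}
    (hU : U.natDegree ≤ e) (hV : V.natDegree ≤ e) (h : ¬ Hole v U V e) {x : L}
    (hx : v (x - 1) < 1) (h1 : U.eval 1 ≠ 0 ∨ V.eval 1 ≠ 0)
    (hx' : U.eval x ≠ 0 ∨ V.eval x ≠ 0) :
    coll v (toP1 (U.eval 1) (V.eval 1)) (toP1 (U.eval x) (V.eval x)) := by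
  have hg : ∀ i, i ≤ e → max (v (U.coeff i)) (v (V.coeff i)) ≤ gz v U V e := fun i hi =>
    Finset.le_sup (f := fun i => max (v (U.coeff i)) (v (V.coeff i)))
      (Finset.mem_range.2 (Nat.lt_succ_of_le hi))
  have cU := coeff_le v hU (fun i hi => (le_max_left _ _).trans (hg i hi))
  have cV := coeff_le v hV (fun i hi => (le_max_right _ _).trans (hg i hi))
  unfold Hole at h
  generalize gz v U V e = g at *
  have x1 := val_le_one v hx
  have one1 : v (1 : L) ≤ 1 := by rw [map_one]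
  have u1 := eval_le v cU one1
  have v1 := eval_le v cV one1
  have du := eval_sub_le v cU x1
  have dv := eval_sub_le v cV x1
  have ux := eval_le v cU x1
  have vx := eval_le v cV x1
  obtain ⟨c, hc, c1, c2⟩ := rep_toP1 h1
  obtain ⟨c', hc', c1', c2'⟩ := rep_toP1 hx'
  have m1 := nu_mul v c1 c2
  have m2 := nu_mul v c1' c2'
  have gpos : 0 < g := by
    rcases h1 with h1 | h1
    · exact lt_of_lt_of_le ((Valuation.pos_iff v).2 h1) u1
    · exact lt_of_lt_of_le ((Valuation.pos_iff v).2 h1) v1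
  have glt : g * v (x - 1) < g := by
    calc g * v (x - 1) < g * 1 := mul_lt_mul_of_pos_left hx gpos
      _ = g := mul_one g
  have e1 : max (v (U.eval 1)) (v (V.eval 1)) = g := by
    refine le_antisymm (max_le u1 v1) ?_
    by_contra hc
    rw [not_le, max_lt_iff] at hc
    exact h hc
  have e2 : max (v (U.eval x)) (v (V.eval x)) = g := by
    refine le_antisymm (max_le ux vx) ?_
    by_contra hc
    rw [not_le, max_lt_iff] at hc
    apply h
    constructor
    · have a1 : U.eval 1 = U.eval x - (U.eval x - U.eval 1) := by ring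
      rw [a1]
      exact lt_of_le_of_lt (Valuation.map_sub v _ _) (max_lt hc.1 (lt_of_le_of_lt du glt))
    · have a1 : V.eval 1 = V.eval x - (V.eval x - V.eval 1) := by ring
      rw [a1]
      exact lt_of_le_of_lt (Valuation.map_sub v _ _) (max_lt hc.2 (lt_of_le_of_lt dv glt))
  rw [e1] at m1
  rw [e2] at m2
  have key : v (U.eval 1 * V.eval x - U.eval x * V.eval 1) < g * g := by
    have a1 : U.eval 1 * V.eval x - U.eval x * V.eval 1 =
        U.eval 1 * (V.eval x - V.eval 1) - (U.eval x - U.eval 1) * V.eval 1 := by ring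
    rw [a1]
    refine lt_of_le_of_lt (Valuation.map_sub v _ _) (max_lt ?_ ?_)
    · rw [map_mul]
      exact lt_of_le_of_lt (mul_le_mul' u1 dv) (mul_lt_mul_of_pos_left glt gpos)
    · rw [map_mul]
      exact lt_of_le_of_lt (mul_le_mul' du v1) (mul_lt_mul_of_pos_right glt gpos)
  unfold coll
  generalize toP1 (U.eval 1) (V.eval 1) = q at *
  generalize toP1 (U.eval x) (V.eval x) = r at *
  have e3 : U.eval 1 * V.eval x - U.eval x * V.eval 1 =
      (c * c') * (nmL q * dnL r - nmL r * dnL q) := by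
    rw [c1, c2, c1', c2']; ring
  rw [e3, map_mul, map_mul] at key
  have hcc : 0 < v c * v c' := mul_pos ((Valuation.pos_iff v).2 hc) ((Valuation.pos_iff v).2 hc')
  have e4 : g * g = (v c * v c') * (nu v q * nu v r) := by
    rw [mul_mul_mul_comm, m1, m2]
  rw [e4] at key
  exact lt_of_mul_lt_mul_left' key

end Pool.Agent.Lib.P62h
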