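import Pool.Agent.Lib.P62h.HoleD
import Pool.Agent.Lib.P62h.HtX
import Pool.Agent.Lib.P62g.CollB

/-!
# Module P62h.HoleC: the number of holes

(imports HoleD and HtX as black boxes; only the definitions `nmL, dnL` of CollB.)
`a i = z i ^ m`, `w i = toP1 (U.eval (a i)) (V.eval (a i))`, `s i = nmL (w i)`, `t i = dnL (w i)`
(not both zero); `(U(a i), V(a i)) = l i (s i, t i)` with `l i ≠ 0` (the vector is not zero since `U, V`
are coprime). `Δ = (im a s t).det ≠ 0` (`idet_ne_zero`, the `a i` are distinct), `Δ ∈ Inf` (all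
entries are in the subring `Inf`: `z i ∈ Inf`, and `s i, t i ∈ {0, 1, w}` with a unit `w`), so
`tot Δ ≤ 0`. For a place `p` put `A_i = max (v (a i)) 1 ^ (e-1) * max (v (s i)) (v (t i))
= exp (m (e-1) max 0 (-ord (z i)) + max 0 (-ord w_i))` where the last term is `0` if `w i` is `0` or
`∞`. `idet_le`: `0 ≤ ord_p Δ + Σ_i (m (e-1) max 0 (-ord_p (z i)) + max 0 (-ord_p w_i)) =: n_p`.
If `Hole` holds at `p` and `v (a i - 1) < 1` for no `i`, then `n_p ≥ 1` (`idet_small`; its hypothesis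
`max (v (a i)) 1 ≤ v (a i - 1)`: if `v (a i) > 1` both sides are `v (a i)`, otherwise
`v (a i - 1) ≥ 1`). So the number of holes is at most
`Σ_i #{p | v (a i - 1) < 1} + Σ_p n_p ≤ 2 e (m R) + 0 + 2 e (m (e-1) R + R) ≤ 4 e^2 m R`
(`one_sub_card` with `h (z i ^ m) = m h (z i)`; sum over a finite set containing all supports; the
set of holes is finite because outside the finite set where some `v (a i - 1) < 1` it lies in
`{n_p ≥ 1}`, which is contained in the union of the supports of `Δ, z i, w i`).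
-/

namespace Pool.Agent.Lib.P62h

open Polynomial WithZero Pool.Agent.Lib.P62a0c3 Pool.Agent.Lib.P62g

universe u w

theorem exp_prod {ι : Type*} (S : Finset ι) (f : ι → ℤ) :
    ∏ i ∈ S, (exp (f i) : ℤᵐ⁰) = exp (∑ i ∈ S, f i) := by
  classical
  induction S using Finset.induction_on with
  | empty => simp
  | insert i S hi ih => rw [Finset.prod_insert hi, Finset.sum_insert hi, ih, exp_add]

theorem max_exp_one (a : ℤ) : max (exp a : ℤᵐ⁰) 1 = exp (max 0 a) := by
  rcases le_total 0 a with h | h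
  · rw [max_eq_right h, max_eq_left]
    rw [← exp_zero, exp_le_exp]
    exact h
  · rw [max_eq_left h, max_eq_right, exp_zero]
    rw [← exp_zero, exp_le_exp]
    exact h

theorem im_det_mem {L : Type*} [Field L] (I : Subring L) {e : ℕ} (a s t : Fin e ⊕ Fin e → L)
    (ha : ∀ i, a i ∈ I) (hs : ∀ i, s i ∈ I) (ht : ∀ i, t i ∈ I) : (im a s t).det ∈ I := by
  rw [det_rows]
  refine I.sum_mem fun σ _ => I.mul_mem (intCast_mem I _) (I.prod_mem fun i _ => ?_)
  rcases σ i with k | k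
  · exact I.mul_mem (I.pow_mem (ha i) _) (ht i)
  · exact I.neg_mem (I.mul_mem (I.pow_mem (ha i) _) (hs i))

theorem hole_count {F : Type w} {L : Type u} [Field F] [Field L] [Algebra F L] (G : Geo F L)
    {e m : ℕ} (he : 1 ≤ e) (hm : 1 ≤ m) {R : ℤ} (hR : 0 ≤ R) {U V : L[X]}
    (hcop : IsCoprime U V) (hdeg : max U.natDegree V.natDegree = e)
    (z : Fin e ⊕ Fin e → L) (hz : ∀ i, IsUn G (z i)) (hzR : ∀ i, G.h (z i) ≤ R)
    (hinj : ∀ i j, i ≠ j → z i ^ m ≠ z j ^ m) (hne : ∀ i, z i ^ m ≠ 1)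
    (hw : ∀ i, ∀ w : L, toP1 (U.eval (z i ^ m)) (V.eval (z i ^ m)) = (w : OnePoint L) → w ≠ 0 →
      IsUn G w ∧ G.h w ≤ R) :
    {p | Hole (G.v p) U V e}.Finite ∧
      ({p | Hole (G.v p) U V e}.ncard : ℤ) ≤ 4 * e ^ 2 * m * R := by
  classical
  have hev : ∀ i, U.eval (z i ^ m) ≠ 0 ∨ V.eval (z i ^ m) ≠ 0 := by
    intro i
    by_contra hc
    push Not at hc
    obtain ⟨A, B, hAB⟩ := hcop
    have h1 := congrArg (fun P : L[X] => P.eval (z i ^ m)) hAB
    simp only [eval_add, eval_mul, eval_one, hc.1, hc.2, mul_zero, add_zero] at h1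
    exact zero_ne_one h1
  have h1R : G.h (1 : L) ≤ R := by
    have h1 := h_const (G := G) 1
    rw [map_one] at h1
    rw [h1]
    exact hR
  have hrep : ∀ i, ∃ s t l w : L, (s ≠ 0 ∨ t ≠ 0) ∧ U.eval (z i ^ m) = l * s ∧
      V.eval (z i ^ m) = l * t ∧ s ∈ G.Inf ∧ t ∈ G.Inf ∧ IsUn G w ∧ G.h w ≤ R ∧
      ∀ p, max (G.v p s) (G.v p t) = exp (max 0 (-(G.ord p w))) := by
    intro i
    by_cases hV : V.eval (z i ^ m) = 0
    · refine ⟨1, 0, U.eval (z i ^ m), 1, Or.inl one_ne_zero, (mul_one _).symm,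
        by rw [hV, mul_zero], G.Inf.one_mem, G.Inf.zero_mem, IsUn.one, h1R, fun p => ?_⟩
      rw [map_one, map_zero, Geo.ord_one, neg_zero, max_self, exp_zero]
      exact max_eq_left zero_le
    · by_cases hU : U.eval (z i ^ m) = 0
      · refine ⟨0, 1, V.eval (z i ^ m), 1, Or.inr one_ne_zero, by rw [hU, mul_zero],
          (mul_one _).symm, G.Inf.zero_mem, G.Inf.one_mem, IsUn.one, h1R, fun p => ?_⟩
        rw [map_one, map_zero, Geo.ord_one, neg_zero, max_self, exp_zero]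
        exact max_eq_right zero_le
      · have hq : toP1 (U.eval (z i ^ m)) (V.eval (z i ^ m)) =
            ((U.eval (z i ^ m) / V.eval (z i ^ m) : L) : OnePoint L) := by rw [toP1, if_neg hV]
        obtain ⟨hw1, hw2⟩ := hw i _ hq (div_ne_zero hU hV)
        refine ⟨U.eval (z i ^ m) / V.eval (z i ^ m), 1, V.eval (z i ^ m), _, Or.inr one_ne_zero,
          (mul_div_cancel₀ _ hV).symm, (mul_one _).symm, hw1.2.1, G.Inf.one_mem, hw1, hw2,
          fun p => ?_⟩
        rw [map_one, Geo.v_eq hw1.1, max_exp_one]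
  choose s t l w hst hs ht hsI htI hwU hwR hmx using hrep
  have haU : ∀ i, IsUn G (z i ^ m) := fun i => (hz i).pow m
  have haR : ∀ i, G.h (z i ^ m) ≤ m * R := by
    intro i
    rw [h_pow]
    exact mul_le_mul_of_nonneg_left (hzR i) (Int.natCast_nonneg m)
  have hinj' : Function.Injective (fun i => z i ^ m) := by
    intro i j h
    by_contra hij
    exact hinj i j hij h
  obtain ⟨D, hD⟩ : ∃ D, D = (im (fun i => z i ^ m) s t).det := ⟨_, rfl⟩
  have hD0 : D ≠ 0 := by
    rw [hD]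
    exact idet_ne_zero he hcop hdeg _ s t l hinj' hst hs ht
  have hDI : D ∈ G.Inf := by
    rw [hD]
    exact im_det_mem _ _ _ _ (fun i => (haU i).2.1) hsI htI
  have hmxa : ∀ i p, max (G.v p (z i ^ m)) 1 = exp (max 0 (-(G.ord p (z i ^ m)))) := by
    intro i p
    rw [Geo.v_eq (haU i).1, max_exp_one]
  have hprod : ∀ p, ∏ i, ((max (G.v p (z i ^ m)) 1) ^ (e - 1) * max (G.v p (s i)) (G.v p (t i))) =
      exp (∑ i, (((e - 1 : ℕ) : ℤ) * max 0 (-(G.ord p (z i ^ m))) +
        max 0 (-(G.ord p (w i))))) := by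
    intro p
    rw [← exp_prod]
    refine Finset.prod_congr rfl fun i _ => ?_
    rw [hmxa, hmx, exp_add, ← nsmul_eq_mul, exp_nsmul]
  obtain ⟨N, hN⟩ : ∃ N : G.Pl → ℤ, ∀ p, N p = G.ord p D +
      ∑ i, (((e - 1 : ℕ) : ℤ) * max 0 (-(G.ord p (z i ^ m))) + max 0 (-(G.ord p (w i)))) :=
    ⟨_, fun p => rfl⟩
  have hN0 : ∀ p, 0 ≤ N p := by
    intro p
    have h1 := idet_le (G.v p) he (fun i => z i ^ m) s t
    rw [← hD, Geo.v_eq hD0, hprod, exp_le_exp] at h1
    rw [hN]
    linarith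
  have hN1 : ∀ p, Hole (G.v p) U V e → (∀ i, ¬ G.v p (z i ^ m - 1) < 1) → 1 ≤ N p := by
    intro p hp hi
    have hai : ∀ i, max (G.v p (z i ^ m)) 1 ≤ G.v p (z i ^ m - 1) := by
      intro i
      have h1 : 1 ≤ G.v p (z i ^ m - 1) := not_lt.1 (hi i)
      refine max_le ?_ h1
      have h2 := Valuation.map_add (G.v p) (z i ^ m - 1) 1
      rw [sub_add_cancel, map_one, max_eq_left h1] at h2
      exact h2
    have h1 := idet_small (G.v p) he hdeg (fun i => z i ^ m) s t l hst hs ht hai hp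
    rw [← hD, Geo.v_eq hD0, hprod, exp_lt_exp] at h1
    rw [hN]
    omega
  -- the finite set
  obtain ⟨T, hT1, hT2, hT3⟩ : ∃ T : Finset G.Pl, (∀ p, G.ord p D ≠ 0 → p ∈ T) ∧
      (∀ i p, G.ord p (z i ^ m) ≠ 0 → p ∈ T) ∧ ∀ i p, G.ord p (w i) ≠ 0 → p ∈ T := by
    refine ⟨(Geo.ord_fin (G := G) D).toFinset ∪
      (Finset.univ.biUnion (fun i => (Geo.ord_fin (G := G) (z i ^ m)).toFinset) ∪
        Finset.univ.biUnion (fun i => (Geo.ord_fin (G := G) (w i)).toFinset)), ?_, ?_, ?_⟩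
    · intro p hp
      exact Finset.mem_union_left _ (mem_supp D p hp)
    · intro i p hp
      exact Finset.mem_union_right _ (Finset.mem_union_left _
        (Finset.mem_biUnion.2 ⟨i, Finset.mem_univ i, mem_supp _ p hp⟩))
    · intro i p hp
      exact Finset.mem_union_right _ (Finset.mem_union_right _
        (Finset.mem_biUnion.2 ⟨i, Finset.mem_univ i, mem_supp _ p hp⟩))
  have hNT : ∀ p, 1 ≤ N p → p ∈ T := by
    intro p hp
    by_contra hc
    have h1 : G.ord p D = 0 := by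
      by_contra h; exact hc (hT1 p h)
    have h2 : ∀ i, G.ord p (z i ^ m) = 0 := by
      intro i; by_contra h; exact hc (hT2 i p h)
    have h3 : ∀ i, G.ord p (w i) = 0 := by
      intro i; by_contra h; exact hc (hT3 i p h)
    rw [hN, h1] at hp
    simp only [h2, h3] at hp
    simp at hp
  have hsumN : ∑ p ∈ T, N p = G.tot D +
      ∑ i, (((e - 1 : ℕ) : ℤ) * G.h (z i ^ m) + G.h (w i)) := by
    simp only [hN]
    rw [Finset.sum_add_distrib, Finset.sum_comm, Geo.tot_eq_sum T hT1]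
    congr 1
    refine Finset.sum_congr rfl fun i _ => ?_
    rw [Finset.sum_add_distrib, ← Finset.mul_sum, Geo.h_eq_sum T (hT2 i), Geo.h_eq_sum T (hT3 i)]
  have hfin : ∀ i, {p | G.v p (z i ^ m - 1) < 1}.Finite := fun i =>
    (one_sub_card (haU i).2.1 (hne i)).1
  have hsub : {p | Hole (G.v p) U V e} ⊆
      ((Finset.univ.biUnion (fun i => (hfin i).toFinset) ∪ T.filter (fun p => 1 ≤ N p) :
        Finset G.Pl) : Set G.Pl) := by
    intro p hp
    rw [Finset.mem_coe, Finset.mem_union]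
    by_cases hi : ∃ i, G.v p (z i ^ m - 1) < 1
    · obtain ⟨i, hi⟩ := hi
      exact Or.inl (Finset.mem_biUnion.2 ⟨i, Finset.mem_univ i, (hfin i).mem_toFinset.2 hi⟩)
    · push Not at hi
      have h1 := hN1 p hp (fun i => not_lt.2 (hi i))
      exact Or.inr (Finset.mem_filter.2 ⟨hNT p h1, h1⟩)
  refine ⟨(Finset.finite_toSet _).subset hsub, ?_⟩
  have h1 := Set.ncard_le_ncard hsub (Finset.finite_toSet _)
  rw [Set.ncard_coe_finset] at h1
  have h2 := (Finset.card_union_le (Finset.univ.biUnion (fun i => (hfin i).toFinset))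
    (T.filter (fun p => 1 ≤ N p)))
  have h3 : ((Finset.univ.biUnion (fun i => (hfin i).toFinset)).card : ℤ) ≤
      2 * e * (m * R) := by
    have h4 : ((Finset.univ.biUnion (fun i => (hfin i).toFinset)).card : ℤ) ≤
        ∑ i, ((hfin i).toFinset.card : ℤ) := by
      exact_mod_cast Finset.card_biUnion_le
    have h5 : ∑ i, ((hfin i).toFinset.card : ℤ) ≤ ∑ _i : Fin e ⊕ Fin e, ((m : ℤ) * R) := by
      refine Finset.sum_le_sum fun i _ => ?_
      rw [← Set.ncard_eq_toFinset_card _ (hfin i)]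
      exact (one_sub_card (haU i).2.1 (hne i)).2.trans (haR i)
    rw [Finset.sum_const, Finset.card_univ, Fintype.card_sum, Fintype.card_fin, nsmul_eq_mul] at h5
    push_cast at h5
    linarith
  have h6 : ((T.filter (fun p => 1 ≤ N p)).card : ℤ) ≤
      2 * e * (((e : ℤ) - 1) * (m * R) + R) := by
    have h7 : ((T.filter (fun p => 1 ≤ N p)).card : ℤ) ≤ ∑ p ∈ T, N p := by
      rw [Finset.card_filter]
      push_cast
      refine Finset.sum_le_sum fun p _ => ?_
      split_ifs with h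
      · exact h
      · exact hN0 p
    have h8 := Geo.tot_nonpos hD0 hDI
    have h9 : ∑ i, (((e - 1 : ℕ) : ℤ) * G.h (z i ^ m) + G.h (w i)) ≤
        ∑ _i : Fin e ⊕ Fin e, (((e : ℤ) - 1) * (m * R) + R) := by
      refine Finset.sum_le_sum fun i _ => ?_
      have h10 : ((e - 1 : ℕ) : ℤ) = (e : ℤ) - 1 := by omega
      rw [h10]
      have h11 : (0 : ℤ) ≤ (e : ℤ) - 1 := by omega
      have h12 := mul_le_mul_of_nonneg_left (haR i) h11
      linarith [hwR i]
    rw [Finset.sum_const, Finset.card_univ, Fintype.card_sum, Fintype.card_fin, nsmul_eq_mul] at h9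
    push_cast at h9
    rw [hsumN] at h7
    linarith
  have h7 : (({p | Hole (G.v p) U V e}.ncard : ℕ) : ℤ) ≤
      ((Finset.univ.biUnion (fun i => (hfin i).toFinset)).card : ℤ) +
        ((T.filter (fun p => 1 ≤ N p)).card : ℤ) := by
    exact_mod_cast h1.trans h2
  have he1 : (1 : ℤ) ≤ e := by exact_mod_cast he
  have hm1 : (1 : ℤ) ≤ m := by exact_mod_cast hm
  have h8 : (e : ℤ) * R ≤ e * R * (e * m) := by
    have h9 : (1 : ℤ) ≤ e * m := by nlinarith
    have h10 : (0 : ℤ) ≤ e * R := mul_nonneg (by linarith) hR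
    nlinarith
  nlinarith

end Pool.Agent.Lib.P62h
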