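import Mathlib

/-!
# Module P62h.Sel: selection and counting lemmas (pure combinatorics)

`select`. Greedy, induction on `K0`: choose `x ∈ Q`, remove it and the at most `B0` elements of
`Q.filter (r x)`; `(K0) (B0 + 1)` elements remain; apply the induction hypothesis to the rest and put
`x` first (`Fin.cons`).

`cs_bound`. `Σ_i |A i| = Σ_{b ∈ B} #{i | b ∈ A i}`; Cauchy-Schwarz (`sq_sum_le_card_mul_sum_sq`):
`(Σ_i |A i|)^2 ≤ |B| Σ_b #{i | b ∈ A i}^2 = |B| Σ_{i,j} |A i ∩ A j|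
≤ u (K0 u + K0^2 b)` (diagonal terms `|A i| ≤ |B| ≤ u`, off-diagonal ones `≤ b`), and
`K0 a ≤ Σ |A i|`.

`rel_count`. For each pair `(a, b)` with `|a|, |b| < N` (at most `(2N)^2` pairs) and `b ≠ 0` the
`z ≠ 0` with `z ^ (m b) = y ^ (-(m a))` number at most `m |b| ≤ m N` (roots of unity:
`Polynomial.card_nthRoots`, for negative `b` pass to inverses). `b = 0` is impossible: then `a ≠ 0`
and `y ^ (m a) = 1`, excluded by `hnc`. Total `4 N^2 * (m N)`.
-/

namespace Pool.Agent.Lib.P62h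

open Classical in
theorem select {X : Type*} (r : X → X → Prop) (B0 K0 : ℕ) (Q : Finset X)
    (hr : ∀ x ∈ Q, (Q.filter fun y => r x y).card ≤ B0) (hQ : K0 * (B0 + 1) ≤ Q.card) :
    ∃ q : Fin K0 → X, Function.Injective q ∧ (∀ i, q i ∈ Q) ∧ ∀ i j, i < j → ¬ r (q i) (q j) := by
  induction K0 generalizing Q with
  | zero =>
    exact ⟨fun i => i.elim0, fun i => i.elim0, fun i => i.elim0, fun i => i.elim0⟩
  | succ K ih =>
    have hpos : 0 < Q.card := lt_of_lt_of_le (Nat.mul_pos (Nat.succ_pos K) (Nat.succ_pos B0)) hQ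
    obtain ⟨x, hx⟩ := Finset.card_pos.1 hpos
    have hsub : insert x (Q.filter fun y => r x y) ⊆ Q := by
      intro y hy
      rcases Finset.mem_insert.1 hy with rfl | hy
      · exact hx
      · exact Finset.mem_of_mem_filter _ hy
    have hcard : (Q \ insert x (Q.filter fun y => r x y)).card
        = Q.card - (insert x (Q.filter fun y => r x y)).card := Finset.card_sdiff_of_subset hsub
    have hins : (insert x (Q.filter fun y => r x y)).card ≤ B0 + 1 :=
      (Finset.card_insert_le _ _).trans (Nat.succ_le_succ (hr x hx))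
    obtain ⟨q, hqi, hqm, hqr⟩ := ih (Q \ insert x (Q.filter fun y => r x y))
      (fun z hz => (Finset.card_le_card (Finset.filter_subset_filter _ Finset.sdiff_subset)).trans
        (hr z (Finset.sdiff_subset hz)))
      (by
        rw [hcard]
        have h2 : (K + 1) * (B0 + 1) = K * (B0 + 1) + (B0 + 1) := by ring
        omega)
    have hq' : ∀ i, q i ∈ Q ∧ q i ≠ x ∧ ¬ r x (q i) := by
      intro i
      have h3 := Finset.mem_sdiff.1 (hqm i)
      refine ⟨h3.1, fun h4 => h3.2 (Finset.mem_insert.2 (Or.inl h4)), fun h4 => h3.2 ?_⟩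
      exact Finset.mem_insert.2 (Or.inr (Finset.mem_filter.2 ⟨h3.1, h4⟩))
    refine ⟨Fin.cons x q, ?_, ?_, ?_⟩
    · rw [Fin.cons_injective_iff]
      refine ⟨?_, hqi⟩
      rintro ⟨i, hi⟩
      exact (hq' i).2.1 hi
    · intro i
      refine Fin.cases ?_ (fun i => ?_) i
      · exact hx
      · exact (hq' i).1
    · intro i j
      refine Fin.cases ?_ (fun i => ?_) i
      · refine Fin.cases ?_ (fun j => ?_) j
        · intro h
          exact absurd h (lt_irrefl _)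
        · intro _
          exact (hq' j).2.2
      · refine Fin.cases ?_ (fun j => ?_) j
        · intro h
          exact absurd h (Fin.not_lt_zero _)
        · intro h
          exact hqr i j (Fin.succ_lt_succ_iff.1 h)

open Classical in
theorem cs_bound {X : Type*} {K0 : ℕ} (A : Fin K0 → Finset X) (B : Finset X) {a b u : ℝ}
    (ha0 : 0 ≤ a) (hb0 : 0 ≤ b) (hu : (B.card : ℝ) ≤ u) (hAB : ∀ i, A i ⊆ B)
    (ha : ∀ i, a ≤ ((A i).card : ℝ)) (hb : ∀ i j, i < j → ((A i ∩ A j).card : ℝ) ≤ b) :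
    (K0 * a) ^ 2 ≤ u * (K0 * u + K0 ^ 2 * b) := by
  have hu0 : 0 ≤ u := (Nat.cast_nonneg _).trans hu
  have h1 : (K0 : ℝ) * a ≤ ∑ i, ((A i).card : ℝ) := by
    calc (K0 : ℝ) * a = ∑ _i : Fin K0, a := by simp
      _ ≤ _ := Finset.sum_le_sum fun i _ => ha i
  have hA : ∀ i, ((A i).card : ℝ) = ∑ x ∈ B, if x ∈ A i then (1 : ℝ) else 0 := by
    intro i
    rw [Finset.sum_ite_mem, Finset.inter_eq_right.2 (hAB i), Finset.sum_const, nsmul_eq_mul,
      mul_one]
  have h2 : ∑ i, ((A i).card : ℝ) = ∑ x ∈ B, ∑ i, if x ∈ A i then (1 : ℝ) else 0 := by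
    rw [Finset.sum_comm]
    exact Finset.sum_congr rfl fun i _ => hA i
  have h3 : (∑ x ∈ B, ∑ i, if x ∈ A i then (1 : ℝ) else 0) ^ 2
      ≤ B.card * ∑ x ∈ B, (∑ i, if x ∈ A i then (1 : ℝ) else 0) ^ 2 :=
    sq_sum_le_card_mul_sum_sq
  have h4 : ∑ x ∈ B, (∑ i, if x ∈ A i then (1 : ℝ) else 0) ^ 2
      = ∑ i, ∑ j, ((A i ∩ A j).card : ℝ) := by
    have h5 : ∀ i j, ((A i ∩ A j).card : ℝ)
        = ∑ x ∈ B, (if x ∈ A i then (1 : ℝ) else 0) * (if x ∈ A j then (1 : ℝ) else 0) := by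
      intro i j
      have h6 : ∀ x ∈ B, (if x ∈ A i then (1 : ℝ) else 0) * (if x ∈ A j then (1 : ℝ) else 0)
          = if x ∈ A i ∩ A j then (1 : ℝ) else 0 := by
        intro x _
        by_cases hi : x ∈ A i <;> by_cases hj : x ∈ A j <;> simp [hi, hj]
      rw [Finset.sum_congr rfl h6, Finset.sum_ite_mem,
        Finset.inter_eq_right.2 (Finset.inter_subset_left.trans (hAB i)), Finset.sum_const,
        nsmul_eq_mul, mul_one]
    simp_rw [h5]
    rw [Finset.sum_congr rfl fun i _ => Finset.sum_comm, Finset.sum_comm]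
    refine Finset.sum_congr rfl fun x _ => ?_
    rw [sq, Finset.sum_mul_sum]
  have h7 : ∑ i, ∑ j, ((A i ∩ A j).card : ℝ) ≤ K0 * u + K0 ^ 2 * b := by
    have h8 : ∀ i j, ((A i ∩ A j).card : ℝ) ≤ (if i = j then u else 0) + b := by
      intro i j
      rcases lt_trichotomy i j with h | h | h
      · rw [if_neg h.ne, zero_add]
        exact hb i j h
      · rw [if_pos h]
        have h9 : ((A i ∩ A j).card : ℝ) ≤ u := by
          refine le_trans ?_ hu
          exact_mod_cast Finset.card_le_card (Finset.inter_subset_left.trans (hAB i))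
        linarith
      · rw [if_neg h.ne', zero_add, Finset.inter_comm]
        exact hb j i h
    calc ∑ i, ∑ j, ((A i ∩ A j).card : ℝ)
        ≤ ∑ i : Fin K0, ∑ j : Fin K0, ((if i = j then u else 0) + b) :=
          Finset.sum_le_sum fun i _ => Finset.sum_le_sum fun j _ => h8 i j
      _ = K0 * u + K0 ^ 2 * b := by
          simp only [Finset.sum_add_distrib, Finset.sum_ite_eq, Finset.mem_univ, if_true,
            Finset.sum_const, Finset.card_univ, Fintype.card_fin, nsmul_eq_mul]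
          ring
  have h0 : 0 ≤ (K0 : ℝ) * a := mul_nonneg (Nat.cast_nonneg _) ha0
  have h10 : (0 : ℝ) ≤ K0 * u + K0 ^ 2 * b := by positivity
  calc ((K0 : ℝ) * a) ^ 2 ≤ (∑ i, ((A i).card : ℝ)) ^ 2 := by gcongr
    _ ≤ B.card * ∑ i, ∑ j, ((A i ∩ A j).card : ℝ) := by
        rw [h2, ← h4]
        exact h3
    _ ≤ u * (K0 * u + K0 ^ 2 * b) := mul_le_mul hu h7
        (Finset.sum_nonneg fun i _ => Finset.sum_nonneg fun j _ => Nat.cast_nonneg _) hu0

open Classical in
theorem rel_count {L : Type*} [Field L] {N m : ℕ} (hm : 1 ≤ m) (y : L) (hy : y ≠ 0)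
    (hnc : ∀ a : ℤ, a ≠ 0 → y ^ ((m : ℤ) * a) ≠ 1) (Q : Finset L) (h0 : (0 : L) ∉ Q) :
    (Q.filter fun z => ∃ a b : ℤ, (a ≠ 0 ∨ b ≠ 0) ∧ |a| < N ∧ |b| < N ∧
      y ^ ((m : ℤ) * a) * z ^ ((m : ℤ) * b) = 1).card ≤ 4 * N ^ 3 * m := by
  have hsub : (Q.filter fun z => ∃ a b : ℤ, (a ≠ 0 ∨ b ≠ 0) ∧ |a| < N ∧ |b| < N ∧
      y ^ ((m : ℤ) * a) * z ^ ((m : ℤ) * b) = 1) ⊆
      ((Finset.Ioo (-(N : ℤ)) N) ×ˢ (Finset.Ioo (-(N : ℤ)) N)).biUnion
        fun p => Q.filter fun z => (p.1 ≠ 0 ∨ p.2 ≠ 0) ∧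
          y ^ ((m : ℤ) * p.1) * z ^ ((m : ℤ) * p.2) = 1 := by
    intro z hz
    obtain ⟨hzQ, a, b, hab, ha, hb, h⟩ := Finset.mem_filter.1 hz
    rw [Finset.mem_biUnion]
    refine ⟨(a, b), Finset.mem_product.2 ⟨Finset.mem_Ioo.2 (abs_lt.1 ha),
      Finset.mem_Ioo.2 (abs_lt.1 hb)⟩, Finset.mem_filter.2 ⟨hzQ, hab, h⟩⟩
  have hone : ∀ p ∈ (Finset.Ioo (-(N : ℤ)) N) ×ˢ (Finset.Ioo (-(N : ℤ)) N),
      (Q.filter fun z => (p.1 ≠ 0 ∨ p.2 ≠ 0) ∧
          y ^ ((m : ℤ) * p.1) * z ^ ((m : ℤ) * p.2) = 1).card ≤ m * N := by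
    rintro ⟨a, b⟩ hp
    have hb := Finset.mem_Ioo.1 (Finset.mem_product.1 hp).2
    simp only at hb
    by_cases hb0 : b = 0
    · have he : (Q.filter fun z => ((a, b).1 ≠ 0 ∨ (a, b).2 ≠ 0) ∧
          y ^ ((m : ℤ) * (a, b).1) * z ^ ((m : ℤ) * (a, b).2) = 1) = ∅ := by
        rw [Finset.filter_eq_empty_iff]
        rintro z _ ⟨h1, h2⟩
        simp only [hb0, ne_eq, not_true_eq_false, or_false, mul_zero, zpow_zero, mul_one] at h1 h2
        exact hnc a h1 h2
      rw [he]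
      exact Nat.zero_le _
    · have hn : 0 < b.natAbs := Int.natAbs_pos.2 hb0
      have hmn : 0 < m * b.natAbs := Nat.mul_pos hm hn
      have hnN : b.natAbs ≤ N := by omega
      have hc : ∃ c : L, ∀ z ∈ Q, y ^ ((m : ℤ) * a) * z ^ ((m : ℤ) * b) = 1 →
          z ^ (m * b.natAbs) = c := by
        rcases Int.natAbs_eq b with h | h
        · refine ⟨(y ^ ((m : ℤ) * a))⁻¹, fun z _ h1 => ?_⟩
          rw [h] at h1
          have h2 : z ^ ((m : ℤ) * (b.natAbs : ℤ)) = z ^ (m * b.natAbs) := by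
            rw [← zpow_natCast z (m * b.natAbs)]
            push_cast
            rfl
          rw [h2] at h1
          exact eq_inv_of_mul_eq_one_right h1
        · refine ⟨y ^ ((m : ℤ) * a), fun z hz h1 => ?_⟩
          rw [h] at h1
          have hz0 : z ≠ 0 := fun h3 => h0 (h3 ▸ hz)
          have h2 : z ^ ((m : ℤ) * -(b.natAbs : ℤ)) = (z ^ (m * b.natAbs))⁻¹ := by
            rw [← zpow_natCast z (m * b.natAbs), ← zpow_neg]
            congr 1
            push_cast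
            ring
          rw [h2] at h1
          have h4 : z ^ (m * b.natAbs) ≠ 0 := pow_ne_zero _ hz0
          exact ((mul_inv_eq_one₀ h4).1 h1).symm
      obtain ⟨c, hc⟩ := hc
      have hs : (Q.filter fun z => ((a, b).1 ≠ 0 ∨ (a, b).2 ≠ 0) ∧
          y ^ ((m : ℤ) * (a, b).1) * z ^ ((m : ℤ) * (a, b).2) = 1) ⊆
          (Polynomial.nthRoots (m * b.natAbs) c).toFinset := by
        intro z hz
        obtain ⟨hzQ, _, h⟩ := Finset.mem_filter.1 hz
        rw [Multiset.mem_toFinset, Polynomial.mem_nthRoots hmn]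
        exact hc z hzQ h
      calc _ ≤ _ := Finset.card_le_card hs
        _ ≤ _ := Multiset.toFinset_card_le _
        _ ≤ m * b.natAbs := Polynomial.card_nthRoots _ _
        _ ≤ m * N := Nat.mul_le_mul_left _ hnN
  have hI : (Finset.Ioo (-(N : ℤ)) N).card ≤ 2 * N := by
    rw [Int.card_Ioo]
    omega
  calc _ ≤ _ := Finset.card_le_card hsub
    _ ≤ _ := Finset.card_biUnion_le_card_mul _ _ _ hone
    _ ≤ ((2 * N) * (2 * N)) * (m * N) := by
        rw [Finset.card_product]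
        gcongr
    _ = 4 * N ^ 3 * m := by ring

end Pool.Agent.Lib.P62h
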