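import Pool.Agent.Lib.P62h.GcdS
import Pool.Agent.Lib.P62h.HoleA
import Pool.Agent.Lib.P62h.HoleC
import Pool.Agent.Lib.P62h.Sel
import Pool.Agent.Lib.P62h.FibG
import Pool.Agent.Lib.P62g.CollA
import Pool.Agent.Lib.P62g.MasonL

/-!
# Module P62h.Dyn2: the dynamical argument

(imports as black boxes: `gcd_small`, `hole_coll`, `hole_count`, `select`, `cs_bound`, `rel_count`,
`fib_count`, height facts HtX, and from P62g `mason`, `ncard_coll`.)
Suppose `c0 e m ≤ |Q|`. Write `N = 217 e^2`, `K0 = 288 e^4`, `f = gm U V e m`.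
Elements of `Q` are units at infinity, `R ≤ 2 h z ≤ 2 R`, so `h z ≥ 1` and no power `z ^ k`, `k ≠ 0`,
is a constant (`h_zpow`, `h_const`); in particular `z ^ (m a) ≠ 1` for `a ≠ 0`.
* Holes: each value `z ^ m` is taken at most `m` times on `Q`, so `Q` contains `2 e` elements with
  distinct `m`-th powers (all `≠ 1`). `hole_count` (its `hw`: the image of a point of `P` lies in `P`;
  `hun`, `hle`): the set `B` of the places with `Hole (G.v p) U V e` is finite and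
  `|B| ≤ u := 4 e^2 m R`.
* `Q' = Q` without the `z` with `f z = f 1` (at most `e m` by `fib_count`). `select` with the relation
  of `rel_count` and `B0 = 4 N^3 m` gives `q : Fin K0 → L` in `Q'`, pairwise unrelated.
* `A i = {p | v (q_i ^ m - 1) < 1}` minus `{p | coll (f 1) (f q_i)}` (finite sets). `mason` with `c = 1`:
  `m h ≤ 2 h + κ + #{…}` (`θ (q i) ≠ 0` since `q i` is not a constant; `(q_i^m - 1)⁻¹ ∈ Inf` by
  `hun'`); `ncard_coll`: `≤ 2 R`. So `2 |A i| ≥ (m - 2) R - 2 C1 R - 4 R ≥ (2/3) m R`, as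
  `m ≥ 18 + 6 C1`: `|A i| ≥ a := m R / 3`.
* `A i ⊆ B` by `hole_coll` (`f 1 = toP1 (U 1) (V 1)`, `f q_i = toP1 (U (q_i^m)) (V (q_i^m))`).
* For `i < j`: `|A i ∩ A j| ≤ b := 3 m R / N`, otherwise `gcd_small` gives a relation (`2 N^5 (C1+4) < m`).
* `cs_bound`: `(K0 m R / 3)^2 ≤ u (K0 u + K0^2 b)`, i.e. `1/9 ≤ 16 e^4 / K0 + 12 e^2 / N
  = 1/18 + 12/217 < 1/9`: contradiction.
`c0 e m = K0 (4 N^3 m + 1) + e m` is at least `K0 (B0+1) + e m` and at least `m (2 e) + 1`.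
-/

namespace Pool.Agent.Lib.P62h

open Polynomial WithZero Pool.Agent.Lib.P62a0c3 Pool.Agent.Lib.P62g

universe u w

/-- The number of points needed in `dyn2`. -/
def c0 (e m : ℕ) : ℕ := 288 * e ^ 4 * (4 * (217 * e ^ 2) ^ 3 * m + 1) + e * m

namespace Dyn2Aux

section

variable {F : Type w} {L : Type u} [Field F] [Field L] [Algebra F L] {G : Geo F L}

theorem zpow_ne_const {z : L} (hz : IsUn G z) (h1 : 1 ≤ G.h z) {k : ℤ} (hk : k ≠ 0) (c : F) :
    z ^ k ≠ algebraMap F L c := by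
  intro h
  have h2 := h_zpow hz k
  rw [h, h_const] at h2
  have h3 : 1 ≤ |k| := Int.one_le_abs hk
  nlinarith

theorem zpow_ne_one {z : L} (hz : IsUn G z) (h1 : 1 ≤ G.h z) {k : ℤ} (hk : k ≠ 0) :
    z ^ k ≠ 1 := by
  have := zpow_ne_const hz h1 hk (1 : F)
  rwa [map_one] at this

theorem pow_ne_one {z : L} (hz : IsUn G z) (h1 : 1 ≤ G.h z) {m : ℕ} (hm : 1 ≤ m) :
    z ^ m ≠ 1 := by
  have := zpow_ne_one hz h1 (k := (m : ℤ)) (by omega)
  rwa [zpow_natCast] at this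

theorem θ_ne {z : L} (h1 : 1 ≤ G.h z) : G.θ z ≠ 0 := by
  intro h
  obtain ⟨c, hc⟩ := G.θ_ker z h
  rw [hc, h_const] at h1
  omega

end

theorem num1 {e m : ℕ} (he : 1 ≤ e) : (e + e) * (m + 1) ≤ c0 e m := by
  have h1 : e ≤ e ^ 4 := Nat.le_self_pow (by norm_num) e
  have h2 : 1 ≤ (217 * e ^ 2) ^ 3 := Nat.one_le_pow _ _ (by positivity)
  have h3 : m + 1 ≤ 4 * (217 * e ^ 2) ^ 3 * m + 1 := by nlinarith
  have h4 : e + e ≤ 288 * e ^ 4 := by omega
  calc (e + e) * (m + 1) ≤ 288 * e ^ 4 * (4 * (217 * e ^ 2) ^ 3 * m + 1) := Nat.mul_le_mul h4 h3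
    _ ≤ c0 e m := Nat.le_add_right _ _

theorem final_ineq {e : ℕ} (he : 1 ≤ e) {X : ℝ} (hX : 0 < X)
    (h : (((288 * e ^ 4 : ℕ) : ℝ) * (X / 3)) ^ 2 ≤ (4 * e ^ 2 * X) *
      (((288 * e ^ 4 : ℕ) : ℝ) * (4 * e ^ 2 * X) +
        ((288 * e ^ 4 : ℕ) : ℝ) ^ 2 * (3 * X / (217 * e ^ 2)))) : False := by
  push_cast at h
  have he' : (1 : ℝ) ≤ e := by exact_mod_cast he
  have h1 : (4 * (e : ℝ) ^ 2 * X) * ((288 * (e : ℝ) ^ 4) * (4 * e ^ 2 * X) +
      (288 * (e : ℝ) ^ 4) ^ 2 * (3 * X / (217 * e ^ 2))) =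
      X ^ 2 * e ^ 8 * (16 * 288 + 12 * 288 ^ 2 / 217) := by
    field_simp
    ring
  have h2 : ((288 * (e : ℝ) ^ 4) * (X / 3)) ^ 2 = X ^ 2 * e ^ 8 * (288 ^ 2 / 9) := by ring
  rw [h1, h2] at h
  have h3 : 0 < X ^ 2 * (e : ℝ) ^ 8 := by positivity
  norm_num at h
  nlinarith

end Dyn2Aux

open Dyn2Aux in
theorem dyn2 {F : Type w} {L : Type u} [Field F] [IsAlgClosed F] [CharZero F] [Field L]
    [Algebra F L] (G : Geo F L) {C1 e m : ℕ} (he : 1 ≤ e)
    (hm : 2 * (217 * e ^ 2) ^ 5 * (C1 + 4) < m) {R : ℤ} (hR : 1 ≤ R)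
    (hκ : (G.κ : ℤ) ≤ C1 * R) {U V : L[X]} (hcop : IsCoprime U V)
    (hdeg : max U.natDegree V.natDegree = e) (P : Finset (OnePoint L))
    (hP : ∀ p ∈ P, gm U V e m p ∈ P) (h1 : ((1 : L) : OnePoint L) ∈ P)
    (hun : ∀ z : L, (z : OnePoint L) ∈ P → z ≠ 0 → IsUn G z)
    (hun' : ∀ z : L, (z : OnePoint L) ∈ P → z ≠ 0 → z ^ m ≠ 1 → (z ^ m - 1)⁻¹ ∈ G.Inf)
    (hle : ∀ z : L, (z : OnePoint L) ∈ P → z ≠ 0 → G.h z ≤ R)
    (Q : Finset L) (hQ : ∀ z ∈ Q, z ≠ 0 ∧ (z : OnePoint L) ∈ P ∧ R ≤ 2 * G.h z) :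
    Q.card < c0 e m := by
  classical
  by_contra hcon
  rw [not_lt] at hcon
  have hm0 : 0 < m := lt_of_le_of_lt (Nat.zero_le _) hm
  have hm18 : 18 + 6 * C1 ≤ m := by
    have h2 : 1 ≤ (217 * e ^ 2) ^ 5 := Nat.one_le_pow _ _ (by positivity)
    have h217 : 217 ≤ (217 * e ^ 2) ^ 5 := by
      have h3 : 1 ≤ e ^ 2 := Nat.one_le_pow _ _ he
      calc 217 ≤ 217 * e ^ 2 := by omega
        _ ≤ (217 * e ^ 2) ^ 5 := Nat.le_self_pow (by norm_num) _
    nlinarith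
  have hmR : (0 : ℝ) < m * R := by
    have h2 : (0 : ℝ) < m := by exact_mod_cast hm0
    have h3 : (0 : ℝ) < R := by exact_mod_cast (by omega : 0 < R)
    positivity
  have hU : U.natDegree ≤ e := hdeg ▸ le_max_left _ _
  have hV : V.natDegree ≤ e := hdeg ▸ le_max_right _ _
  -- facts about elements of `Q`
  have hQ0 : ∀ z ∈ Q, z ≠ 0 := fun z hz => (hQ z hz).1
  have hQun : ∀ z ∈ Q, IsUn G z := fun z hz => hun z (hQ z hz).2.1 (hQ z hz).1
  have hQR : ∀ z ∈ Q, G.h z ≤ R := fun z hz => hle z (hQ z hz).2.1 (hQ z hz).1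
  have hQ1 : ∀ z ∈ Q, 1 ≤ G.h z := fun z hz => by have := (hQ z hz).2.2; omega
  have hQm : ∀ z ∈ Q, z ^ m ≠ 1 := fun z hz => pow_ne_one (hQun z hz) (hQ1 z hz) hm0
  have hgP : ∀ z ∈ Q, toP1 (U.eval (z ^ m)) (V.eval (z ^ m)) ∈ P := fun z hz => by
    have := hP _ (hQ z hz).2.1
    rwa [gm_some] at this
  have h1P : toP1 (U.eval 1) (V.eval 1) ∈ P := by
    have := hP _ h1
    rwa [gm_some, one_pow] at this
  have h0Q : (0 : L) ∉ Q := fun h => hQ0 0 h rfl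
  -- holes
  obtain ⟨B, hB, hBcard⟩ : ∃ B : Finset G.Pl, (∀ p, Hole (G.v p) U V e → p ∈ B) ∧
      (B.card : ℤ) ≤ 4 * e ^ 2 * m * R := by
    obtain ⟨q, -, hqQ, hq⟩ := select (fun x y : L => x ^ m = y ^ m) m (e + e) Q (by
      intro x _
      calc (Q.filter fun y => x ^ m = y ^ m).card ≤ (nthRoots m (x ^ m)).toFinset.card := by
            refine Finset.card_le_card fun y hy => ?_
            rw [Finset.mem_filter] at hy
            rw [Multiset.mem_toFinset, mem_nthRoots hm0]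
            exact hy.2.symm
        _ ≤ (nthRoots m (x ^ m)).card := Multiset.toFinset_card_le _
        _ ≤ m := card_nthRoots _ _) ((num1 he).trans hcon)
    have hneq : ∀ i j : Fin (e + e), i ≠ j → q i ^ m ≠ q j ^ m := by
      intro i j hij
      rcases lt_or_gt_of_ne hij with h | h
      · exact hq i j h
      · exact fun h2 => hq j i h h2.symm
    obtain ⟨hf, hc⟩ := hole_count G he hm0 (by omega : 0 ≤ R) hcop hdeg
      (fun i => q (finSumFinEquiv i)) (fun i => hQun _ (hqQ _)) (fun i => hQR _ (hqQ _))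
      (fun i j hij => hneq _ _ fun h => hij (finSumFinEquiv.injective h))
      (fun i => hQm _ (hqQ _)) (by
        intro i w hw hw0
        have h2 := hgP _ (hqQ (finSumFinEquiv i))
        rw [hw] at h2
        exact ⟨hun w h2 hw0, hle w h2 hw0⟩)
    refine ⟨hf.toFinset, fun p hp => ?_, ?_⟩
    · rw [Set.Finite.mem_toFinset]
      exact hp
    · rwa [← Set.ncard_eq_toFinset_card _ hf]
  -- the selection
  obtain ⟨q, -, hqQ, hq⟩ : ∃ q : Fin (288 * e ^ 4) → L, Function.Injective q ∧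
      (∀ i, q i ∈ Q.filter fun z => ¬ toP1 (U.eval (z ^ m)) (V.eval (z ^ m)) =
        toP1 (U.eval 1) (V.eval 1)) ∧
      ∀ i j, i < j → ¬ ∃ a b : ℤ, (a ≠ 0 ∨ b ≠ 0) ∧ |a| < (217 * e ^ 2 : ℕ) ∧
        |b| < (217 * e ^ 2 : ℕ) ∧ q i ^ ((m : ℤ) * a) * q j ^ ((m : ℤ) * b) = 1 := by
    refine select (fun x y : L => ∃ a b : ℤ, (a ≠ 0 ∨ b ≠ 0) ∧ |a| < (217 * e ^ 2 : ℕ) ∧
        |b| < (217 * e ^ 2 : ℕ) ∧ x ^ ((m : ℤ) * a) * y ^ ((m : ℤ) * b) = 1)
      (4 * (217 * e ^ 2) ^ 3 * m) (288 * e ^ 4) _ ?_ ?_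
    · intro x hx
      have hxQ : x ∈ Q := (Finset.mem_filter.1 hx).1
      refine rel_count hm0 x (hQ0 x hxQ) ?_ _ fun h => h0Q (Finset.mem_filter.1 h).1
      intro a ha
      exact zpow_ne_one (hQun x hxQ) (hQ1 x hxQ) (mul_ne_zero (by omega) ha)
    · have h2 := fib_count he hm0 hcop hdeg Q
      have h3 := Finset.card_filter_add_card_filter_not (s := Q)
        (fun z => toP1 (U.eval (z ^ m)) (V.eval (z ^ m)) = toP1 (U.eval 1) (V.eval 1))
      rw [c0] at hcon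
      omega
  have hqQ' : ∀ i, q i ∈ Q := fun i => (Finset.mem_filter.1 (hqQ i)).1
  have hqf : ∀ i, toP1 (U.eval 1) (V.eval 1) ≠ toP1 (U.eval (q i ^ m)) (V.eval (q i ^ m)) :=
    fun i h => (Finset.mem_filter.1 (hqQ i)).2 h.symm
  -- the sets `A i`
  have hA : ∀ i, ∃ A : Finset G.Pl, (∀ p ∈ A, G.v p (q i ^ m - 1) < 1 ∧ p ∈ B) ∧
      (m : ℝ) * R / 3 ≤ A.card := by
    intro i
    have hz := hqQ' i
    obtain ⟨hf1, -⟩ := one_sub_card (G := G) (x := q i ^ m) ((hQun _ hz).pow m).2.1 (hQm _ hz)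
    obtain ⟨hf2, hc2⟩ := ncard_coll G (by omega : 0 ≤ R) (q := toP1 (U.eval 1) (V.eval 1))
      (r := toP1 (U.eval (q i ^ m)) (V.eval (q i ^ m))) (by
        intro w hw hw0
        have h2 := h1P
        rw [hw] at h2
        exact ⟨(hun w h2 hw0).2.1, (hun w h2 hw0).2.2, hle w h2 hw0⟩) (by
        intro w hw hw0
        have h2 := hgP _ hz
        rw [hw] at h2
        exact ⟨(hun w h2 hw0).2.1, (hun w h2 hw0).2.2, hle w h2 hw0⟩) (hqf i)
    have hmas := mason G (d := m) hm0 (hQ0 _ hz) (hQun _ hz).2.1 (hQun _ hz).2.2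
      (θ_ne (hQ1 _ hz)) (c := (1 : F)) one_ne_zero
      (by rw [map_one]; exact sub_ne_zero.2 (hQm _ hz))
      (by rw [map_one]; exact hun' _ (hQ _ hz).2.1 (hQ0 _ hz) (hQm _ hz))
    rw [map_one] at hmas
    refine ⟨hf1.toFinset \ hf2.toFinset, fun p hp => ?_, ?_⟩
    · rw [Finset.mem_sdiff, Set.Finite.mem_toFinset, Set.Finite.mem_toFinset] at hp
      refine ⟨hp.1, hB p ?_⟩
      by_contra hh
      exact hp.2 (hole_coll (G.v p) hU hV hh hp.1 (eval_ne hcop 1) (eval_ne hcop _))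
    · have h2 : hf1.toFinset.card ≤ (hf1.toFinset \ hf2.toFinset).card + hf2.toFinset.card :=
        Finset.card_le_card_sdiff_add_card
      rw [Set.ncard_eq_toFinset_card _ hf1] at hmas
      rw [Set.ncard_eq_toFinset_card _ hf2] at hc2
      have h3 : (m : ℤ) * R ≤ 3 * (hf1.toFinset \ hf2.toFinset).card := by
        have h4 := (hQ _ hz).2.2
        have h5 : (18 + 6 * C1 : ℤ) * R ≤ m * R :=
          mul_le_mul_of_nonneg_right (by exact_mod_cast hm18) (by omega)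
        have h6 : ((m : ℤ) - 2) * R ≤ ((m : ℤ) - 2) * (2 * G.h (q i)) :=
          mul_le_mul_of_nonneg_left h4 (by omega)
        have h7 : (hf1.toFinset.card : ℤ) ≤ (hf1.toFinset \ hf2.toFinset).card +
          hf2.toFinset.card := by exact_mod_cast h2
        nlinarith
      have h4 : (m : ℝ) * R ≤ 3 * (hf1.toFinset \ hf2.toFinset).card := by exact_mod_cast h3
      linarith
  choose A hAB hAc using hA
  refine final_ineq he hmR (cs_bound A B (a := m * R / 3) (b := 3 * (m * R) / (217 * e ^ 2))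
    (u := 4 * e ^ 2 * (m * R)) (by positivity) (by positivity) ?_
    (fun i p hp => (hAB i p hp).2) hAc ?_)
  · have h2 : (B.card : ℝ) ≤ 4 * e ^ 2 * m * R := by exact_mod_cast hBcard
    linarith
  · intro i j hij
    by_contra hbig
    rw [not_le] at hbig
    apply hq i j hij
    refine gcd_small G (N := 217 * e ^ 2) (by nlinarith [Nat.one_le_pow 2 e he]) hR hκ
      (hQun _ (hqQ' i)) (hQun _ (hqQ' j)) (hQ _ (hqQ' i)).2.2 (hQR _ (hqQ' i)) (hQR _ (hqQ' j))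
      hm (hQm _ (hqQ' i)) (hQm _ (hqQ' j)) (A i ∩ A j) ?_ ?_
    · intro p hp
      rw [Finset.mem_inter] at hp
      exact ⟨(hAB i p hp.1).1, (hAB j p hp.2).1⟩
    · have he2 : (0 : ℝ) < 217 * e ^ 2 := by
        have : (0 : ℝ) < e := by exact_mod_cast he
        positivity
      rw [div_lt_iff₀ he2] at hbig
      have h2 : (3 * m * R : ℝ) ≤ (217 * e ^ 2) * (A i ∩ A j).card := by linarith
      exact_mod_cast h2

end Pool.Agent.Lib.P62h
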