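import Pool.Agent.Lib.P62h.WrB

/-!
# Module P62h.WrC: bordered Wronskians and relations

(imports only `v_wr_le` of WrB as a black box.)
`bw_eq`. Subtract column `0` from the other columns (`Matrix.det_eq_of_forall_col_eq_smul_add_const`
or transposed row version): the first row becomes `(1, 0, …, 0)` and the other rows hold
`θ^i(x 0), θ^i(x (j+1) - x 0)` (`θ^i` is additive). Expand along the first row
(`Matrix.det_succ_row_zero`): only the term of column `0` is nonzero, with sign `+`, and its minor is
the Wronskian matrix of `x j.succ - x 0`.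

`v_bw_le`. Expand along the first row (`Matrix.det_succ_row_zero`):
`bw = Σ_t (-1)^t * wr θ (x ∘ t.succAbove)`, and apply `v_wr_le` to each term.

`v_wr_rel`. Replace in the Wronskian of `x ∘ t.succAbove` one column `x t'` (`t' ≠ t`) by `x t`: as
`x t = - Σ_{r ≠ t} (c r / c t) x r` and the determinant is multilinear and alternating (constants
commute with `θ`), the new determinant is `-(c t' / c t)` times the old one; and its columns are
those of `x ∘ t'.succAbove` up to a permutation, which changes the determinant by a sign. The factor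
`c t' / c t` is a nonzero constant of value `1`. Alternative: the `n × (n+1)` matrix
`M i r = θ^i (x r)` satisfies `M *ᵥ c = 0`, and for such a matrix the minors satisfy
`(-1)^t c_(t') det(M without t) = (-1)^(t') c_t det(M without t')`.
-/

namespace Pool.Agent.Lib.P62h

open WithZero

namespace WrCAux

variable {F L : Type*} [Field F] [Field L] [Algebra F L]

theorem iter_eq (θ : Derivation F L L) (i : ℕ) (y : L) :
    (fun x => θ x)^[i] y = ((θ : L →ₗ[F] L) ^ i) y := by
  rw [Module.End.pow_apply]
  rfl

/-- The matrix with first row `u` and then the derivatives. -/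
def um (θ : Derivation F L L) {n : ℕ} (u x : Fin (n + 1) → L) : Matrix (Fin (n + 1)) (Fin (n + 1)) L :=
  fun i j => Fin.cases (u j) (fun i' : Fin n => (fun x => θ x)^[(i' : ℕ)] (x j)) i

theorem det_um (θ : Derivation F L L) {n : ℕ} (u x : Fin (n + 1) → L) :
    (um θ u x).det = ∑ t : Fin (n + 1), (-1) ^ (t : ℕ) * u t * wr θ (fun j => x (t.succAbove j)) := by
  rw [Matrix.det_succ_row_zero]
  rfl

theorem v_neg_one_pow (v : Valuation L ℤᵐ⁰) (k : ℕ) : v ((-1) ^ k) = 1 := by
  rw [map_pow, Valuation.map_neg, map_one, one_pow]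

end WrCAux

open WrCAux

theorem bw_eq {F L : Type*} [Field F] [Field L] [Algebra F L] (θ : Derivation F L L) {n : ℕ}
    (x : Fin (n + 1) → L) : bw θ x = wr θ (fun j : Fin n => x j.succ - x 0) := by
  have h1 : (bm θ x).det =
      (um θ (fun j => if j = 0 then 1 else 0) (fun j => if j = 0 then x 0 else x j - x 0)).det := by
    rw [← Matrix.det_transpose, ← Matrix.det_transpose (um _ _ _)]
    refine Matrix.det_eq_of_forall_row_eq_smul_add_const (fun j => if j = 0 then 0 else 1) 0 (by simp) ?_
    intro j i
    simp only [Matrix.transpose_apply]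
    refine Fin.cases ?_ (fun i' => ?_) i
    · by_cases hj : j = 0
      · subst hj
        simp [bm, um]
      · simp [bm, um, hj]
    · by_cases hj : j = 0
      · subst hj
        simp [bm, um]
      · simp only [bm, um, Fin.cases_succ, if_neg hj, if_true, iter_eq, map_sub]
        ring
  unfold bw
  rw [h1, det_um, Finset.sum_eq_single_of_mem 0 (Finset.mem_univ _)]
  · simp
  · intro t _ ht
    rw [if_neg ht, mul_zero, zero_mul]

theorem v_bw_le {F L : Type*} [Field F] [Field L] [Algebra F L] (v : Valuation L ℤᵐ⁰)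
    (θ : Derivation F L L) (hv : ∀ x, v (θ x) ≤ exp (1 : ℤ) * v x) {n : ℕ} (x : Fin (n + 1) → L)
    (B : ℤᵐ⁰) (hB : ∀ t : Fin (n + 1), ∏ j, v (x (t.succAbove j)) ≤ B) :
    v (bw θ x) ≤ exp ((n * (n - 1) / 2 : ℕ) : ℤ) * B := by
  have h1 : bw θ x = (um θ (fun _ => 1) x).det := rfl
  rw [h1, det_um]
  refine Valuation.map_sum_le v fun t _ => ?_
  rw [mul_one, map_mul, v_neg_one_pow, one_mul]
  exact (v_wr_le v θ hv _).trans (mul_le_mul_right (hB t) _)

theorem v_wr_rel {F L : Type*} [Field F] [Field L] [Algebra F L] (v : Valuation L ℤᵐ⁰)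
    (hvc : ∀ c : F, c ≠ 0 → v (algebraMap F L c) = 1) (θ : Derivation F L L) {n : ℕ}
    (x : Fin (n + 1) → L) (c : Fin (n + 1) → F) (hc : ∀ t, c t ≠ 0)
    (h : ∑ t, algebraMap F L (c t) * x t = 0) (t t' : Fin (n + 1)) :
    v (wr θ fun j => x (t.succAbove j)) = v (wr θ fun j => x (t'.succAbove j)) := by
  set u : Fin (n + 1) → L := fun j => (if j = t then algebraMap F L (c t') else 0) -
    (if j = t' then algebraMap F L (c t) else 0) with hu
  have h0 : (um θ u x).det = 0 := by
    refine Matrix.exists_mulVec_eq_zero_iff.1 ⟨fun j => algebraMap F L (c j), ?_, ?_⟩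
    · intro h1
      have h2 := congrFun h1 0
      rw [Pi.zero_apply, map_eq_zero] at h2
      exact hc 0 h2
    · funext i
      refine Fin.cases ?_ (fun i' => ?_) i
      · change ∑ j, u j * algebraMap F L (c j) = 0
        rw [hu]
        simp only [sub_mul, ite_mul, zero_mul, Finset.sum_sub_distrib, Finset.sum_ite_eq', Finset.mem_univ, if_true]
        ring
      · change ∑ j, (fun x => θ x)^[(i' : ℕ)] (x j) * algebraMap F L (c j) = 0
        have h1 : ∀ j, (fun x => θ x)^[(i' : ℕ)] (x j) * algebraMap F L (c j) =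
            ((θ : L →ₗ[F] L) ^ (i' : ℕ)) (algebraMap F L (c j) * x j) := by
          intro j
          rw [iter_eq, ← Algebra.smul_def, map_smul, Algebra.smul_def, mul_comm]
        rw [Finset.sum_congr rfl fun j _ => h1 j, ← map_sum, h, map_zero]
  rw [det_um] at h0
  have h1 : ∑ r : Fin (n + 1), (-1) ^ (r : ℕ) * u r * wr θ (fun j => x (r.succAbove j)) =
      (-1) ^ (t : ℕ) * algebraMap F L (c t') * wr θ (fun j => x (t.succAbove j)) -
        (-1) ^ (t' : ℕ) * algebraMap F L (c t) * wr θ (fun j => x (t'.succAbove j)) := by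
    rw [hu]
    simp only [mul_sub, sub_mul, mul_ite, ite_mul, mul_zero, zero_mul, Finset.sum_sub_distrib, Finset.sum_ite_eq',
      Finset.mem_univ, if_true]
  rw [h1, sub_eq_zero] at h0
  have h2 := congrArg v h0
  rwa [map_mul, map_mul, map_mul, map_mul, v_neg_one_pow, v_neg_one_pow, hvc _ (hc t), hvc _ (hc t'), mul_one,
    one_mul, one_mul] at h2

end Pool.Agent.Lib.P62h
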