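import Pool.Agent.Lib.P62h.WrA
import Pool.Agent.Lib.P62h.WrC

/-!
# Module P62h.GcdG: common zeros, general form

(imports WrA, WrB, WrC as black boxes.) `W = wr θ (x j.succ - x 0) = bw θ x` (`bw_eq`), nonzero.
* `x j.succ - x 0 ∈ Inf`, so `W = U ^ (n(n-1)/2) b` with `b ∈ Inf` (`wr_inf`), hence
  `tot W ≤ (n(n-1)/2) κ` (`Geo.tot_mul, tot_pow, tot_nonpos`, `G.tot_U`).
* For `p ∈ Z`: with `t` from `hZ`, `f_j = x j.succ - 1 = t g_j`, `v(g_j) ≤ 1`, `W = t^n wr θ g`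
  (`wr_mul`), `v(wr θ g) ≤ 1` (`v_wr_int` with `G.θ_int`), and `v t < 1` means `v t ≤ exp (-1)`:
  `ord W ≥ n`.
* For `p ∈ S`: `Π_j v (x (t.succAbove j)) = exp (-(Σ_j ord (x j) - ord (x t)))
  ≤ exp (-(Σ_j ord (x j) - E p))`; `v_bw_le` gives
  `ord W ≥ Σ_j ord (x j) - E p - n(n-1)/2`.
* For the other `p` all `x j` have value `1`, so `v (x j.succ - x 0) ≤ 1` and `ord W ≥ 0`.
Sum over a finite set of places containing `S`, `Z` and the support of `W`: as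
`Σ_{p ∈ S} ord_p (x j) = tot (x j) = 0` (`Geo.tot_eq_sum`, `tot_unit`),
`(n(n-1)/2) κ ≥ tot W ≥ n |Z| - Σ_{p ∈ S} E p - (n(n-1)/2) |S|`.
-/

namespace Pool.Agent.Lib.P62h

open WithZero Pool.Agent.Lib.P62g

universe u w

namespace GcdGAux

variable {F : Type w} {L : Type u} [Field F] [Field L] [Algebra F L]

theorem tot_le (G : Geo F L) {n : ℕ} (f : Fin n → L) (hf : ∀ j, f j ∈ G.Inf)
    (hW : wr G.θ f ≠ 0) : G.tot (wr G.θ f) ≤ ((n * (n - 1) / 2 : ℕ) : ℤ) * G.κ := by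
  obtain ⟨b, hb, he⟩ := wr_inf G f hf
  have hb0 : b ≠ 0 := by
    rintro rfl
    rw [mul_zero] at he
    exact hW he
  have hU := pow_ne_zero (n * (n - 1) / 2) G.U_ne
  have h1 := Geo.tot_nonpos hb0 hb
  have h2 : G.tot G.U ≤ G.κ := G.tot_U
  rw [he, Geo.tot_mul hU hb0, Geo.tot_pow G.U_ne]
  have h3 : ((n * (n - 1) / 2 : ℕ) : ℤ) * G.tot G.U ≤ ((n * (n - 1) / 2 : ℕ) : ℤ) * G.κ :=
    mul_le_mul_of_nonneg_left h2 (Int.natCast_nonneg _)
  linarith

theorem exp_prod {ι : Type} (s : Finset ι) (e : ι → ℤ) :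
    ∏ j ∈ s, (exp (e j) : ℤᵐ⁰) = exp (∑ j ∈ s, e j) := by
  classical
  induction s using Finset.induction_on with
  | empty => simp
  | insert a s ha ih => rw [Finset.prod_insert ha, Finset.sum_insert ha, ih, exp_add]

theorem ord_of_le (G : Geo F L) {W : L} (hW : W ≠ 0) (p : G.Pl) (k : ℤ)
    (h : G.v p W ≤ exp (-k)) : k ≤ G.ord p W := by
  rw [Geo.v_eq hW, exp_le_exp] at h
  omega

theorem ord_Z (G : Geo F L) {n : ℕ} (f : Fin n → L) (hW : wr G.θ f ≠ 0) (p : G.Pl) (t : L)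
    (ht : t ≠ 0) (ht1 : G.v p t < 1) (hf : ∀ j, G.v p (f j) ≤ G.v p t) :
    (n : ℤ) ≤ G.ord p (wr G.θ f) := by
  have hf2 : f = fun j => t * (t⁻¹ * f j) := by
    funext j
    rw [mul_inv_cancel_left₀ ht]
  have hvt : G.v p t ≠ 0 := Geo.v_ne_zero ht p
  have hg : ∀ j, G.v p (t⁻¹ * f j) ≤ 1 := by
    intro j
    rw [map_mul, map_inv₀]
    calc (G.v p t)⁻¹ * G.v p (f j) ≤ (G.v p t)⁻¹ * G.v p t := by gcongr; exact hf j
      _ = 1 := inv_mul_cancel₀ hvt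
  have h1 : wr G.θ f = t ^ n * wr G.θ (fun j => t⁻¹ * f j) := by
    conv_lhs => rw [hf2]
    exact wr_mul G.θ t _
  have h2 := v_wr_int (G.v p) G.θ (G.θ_int p) (fun j => t⁻¹ * f j) hg
  have h3 : 0 < G.ord p t := (Geo.v_lt_one_iff ht p).1 ht1
  have h4 : G.v p (wr G.θ f) ≤ exp (-((n : ℤ) * G.ord p t)) := by
    rw [h1, map_mul, map_pow, Geo.v_eq ht, ← exp_nsmul]
    calc exp (n • -(G.ord p t)) * G.v p (wr G.θ (fun j => t⁻¹ * f j))
        ≤ exp (n • -(G.ord p t)) * 1 := by gcongr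
      _ = exp (-((n : ℤ) * G.ord p t)) := by
        rw [mul_one]
        congr 1
        simp
  have h5 := ord_of_le G hW p _ h4
  have h6 : (n : ℤ) * 1 ≤ (n : ℤ) * G.ord p t :=
    mul_le_mul_of_nonneg_left (by omega) (Int.natCast_nonneg _)
  linarith

theorem ord_S (G : Geo F L) {n : ℕ} (x : Fin (n + 1) → L) (hx : ∀ j, x j ≠ 0)
    (hW : wr G.θ (fun j : Fin n => x j.succ - x 0) ≠ 0) (p : G.Pl) (E : ℤ)
    (hE : ∀ j, G.ord p (x j) ≤ E) :
    ∑ j, G.ord p (x j) - E - ((n * (n - 1) / 2 : ℕ) : ℤ) ≤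
      G.ord p (wr G.θ (fun j : Fin n => x j.succ - x 0)) := by
  have h1 := v_bw_le (G.v p) G.θ (G.θ_v p) x (exp (-(∑ j, G.ord p (x j) - E))) (by
    intro t
    have e1 : ∏ j, G.v p (x (t.succAbove j)) = exp (-(∑ j, G.ord p (x (t.succAbove j)))) := by
      rw [Finset.prod_congr rfl fun j _ => Geo.v_eq (hx (t.succAbove j)) p, exp_prod,
        Finset.sum_neg_distrib]
    rw [e1, exp_le_exp, Fin.sum_univ_succAbove (fun j => G.ord p (x j)) t]
    have := hE t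
    linarith)
  rw [bw_eq, ← exp_add] at h1
  refine ord_of_le G hW p _ (h1.trans (le_of_eq ?_))
  congr 1
  ring

theorem ord_other (G : Geo F L) {n : ℕ} (f : Fin n → L) (hW : wr G.θ f ≠ 0) (p : G.Pl)
    (hf : ∀ j, G.v p (f j) ≤ 1) : 0 ≤ G.ord p (wr G.θ f) :=
  (Geo.v_le_one_iff hW p).1 (v_wr_int (G.v p) G.θ (G.θ_int p) f hf)

end GcdGAux

open GcdGAux

theorem gcd_gen {F : Type w} {L : Type u} [Field F] [Field L] [Algebra F L] (G : Geo F L) {n : ℕ}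
    (x : Fin (n + 1) → L) (hx : ∀ j, IsUn G (x j)) (hx0 : x 0 = 1)
    (hW : wr G.θ (fun j : Fin n => x j.succ - x 0) ≠ 0) (S : Finset G.Pl)
    (hS : ∀ p ∉ S, ∀ j, G.ord p (x j) = 0) (E : G.Pl → ℤ) (hE : ∀ p ∈ S, ∀ j, G.ord p (x j) ≤ E p)
    (Z : Finset G.Pl) (hZS : Disjoint Z S)
    (hZ : ∀ p ∈ Z, ∃ t : L, t ≠ 0 ∧ G.v p t < 1 ∧ ∀ j, G.v p (x j - 1) ≤ G.v p t) :
    (n : ℤ) * Z.card ≤ ∑ p ∈ S, E p + ((n * (n - 1) / 2 : ℕ) : ℤ) * (G.κ + S.card) := by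
  classical
  set W := wr G.θ (fun j : Fin n => x j.succ - x 0) with hWdef
  set N : ℤ := ((n * (n - 1) / 2 : ℕ) : ℤ) with hN
  have h1 : G.tot W ≤ N * G.κ :=
    tot_le G (fun j : Fin n => x j.succ - x 0) (fun j => G.Inf.sub_mem (hx _).2.1 (hx _).2.1) hW
  set a : G.Pl → ℤ := fun p => ∑ j, G.ord p (x j) - E p - N with ha
  have hz : ∀ j, ∑ p ∈ S, G.ord p (x j) = 0 := by
    intro j
    rw [← Geo.tot_eq_sum S (fun p hp => by
      by_contra h
      exact hp (hS p h j))]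
    exact Geo.tot_unit (hx j).1 (hx j).2.1 (hx j).2.2
  have hsa : ∑ p ∈ S, a p = -(∑ p ∈ S, E p) - N * S.card := by
    simp only [ha, Finset.sum_sub_distrib, Finset.sum_const, nsmul_eq_mul]
    rw [Finset.sum_comm, Finset.sum_eq_zero (fun j _ => hz j)]
    ring
  set T : Finset G.Pl := (S ∪ Z) ∪ (Geo.ord_fin (G := G) W).toFinset with hT
  have hTW : ∀ p, G.ord p W ≠ 0 → p ∈ T := fun p hp => by
    simp only [hT, Finset.mem_union, Set.Finite.mem_toFinset, Set.mem_ofPred_eq]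
    exact Or.inr hp
  have htot := Geo.tot_eq_sum (x := W) T hTW
  have hle : ∑ p ∈ T, ((if p ∈ S then a p else 0) + (if p ∈ Z then (n : ℤ) else 0)) ≤
      ∑ p ∈ T, G.ord p W := by
    refine Finset.sum_le_sum fun p _ => ?_
    by_cases hpS : p ∈ S
    · have hpZ : p ∉ Z := fun h => (Finset.disjoint_left.1 hZS h) hpS
      rw [if_pos hpS, if_neg hpZ, add_zero]
      exact ord_S G x (fun j => (hx j).1) hW p (E p) (hE p hpS)
    · rw [if_neg hpS, zero_add]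
      by_cases hpZ : p ∈ Z
      · rw [if_pos hpZ]
        obtain ⟨t, ht, ht1, ht2⟩ := hZ p hpZ
        refine ord_Z G _ hW p t ht ht1 (fun j => ?_)
        rw [hx0]
        exact ht2 j.succ
      · rw [if_neg hpZ]
        refine ord_other G _ hW p (fun j => ?_)
        refine (Valuation.map_sub _ _ _).trans (max_le ?_ ?_)
        · exact le_of_eq ((Geo.v_eq_one_iff (hx _).1 p).2 (hS p hpS _))
        · exact le_of_eq ((Geo.v_eq_one_iff (hx _).1 p).2 (hS p hpS _))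
  have hTS : T ∩ S = S := Finset.inter_eq_right.2 (fun p hp => by
    simp only [hT, Finset.mem_union]
    exact Or.inl (Or.inl hp))
  have hTZ : T ∩ Z = Z := Finset.inter_eq_right.2 (fun p hp => by
    simp only [hT, Finset.mem_union]
    exact Or.inl (Or.inr hp))
  rw [Finset.sum_add_distrib, Finset.sum_ite_mem, Finset.sum_ite_mem, hTS, hTZ, hsa,
    Finset.sum_const, nsmul_eq_mul, ← htot] at hle
  have e1 : (n : ℤ) * Z.card = (Z.card : ℤ) * n := mul_comm _ _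
  have e2 : N * (G.κ + S.card) = N * G.κ + N * S.card := mul_add _ _ _
  rw [e1, e2]
  linarith

end Pool.Agent.Lib.P62h
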