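import Pool.Agent.Lib.P62h.MinR
import Pool.Agent.Lib.P62h.BmH

/-!
# Module P62h.RelM: relations between monomials in `y ^ m` and `z ^ m`

(imports `exists_minrel`, `bm_height` and the height facts HtX as black boxes.)
Let `x (i, j) = y ^ (m i) * z ^ (m j)` (`i, j < N`), units at infinity. `exists_minrel` gives `s ≥ 1`,
`e : Fin (s+1) ↪ Fin N × Fin N`, `c'`. `s + 1 ≤ N ^ 2`, so `s (s-1) / 2 ≤ N^4 / 2`, i.e.
`2 (s (s-1)/2) ≤ N^4`. Let `S` be the union of the supports of `y` and `z` (`supp_card`):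
`|S| ≤ 2 h y + 2 h z ≤ 4 R`, so `κ + |S| ≤ (C1 + 4) R`. `bm_height`: for all `t, t'`, with
`(a, b) = e t - e t'` (integers, `|a|, |b| < N`), `x (e t) / x (e t') = (y ^ a z ^ b) ^ m` and
`2 m h (y ^ a z ^ b) ≤ N^4 (C1 + 4) R`   (`h_pow`/`h_zpow`).
Case 1: there are `t1, t2` with `(a, b) = e t1 - e 0`, `(a', b') = e t2 - e 0` and
`D = a b' - a' b ≠ 0`. Then `y ^ D = (y ^ a z ^ b) ^ b' * (y ^ a' z ^ b') ^ (-b)` and
`h y ≤ |D| h y ≤ |b'| h (y ^ a z ^ b) + |b| h (y ^ a' z ^ b')`, so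
`2 m h y ≤ 2 N N^4 (C1 + 4) R ≤ 4 N^5 (C1 + 4) h y`, and `h y > 0`: contradiction to `hm`.
Case 2: all differences `e t - e 0` are parallel. `e 1 - e 0 = (A, B) ≠ 0` (`s ≥ 1`),
`g = gcd(A, B)`, `(a, b) = (A/g, B/g)`: coprime, `|a| ≤ |A| < N`, `|b| < N`, and every difference is
`k_t (a, b)` with an integer `k_t`, `|k_t| ≤ N`, distinct for distinct `t`. With
`w = y ^ (m a) z ^ (m b)`: `x (e t) = x (e 0) w ^ k_t`, so `Σ c' t w ^ k_t = 0`. Multiply by `w ^ N`: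
`w` is a root of the polynomial `Σ c' t X ^ (k_t + N)`, nonzero since the exponents are distinct and
the coefficients nonzero; so `w` is algebraic over the algebraically closed field `F`, `w ∈ F`
(e.g. `IsAlgClosed.algebraMap_surjective_of_isIntegral` or `minpoly` of degree one).
-/

namespace Pool.Agent.Lib.P62h

open WithZero Pool.Agent.Lib.P62g

universe u w

namespace RelMAux

theorem ratio {L : Type*} [Field L] {y z : L} (hy : y ≠ 0) (hz : z ≠ 0) (m a b a' b' : ℕ) :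
    y ^ (m * a) * z ^ (m * b) =
      y ^ (m * a') * z ^ (m * b') * (y ^ ((a : ℤ) - a') * z ^ ((b : ℤ) - b')) ^ m := by
  rw [mul_pow, ← zpow_natCast (y ^ _) m, ← zpow_mul, ← zpow_natCast (z ^ _) m, ← zpow_mul,
    ← zpow_natCast y (m * a), ← zpow_natCast z (m * b), ← zpow_natCast y (m * a'),
    ← zpow_natCast z (m * b'), mul_mul_mul_comm, ← zpow_add₀ hy, ← zpow_add₀ hz]
  congr 2
  · push_cast
    ring
  · push_cast
    ring

/-- algebraic elements are constants -/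
theorem mem_of_root {F : Type*} {L : Type*} [Field F] [IsAlgClosed F] [Field L] [Algebra F L]
    {n : ℕ} (w : L) (c : Fin n → F) (k : Fin n → ℕ) (hk : Function.Injective k) (t0 : Fin n)
    (hc : c t0 ≠ 0) (h : ∑ t, algebraMap F L (c t) * w ^ k t = 0) :
    ∃ r : F, w = algebraMap F L r := by
  have hint : IsIntegral F w := by
    refine IsAlgebraic.isIntegral ?_
    refine ⟨∑ t, Polynomial.monomial (k t) (c t), ?_, ?_⟩
    · intro h0
      have h1 := congrArg (fun p => Polynomial.coeff p (k t0)) h0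
      simp only [Polynomial.finsetSum_coeff, Polynomial.coeff_monomial, Polynomial.coeff_zero]
        at h1
      rw [Finset.sum_eq_single t0] at h1
      · rw [if_pos rfl] at h1
        exact hc h1
      · intro t _ ht
        rw [if_neg (fun h2 => ht (hk h2))]
      · intro h2
        exact absurd (Finset.mem_univ t0) h2
    · rw [map_sum]
      simp only [Polynomial.aeval_monomial]
      exact h
  obtain ⟨r, hr⟩ := minpoly.mem_range_of_degree_eq_one F w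
    (IsAlgClosed.degree_eq_one_of_irreducible F (minpoly.irreducible hint))
  exact ⟨r, hr.symm⟩

/-- parallel integer vectors -/
theorem exists_mul {a b A B : ℤ} (hab : IsCoprime a b) (h : A * b = a * B) :
    ∃ k : ℤ, A = k * a ∧ B = k * b := by
  obtain ⟨u, v, huv⟩ := hab
  refine ⟨u * A + v * B, ?_, ?_⟩
  · linear_combination (-A) * huv + v * h
  · linear_combination (-B) * huv - u * h

theorem exists_prim {A B : ℤ} (h : A ≠ 0 ∨ B ≠ 0) :
    ∃ g a b : ℤ, A = g * a ∧ B = g * b ∧ IsCoprime a b ∧ g ≠ 0 ∧ |a| ≤ |A| ∧ |b| ≤ |B| := by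
  have hg : 0 < Int.gcd A B := by
    refine Nat.pos_of_ne_zero ?_
    intro h0
    rw [Int.gcd_eq_zero_iff] at h0
    rcases h with h | h
    · exact h h0.1
    · exact h h0.2
  have hg' : (1 : ℤ) ≤ (Int.gcd A B : ℤ) := by exact_mod_cast hg
  obtain ⟨a, ha⟩ := Int.gcd_dvd_left (a := A) (b := B)
  obtain ⟨b, hb⟩ := Int.gcd_dvd_right (a := A) (b := B)
  refine ⟨(Int.gcd A B : ℤ), a, b, ha, hb, ?_, by omega, ?_, ?_⟩
  · have h1 := Int.gcd_eq_gcd_ab A B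
    refine ⟨Int.gcdA A B, Int.gcdB A B, ?_⟩
    have h2 : (Int.gcd A B : ℤ) * (Int.gcdA A B * a + Int.gcdB A B * b) = (Int.gcd A B : ℤ) * 1 := by
      linear_combination (-Int.gcdA A B) * ha + (-Int.gcdB A B) * hb - h1
    exact mul_left_cancel₀ (by omega) h2
  · calc |a| = 1 * |a| := (one_mul _).symm
      _ ≤ (Int.gcd A B : ℤ) * |a| := by gcongr
      _ = |A| := by
        conv_rhs => rw [ha, abs_mul, abs_of_nonneg (by omega : (0 : ℤ) ≤ (Int.gcd A B : ℤ))]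
  · calc |b| = 1 * |b| := (one_mul _).symm
      _ ≤ (Int.gcd A B : ℤ) * |b| := by gcongr
      _ = |B| := by
        conv_rhs => rw [hb, abs_mul, abs_of_nonneg (by omega : (0 : ℤ) ≤ (Int.gcd A B : ℤ))]

end RelMAux

open RelMAux in
theorem rel_mono {F : Type w} {L : Type u} [Field F] [IsAlgClosed F] [Field L] [Algebra F L]
    (G : Geo F L) {N m C1 : ℕ} {R : ℤ} (hR : 1 ≤ R) (hκ : (G.κ : ℤ) ≤ C1 * R) {y z : L}
    (hy : IsUn G y) (hz : IsUn G z) (hy2 : R ≤ 2 * G.h y) (hyR : G.h y ≤ R) (hzR : G.h z ≤ R)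
    (hm : 2 * N ^ 5 * (C1 + 4) < m) (c : Fin N × Fin N → F) (hc : c ≠ 0)
    (h : ∑ t : Fin N × Fin N, algebraMap F L (c t) *
      (y ^ (m * (t.1 : ℕ)) * z ^ (m * (t.2 : ℕ))) = 0) :
    ∃ a b : ℤ, (a ≠ 0 ∨ b ≠ 0) ∧ |a| < N ∧ |b| < N ∧
      ∃ k : F, y ^ ((m : ℤ) * a) * z ^ ((m : ℤ) * b) = algebraMap F L k := by
  classical
  have hy0 := hy.1
  have hz0 := hz.1
  have hx0 : ∀ t : Fin N × Fin N, y ^ (m * (t.1 : ℕ)) * z ^ (m * (t.2 : ℕ)) ≠ 0 := fun t =>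
    mul_ne_zero (pow_ne_zero _ hy0) (pow_ne_zero _ hz0)
  have hxU : ∀ t : Fin N × Fin N, IsUn G (y ^ (m * (t.1 : ℕ)) * z ^ (m * (t.2 : ℕ))) := fun t =>
    (hy.pow _).mul (hz.pow _)
  obtain ⟨s, e, c', hs, hc', hrel, hW⟩ := exists_minrel G.θ G.θ_ker
    (fun t : Fin N × Fin N => y ^ (m * (t.1 : ℕ)) * z ^ (m * (t.2 : ℕ))) hx0 c hc h
  obtain ⟨Sy, hSy, hSyc⟩ := supp_card hy
  obtain ⟨Sz, hSz, hSzc⟩ := supp_card hz
  have hScard : ((Sy ∪ Sz).card : ℤ) ≤ 4 * R := by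
    have h1 : ((Sy ∪ Sz).card : ℤ) ≤ Sy.card + Sz.card := by
      exact_mod_cast Finset.card_union_le Sy Sz
    omega
  have hS : ∀ p ∉ Sy ∪ Sz, ∀ j : Fin (s + 1),
      G.ord p (y ^ (m * ((e j).1 : ℕ)) * z ^ (m * ((e j).2 : ℕ))) = 0 := by
    intro p hp j
    rw [Finset.mem_union, not_or] at hp
    rw [Geo.ord_mul (pow_ne_zero _ hy0) (pow_ne_zero _ hz0), Geo.ord_pow, Geo.ord_pow,
      hSy p hp.1, hSz p hp.2]
    ring
  have hcard : s + 1 ≤ N * N := by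
    have h1 := Fintype.card_le_of_embedding e
    rwa [Fintype.card_fin, Fintype.card_prod, Fintype.card_fin] at h1
  have hsN : s * (s - 1) / 2 * 2 ≤ N ^ 4 := by
    have h1 : s * (s - 1) / 2 * 2 ≤ s * (s - 1) := Nat.div_mul_le_self _ _
    have h2 : s * (s - 1) ≤ (N * N) * (N * N) := Nat.mul_le_mul (by omega) (by omega)
    have h3 : (N * N) * (N * N) = N ^ 4 := by ring
    omega
  -- the height bound
  have hbound : ∀ t t' : Fin (s + 1),
      2 * ((m : ℤ) * G.h (y ^ ((((e t).1 : ℕ) : ℤ) - ((e t').1 : ℕ)) *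
        z ^ ((((e t).2 : ℕ) : ℤ) - ((e t').2 : ℕ)))) ≤ (N : ℤ) ^ 4 * ((C1 + 4) * R) := by
    intro t t'
    have h1 := bm_height G (fun j : Fin (s + 1) => y ^ (m * ((e j).1 : ℕ)) * z ^ (m * ((e j).2 : ℕ)))
      (fun j => hxU (e j)) c' hc' hrel hW (Sy ∪ Sz) hS t t'
    have h2 : y ^ (m * ((e t).1 : ℕ)) * z ^ (m * ((e t).2 : ℕ)) /
        (y ^ (m * ((e t').1 : ℕ)) * z ^ (m * ((e t').2 : ℕ))) =
        (y ^ ((((e t).1 : ℕ) : ℤ) - ((e t').1 : ℕ)) *
        z ^ ((((e t).2 : ℕ) : ℤ) - ((e t').2 : ℕ))) ^ m := by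
      rw [div_eq_iff (hx0 (e t')), ratio hy0 hz0 m _ _ ((e t').1 : ℕ) ((e t').2 : ℕ), mul_comm]
    have h3 : G.h (y ^ (m * ((e t).1 : ℕ)) * z ^ (m * ((e t).2 : ℕ)) /
        (y ^ (m * ((e t').1 : ℕ)) * z ^ (m * ((e t').2 : ℕ)))) ≤
        ((s * (s - 1) / 2 : ℕ) : ℤ) * (G.κ + (Sy ∪ Sz).card) := h1
    rw [h2, h_pow] at h3
    have h4 : ((s * (s - 1) / 2 : ℕ) : ℤ) * 2 ≤ (N : ℤ) ^ 4 := by exact_mod_cast hsN
    have h5 : (G.κ : ℤ) + (Sy ∪ Sz).card ≤ (C1 + 4) * R := by nlinarith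
    have h6 : (0 : ℤ) ≤ (G.κ : ℤ) + (Sy ∪ Sz).card := by positivity
    calc 2 * ((m : ℤ) * G.h (y ^ ((((e t).1 : ℕ) : ℤ) - ((e t').1 : ℕ)) *
        z ^ ((((e t).2 : ℕ) : ℤ) - ((e t').2 : ℕ))))
        ≤ 2 * (((s * (s - 1) / 2 : ℕ) : ℤ) * (G.κ + (Sy ∪ Sz).card)) := by gcongr
      _ = (((s * (s - 1) / 2 : ℕ) : ℤ) * 2) * (G.κ + (Sy ∪ Sz).card) := by ring
      _ ≤ (N : ℤ) ^ 4 * (G.κ + (Sy ∪ Sz).card) := by gcongr
      _ ≤ (N : ℤ) ^ 4 * ((C1 + 4) * R) := by gcongr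
  have hlt : ∀ t : Fin (s + 1), |(((e t).1 : ℕ) : ℤ) - ((e 0).1 : ℕ)| < N ∧
      |(((e t).2 : ℕ) : ℤ) - ((e 0).2 : ℕ)| < N := by
    intro t
    have h1 := (e t).1.isLt
    have h2 := (e t).2.isLt
    have h3 := (e 0).1.isLt
    have h4 := (e 0).2.isLt
    constructor
    · rw [abs_lt]
      constructor <;> omega
    · rw [abs_lt]
      constructor <;> omega
  -- all differences are parallel
  have hpar : ∀ t t' : Fin (s + 1),
      ((((e t).1 : ℕ) : ℤ) - ((e 0).1 : ℕ)) * ((((e t').2 : ℕ) : ℤ) - ((e 0).2 : ℕ)) =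
      ((((e t').1 : ℕ) : ℤ) - ((e 0).1 : ℕ)) * ((((e t).2 : ℕ) : ℤ) - ((e 0).2 : ℕ)) := by
    intro t t'
    by_contra hne
    obtain ⟨-, hb1⟩ := hlt t
    obtain ⟨-, hb2⟩ := hlt t'
    have hB1 := hbound t 0
    have hB2 := hbound t' 0
    generalize (((e t).1 : ℕ) : ℤ) - ((e 0).1 : ℕ) = a at *
    generalize (((e t').1 : ℕ) : ℤ) - ((e 0).1 : ℕ) = a' at *
    generalize (((e t).2 : ℕ) : ℤ) - ((e 0).2 : ℕ) = b at *
    generalize (((e t').2 : ℕ) : ℤ) - ((e 0).2 : ℕ) = b' at *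
    have hD : 1 ≤ |a * b' - a' * b| := Int.one_le_abs (sub_ne_zero.2 hne)
    have hU1 : IsUn G (y ^ a * z ^ b) := (hy.zpow a).mul (hz.zpow b)
    have hU2 : IsUn G (y ^ a' * z ^ b') := (hy.zpow a').mul (hz.zpow b')
    have hyD : y ^ (a * b' - a' * b) = (y ^ a * z ^ b) ^ b' * (y ^ a' * z ^ b') ^ (-b) := by
      rw [mul_zpow, mul_zpow, ← zpow_mul, ← zpow_mul, ← zpow_mul, ← zpow_mul, mul_mul_mul_comm,
        ← zpow_add₀ hy0, ← zpow_add₀ hz0]
      have e1 : a * b' - a' * b = a * b' + a' * -b := by ring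
      have e2 : b * b' + b' * -b = 0 := by ring
      rw [e1, e2, zpow_zero, mul_one]
    have h1 : |a * b' - a' * b| * G.h y ≤
        |b'| * G.h (y ^ a * z ^ b) + |b| * G.h (y ^ a' * z ^ b') := by
      rw [← h_zpow hy, hyD]
      refine (h_mul_le (hU1.zpow b').1 (hU2.zpow (-b)).1).trans ?_
      rw [h_zpow hU1, h_zpow hU2, abs_neg]
    have hhy : 0 < G.h y := by omega
    have h2 : G.h y ≤ |b'| * G.h (y ^ a * z ^ b) + |b| * G.h (y ^ a' * z ^ b') := by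
      refine le_trans ?_ h1
      nlinarith
    have hm' : 2 * (N : ℤ) ^ 5 * (C1 + 4) < m := by exact_mod_cast hm
    have hN0 : (0 : ℤ) ≤ N := by positivity
    have hK0 : (0 : ℤ) ≤ (N : ℤ) ^ 4 * ((C1 + 4) * R) := by
      have : (0 : ℤ) ≤ R := by omega
      positivity
    have h3 : 2 * ((m : ℤ) * G.h y) ≤ N * ((N : ℤ) ^ 4 * ((C1 + 4) * R)) +
        N * ((N : ℤ) ^ 4 * ((C1 + 4) * R)) := by
      calc 2 * ((m : ℤ) * G.h y) ≤
          2 * ((m : ℤ) * (|b'| * G.h (y ^ a * z ^ b) + |b| * G.h (y ^ a' * z ^ b'))) := by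
            gcongr
        _ = |b'| * (2 * ((m : ℤ) * G.h (y ^ a * z ^ b))) +
            |b| * (2 * ((m : ℤ) * G.h (y ^ a' * z ^ b'))) := by ring
        _ ≤ |b'| * ((N : ℤ) ^ 4 * ((C1 + 4) * R)) + |b| * ((N : ℤ) ^ 4 * ((C1 + 4) * R)) := by
            gcongr
        _ ≤ N * ((N : ℤ) ^ 4 * ((C1 + 4) * R)) + N * ((N : ℤ) ^ 4 * ((C1 + 4) * R)) := by
            gcongr
    have h4 : N * ((N : ℤ) ^ 4 * ((C1 + 4) * R)) ≤ N * ((N : ℤ) ^ 4 * ((C1 + 4) * (2 * G.h y))) := by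
      gcongr
    have h5 : (2 * (N : ℤ) ^ 5 * (C1 + 4) + 1) * G.h y ≤ m * G.h y := by
      have h6 : 2 * (N : ℤ) ^ 5 * (C1 + 4) + 1 ≤ m := by omega
      gcongr
    have h7 : 2 * ((m : ℤ) * G.h y) ≤ 4 * (N : ℤ) ^ 5 * (C1 + 4) * G.h y := by
      refine h3.trans ?_
      have h8 : 4 * (N : ℤ) ^ 5 * (C1 + 4) * G.h y =
        N * ((N : ℤ) ^ 4 * ((C1 + 4) * (2 * G.h y))) +
        N * ((N : ℤ) ^ 4 * ((C1 + 4) * (2 * G.h y))) := by ring
      rw [h8]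
      exact add_le_add h4 h4
    have h9 : (2 * (N : ℤ) ^ 5 * (C1 + 4) + 1) * G.h y =
      2 * (N : ℤ) ^ 5 * (C1 + 4) * G.h y + G.h y := by ring
    have h10 : 4 * (N : ℤ) ^ 5 * (C1 + 4) * G.h y = 2 * (2 * (N : ℤ) ^ 5 * (C1 + 4) * G.h y) := by
      ring
    omega
  -- the primitive direction
  obtain ⟨t1, ht1⟩ : ∃ t1 : Fin (s + 1), t1 ≠ 0 := ⟨⟨1, by omega⟩, by
    intro h0
    have h1 := congrArg Fin.val h0
    simp at h1⟩
  have hAB : (((e t1).1 : ℕ) : ℤ) - ((e 0).1 : ℕ) ≠ 0 ∨ (((e t1).2 : ℕ) : ℤ) - ((e 0).2 : ℕ) ≠ 0 := by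
    by_contra hcon
    rw [not_or, not_not, not_not] at hcon
    apply ht1
    apply e.injective
    refine Prod.ext (Fin.ext ?_) (Fin.ext ?_)
    · have := hcon.1
      omega
    · have := hcon.2
      omega
  obtain ⟨g, a, b, hA, hB, hab, hg, haA, hbB⟩ := exists_prim hAB
  have hab0 : a ≠ 0 ∨ b ≠ 0 := by
    rcases hAB with h1 | h1
    · left
      rintro rfl
      rw [mul_zero] at hA
      exact h1 hA
    · right
      rintro rfl
      rw [mul_zero] at hB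
      exact h1 hB
  refine ⟨a, b, hab0, haA.trans_lt (hlt t1).1, hbB.trans_lt (hlt t1).2, ?_⟩
  have hk : ∀ t : Fin (s + 1), ∃ k : ℤ, (((e t).1 : ℕ) : ℤ) - ((e 0).1 : ℕ) = k * a ∧
      (((e t).2 : ℕ) : ℤ) - ((e 0).2 : ℕ) = k * b := by
    intro t
    refine exists_mul hab ?_
    have h1 := hpar t t1
    rw [hA, hB] at h1
    have h2 : g * (((((e t).1 : ℕ) : ℤ) - ((e 0).1 : ℕ)) * b) =
        g * (a * ((((e t).2 : ℕ) : ℤ) - ((e 0).2 : ℕ))) := by
      linear_combination h1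
    exact mul_left_cancel₀ hg h2
  choose k hk1 hk2 using hk
  have hkinj : Function.Injective k := by
    intro t t' htt
    apply e.injective
    have h1 := hk1 t
    have h2 := hk2 t
    rw [htt, ← hk1 t'] at h1
    rw [htt, ← hk2 t'] at h2
    refine Prod.ext (Fin.ext ?_) (Fin.ext ?_)
    · omega
    · omega
  have hkN : ∀ t, 0 ≤ k t + N := by
    intro t
    have h0 : |k t| ≤ N := by
      rcases hab0 with ha | hb
      · have h1 := (hlt t).1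
        rw [hk1 t, abs_mul] at h1
        have h2 := Int.one_le_abs ha
        have h3 := abs_nonneg (k t)
        nlinarith
      · have h1 := (hlt t).2
        rw [hk2 t, abs_mul] at h1
        have h2 := Int.one_le_abs hb
        have h3 := abs_nonneg (k t)
        nlinarith
    have h1 := neg_abs_le (k t)
    omega
  have hw0 : y ^ ((m : ℤ) * a) * z ^ ((m : ℤ) * b) ≠ 0 :=
    mul_ne_zero (zpow_ne_zero _ hy0) (zpow_ne_zero _ hz0)
  have hxw : ∀ t : Fin (s + 1), (y ^ (m * ((e t).1 : ℕ)) * z ^ (m * ((e t).2 : ℕ))) *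
      (y ^ ((m : ℤ) * a) * z ^ ((m : ℤ) * b)) ^ N =
      (y ^ (m * ((e 0).1 : ℕ)) * z ^ (m * ((e 0).2 : ℕ))) *
      (y ^ ((m : ℤ) * a) * z ^ ((m : ℤ) * b)) ^ (k t + N).toNat := by
    intro t
    rw [ratio hy0 hz0 m _ _ (e 0).1 (e 0).2, hk1 t, hk2 t, mul_assoc]
    congr 1
    have h1 : (y ^ (k t * a) * z ^ (k t * b)) ^ m =
        (y ^ ((m : ℤ) * a) * z ^ ((m : ℤ) * b)) ^ (k t) := by
      rw [mul_pow, mul_zpow, ← zpow_natCast (y ^ _) m, ← zpow_natCast (z ^ _) m, ← zpow_mul,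
        ← zpow_mul, ← zpow_mul, ← zpow_mul]
      congr 2
      · ring
      · ring
    rw [h1, ← zpow_natCast _ N, ← zpow_add₀ hw0, ← zpow_natCast _ (k t + N).toNat,
      Int.toNat_of_nonneg (hkN t)]
  obtain ⟨r, hr⟩ := mem_of_root (y ^ ((m : ℤ) * a) * z ^ ((m : ℤ) * b)) c'
    (fun t => (k t + N).toNat) (by
      intro t t' htt
      apply hkinj
      have h1 := hkN t
      have h2 := hkN t'
      have h3 : (k t + N).toNat = (k t' + N).toNat := htt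
      omega) 0 (hc' 0) (by
      have h1 : (y ^ (m * ((e 0).1 : ℕ)) * z ^ (m * ((e 0).2 : ℕ))) *
          ∑ t, algebraMap F L (c' t) *
            (y ^ ((m : ℤ) * a) * z ^ ((m : ℤ) * b)) ^ (k t + N).toNat = 0 := by
        rw [Finset.mul_sum]
        have h2 : ∑ t : Fin (s + 1), (y ^ (m * ((e 0).1 : ℕ)) * z ^ (m * ((e 0).2 : ℕ))) *
            (algebraMap F L (c' t) *
              (y ^ ((m : ℤ) * a) * z ^ ((m : ℤ) * b)) ^ (k t + N).toNat) =
            (∑ t : Fin (s + 1), algebraMap F L (c' t) *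
              (y ^ (m * ((e t).1 : ℕ)) * z ^ (m * ((e t).2 : ℕ)))) *
              (y ^ ((m : ℤ) * a) * z ^ ((m : ℤ) * b)) ^ N := by
          rw [Finset.sum_mul]
          refine Finset.sum_congr rfl fun t _ => ?_
          rw [mul_left_comm, ← hxw t]
          ring
        rw [h2]
        have h3 : ∑ t : Fin (s + 1), algebraMap F L (c' t) *
              (y ^ (m * ((e t).1 : ℕ)) * z ^ (m * ((e t).2 : ℕ))) = 0 := hrel
        rw [h3, zero_mul]
      exact (mul_eq_zero.1 h1).resolve_left (hx0 (e 0)))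
  exact ⟨r, hr⟩

end Pool.Agent.Lib.P62h
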