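import Pool.Agent.Lib.P62h.GcdG
import Pool.Agent.Lib.P62h.RelM

/-!
# Module P62h.GcdS: the gcd theorem with a small constant

(imports `gcd_gen`, `rel_mono`, `wr_relation`, height facts as black boxes.) Write `u = y ^ m`,
`v = z ^ m`, `n = N^2 - 1`, and let `σ : Fin (n+1) ≃ Fin N × Fin N` be a bijection with
`σ 0 = (0, 0)` (compose any bijection with a swap), `x j = u ^ i v ^ i'` for `σ j = (i, i')`.
CASE 1: `wr θ (x j.succ - x 0) ≠ 0`. Apply `gcd_gen` with `S` = union of the supports of `y, z`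
(`supp_card`), `E p = (N-1) (max 0 (ord u) + max 0 (ord v))`. `Z` is disjoint from `S`: at `p ∈ Z`
`v(u - 1) < 1`, so `v(u) = 1`, `v(y) = 1`, same for `z`. `hZ`: let `t` be that one of `u - 1`, `v - 1` (both
nonzero) which has the larger value; `x j - 1 = (u^i - 1) v^i' + (v^i' - 1)`, and `v(u^i - 1) ≤ v(u-1)`
as `v(u) = 1` (geometric sum). `Σ_{p ∈ S} E p = (N-1)(h u + h v) ≤ 2 (N-1) m R` (`h_eq_zeros`,
`h_pow`). So `n |Z| ≤ 2 (N-1) m R + (n(n-1)/2) (C1+4) R`. Multiply by `N` and use `hcard`; this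
contradicts `hm`.
CASE 2: it is `0`. `wr_relation` gives `c ≠ 0` with `Σ_j c_j (x j.succ - 1) = 0`, a nonzero relation
between the monomials (coefficients `c_j` at `x j.succ` and `- Σ c_j` at `x 0 = 1`). `rel_mono`:
`y^(m a) z^(m b) = k ∈ F`. `Z` is not empty (`hcard`, `3 m R > 0`); at `p ∈ Z` `v(u - 1) < 1` and
`v(v - 1) < 1` give `v(u^a v^b - 1) < 1`, i.e. `v(k - 1) < 1`, so `k = 1` by `G.v_const`.
-/

namespace Pool.Agent.Lib.P62h

open WithZero Pool.Agent.Lib.P62g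

universe u w

namespace GcdSAux

section
variable {L : Type*} [Field L] (v : Valuation L ℤᵐ⁰)

theorem v_one {x : L} (h : v (x - 1) < 1) : v x = 1 := by
  have h1 := Valuation.map_one_add_of_lt v h
  have e : 1 + (x - 1) = x := by ring
  rwa [e] at h1

theorem mul_one_lt {x y : L} (hx : v (x - 1) < 1) (hy : v (y - 1) < 1) :
    v (x * y - 1) < 1 := by
  have e : x * y - 1 = x * (y - 1) + (x - 1) := by ring
  rw [e]
  refine Valuation.map_add_lt v ?_ hx
  rw [map_mul, v_one v hx, one_mul]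
  exact hy

theorem inv_lt {x : L} (hx : v (x - 1) < 1) : v (x⁻¹ - 1) < 1 := by
  have h1 := v_one v hx
  have h0 : x ≠ 0 := by
    rintro rfl
    rw [map_zero] at h1
    exact zero_ne_one h1
  have e : x⁻¹ - 1 = -(x⁻¹ * (x - 1)) := by
    rw [mul_sub, inv_mul_cancel₀ h0, mul_one, neg_sub]
  rw [e, Valuation.map_neg, map_mul, map_inv₀, h1, inv_one, one_mul]
  exact hx

theorem pow_lt {x : L} (hx : v (x - 1) < 1) (k : ℕ) : v (x ^ k - 1) < 1 := by
  induction k with
  | zero => rw [pow_zero, sub_self, map_zero]; exact zero_lt_one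
  | succ k ih => rw [pow_succ]; exact mul_one_lt v ih hx

theorem zpow_lt {x : L} (hx : v (x - 1) < 1) (k : ℤ) : v (x ^ k - 1) < 1 := by
  obtain ⟨n, rfl | rfl⟩ := k.eq_nat_or_neg
  · rw [zpow_natCast]; exact pow_lt v hx n
  · rw [zpow_neg, zpow_natCast]; exact inv_lt v (pow_lt v hx n)

theorem pow_le {x : L} (hx : v (x - 1) < 1) (k : ℕ) : v (x ^ k - 1) ≤ v (x - 1) := by
  induction k with
  | zero => rw [pow_zero, sub_self, map_zero]; exact zero_le
  | succ k ih =>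
    have e : x ^ (k + 1) - 1 = x * (x ^ k - 1) + (x - 1) := by ring
    rw [e]
    refine Valuation.map_add_le v ?_ le_rfl
    rw [map_mul, v_one v hx, one_mul]
    exact ih

end

theorem exists_sigma (M : ℕ) : ∃ (n : ℕ) (σ : Fin (n + 1) ≃ Fin (M + 1) × Fin (M + 1)),
    σ 0 = (0, 0) ∧ n + 1 = (M + 1) * (M + 1) := by
  classical
  obtain ⟨n, hn⟩ : ∃ n, n + 1 = (M + 1) * (M + 1) := ⟨(M + 1) * (M + 1) - 1, by
    have : 0 < (M + 1) * (M + 1) := by positivity
    omega⟩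
  let e : Fin (n + 1) ≃ Fin (M + 1) × Fin (M + 1) :=
    (finCongr hn).trans finProdFinEquiv.symm
  exact ⟨n, e.trans (Equiv.swap (e 0) (0, 0)), Equiv.swap_apply_left _ _, hn⟩

/-- the arithmetic of the first case -/
theorem arith {M n m C1 : ℕ} (hM : 1 ≤ M) (hn : n + 1 = (M + 1) * (M + 1)) {R κ s Zc sE : ℤ}
    (hR : 1 ≤ R) (hκ : κ ≤ C1 * R) (hs : s ≤ 4 * R)
    (hm : 2 * (M + 1) ^ 5 * (C1 + 4) < m) (hE : sE ≤ 2 * M * m * R)
    (hcard : 3 * m * R ≤ ((M + 1 : ℕ) : ℤ) * Zc)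
    (h : (n : ℤ) * Zc ≤ sE + ((n * (n - 1) / 2 : ℕ) : ℤ) * (κ + s)) : False := by
  have hn' : (n : ℤ) = M * (M + 2) := by
    have h1 : ((n + 1 : ℕ) : ℤ) = ((M + 1) * (M + 1) : ℕ) := by rw [hn]
    push_cast at h1
    linarith
  have hT : 2 * ((n * (n - 1) / 2 : ℕ) : ℤ) ≤ n * ((M : ℤ) + 1) ^ 2 := by
    have h1 : 2 * (n * (n - 1) / 2) ≤ n * (n - 1) := Nat.mul_div_le _ _
    have h2 : n * (n - 1) ≤ n * ((M + 1) ^ 2) := Nat.mul_le_mul_left _ (by
      rw [pow_two, ← hn]; omega)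
    have h3 := h1.trans h2
    exact_mod_cast h3
  have hT0 : (0 : ℤ) ≤ ((n * (n - 1) / 2 : ℕ) : ℤ) := Int.natCast_nonneg _
  generalize ((n * (n - 1) / 2 : ℕ) : ℤ) = T at *
  have hM0 : (1 : ℤ) ≤ M := by exact_mod_cast hM
  have hn0 : (0 : ℤ) ≤ n := by positivity
  have hm' : 2 * ((M : ℤ) + 1) ^ 5 * (C1 + 4) < m := by exact_mod_cast hm
  have hc0 : (0 : ℤ) < (C1 : ℤ) + 4 := by positivity
  have h1 : κ + s ≤ ((C1 : ℤ) + 4) * R := by linarith
  generalize (C1 : ℤ) + 4 = c at *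
  push_cast at hcard
  have a1 : n * Zc ≤ (2 * M * m + T * c) * R := by
    have := mul_le_mul_of_nonneg_left h1 hT0
    nlinarith
  have a2 : 3 * m * n * R ≤ (M + 1) * (2 * M * m + T * c) * R := by
    have b1 := mul_le_mul_of_nonneg_left hcard hn0
    have b2 := mul_le_mul_of_nonneg_left a1 (by linarith : (0 : ℤ) ≤ M + 1)
    linarith
  have a3 : 3 * m * n ≤ (M + 1) * (2 * M * m + T * c) :=
    le_of_mul_le_mul_right a2 (by linarith)
  have a4 : 6 * m * n ≤ 4 * M * (M + 1) * m + (M + 1) * (n * ((M : ℤ) + 1) ^ 2) * c := by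
    have b1 : ((M : ℤ) + 1) * (2 * T) * c ≤ (M + 1) * (n * ((M : ℤ) + 1) ^ 2) * c :=
      mul_le_mul_of_nonneg_right (mul_le_mul_of_nonneg_left hT (by linarith)) hc0.le
    linarith
  have a5 : (M : ℤ) * (m * (2 * M + 8)) ≤ M * ((M + 2) * (M + 1) ^ 3 * c) := by
    rw [hn'] at a4
    linarith
  have a6 : (m : ℤ) * (2 * M + 8) ≤ (M + 2) * (M + 1) ^ 3 * c :=
    le_of_mul_le_mul_left a5 (by linarith)
  have a7 : 2 * ((M : ℤ) + 1) ^ 5 * c * (2 * M + 8) < m * (2 * M + 8) :=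
    mul_lt_mul_of_pos_right hm' (by linarith)
  have a8 : ((M : ℤ) + 2) * (M + 1) ^ 3 * c ≤ 2 * ((M : ℤ) + 1) ^ 5 * c * (2 * M + 8) := by
    have b1 : (M : ℤ) + 2 ≤ 2 * (2 * M + 8) * ((M : ℤ) + 1) ^ 2 := by nlinarith
    have b2 : (0 : ℤ) ≤ ((M : ℤ) + 1) ^ 3 * c := by positivity
    have b3 := mul_le_mul_of_nonneg_right b1 b2
    linarith
  linarith

end GcdSAux

open GcdSAux

theorem gcd_small {F : Type w} {L : Type u} [Field F] [IsAlgClosed F] [Field L] [Algebra F L]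
    (G : Geo F L) {N m C1 : ℕ} (hN : 2 ≤ N) {R : ℤ} (hR : 1 ≤ R) (hκ : (G.κ : ℤ) ≤ C1 * R)
    {y z : L} (hy : IsUn G y) (hz : IsUn G z) (hy2 : R ≤ 2 * G.h y) (hyR : G.h y ≤ R)
    (hzR : G.h z ≤ R) (hm : 2 * N ^ 5 * (C1 + 4) < m) (hy1 : y ^ m ≠ 1) (hz1 : z ^ m ≠ 1)
    (Z : Finset G.Pl) (hZ : ∀ p ∈ Z, G.v p (y ^ m - 1) < 1 ∧ G.v p (z ^ m - 1) < 1)
    (hcard : 3 * m * R ≤ N * Z.card) :
    ∃ a b : ℤ, (a ≠ 0 ∨ b ≠ 0) ∧ |a| < N ∧ |b| < N ∧
      y ^ ((m : ℤ) * a) * z ^ ((m : ℤ) * b) = 1 := by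
  classical
  obtain ⟨M, rfl⟩ : ∃ M, N = M + 1 := ⟨N - 1, by omega⟩
  obtain ⟨n, σ, hσ0, hn⟩ := exists_sigma M
  have hm0 : 0 < m := lt_of_le_of_lt (Nat.zero_le _) hm
  have hm0' : (0 : ℤ) < m := by exact_mod_cast hm0
  -- the monomials
  let x : Fin (n + 1) → L := fun j => (y ^ m) ^ ((σ j).1 : ℕ) * (z ^ m) ^ ((σ j).2 : ℕ)
  have hxd : ∀ j, x j = (y ^ m) ^ ((σ j).1 : ℕ) * (z ^ m) ^ ((σ j).2 : ℕ) := fun j => rfl
  have hx : ∀ j, IsUn G (x j) := fun j => ((hy.pow m).pow _).mul ((hz.pow m).pow _)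
  have hx0 : x 0 = 1 := by
    rw [hxd, hσ0]
    simp
  by_cases hW : wr G.θ (fun j : Fin n => x j.succ - x 0) = 0
  · -- a relation
    obtain ⟨c, hc, hrel⟩ := wr_relation G.θ G.θ_ker _ hW
    let c' : Fin (n + 1) → F := Fin.cases (-∑ j, c j) c
    have hc'0 : c' 0 = -∑ j, c j := rfl
    have hc's : ∀ j : Fin n, c' j.succ = c j := fun j => rfl
    have hsum : ∑ j : Fin (n + 1), algebraMap F L (c' j) * x j = 0 := by
      rw [Fin.sum_univ_succ, hc'0]
      simp only [hc's]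
      rw [map_neg, map_sum]
      have h1 : ∑ j : Fin n, algebraMap F L (c j) * (x j.succ - x 0) =
          ∑ j : Fin n, algebraMap F L (c j) * x j.succ -
            (∑ j : Fin n, algebraMap F L (c j)) * x 0 := by
        rw [Finset.sum_mul, ← Finset.sum_sub_distrib]
        exact Finset.sum_congr rfl fun j _ => mul_sub _ _ _
      rw [h1] at hrel
      linear_combination hrel
    have hsum' : ∑ t : Fin (M + 1) × Fin (M + 1), algebraMap F L (c' (σ.symm t)) *
        (y ^ (m * (t.1 : ℕ)) * z ^ (m * (t.2 : ℕ))) = 0 := by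
      rw [← hsum]
      refine (Fintype.sum_equiv σ _ _ fun j => ?_).symm
      rw [Equiv.symm_apply_apply, hxd, pow_mul, pow_mul]
    have hcne : (fun t => c' (σ.symm t)) ≠ 0 := by
      intro h
      apply hc
      funext j
      have h1 := congrFun h (σ j.succ)
      simp only [Equiv.symm_apply_apply] at h1
      rw [← hc's, h1]
      rfl
    obtain ⟨a, b, hab, ha, hb, k, hk⟩ :=
      rel_mono G hR hκ hy hz hy2 hyR hzR hm _ hcne hsum'
    refine ⟨a, b, hab, ha, hb, ?_⟩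
    have hZne : Z.Nonempty := by
      rw [← Finset.card_pos]
      by_contra h0
      have h1 : Z.card = 0 := by omega
      rw [h1] at hcard
      have h2 : (0 : ℤ) < 3 * m * R := by positivity
      push_cast at hcard
      linarith
    obtain ⟨p, hp⟩ := hZne
    obtain ⟨hp1, hp2⟩ := hZ p hp
    have h1 : G.v p (y ^ ((m : ℤ) * a) * z ^ ((m : ℤ) * b) - 1) < 1 := by
      rw [zpow_mul, zpow_mul, zpow_natCast, zpow_natCast]
      exact mul_one_lt _ (zpow_lt _ hp1 a) (zpow_lt _ hp2 b)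
    rw [hk] at h1 ⊢
    by_cases hk1 : k = 1
    · rw [hk1, map_one]
    · exfalso
      have h2 := G.v_const p (k - 1) (sub_ne_zero.2 hk1)
      rw [map_sub, map_one] at h2
      rw [h2] at h1
      exact lt_irrefl _ h1
  · exfalso
    obtain ⟨Sy, hSy, hSyc⟩ := supp_card hy
    obtain ⟨Sz, hSz, hSzc⟩ := supp_card hz
    let S : Finset G.Pl := (Sy ∪ Sz).filter fun p => G.ord p y ≠ 0 ∨ G.ord p z ≠ 0
    have hSn : ∀ p ∉ S, G.ord p y = 0 ∧ G.ord p z = 0 := by
      intro p hp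
      by_contra h
      apply hp
      rw [Finset.mem_filter, Finset.mem_union]
      have h2 : G.ord p y ≠ 0 ∨ G.ord p z ≠ 0 := by
        by_contra h3
        push Not at h3
        exact h h3
      refine ⟨?_, h2⟩
      rcases h2 with h3 | h3
      · left
        by_contra h4
        exact h3 (hSy p h4)
      · right
        by_contra h4
        exact h3 (hSz p h4)
    have hScard : (S.card : ℤ) ≤ 4 * R := by
      have h1 : S.card ≤ Sy.card + Sz.card :=
        (Finset.card_filter_le _ _).trans (Finset.card_union_le _ _)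
      have h2 : (S.card : ℤ) ≤ Sy.card + Sz.card := by exact_mod_cast h1
      linarith
    have hordx : ∀ p j, G.ord p (x j) =
        ((σ j).1 : ℕ) * (m * G.ord p y) + ((σ j).2 : ℕ) * (m * G.ord p z) := by
      intro p j
      rw [hxd, Geo.ord_mul ((hy.pow m).pow _).1 ((hz.pow m).pow _).1, Geo.ord_pow, Geo.ord_pow,
        Geo.ord_pow, Geo.ord_pow]
    have hS : ∀ p ∉ S, ∀ j, G.ord p (x j) = 0 := by
      intro p hp j
      obtain ⟨h1, h2⟩ := hSn p hp
      rw [hordx, h1, h2]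
      ring
    let E : G.Pl → ℤ := fun p => M * (max 0 (G.ord p (y ^ m)) + max 0 (G.ord p (z ^ m)))
    have hEle : ∀ p ∈ S, ∀ j, G.ord p (x j) ≤ E p := by
      intro p _ j
      rw [hordx]
      show _ ≤ (M : ℤ) * (max 0 (G.ord p (y ^ m)) + max 0 (G.ord p (z ^ m)))
      rw [Geo.ord_pow, Geo.ord_pow, mul_add]
      have hi : (((σ j).1 : ℕ) : ℤ) ≤ M := by
        have := (σ j).1.2
        exact_mod_cast Nat.lt_succ_iff.1 this
      have hi' : (((σ j).2 : ℕ) : ℤ) ≤ M := by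
        have := (σ j).2.2
        exact_mod_cast Nat.lt_succ_iff.1 this
      refine add_le_add ?_ ?_
      · calc (((σ j).1 : ℕ) : ℤ) * (m * G.ord p y)
            ≤ ((σ j).1 : ℕ) * max 0 (m * G.ord p y) :=
              mul_le_mul_of_nonneg_left (le_max_right _ _) (Int.natCast_nonneg _)
          _ ≤ M * max 0 (m * G.ord p y) :=
              mul_le_mul_of_nonneg_right hi (le_max_left _ _)
      · calc (((σ j).2 : ℕ) : ℤ) * (m * G.ord p z)
            ≤ ((σ j).2 : ℕ) * max 0 (m * G.ord p z) :=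
              mul_le_mul_of_nonneg_left (le_max_right _ _) (Int.natCast_nonneg _)
          _ ≤ M * max 0 (m * G.ord p z) :=
              mul_le_mul_of_nonneg_right hi' (le_max_left _ _)
    have hord0 : ∀ {w : L}, IsUn G w → ∀ p, G.v p (w ^ m - 1) < 1 → G.ord p w = 0 := by
      intro w hw p hp
      have h1 := v_one _ hp
      rw [Geo.v_eq_one_iff (pow_ne_zero m hw.1), Geo.ord_pow] at h1
      rcases mul_eq_zero.1 h1 with h2 | h2
      · exfalso
        omega
      · exact h2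
    have hdisj : Disjoint Z S := by
      rw [Finset.disjoint_left]
      intro p hp hpS
      obtain ⟨h1, h2⟩ := hZ p hp
      rw [Finset.mem_filter] at hpS
      rcases hpS.2 with h | h
      · exact h (hord0 hy p h1)
      · exact h (hord0 hz p h2)
    have hZt : ∀ p ∈ Z, ∃ t : L, t ≠ 0 ∧ G.v p t < 1 ∧ ∀ j, G.v p (x j - 1) ≤ G.v p t := by
      intro p hp
      obtain ⟨h1, h2⟩ := hZ p hp
      have key : ∀ j, G.v p (x j - 1) ≤ max (G.v p (y ^ m - 1)) (G.v p (z ^ m - 1)) := by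
        intro j
        have e : x j - 1 = ((y ^ m) ^ ((σ j).1 : ℕ) - 1) * (z ^ m) ^ ((σ j).2 : ℕ) +
            ((z ^ m) ^ ((σ j).2 : ℕ) - 1) := by
          rw [hxd]
          ring
        rw [e]
        refine Valuation.map_add_le _ ?_ ?_
        · rw [map_mul, map_pow (G.v p) (z ^ m), v_one _ h2, one_pow, mul_one]
          exact (pow_le _ h1 _).trans (le_max_left _ _)
        · exact (pow_le _ h2 _).trans (le_max_right _ _)
      rcases le_total (G.v p (y ^ m - 1)) (G.v p (z ^ m - 1)) with h | h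
      · refine ⟨z ^ m - 1, sub_ne_zero.2 hz1, h2, fun j => ?_⟩
        rw [← max_eq_right h]
        exact key j
      · refine ⟨y ^ m - 1, sub_ne_zero.2 hy1, h1, fun j => ?_⟩
        rw [← max_eq_left h]
        exact key j
    have hgcd := gcd_gen G x hx hx0 hW S hS E hEle Z hdisj hZt
    have hsupp : ∀ {w : L}, (∀ p ∉ S, G.ord p w = 0) → ∀ p, G.ord p (w ^ m) ≠ 0 → p ∈ S := by
      intro w hw p hp
      by_contra h
      apply hp
      rw [Geo.ord_pow, hw p h, mul_zero]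
    have hsE : ∑ p ∈ S, E p ≤ 2 * M * m * R := by
      have h1 : ∑ p ∈ S, E p = M * (G.h (y ^ m) + G.h (z ^ m)) := by
        rw [Geo.h_eq_zeros (hy.pow m).1 (hy.pow m).2.1 (hy.pow m).2.2 S
            (hsupp fun p hp => (hSn p hp).1),
          Geo.h_eq_zeros (hz.pow m).1 (hz.pow m).2.1 (hz.pow m).2.2 S
            (hsupp fun p hp => (hSn p hp).2), ← Finset.sum_add_distrib, Finset.mul_sum]
      rw [h1, h_pow, h_pow]
      have h2 : (m : ℤ) * G.h y + m * G.h z ≤ 2 * m * R := by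
        have h3 := mul_le_mul_of_nonneg_left hyR hm0'.le
        have h4 := mul_le_mul_of_nonneg_left hzR hm0'.le
        linarith
      have h5 := mul_le_mul_of_nonneg_left h2 (Int.natCast_nonneg M)
      linarith
    exact arith (by omega) hn hR hκ hScard hm hsE hcard hgcd

end Pool.Agent.Lib.P62h
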