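import Pool.Agent.Lib.P62a0c3.Scale

/-!
# The maps `x ↦ U(x ^ m) / V(x ^ m)`: definitions
-/

namespace Pool.Agent.Lib.P62h

open Polynomial WithZero Pool.Agent.Lib.P62a0c3

/-- `x ↦ U(x ^ m) / V(x ^ m)` on `ℙ¹(L)`, `U` and `V` of degree at most `e`. -/
noncomputable def gm {L : Type*} [Field L] (U V : L[X]) (e m : ℕ) : OnePoint L → OnePoint L
  | OnePoint.infty => toP1 (U.coeff e) (V.coeff e)
  | OnePoint.some z => toP1 (U.eval (z ^ m)) (V.eval (z ^ m))

/-- Size of the coefficients of `U` and `V`. -/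
noncomputable def gz {L : Type*} [Field L] (v : Valuation L ℤᵐ⁰) (U V : L[X]) (e : ℕ) : ℤᵐ⁰ :=
  (Finset.range (e + 1)).sup fun i => max (v (U.coeff i)) (v (V.coeff i))

/-- The reduction of `U / V` has a hole at `1`. -/
def Hole {L : Type*} [Field L] (v : Valuation L ℤᵐ⁰) (U V : L[X]) (e : ℕ) : Prop :=
  v (U.eval 1) < gz v U V e ∧ v (V.eval 1) < gz v U V e

theorem gm_infty {L : Type*} [Field L] (U V : L[X]) (e m : ℕ) :
    gm U V e m OnePoint.infty = toP1 (U.coeff e) (V.coeff e) := rfl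

theorem gm_some {L : Type*} [Field L] (U V : L[X]) (e m : ℕ) (z : L) :
    gm U V e m (z : OnePoint L) = toP1 (U.eval (z ^ m)) (V.eval (z ^ m)) := rfl

end Pool.Agent.Lib.P62h
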