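import Pool.Agent.Lib.P62h.GmD

/-!
# Module P62h.HoleD: the interpolation determinant

For `a i : L` and `(s i, t i)`, `i : Fin e ⊕ Fin e`, let `D` be the square matrix with rows `i` and
entries `a i ^ j * t i` in column `inl j` and `-(a i ^ j * s i)` in column `inr j`, `j < e`:
`D *ᵥ c = 0` says `U1(a i) t i = V1(a i) s i` for the polynomials `U1, V1` of degree `< e` with
coefficients `c (inl j)`, `c (inr j)`.

`idet_ne_zero`. If `det D = 0` there is `c ≠ 0` with `D *ᵥ c = 0`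
(`Matrix.exists_mulVec_eq_zero_iff`). Let `U1, V1` be the polynomials. As
`(U(a i), V(a i)) = l i (s i, t i)` and `(s i, t i) ≠ 0`, the polynomial `U V1 - V U1` vanishes at all
`2 e` distinct points `a i` (`U1(a i) t i = V1(a i) s i` means `(U1(a i), V1(a i))` is proportional to
`(s i, t i)`: do the cases `s i ≠ 0` or `t i ≠ 0`), and its degree is at most `2 e - 1`; so
`U V1 = V U1` (`Polynomial.eq_zero_of_natDegree_lt_card_of_eval_eq_zero'`). `U, V` coprime:
`U ∣ U1`, `V ∣ V1`; the one of degree `e` forces `U1 = 0` resp. `V1 = 0` (degree `< e`), then the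
other is `0` too (`U ≠ 0` or `V ≠ 0`: if `U1 = 0` then `U V1 = 0`; if `U = 0` then `V` is a unit of
degree `0 < e`, and `U` has degree `0`, contradiction to `hdeg`). So `c = 0`, contradiction.

`idet_small` (one valuation). Suppose `Hole v U V e` and `¬ v (a i - 1) < v' ...`: precisely
`hai : max (v (a i)) 1 ≤ v (a i - 1)`. Let `g = gz v U V e > 0`. Synthetic division:
`U = (X - 1) U1 + C (U.eval 1)`, `V = (X - 1) V1 + C (V.eval 1)` (`Polynomial.divByMonic`,
`X - C 1`), `U1, V1` of degree `< e`. The coefficients of `U1` are sums of coefficients of `U`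
(`u1_j = Σ_{i > j} u_i`), so they have `v ≤ g`, same for `V1`; and one of them has value `g`:
otherwise all coefficients of `U = (X-1) U1 + U(1)` and of `V` would have value `< g`. Put
`c1 = (coefficients of U1, V1)`. `(a i - 1) (D *ᵥ c1) i = (a i - 1)(U1(a i) t i - V1(a i) s i)
= (U(a i) - U(1)) t i - (V(a i) - V(1)) s i = -(U(1) t i - V(1) s i)`, of value
`< g max (v (s i)) (v (t i))`. So `v ((D *ᵥ c1) i) < g * max (v (s i)) (v (t i)) / max (v (a i)) 1`, in
particular `< g * A i` with `A i = max (v (a i)) 1 ^ (e-1) * max (v (s i)) (v (t i))`. Cramer's rule: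
`det D * c1 k = Σ_i adjugate D k i * (D *ᵥ c1) i` (`Matrix.adjugate_mul`), and
`v (adjugate D k i) ≤ Π_{r ≠ i} A r` (all entries of row `r` of `D` have value `≤ A r`, as
`j ≤ e - 1`). Take `k` with `v (c1 k) = g`: `v (det D) g < g Π_r A r`.

`idet_le`. Each entry of row `r` has value `≤ A r`.
-/

namespace Pool.Agent.Lib.P62h

open Polynomial WithZero Pool.Agent.Lib.P62a0c3

/-- The interpolation matrix. -/
def im {L : Type*} [Field L] {e : ℕ} (a s t : Fin e ⊕ Fin e → L) :
    Matrix (Fin e ⊕ Fin e) (Fin e ⊕ Fin e) L :=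
  fun i j => Sum.elim (fun j : Fin e => a i ^ (j : ℕ) * t i) (fun j : Fin e => -(a i ^ (j : ℕ) * s i)) j

theorem im_mulVec {L : Type*} [Field L] {e : ℕ} (a s t c : Fin e ⊕ Fin e → L)
    (i : Fin e ⊕ Fin e) :
    (im a s t).mulVec c i = (∑ j : Fin e, c (Sum.inl j) * a i ^ (j : ℕ)) * t i -
      (∑ j : Fin e, c (Sum.inr j) * a i ^ (j : ℕ)) * s i := by
  rw [Matrix.mulVec, dotProduct, Fintype.sum_sum_type, Finset.sum_mul, Finset.sum_mul,
    sub_eq_add_neg, ← Finset.sum_neg_distrib]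
  congr 1
  · refine Finset.sum_congr rfl fun j _ => ?_
    change a i ^ (j : ℕ) * t i * c (Sum.inl j) = _
    ring
  · refine Finset.sum_congr rfl fun j _ => ?_
    change -(a i ^ (j : ℕ) * s i) * c (Sum.inr j) = _
    ring

/-- the polynomial with given coefficients -/
noncomputable def pc {L : Type*} [Field L] {e : ℕ} (c : Fin e → L) : L[X] :=
  ∑ j : Fin e, C (c j) * X ^ (j : ℕ)

theorem pc_eval {L : Type*} [Field L] {e : ℕ} (c : Fin e → L) (x : L) :
    (pc c).eval x = ∑ j : Fin e, c j * x ^ (j : ℕ) := by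
  rw [pc, eval_finsetSum]
  refine Finset.sum_congr rfl fun j _ => ?_
  rw [eval_mul, eval_C, eval_pow, eval_X]

theorem pc_natDegree {L : Type*} [Field L] {e : ℕ} (c : Fin e → L) :
    (pc c).natDegree ≤ e - 1 := by
  rw [pc]
  refine natDegree_sum_le_of_forall_le _ _ fun j _ => ?_
  refine (natDegree_C_mul_X_pow_le _ _).trans ?_
  have := j.2
  omega

theorem pc_coeff {L : Type*} [Field L] {e : ℕ} (c : Fin e → L) (k : Fin e) :
    (pc c).coeff (k : ℕ) = c k := by
  rw [pc, finsetSum_coeff, Finset.sum_eq_single k]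
  · rw [coeff_C_mul, coeff_X_pow, if_pos rfl, mul_one]
  · intro j _ hj
    rw [coeff_C_mul, coeff_X_pow, if_neg, mul_zero]
    intro h
    exact hj (Fin.ext h.symm)
  · intro h
    exact absurd (Finset.mem_univ k) h

theorem idet_ne_zero {L : Type*} [Field L] {e : ℕ} (he : 1 ≤ e) {U V : L[X]}
    (hcop : IsCoprime U V) (hdeg : max U.natDegree V.natDegree = e)
    (a s t l : Fin e ⊕ Fin e → L) (ha : Function.Injective a) (hst : ∀ i, s i ≠ 0 ∨ t i ≠ 0)
    (hs : ∀ i, U.eval (a i) = l i * s i) (ht : ∀ i, V.eval (a i) = l i * t i) :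
    (im a s t).det ≠ 0 := by
  have _ := hst
  intro hdet
  obtain ⟨c, hc0, hc⟩ := Matrix.exists_mulVec_eq_zero_iff.2 hdet
  apply hc0
  have h1 : ∀ i, (pc (fun j => c (Sum.inl j))).eval (a i) * t i -
      (pc (fun j => c (Sum.inr j))).eval (a i) * s i = 0 := by
    intro i
    have h := congrFun hc i
    rw [im_mulVec] at h
    rw [pc_eval, pc_eval]
    exact h
  have hU1 : (pc (fun j => c (Sum.inl j))).natDegree ≤ e - 1 := pc_natDegree _
  have hV1 : (pc (fun j => c (Sum.inr j))).natDegree ≤ e - 1 := pc_natDegree _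
  have hUd : U.natDegree ≤ e := by rw [← hdeg]; exact le_max_left _ _
  have hVd : V.natDegree ≤ e := by rw [← hdeg]; exact le_max_right _ _
  have h3 : U * pc (fun j => c (Sum.inr j)) - V * pc (fun j => c (Sum.inl j)) = 0 := by
    refine eq_zero_of_natDegree_lt_card_of_eval_eq_zero _ ha (fun i => ?_) ?_
    · rw [eval_sub, eval_mul, eval_mul, hs, ht]
      have h := h1 i
      linear_combination (-(l i)) * h
    · rw [Fintype.card_sum, Fintype.card_fin]
      refine lt_of_le_of_lt (natDegree_sub_le _ _) ?_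
      have h4 := natDegree_mul_le (p := U) (q := pc (fun j => c (Sum.inr j)))
      have h5 := natDegree_mul_le (p := V) (q := pc (fun j => c (Sum.inl j)))
      omega
  have h3' : U * pc (fun j => c (Sum.inr j)) = V * pc (fun j => c (Sum.inl j)) := sub_eq_zero.1 h3
  have hUU : U ∣ pc (fun j => c (Sum.inl j)) :=
    hcop.dvd_of_dvd_mul_left (h3' ▸ Dvd.intro _ rfl)
  have hVV : V ∣ pc (fun j => c (Sum.inr j)) :=
    hcop.symm.dvd_of_dvd_mul_left (h3'.symm ▸ Dvd.intro _ rfl)
  have h0 : pc (fun j => c (Sum.inl j)) = 0 ∧ pc (fun j => c (Sum.inr j)) = 0 := by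
    rcases max_choice U.natDegree V.natDegree with h | h
    · have hUe : U.natDegree = e := by rw [← hdeg, h]
      have hz : pc (fun j => c (Sum.inl j)) = 0 :=
        eq_zero_of_dvd_of_natDegree_lt hUU (by omega)
      refine ⟨hz, ?_⟩
      rw [hz, mul_zero] at h3'
      rcases mul_eq_zero.1 h3' with h4 | h4
      · rw [h4, natDegree_zero] at hUe
        omega
      · exact h4
    · have hVe : V.natDegree = e := by rw [← hdeg, h]
      have hz : pc (fun j => c (Sum.inr j)) = 0 :=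
        eq_zero_of_dvd_of_natDegree_lt hVV (by omega)
      refine ⟨?_, hz⟩
      rw [hz, mul_zero] at h3'
      rcases mul_eq_zero.1 h3'.symm with h4 | h4
      · rw [h4, natDegree_zero] at hVe
        omega
      · exact h4
  funext i
  rcases i with k | k
  · have h := pc_coeff (fun j => c (Sum.inl j)) k
    rw [h0.1, coeff_zero] at h
    exact h.symm
  · have h := pc_coeff (fun j => c (Sum.inr j)) k
    rw [h0.2, coeff_zero] at h
    exact h.symm

theorem v_sign {L : Type*} [Field L] (v : Valuation L ℤᵐ⁰) {ι : Type*} [Fintype ι] [DecidableEq ι]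
    (σ : Equiv.Perm ι) : v (((Equiv.Perm.sign σ : ℤˣ) : ℤ) : L) = 1 := by
  rcases Int.units_eq_one_or (Equiv.Perm.sign σ) with h | h
  · rw [h]; simp
  · rw [h]; simp

theorem det_rows {L : Type*} [Field L] {ι : Type*} [Fintype ι] [DecidableEq ι]
    (M : Matrix ι ι L) :
    M.det = ∑ σ : Equiv.Perm ι, (((Equiv.Perm.sign σ : ℤˣ) : ℤ) : L) * ∏ i, M i (σ i) := by
  rw [← Matrix.det_transpose, Matrix.det_apply']
  rfl

theorem v_det_le {L : Type*} [Field L] (v : Valuation L ℤᵐ⁰) {ι : Type*} [Fintype ι]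
    [DecidableEq ι] (M : Matrix ι ι L) (A : ι → ℤᵐ⁰) (h : ∀ i j, v (M i j) ≤ A i) :
    v M.det ≤ ∏ i, A i := by
  rw [det_rows]
  refine v.map_sum_le fun σ _ => ?_
  rw [map_mul, v_sign, one_mul, map_prod]
  exact Finset.prod_le_prod' fun i _ => h i (σ i)

theorem v_det_lt {L : Type*} [Field L] (v : Valuation L ℤᵐ⁰) {ι : Type*} [Fintype ι]
    [DecidableEq ι] (M : Matrix ι ι L) (A : ι → ℤᵐ⁰) (g : ℤᵐ⁰) (k : ι) (hA : ∀ i, 0 < A i)
    (hg : 0 < g) (h : ∀ i j, j ≠ k → v (M i j) ≤ A i) (hk : ∀ i, v (M i k) < g * A i) :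
    v M.det < g * ∏ i, A i := by
  have hP : ∀ T : Finset ι, 0 < ∏ i ∈ T, A i := fun T =>
    zero_lt_iff.2 (Finset.prod_ne_zero_iff.2 fun i _ => (hA i).ne')
  rw [det_rows]
  refine v.map_sum_lt (mul_ne_zero hg.ne' (hP _).ne') fun σ _ => ?_
  rw [map_mul, v_sign, one_mul, map_prod]
  rw [← Finset.mul_prod_erase Finset.univ (fun i => v (M i (σ i))) (Finset.mem_univ (σ.symm k)),
    ← Finset.mul_prod_erase Finset.univ A (Finset.mem_univ (σ.symm k)), ← mul_assoc]
  have h1 : ∏ i ∈ Finset.univ.erase (σ.symm k), v (M i (σ i)) ≤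
      ∏ i ∈ Finset.univ.erase (σ.symm k), A i := by
    refine Finset.prod_le_prod' fun i hi => h i (σ i) ?_
    intro hc
    apply (Finset.mem_erase.1 hi).1
    rw [← hc, Equiv.symm_apply_apply]
  have h2 : v (M (σ.symm k) (σ (σ.symm k))) < g * A (σ.symm k) := by
    rw [Equiv.apply_symm_apply]
    exact hk _
  calc v (M (σ.symm k) (σ (σ.symm k))) * ∏ i ∈ Finset.univ.erase (σ.symm k), v (M i (σ i))
      ≤ v (M (σ.symm k) (σ (σ.symm k))) * ∏ i ∈ Finset.univ.erase (σ.symm k), A i :=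
        mul_le_mul_right h1 _
    _ < g * A (σ.symm k) * ∏ i ∈ Finset.univ.erase (σ.symm k), A i :=
        mul_lt_mul_of_pos_right h2 (hP _)

theorem im_le {L : Type*} [Field L] (v : Valuation L ℤᵐ⁰) {e : ℕ}
    (a s t : Fin e ⊕ Fin e → L) (i j : Fin e ⊕ Fin e) :
    v (im a s t i j) ≤ (max (v (a i)) 1) ^ (e - 1) * max (v (s i)) (v (t i)) := by
  have h1 : ∀ k : Fin e, v (a i) ^ (k : ℕ) ≤ (max (v (a i)) 1) ^ (e - 1) := by
    intro k
    calc v (a i) ^ (k : ℕ) ≤ (max (v (a i)) 1) ^ (k : ℕ) :=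
          pow_le_pow_left' (le_max_left _ _) _
      _ ≤ (max (v (a i)) 1) ^ (e - 1) :=
          pow_le_pow_right' (le_max_right _ _) (by have := k.2; omega)
  rcases j with k | k
  · change v (a i ^ (k : ℕ) * t i) ≤ _
    rw [map_mul, map_pow]
    exact mul_le_mul' (h1 k) (le_max_right _ _)
  · change v (-(a i ^ (k : ℕ) * s i)) ≤ _
    rw [Valuation.map_neg, map_mul, map_pow]
    exact mul_le_mul' (h1 k) (le_max_left _ _)

theorem idet_le {L : Type*} [Field L] (v : Valuation L ℤᵐ⁰) {e : ℕ} (he : 1 ≤ e)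
    (a s t : Fin e ⊕ Fin e → L) :
    v (im a s t).det ≤ ∏ i, ((max (v (a i)) 1) ^ (e - 1) * max (v (s i)) (v (t i))) := by
  have _ := he
  exact v_det_le v _ _ fun i j => im_le v a s t i j

/-- division by `X - 1` -/
theorem div_one {L : Type*} [Field L] (U : L[X]) :
    C (U.eval 1) + (X - C 1) * (U /ₘ (X - C 1)) = U := by
  have h := modByMonic_add_div U (X - C (1 : L))
  rw [modByMonic_X_sub_C_eq_C_eval] at h
  exact h

theorem coeff_lt {L : Type*} [Field L] (v : Valuation L ℤᵐ⁰) (U : L[X]) {g : ℤᵐ⁰}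
    (h1 : v (U.eval 1) < g) (h2 : ∀ j, v ((U /ₘ (X - C 1)).coeff j) < g) (n : ℕ) :
    v (U.coeff n) < g := by
  have h := congrArg (fun P : L[X] => P.coeff n) (div_one U)
  have hsub : ∀ x y : L, v x < g → v y < g → v (x - y) < g := fun x y hx hy =>
    lt_of_le_of_lt (Valuation.map_sub _ _ _) (max_lt hx hy)
  have hadd : ∀ x y : L, v x < g → v y < g → v (x + y) < g := fun x y hx hy =>
    lt_of_le_of_lt (Valuation.map_add _ _ _) (max_lt hx hy)
  simp only [coeff_add, sub_mul, coeff_sub, coeff_C_mul, one_mul] at h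
  rw [← h]
  rcases n with _ | n
  · rw [coeff_C_zero, mul_coeff_zero, coeff_X_zero, zero_mul]
    refine hadd _ _ h1 (hsub _ _ ?_ (h2 0))
    rw [map_zero]
    exact lt_of_le_of_lt zero_le h1
  · rw [coeff_C_succ, coeff_X_mul, zero_add]
    exact hsub _ _ (h2 n) (h2 (n + 1))

theorem gz_big {L : Type*} [Field L] (v : Valuation L ℤᵐ⁰) {e : ℕ} {U V : L[X]}
    (h : Hole v U V e) (hUd : (U /ₘ (X - C 1)).natDegree < e)
    (hVd : (V /ₘ (X - C 1)).natDegree < e) :
    (∃ j : Fin e, gz v U V e ≤ v ((U /ₘ (X - C 1)).coeff j)) ∨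
      ∃ j : Fin e, gz v U V e ≤ v ((V /ₘ (X - C 1)).coeff j) := by
  have hg : 0 < gz v U V e := lt_of_le_of_lt zero_le h.1
  by_contra hc
  push Not at hc
  have hU1 : ∀ j, v ((U /ₘ (X - C 1)).coeff j) < gz v U V e := by
    intro j
    rcases lt_or_ge j e with hj | hj
    · exact hc.1 ⟨j, hj⟩
    · rw [coeff_eq_zero_of_natDegree_lt (by omega), map_zero]
      exact hg
  have hV1 : ∀ j, v ((V /ₘ (X - C 1)).coeff j) < gz v U V e := by
    intro j
    rcases lt_or_ge j e with hj | hj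
    · exact hc.2 ⟨j, hj⟩
    · rw [coeff_eq_zero_of_natDegree_lt (by omega), map_zero]
      exact hg
  obtain ⟨n, -, hn⟩ := Finset.exists_mem_eq_sup (Finset.range (e + 1)) ⟨0, by simp⟩
    (fun i => max (v (U.coeff i)) (v (V.coeff i)))
  have hn' : gz v U V e = max (v (U.coeff n)) (v (V.coeff n)) := hn
  have h2 : max (v (U.coeff n)) (v (V.coeff n)) < gz v U V e :=
    max_lt (coeff_lt v U h.1 hU1 n) (coeff_lt v V h.2 hV1 n)
  rw [← hn'] at h2
  exact lt_irrefl _ h2

theorem divX_natDegree {L : Type*} [Field L] {e : ℕ} (he : 1 ≤ e) (U : L[X])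
    (hU : U.natDegree ≤ e) : (U /ₘ (X - C 1)).natDegree < e := by
  rw [natDegree_divByMonic _ (monic_X_sub_C 1), natDegree_X_sub_C]
  omega

theorem im_mulVec_eq {L : Type*} [Field L] {e : ℕ} {U V : L[X]}
    (a s t l c : Fin e ⊕ Fin e → L)
    (hs : ∀ i, U.eval (a i) = l i * s i) (ht : ∀ i, V.eval (a i) = l i * t i)
    (hUd : (U /ₘ (X - C 1)).natDegree < e) (hVd : (V /ₘ (X - C 1)).natDegree < e)
    (hcl : ∀ j : Fin e, c (Sum.inl j) = (U /ₘ (X - C 1)).coeff j)
    (hcr : ∀ j : Fin e, c (Sum.inr j) = (V /ₘ (X - C 1)).coeff j) (i : Fin e ⊕ Fin e) :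
    (a i - 1) * (im a s t).mulVec c i = V.eval 1 * s i - U.eval 1 * t i := by
  have hb : (im a s t).mulVec c i =
      (U /ₘ (X - C 1)).eval (a i) * t i - (V /ₘ (X - C 1)).eval (a i) * s i := by
    rw [im_mulVec, eval_eq_sum_range' hUd, eval_eq_sum_range' hVd, Finset.sum_range,
      Finset.sum_range]
    simp only [hcl, hcr]
  rw [hb]
  have h1 := congrArg (fun P : L[X] => P.eval (a i)) (div_one U)
  have h2 := congrArg (fun P : L[X] => P.eval (a i)) (div_one V)
  simp only [eval_add, eval_C, eval_mul, eval_sub, eval_X] at h1 h2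
  rw [hs] at h1
  rw [ht] at h2
  linear_combination t i * h1 - s i * h2

theorem val_step {L : Type*} [Field L] (v : Valuation L ℤᵐ⁰) {x b r y s t : L} {g P : ℤᵐ⁰}
    (hM : 0 < max (v s) (v t)) (h1 : v r < g) (h2 : v y < g) (hx : 1 ≤ v x)
    (hb : x * b = r * s - y * t) (hP : 1 ≤ P) : v b < g * (P * max (v s) (v t)) := by
  have h3 : v x * v b < g * max (v s) (v t) := by
    rw [← map_mul, hb]
    refine lt_of_le_of_lt (Valuation.map_sub _ _ _) (max_lt ?_ ?_)
    · rw [map_mul]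
      exact lt_of_le_of_lt (mul_le_mul_right (le_max_left _ _) _)
        (mul_lt_mul_of_pos_right h1 hM)
    · rw [map_mul]
      exact lt_of_le_of_lt (mul_le_mul_right (le_max_right _ _) _)
        (mul_lt_mul_of_pos_right h2 hM)
  calc v b = 1 * v b := (one_mul _).symm
    _ ≤ v x * v b := mul_le_mul_left hx _
    _ < g * max (v s) (v t) := h3
    _ = g * (1 * max (v s) (v t)) := by rw [one_mul]
    _ ≤ g * (P * max (v s) (v t)) := mul_le_mul_right (mul_le_mul_left hP _) _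

theorem exists_sum_elim {L : Type*} {e : ℕ} (f g : Fin e → L) :
    ∃ c : Fin e ⊕ Fin e → L, (∀ j, c (Sum.inl j) = f j) ∧ ∀ j, c (Sum.inr j) = g j :=
  ⟨Sum.elim f g, fun _ => rfl, fun _ => rfl⟩

theorem idet_small {L : Type*} [Field L] (v : Valuation L ℤᵐ⁰) {e : ℕ} (he : 1 ≤ e) {U V : L[X]}
    (hdeg : max U.natDegree V.natDegree = e)
    (a s t l : Fin e ⊕ Fin e → L) (hst : ∀ i, s i ≠ 0 ∨ t i ≠ 0)
    (hs : ∀ i, U.eval (a i) = l i * s i) (ht : ∀ i, V.eval (a i) = l i * t i)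
    (hai : ∀ i, max (v (a i)) 1 ≤ v (a i - 1)) (h : Hole v U V e) :
    v (im a s t).det < ∏ i, ((max (v (a i)) 1) ^ (e - 1) * max (v (s i)) (v (t i))) := by
  have hg : 0 < gz v U V e := lt_of_le_of_lt zero_le h.1
  have hM : ∀ i, 0 < max (v (s i)) (v (t i)) := by
    intro i
    rcases hst i with h1 | h1
    · exact lt_max_of_lt_left (zero_lt_iff.2 ((Valuation.ne_zero_iff _).2 h1))
    · exact lt_max_of_lt_right (zero_lt_iff.2 ((Valuation.ne_zero_iff _).2 h1))
  have h1a : ∀ i, (1 : ℤᵐ⁰) ≤ (max (v (a i)) 1) ^ (e - 1) := fun i =>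
    one_le_pow_of_one_le' (le_max_right _ _) _
  have hA : ∀ i, 0 < (max (v (a i)) 1) ^ (e - 1) * max (v (s i)) (v (t i)) := fun i =>
    zero_lt_iff.2 (mul_ne_zero (lt_of_lt_of_le zero_lt_one (h1a i)).ne' (hM i).ne')
  have hUd := divX_natDegree he U (by rw [← hdeg]; exact le_max_left _ _)
  have hVd := divX_natDegree he V (by rw [← hdeg]; exact le_max_right _ _)
  -- the vector
  obtain ⟨c, hcl, hcr⟩ := exists_sum_elim (fun j : Fin e => (U /ₘ (X - C 1)).coeff (j : ℕ))
    (fun j : Fin e => (V /ₘ (X - C 1)).coeff (j : ℕ))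
  have hb3 : ∀ i, v ((im a s t).mulVec c i) <
      gz v U V e * ((max (v (a i)) 1) ^ (e - 1) * max (v (s i)) (v (t i))) := fun i =>
    val_step v (hM i) h.2 h.1 ((le_max_right _ _).trans (hai i))
      (im_mulVec_eq a s t l c hs ht hUd hVd hcl hcr i) (h1a i)
  -- a large coefficient
  obtain ⟨k, hk⟩ : ∃ k, gz v U V e ≤ v (c k) := by
    rcases gz_big v h hUd hVd with ⟨j, hj⟩ | ⟨j, hj⟩
    · exact ⟨Sum.inl j, by rw [hcl]; exact hj⟩
    · exact ⟨Sum.inr j, by rw [hcr]; exact hj⟩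
  have hdet : ((im a s t).updateCol k ((im a s t).mulVec c)).det = c k * (im a s t).det := by
    have h2 := Matrix.det_updateCol_sum (im a s t) k c
    rw [smul_eq_mul] at h2
    rw [← h2]
    congr 2
    funext i
    rw [Matrix.mulVec, dotProduct]
    refine Finset.sum_congr rfl fun j _ => ?_
    rw [smul_eq_mul, mul_comm]
  have h3 := v_det_lt v ((im a s t).updateCol k ((im a s t).mulVec c))
    (fun i => (max (v (a i)) 1) ^ (e - 1) * max (v (s i)) (v (t i))) (gz v U V e) k hA hg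
    (fun i j hj => by rw [Matrix.updateCol_ne hj]; exact im_le v a s t i j)
    (fun i => by rw [Matrix.updateCol_self]; exact hb3 i)
  rw [hdet, map_mul] at h3
  have h4 : gz v U V e * v (im a s t).det <
      gz v U V e * ∏ i, ((max (v (a i)) 1) ^ (e - 1) * max (v (s i)) (v (t i))) :=
    lt_of_le_of_lt (mul_le_mul_left hk _) h3
  by_contra hc
  exact absurd h4 (not_lt.2 (mul_le_mul_right (not_lt.1 hc) _))

end Pool.Agent.Lib.P62h
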