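import Pool.Agent.Lib.P62h.WrA

/-!
# Module P62h.MinR: minimal linear relations

(imports `wr_relation` as a black box.)
Among all nonzero `c : ι → F` with `Σ c t x t = 0` choose one with a support of least cardinality
(`Nat.find` or `WellFounded.min`); the support `T` has at least two elements (one element would give
`x t = 0`), `|T| = s + 1`, `s ≥ 1`. Let `e : Fin (s+1) ↪ ι` enumerate `T` (`Finset.equivFin` or
`Finset.orderEmbOfFin` is not available without an order: use `T.equivFin.symm`), `c' = c ∘ e`. If the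
Wronskian of the `x (e (succAbove 0 j))` were `0`, `wr_relation` would give a nonzero relation
between these `s` elements: a nonzero `c''` with smaller support.
-/

namespace Pool.Agent.Lib.P62h

open WithZero

theorem exists_minrel {F L : Type*} [Field F] [Field L] [Algebra F L] (θ : Derivation F L L)
    (hker : ∀ x, θ x = 0 → ∃ c : F, x = algebraMap F L c) {ι : Type*} [Fintype ι] (x : ι → L)
    (hx : ∀ t, x t ≠ 0) (c : ι → F) (hc : c ≠ 0) (h : ∑ t, algebraMap F L (c t) * x t = 0) :
    ∃ (s : ℕ) (e : Fin (s + 1) ↪ ι) (c' : Fin (s + 1) → F), 1 ≤ s ∧ (∀ t, c' t ≠ 0) ∧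
      ∑ t, algebraMap F L (c' t) * x (e t) = 0 ∧
      wr θ (fun j => x (e ((0 : Fin (s + 1)).succAbove j))) ≠ 0 := by
  classical
  have hex : ∃ n : ℕ, ∃ (e : Fin n ↪ ι) (c' : Fin n → F), c' ≠ 0 ∧
      ∑ t, algebraMap F L (c' t) * x (e t) = 0 := by
    refine ⟨Fintype.card ι, (Fintype.equivFin ι).symm.toEmbedding,
      fun t => c ((Fintype.equivFin ι).symm t), ?_, ?_⟩
    · intro h0
      apply hc
      funext t
      have h1 := congrFun h0 (Fintype.equivFin ι t)
      simpa using h1
    · have h1 := Equiv.sum_comp (Fintype.equivFin ι).symm (fun t => algebraMap F L (c t) * x t)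
      rw [h] at h1
      exact h1
  obtain ⟨e, c', hc', hsum⟩ := Nat.find_spec hex
  have hmin : ∀ n < Nat.find hex, ¬ ∃ (e : Fin n ↪ ι) (c' : Fin n → F), c' ≠ 0 ∧
      ∑ t, algebraMap F L (c' t) * x (e t) = 0 := fun n hn => Nat.find_min hex hn
  generalize Nat.find hex = N at e c' hc' hsum hmin
  rcases N with _ | s
  · exact absurd (Subsingleton.elim c' 0) hc'
  have hall : ∀ t, c' t ≠ 0 := by
    intro t0 ht0
    refine hmin s (Nat.lt_succ_self s) ⟨(t0.succAboveEmb).trans e,
      fun j => c' (t0.succAbove j), ?_, ?_⟩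
    · intro h0
      apply hc'
      funext t
      rcases Fin.eq_self_or_eq_succAbove t0 t with h1 | ⟨j, h1⟩
      · rw [h1, ht0]
        rfl
      · rw [h1]
        exact congrFun h0 j
    · rw [Fin.sum_univ_succAbove _ t0, ht0, map_zero, zero_mul, zero_add] at hsum
      exact hsum
  have hs : 1 ≤ s := by
    by_contra hs
    have hs0 : s = 0 := by omega
    subst hs0
    rw [Fin.sum_univ_one] at hsum
    rcases mul_eq_zero.mp hsum with h1 | h1
    · exact hall 0 (by simpa using h1)
    · exact hx _ h1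
  refine ⟨s, e, c', hs, hall, hsum, fun hw => ?_⟩
  obtain ⟨c'', h1, h2⟩ := wr_relation θ hker _ hw
  exact hmin s (Nat.lt_succ_self s)
    ⟨((0 : Fin (s + 1)).succAboveEmb).trans e, c'', h1, h2⟩

end Pool.Agent.Lib.P62h
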