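import Pool.Agent.Lib.P62h.Core2
import Pool.Agent.Lib.P62g.SubFin
import Pool.Agent.Lib.P62a0c3.Preper

/-!
# Finite invariant sets of `x ↦ U(x^m) / V(x^m)` over function fields
-/

namespace Pool.Agent.Lib.P62h

open Polynomial IntermediateField Pool.Agent.Lib.P62a0c3 Pool.Agent.Lib.P62g

universe u w

theorem comp_comp_scale {K : Type*} [Field K] (U : K[X]) (x y : K) :
    (U.comp (C x * X)).comp (C y * X) = U.comp (C (x * y) * X) := by
  rw [comp_assoc]
  congr 1
  rw [mul_comp, C_comp, X_comp, C_mul, mul_assoc]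

theorem invariant2 {F : Type w} {K : Type u} [Field F] [IsAlgClosed F] [CharZero F]
    [Field K] [Algebra F K] (u : K) (hu : Transcendental F u) {n e m : ℕ} (he : 1 ≤ e)
    (hpos : 0 < Module.finrank F⟮u⟯ K) (hn : Module.finrank F⟮u⟯ K ≤ n)
    (hm : 2 * (217 * e ^ 2) ^ 5 * (2 * n ^ 4 + 4) < m) {U V : K[X]} (hcop : IsCoprime U V)
    (hdeg : max U.natDegree V.natDegree = e) (P : Finset (OnePoint K))
    (hP : ∀ p ∈ P, gm U V e m p ∈ P) (hcard : 2 * c0 e m + 2 ≤ P.card) :
    ∃ (s l : K) (U0 V0 : F[X]), s ≠ 0 ∧ l ≠ 0 ∧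
      U.comp (C (s ^ m) * X) = C l * U0.map (algebraMap F K) ∧
      C s * V.comp (C (s ^ m) * X) = C l * V0.map (algebraMap F K) := by
  classical
  have hm0 : 1 ≤ m := by omega
  have hc0 : m * (2 * e + 1) + 1 ≤ 2 * c0 e m := by
    rw [c0]
    have e1 : 1 ≤ e ^ 4 := Nat.one_le_pow _ _ he
    have e2 : 1 ≤ (217 * e ^ 2) ^ 3 := Nat.one_le_pow _ _ (by positivity)
    have e3 : e ≤ e ^ 4 := Nat.le_self_pow (by norm_num) e
    have e4 : 288 * e ^ 4 * (4 * 1 * m) + 1 ≤ 288 * e ^ 4 * (4 * (217 * e ^ 2) ^ 3 * m + 1) := by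
      have : 4 * 1 * m ≤ 4 * (217 * e ^ 2) ^ 3 * m :=
        Nat.mul_le_mul_right _ (Nat.mul_le_mul_left _ e2)
      nlinarith
    have e5 : m * (2 * e + 1) ≤ 2 * (288 * e ^ 4 * (4 * 1 * m)) := by nlinarith
    omega
  -- a finite nonzero point
  obtain ⟨x, hx0, hxP⟩ : ∃ x : K, x ≠ 0 ∧ (x : OnePoint K) ∈ P := by
    by_contra hcon
    push Not at hcon
    have h1 : P ⊆ {OnePoint.infty, ((0 : K) : OnePoint K)} := by
      intro p hp
      induction p using OnePoint.rec with
      | infty => simp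
      | coe z =>
        by_cases hz : z = 0
        · rw [hz]; simp
        · exact absurd hp (hcon z hz)
    have h2 := (Finset.card_le_card h1).trans Finset.card_le_two
    have h3 : 1 ≤ m * (2 * e + 1) := Nat.mul_pos hm0 (by omega)
    omega
  set U' := U.comp (C (x ^ m) * X) with hU'
  set V' := C x * V.comp (C (x ^ m) * X) with hV'
  have hcop' : IsCoprime U' V' := sc_coprime hx0 m hcop
  have hdeg' : max U'.natDegree V'.natDegree = e := sc_degree hx0 m hdeg
  set P' := P.image (sc x) with hP'def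
  have hP'card : P'.card = P.card := Finset.card_image_of_injective _ (sc_injective hx0)
  have hP' : ∀ p ∈ P', gm U' V' e m p ∈ P' := by
    intro p hp
    obtain ⟨q, hq, rfl⟩ := Finset.mem_image.1 hp
    rw [hU', hV', ← sc_gm hx0 m (by omega) (by omega)]
    exact Finset.mem_image_of_mem _ (hP q hq)
  have h1P' : ((1 : K) : OnePoint K) ∈ P' := by
    refine Finset.mem_image.2 ⟨_, hxP, ?_⟩
    rw [sc_some, div_self hx0]
  set S : Set K := insert u {z : K | z ≠ 0 ∧ (z : OnePoint K) ∈ P'} with hS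
  set L1 : IntermediateField F K := IntermediateField.adjoin F S with hL1
  have hSL : ∀ z ∈ S, z ∈ L1 := fun z hz => IntermediateField.subset_adjoin F S hz
  have hconst : ∀ z : K, (z : OnePoint K) ∈ P' → ∃ c : L1, z = algebraMap L1 K c := by
    intro z hz
    by_cases hz0 : z = 0
    · exact ⟨0, by rw [hz0, map_zero]⟩
    · exact ⟨⟨z, hSL z (Set.mem_insert_of_mem _ ⟨hz0, hz⟩)⟩, rfl⟩
  obtain ⟨l1, U1, V1, hl1, g1, g2⟩ :=
    gconst (F := L1) he hm0 hcop' hdeg' P' hP' hconst (by omega)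
  set ι : L1 →+* K := algebraMap L1 K with hι
  have hιinj : Function.Injective (OnePoint.map ι) := map_injective ι
  set P1 : Finset (OnePoint L1) := P'.preimage (OnePoint.map ι) hιinj.injOn with hP1
  have hmemP1 : ∀ p, p ∈ P1 ↔ OnePoint.map ι p ∈ P' := by
    intro p; rw [hP1, Finset.mem_preimage]
  have hinv1 : ∀ p ∈ P1, gm U1 V1 e m p ∈ P1 := by
    intro p hp
    rw [hmemP1] at hp ⊢
    rw [map_gm, ← gm_scale hl1, ← g1, ← g2]
    exact hP' _ hp
  have hcard1 : 2 * c0 e m + 2 ≤ P1.card := by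
    have h1 : P1.image (OnePoint.map ι) = P' := by
      ext p
      rw [Finset.mem_image]
      constructor
      · rintro ⟨q, hq, rfl⟩
        exact (hmemP1 q).1 hq
      · intro hp
        induction p using OnePoint.rec with
        | infty => exact ⟨OnePoint.infty, (hmemP1 _).2 hp, rfl⟩
        | coe z =>
          obtain ⟨c, hc⟩ := hconst z hp
          refine ⟨(c : OnePoint L1), (hmemP1 _).2 ?_, ?_⟩
          · rw [OnePoint.map_some, ← hc]; exact hp
          · rw [OnePoint.map_some, ← hc]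
    rw [← Finset.card_image_of_injective _ hιinj, h1, hP'card]
    exact hcard
  have hCl1 : IsUnit (C l1 : K[X]) := isUnit_C.2 hl1.isUnit
  have hcop1 : IsCoprime U1 V1 := by
    have h2 : IsCoprime (U1.map ι) (V1.map ι) := by
      rw [g1, g2] at hcop'
      exact (isCoprime_mul_unit_left hCl1 _ _).1 hcop'
    exact (Polynomial.isCoprime_map ι).1 h2
  have hdeg1 : max U1.natDegree V1.natDegree = e := by
    rw [← hdeg', g1, g2, natDegree_C_mul hl1, natDegree_C_mul hl1, natDegree_map, natDegree_map]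
  set u1 : L1 := ⟨u, hSL u (Set.mem_insert _ _)⟩ with hu1
  have hu1t : Transcendental F u1 := by
    intro h
    exact hu (h.algebraMap (A := K))
  obtain ⟨hpos1, hn1⟩ := finrank_sub L1 u1 hpos
  have h11 : ((1 : L1) : OnePoint L1) ∈ P1 := by
    rw [hmemP1, OnePoint.map_some, map_one]
    exact h1P'
  have hgen1 : IntermediateField.adjoin F
      (insert u1 {z : L1 | z ≠ 0 ∧ (z : OnePoint L1) ∈ P1}) = ⊤ := by
    have h1 := adjoin_lift (F := F) S
    have h2 : {x : L1 | (x : K) ∈ S} = insert u1 {z : L1 | z ≠ 0 ∧ (z : OnePoint L1) ∈ P1} := by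
      ext z
      rw [Set.mem_setOf_eq, hS, Set.mem_insert_iff, Set.mem_insert_iff, Set.mem_setOf_eq,
        Set.mem_setOf_eq, hmemP1, OnePoint.map_some]
      constructor
      · rintro (h | ⟨h, h'⟩)
        · exact Or.inl (Subtype.ext h)
        · exact Or.inr ⟨fun h0 => h (by rw [h0]; rfl), h'⟩
      · rintro (h | ⟨h, h'⟩)
        · exact Or.inl (by rw [h])
        · exact Or.inr ⟨fun h0 => h (Subtype.ext h0), h'⟩
    rw [← h2]
    exact h1
  obtain ⟨s, l, U0, V0, hs, hl, f1, f2⟩ :=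
    core2 (F := F) u1 hu1t he hpos1 (hn1.trans hn) hm hcop1 hdeg1 P1 hinv1 h11 hcard1 hgen1
  have hFι : ι.comp (algebraMap F L1) = algebraMap F K := rfl
  have k1 : (U1.map ι).comp (C (ι s ^ m) * X) = C (ι l) * U0.map (algebraMap F K) := by
    have h := congrArg (Polynomial.map ι) f1
    rw [Polynomial.map_comp, Polynomial.map_mul, Polynomial.map_mul, map_C, map_X, map_C, map_pow,
      Polynomial.map_map, hFι] at h
    exact h
  have k2 : C (ι s) * (V1.map ι).comp (C (ι s ^ m) * X) = C (ι l) * V0.map (algebraMap F K) := by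
    have h := congrArg (Polynomial.map ι) f2
    rw [Polynomial.map_mul, Polynomial.map_comp, Polynomial.map_mul, Polynomial.map_mul, map_C,
      map_C, map_X, map_C, map_pow, Polynomial.map_map, hFι] at h
    exact h
  refine ⟨x * ι s, l1 * ι l, U0, V0, ?_, ?_, ?_, ?_⟩
  · exact mul_ne_zero hx0 (by rw [Ne, map_eq_zero]; exact hs)
  · exact mul_ne_zero hl1 (by rw [Ne, map_eq_zero]; exact hl)
  · rw [mul_pow, ← comp_comp_scale, ← hU', g1, mul_comp, C_comp, k1, C_mul, mul_assoc]
  · have h : C (x * ι s) * V.comp (C ((x * ι s) ^ m) * X) =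
        C (ι s) * V'.comp (C (ι s ^ m) * X) := by
      rw [hV', mul_comp, C_comp, mul_pow, ← comp_comp_scale, C_mul]
      ring
    rw [h, g2, mul_comp, C_comp, C_mul, mul_assoc, ← k2]
    ring

end Pool.Agent.Lib.P62h
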