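import Pool.Agent.Lib.P62a0c3.Scale

/-!
# Rational maps of the projective line: definitions
-/

namespace Pool.Agent.Lib.P62h

open Polynomial Pool.Agent.Lib.P62a0c3

/-- `x ↦ P(x) / Q(x)` on `ℙ¹(L)`, `P` and `Q` of degree at most `d`. -/
noncomputable def rm {L : Type*} [Field L] (P Q : L[X]) (d : ℕ) : OnePoint L → OnePoint L
  | OnePoint.infty => toP1 (P.coeff d) (Q.coeff d)
  | OnePoint.some z => toP1 (P.eval z) (Q.eval z)

/-- The homogeneous form of degree `d` of `P`, evaluated at two polynomials. -/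
noncomputable def hom {L : Type*} [Field L] (d : ℕ) (P A B : L[X]) : L[X] :=
  ∑ i ∈ Finset.range (d + 1), C (P.coeff i) * A ^ i * B ^ (d - i)

theorem rm_infty {L : Type*} [Field L] (P Q : L[X]) (d : ℕ) :
    rm P Q d OnePoint.infty = toP1 (P.coeff d) (Q.coeff d) := rfl

theorem rm_some {L : Type*} [Field L] (P Q : L[X]) (d : ℕ) (z : L) :
    rm P Q d (z : OnePoint L) = toP1 (P.eval z) (Q.eval z) := rfl

end Pool.Agent.Lib.P62h
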