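import Pool.Agent.Lib.P62g.Geo

/-!
# Wronskians of `n` elements: definitions
-/

namespace Pool.Agent.Lib.P62h

open WithZero

/-- The Wronskian matrix: row `i` holds the `i`-th derivatives. -/
def wm {F L : Type*} [Field F] [Field L] [Algebra F L] (θ : Derivation F L L) {n : ℕ}
    (f : Fin n → L) : Matrix (Fin n) (Fin n) L := fun i j => (fun x => θ x)^[(i : ℕ)] (f j)

/-- The Wronskian. -/
def wr {F L : Type*} [Field F] [Field L] [Algebra F L] (θ : Derivation F L L) {n : ℕ}
    (f : Fin n → L) : L := (wm θ f).det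

/-- The bordered Wronskian matrix: a first row of ones, then the derivatives of order
`0, …, n - 1`. -/
def bm {F L : Type*} [Field F] [Field L] [Algebra F L] (θ : Derivation F L L) {n : ℕ}
    (x : Fin (n + 1) → L) : Matrix (Fin (n + 1)) (Fin (n + 1)) L :=
  fun i j => Fin.cases (1 : L) (fun i' : Fin n => (fun x => θ x)^[(i' : ℕ)] (x j)) i

/-- The bordered Wronskian. -/
def bw {F L : Type*} [Field F] [Field L] [Algebra F L] (θ : Derivation F L L) {n : ℕ}
    (x : Fin (n + 1) → L) : L := (bm θ x).det

/-- Nonzero elements which are integral at infinity together with their inverse. -/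
def IsUn {F L : Type*} [Field F] [Field L] [Algebra F L] (G : P62g.Geo F L) (x : L) : Prop :=
  x ≠ 0 ∧ x ∈ G.Inf ∧ x⁻¹ ∈ G.Inf

end Pool.Agent.Lib.P62h
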