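import Pool.Agent.Lib.P62h.Wm

/-!
# Module P62h.WrA: products and linear dependence

`wr_mul`. `θ^i(t x) = Σ_{k ≤ i} (i choose k) θ^(i-k)(t) θ^k(x)` (Leibniz, induction on `i`), so
`wm θ (t f) = B * wm θ f` with the lower triangular matrix `B i k = (i choose k) θ^(i-k)(t)` for
`k ≤ i` and `0` otherwise, whose diagonal entries are `t`: `det B = t ^ n`
(`Matrix.det_of_lowerTriangular`).

`wr_relation`. Induction on `n` (`n = 0`: the determinant is `1`). Let `n = r + 1`,
`wr θ f = 0`. If `wr θ (f ∘ Fin.castSucc) = 0` use the induction hypothesis (extend by the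
coefficient `0`). Otherwise there is a nonzero vector `a` with `Σ_j a_j θ^i(f_j) = 0` for
`i = 0, …, r` (`Matrix.exists_mulVec_eq_zero_iff`); `a_r ≠ 0` (otherwise the first `r` rows give a
kernel vector of `wm θ (f ∘ castSucc)`), so assume `a_r = 1`. Apply `θ` to the `i`-th equation,
`i < r`, and subtract the `(i+1)`-st: `Σ_{j < r} θ(a_j) θ^i(f_j) = 0` for `i = 0, …, r - 1`
(`θ(a_r) = θ(1) = 0`). As `wr θ (f ∘ castSucc) ≠ 0`, all `θ(a_j) = 0`, so `a_j ∈ F` by `hker`; the
equation `i = 0` is the relation.
-/

namespace Pool.Agent.Lib.P62h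

open WithZero

namespace WrAAux

/-- the coefficients of the Leibniz formula -/
def bc {F L : Type*} [Field F] [Field L] [Algebra F L] (θ : Derivation F L L) (t : L) :
    ℕ → ℕ → L
  | 0, 0 => t
  | 0, _ + 1 => 0
  | i + 1, 0 => θ (bc θ t i 0)
  | i + 1, k + 1 => θ (bc θ t i (k + 1)) + bc θ t i k

variable {F L : Type*} [Field F] [Field L] [Algebra F L] (θ : Derivation F L L) (t : L)

theorem bc_zero : ∀ i k : ℕ, i < k → bc θ t i k = 0 := by
  intro i
  induction i with
  | zero =>
    intro k hk
    obtain ⟨m, rfl⟩ : ∃ m, k = m + 1 := ⟨k - 1, by omega⟩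
    rfl
  | succ i ih =>
    intro k hk
    obtain ⟨m, rfl⟩ : ∃ m, k = m + 1 := ⟨k - 1, by omega⟩
    rw [bc, ih (m + 1) (by omega), ih m (by omega), map_zero, add_zero]

theorem bc_diag : ∀ i : ℕ, bc θ t i i = t := by
  intro i
  induction i with
  | zero => rfl
  | succ i ih => rw [bc, bc_zero θ t i (i + 1) (by omega), ih, map_zero, zero_add]

theorem leibniz_bc (x : L) : ∀ i N : ℕ, i < N →
    (fun y => θ y)^[i] (t * x) = ∑ k ∈ Finset.range N, bc θ t i k * (fun y => θ y)^[k] x := by
  intro i
  induction i with
  | zero =>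
    intro N hN
    rw [Finset.sum_eq_single_of_mem 0 (Finset.mem_range.2 hN)]
    · rfl
    · intro k _ hk
      rw [bc_zero θ t 0 k (by omega), zero_mul]
  | succ i ih =>
    intro N hN
    obtain ⟨M, rfl⟩ : ∃ M, N = M + 1 := ⟨N - 1, by omega⟩
    rw [Function.iterate_succ_apply', ih (M + 1) (by omega), map_sum]
    have h1 : ∀ k ∈ Finset.range (M + 1), θ (bc θ t i k * (fun y => θ y)^[k] x) =
        θ (bc θ t i k) * (fun y => θ y)^[k] x + bc θ t i k * (fun y => θ y)^[k + 1] x := by
      intro k _
      rw [Derivation.leibniz, Function.iterate_succ_apply', smul_eq_mul, smul_eq_mul]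
      ring
    rw [Finset.sum_congr rfl h1, Finset.sum_add_distrib, Finset.sum_range_succ' _ M,
      Finset.sum_range_succ (fun k => bc θ t i k * (fun y => θ y)^[k + 1] x) M,
      bc_zero θ t i M (by omega), zero_mul, add_zero, Finset.sum_range_succ' _ M]
    have h2 : ∀ k ∈ Finset.range M, bc θ t (i + 1) (k + 1) * (fun y => θ y)^[k + 1] x =
        θ (bc θ t i (k + 1)) * (fun y => θ y)^[k + 1] x +
          bc θ t i k * (fun y => θ y)^[k + 1] x := by
      intro k _
      rw [bc]
      ring
    rw [Finset.sum_congr rfl h2, Finset.sum_add_distrib, bc]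
    ring

end WrAAux

open WrAAux

theorem wr_mul {F L : Type*} [Field F] [Field L] [Algebra F L] (θ : Derivation F L L) {n : ℕ}
    (t : L) (f : Fin n → L) : wr θ (fun j => t * f j) = t ^ n * wr θ f := by
  have h1 : wm θ (fun j => t * f j) =
      (Matrix.of fun i k : Fin n => bc θ t (i : ℕ) (k : ℕ)) * wm θ f := by
    ext i j
    rw [Matrix.mul_apply]
    simp only [wm, Matrix.of_apply]
    rw [leibniz_bc θ t (f j) i n i.2]
    exact (Fin.sum_univ_eq_sum_range (fun k => bc θ t (i : ℕ) k * (fun y => θ y)^[k] (f j)) n).symm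
  have h2 : (Matrix.of fun i k : Fin n => bc θ t (i : ℕ) (k : ℕ)).det = t ^ n := by
    rw [Matrix.det_of_lowerTriangular]
    · simp only [Matrix.of_apply, bc_diag, Finset.prod_const, Finset.card_univ, Fintype.card_fin]
    · intro i j hij
      have h3 : i < j := hij
      exact bc_zero θ t i j h3
  unfold wr
  rw [h1, Matrix.det_mul, h2]

theorem wr_relation {F L : Type*} [Field F] [Field L] [Algebra F L] (θ : Derivation F L L)
    (hker : ∀ x, θ x = 0 → ∃ c : F, x = algebraMap F L c) {n : ℕ} (f : Fin n → L)
    (h : wr θ f = 0) : ∃ c : Fin n → F, c ≠ 0 ∧ ∑ j, algebraMap F L (c j) * f j = 0 := by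
  induction n with
  | zero =>
    exfalso
    rw [wr, Matrix.det_fin_zero] at h
    exact one_ne_zero h
  | succ r ih =>
    by_cases h0 : wr θ (fun j : Fin r => f j.castSucc) = 0
    · obtain ⟨c, hc, hs⟩ := ih _ h0
      refine ⟨Fin.snoc c 0, ?_, ?_⟩
      · intro hz
        apply hc
        funext j
        have h1 := congrFun hz j.castSucc
        rwa [Fin.snoc_castSucc] at h1
      · rw [Fin.sum_univ_castSucc]
        simp only [Fin.snoc_castSucc, Fin.snoc_last, map_zero, zero_mul, add_zero]
        exact hs
    · obtain ⟨a, ha, haz⟩ := Matrix.exists_mulVec_eq_zero_iff.2 h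
      have hrow : ∀ i : Fin (r + 1), ∑ j, (fun x => θ x)^[(i : ℕ)] (f j) * a j = 0 := by
        intro i
        exact congrFun haz i
      have hnz : ∀ b : Fin r → L,
          (∀ i : Fin r, ∑ j : Fin r, (fun x => θ x)^[(i : ℕ)] (f j.castSucc) * b j = 0) → b = 0 := by
        intro b hb
        by_contra hb0
        apply h0
        refine Matrix.exists_mulVec_eq_zero_iff.1 ⟨b, hb0, ?_⟩
        funext i
        exact hb i
      have hlast : a (Fin.last r) ≠ 0 := by
        intro hl
        have h1 : (fun j : Fin r => a j.castSucc) = 0 := by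
          apply hnz
          intro i
          have h2 := hrow i.castSucc
          rw [Fin.sum_univ_castSucc, hl, mul_zero, add_zero] at h2
          exact h2
        apply ha
        funext j
        refine Fin.lastCases hl (fun i => ?_) j
        exact congrFun h1 i
      have hrow' : ∀ i : Fin (r + 1),
          ∑ j, (fun x => θ x)^[(i : ℕ)] (f j) * (a j / a (Fin.last r)) = 0 := by
        intro i
        have h1 := hrow i
        have h2 : ∑ j, (fun x => θ x)^[(i : ℕ)] (f j) * (a j / a (Fin.last r)) =
            (∑ j, (fun x => θ x)^[(i : ℕ)] (f j) * a j) / a (Fin.last r) := by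
          rw [Finset.sum_div]
          refine Finset.sum_congr rfl fun j _ => ?_
          rw [mul_div_assoc]
        rw [h2, h1, zero_div]
      have hder : (fun j : Fin r => θ (a j.castSucc / a (Fin.last r))) = 0 := by
        apply hnz
        intro i
        have h1 := congrArg (fun x => θ x) (hrow' i.castSucc)
        simp only [map_sum, map_zero, Derivation.leibniz, smul_eq_mul] at h1
        rw [Finset.sum_add_distrib] at h1
        have h2 := hrow' i.succ
        have h3 : ∑ j, (a j / a (Fin.last r)) * θ ((fun x => θ x)^[((i.castSucc : Fin (r + 1)) : ℕ)] (f j)) = 0 := by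
          rw [← h2]
          refine Finset.sum_congr rfl fun j _ => ?_
          have h4 : ((i.succ : Fin (r + 1)) : ℕ) = ((i.castSucc : Fin (r + 1)) : ℕ) + 1 := by simp
          rw [h4, Function.iterate_succ_apply', mul_comm]
        rw [h3, add_zero, Fin.sum_univ_castSucc, div_self hlast, Derivation.map_one_eq_zero, mul_zero,
          add_zero] at h1
        exact h1
      have hc : ∀ j : Fin (r + 1), ∃ c : F, a j / a (Fin.last r) = algebraMap F L c := by
        intro j
        refine Fin.lastCases ?_ (fun i => ?_) j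
        · exact ⟨1, by rw [div_self hlast, map_one]⟩
        · exact hker _ (congrFun hder i)
      choose c hc using hc
      refine ⟨c, ?_, ?_⟩
      · intro hz
        have h1 := hc (Fin.last r)
        rw [hz, div_self hlast, Pi.zero_apply, map_zero] at h1
        exact one_ne_zero h1
      · have h1 := hrow' 0
        rw [← h1]
        refine Finset.sum_congr rfl fun j _ => ?_
        rw [hc j, mul_comm]
        rfl

end Pool.Agent.Lib.P62h
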