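import Pool.Agent.Lib.P62h.Wm

/-!
# Module P62h.WrB: sizes of Wronskians

`v_wr_le`. `v (θ^i x) ≤ exp i * v x` (induction). By the Leibniz formula (`Matrix.det_apply`) each
term of the determinant is `± Π_j θ^(σ j) (f j)` with a permutation `σ`, of value at most
`Π_j exp(σ j) v(f j) = exp (0 + 1 + … + (n-1)) Π_j v (f j)`, and `0 + … + (n-1) = n (n-1) / 2`
(`Finset.sum_range_id`); `Valuation.map_sum_le`.

`v_wr_int`. All entries have `v ≤ 1` (iterate `hint`), so has the determinant.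

`wr_inf`. For `x ∈ Inf` and every `i` there is `b ∈ Inf` with `θ^i x = U ^ i * b`: induction,
`θ(U^i b) = i U^(i-1) θ(U) b + U^i θ(b) = U^(i+1) (i y b + b')` with `θ U = U U y` (`G.Inf_U`) and
`θ b = U b'` (`G.Inf_θ`). So row `i` of the matrix is `U ^ i` times a row with entries in `Inf`
(`Matrix.det_mul_column`/`det_mul_row`), the determinant is `U ^ (0 + … + (n-1))` times a
determinant with entries in the subring `Inf` (lies in `Inf`: e.g. `Matrix.det_apply` and
`Subring.sum_mem`, `prod_mem`).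
-/

namespace Pool.Agent.Lib.P62h

open WithZero Pool.Agent.Lib.P62g

namespace WrBAux

variable {F L : Type*} [Field F] [Field L] [Algebra F L]

theorem v_iter (v : Valuation L ℤᵐ⁰) (θ : Derivation F L L)
    (hv : ∀ x, v (θ x) ≤ exp (1 : ℤ) * v x) (i : ℕ) (x : L) :
    v ((fun x => θ x)^[i] x) ≤ exp (i : ℤ) * v x := by
  induction i with
  | zero => simp
  | succ i ih =>
    rw [Function.iterate_succ_apply']
    refine (hv _).trans ?_
    have h1 : exp (((i + 1 : ℕ) : ℤ)) = exp (1 : ℤ) * exp (i : ℤ) := by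
      rw [← exp_add]
      congr 1
      push_cast
      ring
    rw [h1, mul_assoc]
    exact mul_le_mul_right ih _

theorem v_iter_int (v : Valuation L ℤᵐ⁰) (θ : Derivation F L L)
    (hint : ∀ x, v x ≤ 1 → v (θ x) ≤ 1) (i : ℕ) {x : L} (hx : v x ≤ 1) :
    v ((fun x => θ x)^[i] x) ≤ 1 := by
  induction i with
  | zero => simpa using hx
  | succ i ih =>
    rw [Function.iterate_succ_apply']
    exact hint _ ih

theorem v_sign (v : Valuation L ℤᵐ⁰) (e : ℤˣ) (x : L) : v (e • x) = v x := by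
  rcases Int.units_eq_one_or e with h | h
  · rw [h, one_smul]
  · rw [h, Units.neg_smul, one_smul, Valuation.map_neg]

theorem v_det_le (v : Valuation L ℤᵐ⁰) {n : ℕ} (M : Matrix (Fin n) (Fin n) L) (c : ℤᵐ⁰)
    (h : ∀ σ : Equiv.Perm (Fin n), ∏ j, v (M (σ j) j) ≤ c) : v M.det ≤ c := by
  rw [Matrix.det_apply]
  refine Valuation.map_sum_le v fun σ _ => ?_
  rw [v_sign, map_prod]
  exact h σ

theorem prod_exp {ι : Type*} (s : Finset ι) (g : ι → ℤ) :
    ∏ i ∈ s, (exp (g i) : ℤᵐ⁰) = exp (∑ i ∈ s, g i) := by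
  classical
  induction s using Finset.induction_on with
  | empty => simp
  | insert a s ha ih => rw [Finset.prod_insert ha, Finset.sum_insert ha, ih, exp_add]

theorem sum_fin (n : ℕ) : ∑ j : Fin n, (j : ℕ) = n * (n - 1) / 2 := by
  rw [Fin.sum_univ_eq_sum_range (fun i => i) n, Finset.sum_range_id]

theorem inf_iter (G : Geo F L) {x : L} (hx : x ∈ G.Inf) (i : ℕ) :
    ∃ b ∈ G.Inf, (fun x => G.θ x)^[i] x = G.U ^ i * b := by
  induction i with
  | zero => exact ⟨x, hx, by simp⟩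
  | succ i ih =>
    obtain ⟨b, hb, h1⟩ := ih
    obtain ⟨b', hb', h2⟩ := G.Inf_θ b hb
    obtain ⟨y, hy, h3⟩ := G.Inf_U
    refine ⟨(i : L) * (y * b) + b', G.Inf.add_mem (G.Inf.mul_mem (natCast_mem G.Inf i)
      (G.Inf.mul_mem hy hb)) hb', ?_⟩
    rw [Function.iterate_succ_apply', h1, Derivation.leibniz, Derivation.leibniz_pow, h2, h3]
    simp only [smul_eq_mul, nsmul_eq_mul]
    rcases i with _ | i
    · simp
    · rw [Nat.add_sub_cancel]
      ring

theorem det_mem (S : Subring L) {n : ℕ} (M : Matrix (Fin n) (Fin n) L)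
    (h : ∀ i j, M i j ∈ S) : M.det ∈ S := by
  rw [Matrix.det_apply]
  refine sum_mem fun σ _ => ?_
  rw [Units.smul_def]
  exact zsmul_mem (prod_mem fun j _ => h _ _) _

end WrBAux

open WrBAux

theorem v_wr_le {F L : Type*} [Field F] [Field L] [Algebra F L] (v : Valuation L ℤᵐ⁰)
    (θ : Derivation F L L) (hv : ∀ x, v (θ x) ≤ exp (1 : ℤ) * v x) {n : ℕ} (f : Fin n → L) :
    v (wr θ f) ≤ exp ((n * (n - 1) / 2 : ℕ) : ℤ) * ∏ j, v (f j) := by
  refine v_det_le v _ _ fun σ => ?_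
  calc ∏ j, v (wm θ f (σ j) j) ≤ ∏ j, (exp (((σ j : Fin n) : ℕ) : ℤ) * v (f j)) :=
        Finset.prod_le_prod' fun j _ => v_iter v θ hv _ _
    _ = (∏ j, exp (((σ j : Fin n) : ℕ) : ℤ)) * ∏ j, v (f j) := Finset.prod_mul_distrib
    _ = exp ((n * (n - 1) / 2 : ℕ) : ℤ) * ∏ j, v (f j) := by
        rw [Equiv.prod_comp σ (fun j : Fin n => (exp ((j : ℕ) : ℤ) : ℤᵐ⁰)), prod_exp,
          ← Nat.cast_sum, sum_fin]

theorem v_wr_int {F L : Type*} [Field F] [Field L] [Algebra F L] (v : Valuation L ℤᵐ⁰)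
    (θ : Derivation F L L) (hint : ∀ x, v x ≤ 1 → v (θ x) ≤ 1) {n : ℕ} (f : Fin n → L)
    (hf : ∀ j, v (f j) ≤ 1) : v (wr θ f) ≤ 1 := by
  refine v_det_le v _ _ fun σ => ?_
  exact Finset.prod_le_one' fun j _ => v_iter_int v θ hint _ (hf j)

theorem wr_inf {F L : Type*} [Field F] [Field L] [Algebra F L] (G : Geo F L) {n : ℕ}
    (f : Fin n → L) (hf : ∀ j, f j ∈ G.Inf) :
    ∃ b ∈ G.Inf, wr G.θ f = G.U ^ (n * (n - 1) / 2) * b := by
  choose b hb h1 using fun (i j : Fin n) => inf_iter G (hf j) (i : ℕ)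
  refine ⟨(Matrix.of b).det, det_mem _ _ fun i j => hb i j, ?_⟩
  have h2 : wm G.θ f = Matrix.of fun i j => G.U ^ ((i : Fin n) : ℕ) * (Matrix.of b) i j := by
    ext i j
    exact h1 i j
  unfold wr
  rw [h2, Matrix.det_mul_column, Finset.prod_pow_eq_pow_sum, sum_fin]

end Pool.Agent.Lib.P62h
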